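import Mathlib

set_option autoImplicit false

namespace Pool.Agent.Helper602.Growth

open Filter Topology

section Growth

variable {G : Type*} [Group G]

/-- The closed ball of radius `k` about the identity in the word metric: all products of at most
`k` elements of `S ∪ S⁻¹`. -/
def ball (S : Finset G) (k : ℕ) : Set G :=
  {g | ∃ l : List G, l.length ≤ k ∧ (∀ s ∈ l, s ∈ S ∨ s⁻¹ ∈ S) ∧ l.prod = g}

/-- The growth function `β(Γ,S;k)`. -/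
noncomputable def beta (S : Finset G) (k : ℕ) : ℕ := (ball S k).ncard

/-- The degree of polynomial growth `limsup log β(k) / log k` (an extended real) equals `d`. -/
def HasDegree (S : Finset G) (d : ℕ) : Prop :=
  limsup (fun k : ℕ => ((Real.log (beta S k) / Real.log k : ℝ) : EReal)) atTop = (d : EReal)

/-- `β(k)/k^d → c` and `Δ(k) = (β(k) - c k^d)/k^(d-1) → L`. -/
def SecondTerm (S : Finset G) (d : ℕ) (c L : ℝ) : Prop :=
  Tendsto (fun k : ℕ => (beta S k : ℝ) / (k : ℝ) ^ d) atTop (𝓝 c) ∧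
    Tendsto (fun k : ℕ => ((beta S k : ℝ) - c * (k : ℝ) ^ d) / (k : ℝ) ^ ((d : ℤ) - 1)) atTop (𝓝 L)

end Growth

/-- The plane group `p3 = ℤ[ω] ⋊ ⟨ω⟩`: the element `(a, b, r)` is the map
`z ↦ ω^r z + (a + b ω)`, `ω` a primitive cube root of unity. -/
@[ext] structure P3 where
  a : ℤ
  b : ℤ
  r : ZMod 3
deriving DecidableEq

namespace P3

/-- first coordinate of `ω^r (a + b ω)` -/
def ra (r : ZMod 3) (a b : ℤ) : ℤ := if r = 0 then a else if r = 1 then -b else b - a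

/-- second coordinate of `ω^r (a + b ω)` -/
def rb (r : ZMod 3) (a b : ℤ) : ℤ := if r = 0 then b else if r = 1 then a - b else -a

instance : Mul P3 := ⟨fun g h => ⟨g.a + ra g.r h.a h.b, g.b + rb g.r h.a h.b, g.r + h.r⟩⟩
instance : One P3 := ⟨⟨0, 0, 0⟩⟩
instance : Inv P3 := ⟨fun g => ⟨-ra (-g.r) g.a g.b, -rb (-g.r) g.a g.b, -g.r⟩⟩

theorem mul_def (g h : P3) :
    g * h = ⟨g.a + ra g.r h.a h.b, g.b + rb g.r h.a h.b, g.r + h.r⟩ := rfl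
theorem one_def : (1 : P3) = ⟨0, 0, 0⟩ := rfl
theorem inv_def (g : P3) : g⁻¹ = ⟨-ra (-g.r) g.a g.b, -rb (-g.r) g.a g.b, -g.r⟩ := rfl

theorem ra_add (r s : ZMod 3) (a b : ℤ) : ra (r + s) a b = ra r (ra s a b) (rb s a b) := by
  have h01 : ¬ (1 : ZMod 3) = 0 := by decide
  have h20 : ¬ (2 : ZMod 3) = 0 := by decide
  have h21 : ¬ (2 : ZMod 3) = 1 := by decide
  have e12 : (1 : ZMod 3) + 2 = 0 := by decide
  have e21 : (2 : ZMod 3) + 1 = 0 := by decide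
  have e22 : (2 : ZMod 3) + 2 = 1 := by decide
  have e11 : (1 : ZMod 3) + 1 = 2 := by decide
  have hr : r = 0 ∨ r = 1 ∨ r = 2 := by revert r; decide
  have hs : s = 0 ∨ s = 1 ∨ s = 2 := by revert s; decide
  rcases hr with rfl | rfl | rfl <;> rcases hs with rfl | rfl | rfl <;>
    simp [ra, rb, h01, h20, h21, e12, e21, e22, e11] <;> try ring

theorem rb_add (r s : ZMod 3) (a b : ℤ) : rb (r + s) a b = rb r (ra s a b) (rb s a b) := by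
  have h01 : ¬ (1 : ZMod 3) = 0 := by decide
  have h20 : ¬ (2 : ZMod 3) = 0 := by decide
  have h21 : ¬ (2 : ZMod 3) = 1 := by decide
  have e12 : (1 : ZMod 3) + 2 = 0 := by decide
  have e21 : (2 : ZMod 3) + 1 = 0 := by decide
  have e22 : (2 : ZMod 3) + 2 = 1 := by decide
  have e11 : (1 : ZMod 3) + 1 = 2 := by decide
  have hr : r = 0 ∨ r = 1 ∨ r = 2 := by revert r; decide
  have hs : s = 0 ∨ s = 1 ∨ s = 2 := by revert s; decide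
  rcases hr with rfl | rfl | rfl <;> rcases hs with rfl | rfl | rfl <;>
    simp [ra, rb, h01, h20, h21, e12, e21, e22, e11] <;> try ring

theorem ra_lin (r : ZMod 3) (a b c d : ℤ) : ra r (a + c) (b + d) = ra r a b + ra r c d := by
  unfold ra; split_ifs <;> ring

theorem rb_lin (r : ZMod 3) (a b c d : ℤ) : rb r (a + c) (b + d) = rb r a b + rb r c d := by
  unfold rb; split_ifs <;> ring

theorem ra_zero (a b : ℤ) : ra 0 a b = a := by simp [ra]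
theorem rb_zero (a b : ℤ) : rb 0 a b = b := by simp [rb]

theorem ra_zz (r : ZMod 3) : ra r 0 0 = 0 := by unfold ra; split_ifs <;> simp
theorem rb_zz (r : ZMod 3) : rb r 0 0 = 0 := by unfold rb; split_ifs <;> simp

instance : Group P3 where
  mul_assoc g h k := by
    simp only [mul_def, mk.injEq]
    refine ⟨?_, ?_, add_assoc _ _ _⟩
    · rw [ra_lin, ra_add]; ring
    · rw [rb_lin, rb_add]; ring
  one_mul g := by
    rw [one_def, mul_def]; simp [ra_zero, rb_zero]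
  mul_one g := by
    rw [one_def, mul_def]; simp [ra_zz, rb_zz]
  inv_mul_cancel g := by
    rw [inv_def, mul_def, one_def]; simp

/-- rotation by `ω` about `0` -/
def x : P3 := ⟨0, 0, 1⟩
/-- the rotation `z ↦ ω z + 1` -/
def y : P3 := ⟨1, 0, 1⟩

/-- the generating set `{x, y}` of `⟨x, y | x³, y³, (xy)³⟩` -/
def S₁ : Finset P3 := {x, y}
/-- the generating set consisting of the rotation `x` and the translations by `1`, `ω`, `1 + ω` -/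
def S₂ : Finset P3 := {x, ⟨1, 0, 0⟩, ⟨0, 1, 0⟩, ⟨1, 1, 0⟩}

end P3

namespace P3

/-- description of the balls of odd radius `2n+1` for `S₁` -/
def DOdd (n : ℤ) (g : P3) : Prop :=
  (g.r = 0 ∧ -n ≤ g.a ∧ g.a ≤ n ∧ -n ≤ g.b ∧ g.b ≤ n ∧ -n ≤ g.a - g.b ∧ g.a - g.b ≤ n) ∨
  (g.r = 1 ∧ -n ≤ g.a ∧ g.a ≤ n + 1 ∧ -n ≤ g.b ∧ g.b ≤ n ∧ -n ≤ g.a - g.b ∧ g.a - g.b ≤ n + 1) ∨
  (g.r = 2 ∧ -n ≤ g.a ∧ g.a ≤ n + 1 ∧ -n ≤ g.b ∧ g.b ≤ n + 1 ∧ -n ≤ g.a - g.b ∧ g.a - g.b ≤ n)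

/-- description of the balls of even radius `2n`, `n ≥ 1`, for `S₁` -/
def DEven (n : ℤ) (g : P3) : Prop :=
  (g.r = 0 ∧ -n ≤ g.a ∧ g.a ≤ n ∧ -n ≤ g.b ∧ g.b ≤ n ∧ -n ≤ g.a - g.b ∧ g.a - g.b ≤ n ∧
    ¬ (g.a = 0 ∧ g.b = n) ∧ ¬ (g.a = 0 ∧ g.b = -n)) ∨
  (g.r = 1 ∧ -n + 1 ≤ g.a ∧ g.a ≤ n ∧ -n ≤ g.b ∧ g.b ≤ n ∧ -n + 1 ≤ g.a - g.b ∧ g.a - g.b ≤ n) ∨
  (g.r = 2 ∧ -n + 1 ≤ g.a ∧ g.a ≤ n ∧ -n + 1 ≤ g.b ∧ g.b ≤ n ∧ -n ≤ g.a - g.b ∧ g.a - g.b ≤ n)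

/-- description of the balls of radius `k ≥ 1` for `S₂` -/
def D2 (k : ℤ) (g : P3) : Prop :=
  (g.r = 0 ∧ -k ≤ g.a ∧ g.a ≤ k ∧ -k ≤ g.b ∧ g.b ≤ k ∧ -k ≤ g.a - g.b ∧ g.a - g.b ≤ k) ∨
  (g.r ≠ 0 ∧ -(k - 1) ≤ g.a ∧ g.a ≤ k - 1 ∧ -(k - 1) ≤ g.b ∧ g.b ≤ k - 1 ∧
    -(k - 1) ≤ g.a - g.b ∧ g.a - g.b ≤ k - 1)

end P3

end Pool.Agent.Helper602.Growth
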