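import Mathlib
import Pool.Agent.Helper602.Growth.Defs

set_option autoImplicit false

namespace Pool.Agent.Helper602.Growth

open Filter Topology

/-- `f k = P(k) + (-1)^k Q(k)` for all large `k`, with `deg P < a` and `deg Q < b` -/
def QP (a b : ℕ) (f : ℕ → ℝ) : Prop :=
  ∃ P Q : Polynomial ℝ, P.degree < (a : WithBot ℕ) ∧ Q.degree < (b : WithBot ℕ) ∧
    ∀ᶠ k : ℕ in atTop, f k = P.eval (k : ℝ) + (-1 : ℝ) ^ k * Q.eval (k : ℝ)

/-- summation operator -/
def cs (f : ℕ → ℝ) (k : ℕ) : ℝ := ∑ i ∈ Finset.range (k + 1), f i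

/-- the box with corner `v` and free directions `T` -/
def box {ι : Type} [DecidableEq ι] (v : ι → ℕ) (T : Finset ι) : Set (ι → ℕ) :=
  {n | (∀ i ∈ T, v i ≤ n i) ∧ ∀ i, i ∉ T → n i = v i}

/-- weighted number of pairs `p + m = s` with `p - m` equal to `e` or `e + 1` -/
def ww (i j : ℕ) (e : ℤ) (s : ℕ) : ℝ :=
  ∑ p ∈ (Finset.range (s + 1)).filter
    (fun p : ℕ => 2 * (p : ℤ) - s = e ∨ 2 * (p : ℤ) - s = e + 1),
    ((Nat.multichoose i p : ℝ) * (Nat.multichoose j (s - p) : ℝ))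

end Pool.Agent.Helper602.Growth
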