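import Mathlib
import Pool.Agent.Helper602.Growth.QDefs

set_option autoImplicit false

namespace Pool.Agent.Helper602.Growth

open Filter Topology

namespace F3


theorem QP_neg {a b : ℕ} {f : ℕ → ℝ} (hf : QP a b f) : QP a b (fun k => - f k) := by
  obtain ⟨P, Q, hP, hQ, h⟩ := hf
  refine ⟨-P, -Q, by simpa using hP, by simpa using hQ, ?_⟩
  filter_upwards [h] with k hk
  rw [hk]
  simp only [Polynomial.eval_neg]
  ring

theorem QP_poly {a : ℕ} {f : ℕ → ℝ} (hf : QP a 0 f) :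
    ∃ P : Polynomial ℝ, ∀ᶠ k : ℕ in atTop, f k = P.eval (k : ℝ) := by
  obtain ⟨P, Q, hP, hQ, h⟩ := hf
  have hQ0 : Q = 0 := by
    by_contra hne
    have h1 : (0 : WithBot ℕ) ≤ Q.degree := Polynomial.zero_le_degree_iff.2 hne
    exact absurd (lt_of_le_of_lt h1 hQ) (by simp)
  refine ⟨P, ?_⟩
  filter_upwards [h] with k hk
  rw [hk, hQ0]
  simp

end F3

end Pool.Agent.Helper602.Growth
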