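import Mathlib
import Pool.Agent.Helper602.Growth.QDefs

set_option autoImplicit false

namespace Pool.Agent.Helper602.Growth

open Filter Topology

namespace N1


theorem QP_mono {a b a' b' : ℕ} (ha : a ≤ a') (hb : b ≤ b') {f : ℕ → ℝ} (h : QP a b f) :
    QP a' b' f := by
  obtain ⟨P, Q, hP, hQ, hf⟩ := h
  exact ⟨P, Q, lt_of_lt_of_le hP (by exact_mod_cast ha), lt_of_lt_of_le hQ (by exact_mod_cast hb), hf⟩

theorem QP_congr {a b : ℕ} {f g : ℕ → ℝ} (h : QP a b f) (hfg : ∀ᶠ k : ℕ in atTop, g k = f k) :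
    QP a b g := by
  obtain ⟨P, Q, hP, hQ, hf⟩ := h
  refine ⟨P, Q, hP, hQ, ?_⟩
  filter_upwards [hf, hfg] with k h1 h2
  rw [h2, h1]

theorem QP_zero (a b : ℕ) : QP a b (fun _ => 0) := by
  refine ⟨0, 0, ?_, ?_, ?_⟩
  · rw [Polynomial.degree_zero]
    exact WithBot.bot_lt_coe a
  · rw [Polynomial.degree_zero]
    exact WithBot.bot_lt_coe b
  · exact Filter.Eventually.of_forall fun k => by simp

theorem QP_add {a b : ℕ} {f g : ℕ → ℝ} (hf : QP a b f) (hg : QP a b g) :
    QP a b (fun k => f k + g k) := by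
  obtain ⟨P, Q, hP, hQ, h1⟩ := hf
  obtain ⟨P', Q', hP', hQ', h2⟩ := hg
  refine ⟨P + P', Q + Q', lt_of_le_of_lt (Polynomial.degree_add_le _ _) (max_lt hP hP'),
    lt_of_le_of_lt (Polynomial.degree_add_le _ _) (max_lt hQ hQ'), ?_⟩
  filter_upwards [h1, h2] with k h3 h4
  rw [h3, h4, Polynomial.eval_add, Polynomial.eval_add]
  ring

theorem QP_sum {a b : ℕ} {κ : Type*} (s : Finset κ) (f : κ → ℕ → ℝ) (hf : ∀ i ∈ s, QP a b (f i)) :
    QP a b (fun k => ∑ i ∈ s, f i k) := by
  classical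
  induction s using Finset.induction_on with
  | empty => simpa using QP_zero a b
  | insert x s hx ih =>
    have h1 := QP_add (hf x (Finset.mem_insert_self x s))
      (ih fun i hi => hf i (Finset.mem_insert_of_mem hi))
    refine QP_congr h1 (Filter.Eventually.of_forall fun k => ?_)
    exact Finset.sum_insert hx

theorem QP_shift {a b : ℕ} (c : ℕ) {f : ℕ → ℝ} (hf : QP a b f) : QP a b (fun k => f (k - c)) := by
  obtain ⟨P, Q, hP, hQ, h1⟩ := hf
  refine ⟨Polynomial.taylor (-(c : ℝ)) P, Polynomial.C ((-1 : ℝ) ^ c) * Polynomial.taylor (-(c : ℝ)) Q,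
    ?_, ?_, ?_⟩
  · rw [Polynomial.degree_taylor]
    exact hP
  · rw [Polynomial.degree_C_mul (pow_ne_zero _ (by norm_num)), Polynomial.degree_taylor]
    exact hQ
  · have h2 := (tendsto_sub_atTop_nat c).eventually h1
    filter_upwards [h2, eventually_ge_atTop c] with k h3 h4
    rw [h3, Polynomial.taylor_eval, Polynomial.eval_mul, Polynomial.eval_C, Polynomial.taylor_eval,
      Nat.cast_sub h4, ← sub_eq_add_neg]
    have h5 : (-1 : ℝ) ^ (k - c) = (-1) ^ c * (-1) ^ k := by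
      obtain ⟨m, rfl⟩ := Nat.exists_eq_add_of_le h4
      rw [Nat.add_sub_cancel_left, pow_add, ← mul_assoc, ← mul_pow]
      simp
    rw [h5]
    ring

theorem QP_unshift {a b : ℕ} {f : ℕ → ℝ} (hf : QP a b (fun k => f (k + 1))) : QP a b f := by
  refine QP_congr (QP_shift 1 hf) ?_
  filter_upwards [eventually_ge_atTop 1] with k hk
  rw [Nat.sub_add_cancel hk]

end N1

end Pool.Agent.Helper602.Growth
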