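import Mathlib
import Pool.Agent.Helper602.Growth.QDefs

set_option autoImplicit false

namespace Pool.Agent.Helper602.Growth

open Filter Topology

namespace N2


theorem aux_anti (a : ℕ) : ∀ P : Polynomial ℝ, P.degree < (a : WithBot ℕ) →
    ∃ P1 : Polynomial ℝ, P1.degree < ((a + 1 : ℕ) : WithBot ℕ) ∧
      ∀ x : ℝ, P1.eval x - P1.eval (x - 1) = P.eval x := by
  induction a with
  | zero =>
    intro P hP
    have hP0 : P = 0 := by
      rw [Polynomial.degree_lt_iff_coeff_zero] at hP
      ext m
      simpa using hP m (Nat.zero_le m)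
    refine ⟨0, ?_, fun x => by simp [hP0]⟩
    rw [Polynomial.degree_zero]
    exact WithBot.bot_lt_coe _
  | succ a ih =>
    intro P hP
    rw [Polynomial.degree_lt_iff_coeff_zero] at hP
    set c : ℝ := P.coeff a / (a + 1) with hc
    have ha : ((a : ℝ) + 1) ≠ 0 := by positivity
    set D : Polynomial ℝ := Polynomial.X ^ (a + 1) - (Polynomial.X + Polynomial.C (-1)) ^ (a + 1) with hD
    have hR : (P - Polynomial.C c * D).degree < (a : WithBot ℕ) := by
      rw [Polynomial.degree_lt_iff_coeff_zero]
      intro m hm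
      rw [Polynomial.coeff_sub, Polynomial.coeff_C_mul, hD, Polynomial.coeff_sub,
        Polynomial.coeff_X_pow, Polynomial.coeff_X_add_C_pow]
      rcases Nat.lt_or_ge m (a + 1) with h | h
      · have hma : m = a := by omega
        subst hma
        rw [if_neg (by omega)]
        have : m + 1 - m = 1 := by omega
        rw [this, Nat.choose_succ_self_right, hc]
        push_cast
        field_simp
        ring
      · rcases Nat.lt_or_ge m (a + 2) with h2 | h2
        · have hma : m = a + 1 := by omega
          subst hma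
          rw [if_pos rfl, hP (a + 1) (le_refl _)]
          simp
        · rw [if_neg (by omega), hP m h, Nat.choose_eq_zero_of_lt (by omega)]
          simp
    obtain ⟨P2, hP2, hP2e⟩ := ih _ hR
    refine ⟨Polynomial.C c * Polynomial.X ^ (a + 1) + P2, ?_, ?_⟩
    · rw [Polynomial.degree_lt_iff_coeff_zero] at hP2 ⊢
      intro m hm
      rw [Polynomial.coeff_add, Polynomial.coeff_C_mul, Polynomial.coeff_X_pow, if_neg (by omega),
        hP2 m (by omega)]
      simp
    · intro x
      have h1 := hP2e x
      simp only [hD, Polynomial.eval_sub, Polynomial.eval_add, Polynomial.eval_mul, Polynomial.eval_C,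
        Polynomial.eval_pow, Polynomial.eval_X] at h1 ⊢
      have h3 : x - 1 = x + -1 := by ring
      rw [h3] at h1 ⊢
      linear_combination h1

theorem aux_anti2 (b : ℕ) : ∀ Q : Polynomial ℝ, Q.degree < (b : WithBot ℕ) →
    ∃ Q1 : Polynomial ℝ, Q1.degree < (b : WithBot ℕ) ∧
      ∀ x : ℝ, Q1.eval x + Q1.eval (x - 1) = Q.eval x := by
  induction b with
  | zero =>
    intro P hP
    have hP0 : P = 0 := by
      rw [Polynomial.degree_lt_iff_coeff_zero] at hP
      ext m
      simpa using hP m (Nat.zero_le m)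
    refine ⟨0, ?_, fun x => by simp [hP0]⟩
    rw [Polynomial.degree_zero]
    exact WithBot.bot_lt_coe _
  | succ a ih =>
    intro P hP
    rw [Polynomial.degree_lt_iff_coeff_zero] at hP
    set c : ℝ := P.coeff a / 2 with hc
    set D : Polynomial ℝ := Polynomial.X ^ a + (Polynomial.X + Polynomial.C (-1)) ^ a with hD
    have hR : (P - Polynomial.C c * D).degree < (a : WithBot ℕ) := by
      rw [Polynomial.degree_lt_iff_coeff_zero]
      intro m hm
      rw [Polynomial.coeff_sub, Polynomial.coeff_C_mul, hD, Polynomial.coeff_add,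
        Polynomial.coeff_X_pow, Polynomial.coeff_X_add_C_pow]
      rcases Nat.lt_or_ge m (a + 1) with h | h
      · have hma : m = a := by omega
        subst hma
        rw [if_pos rfl, hc]
        simp
        ring
      · rw [if_neg (by omega), hP m h, Nat.choose_eq_zero_of_lt (by omega)]
        simp
    obtain ⟨P2, hP2, hP2e⟩ := ih _ hR
    refine ⟨Polynomial.C c * Polynomial.X ^ a + P2, ?_, ?_⟩
    · rw [Polynomial.degree_lt_iff_coeff_zero] at hP2 ⊢
      intro m hm
      rw [Polynomial.coeff_add, Polynomial.coeff_C_mul, Polynomial.coeff_X_pow, if_neg (by omega),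
        hP2 m (by omega)]
      simp
    · intro x
      have h1 := hP2e x
      simp only [hD, Polynomial.eval_sub, Polynomial.eval_add, Polynomial.eval_mul, Polynomial.eval_C,
        Polynomial.eval_pow, Polynomial.eval_X] at h1 ⊢
      have h3 : x - 1 = x + -1 := by ring
      rw [h3] at h1 ⊢
      linear_combination h1

theorem QP_cs {a b : ℕ} {f : ℕ → ℝ} (hf : QP a b f) : QP (a + 1) b (cs f) := by
  obtain ⟨P, Q, hP, hQ, hf⟩ := hf
  obtain ⟨P1, hP1, hP1e⟩ := aux_anti a P hP
  obtain ⟨Q1, hQ1, hQ1e⟩ := aux_anti2 b Q hQ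
  rw [eventually_atTop] at hf
  obtain ⟨K0, hK0⟩ := hf
  set G : ℕ → ℝ := fun K => cs f K - (P1.eval (K : ℝ) + (-1 : ℝ) ^ K * Q1.eval (K : ℝ)) with hG
  have hstep : ∀ K, K0 ≤ K → G (K + 1) = G K := by
    intro K hK
    have h1 : cs f (K + 1) = cs f K + f (K + 1) := by
      unfold cs
      rw [Finset.sum_range_succ]
    have h2 := hK0 (K + 1) (by omega)
    have h3 := hP1e ((K + 1 : ℕ) : ℝ)
    have h4 := hQ1e ((K + 1 : ℕ) : ℝ)
    have h5 : (((K + 1 : ℕ) : ℝ) - 1) = (K : ℝ) := by push_cast; ring
    rw [h5] at h3 h4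
    simp only [hG]
    rw [h1, h2, ← h3, ← h4, pow_succ]
    ring
  have hconst : ∀ j, G (K0 + j) = G K0 := by
    intro j
    induction j with
    | zero => rfl
    | succ j ih => rw [← add_assoc, hstep _ (by omega), ih]
  refine ⟨P1 + Polynomial.C (G K0), Q1, ?_, hQ1, ?_⟩
  · refine lt_of_le_of_lt (Polynomial.degree_add_le _ _) (max_lt ?_ ?_)
    · exact hP1
    · refine lt_of_le_of_lt Polynomial.degree_C_le ?_
      exact_mod_cast Nat.succ_pos a
  · rw [eventually_atTop]
    refine ⟨K0, fun k hk => ?_⟩
    have h := hconst (k - K0)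
    have hk' : K0 + (k - K0) = k := by omega
    rw [hk'] at h
    simp only [Polynomial.eval_add, Polynomial.eval_C]
    rw [← h]
    simp only [hG]
    ring

end N2

end Pool.Agent.Helper602.Growth
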