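import Mathlib
import Pool.Agent.Helper602.Growth.QDefs

set_option autoImplicit false

namespace Pool.Agent.Helper602.Growth

open Filter Topology

namespace N3a


open Polynomial in
/-- binomial polynomial with half argument -/
noncomputable def QP_ww_R (k : ℕ) (c : ℝ) : Polynomial ℝ :=
  C ((k.factorial : ℝ)⁻¹) * (ascPochhammer ℝ k).comp (C (1 / 2) * X + C c)

open Polynomial in
theorem QP_ww_R_lin (c : ℝ) : (C (1 / 2 : ℝ) * X + C c).natDegree = 1 := by
  exact natDegree_linear (by norm_num)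

open Polynomial in
theorem QP_ww_R_comp_lc (k : ℕ) (c : ℝ) :
    ((ascPochhammer ℝ k).comp (C (1 / 2) * X + C c)).leadingCoeff = (1 / 2) ^ k := by
  rw [leadingCoeff_comp (by rw [QP_ww_R_lin]; exact one_ne_zero), leadingCoeff_linear (by norm_num),
    (monic_ascPochhammer ℝ k).leadingCoeff, ascPochhammer_natDegree, one_mul]

open Polynomial in
theorem QP_ww_R_comp_deg (k : ℕ) (c : ℝ) :
    ((ascPochhammer ℝ k).comp (C (1 / 2) * X + C c)).degree = (k : WithBot ℕ) := by
  have h0 : (ascPochhammer ℝ k).comp (C (1 / 2) * X + C c) ≠ 0 := by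
    intro h
    have := QP_ww_R_comp_lc k c
    rw [h, leadingCoeff_zero] at this
    have h2 : (0 : ℝ) < (1 / 2) ^ k := by positivity
    linarith
  rw [degree_eq_natDegree h0, natDegree_comp, QP_ww_R_lin, ascPochhammer_natDegree, mul_one]

open Polynomial in
theorem QP_ww_R_deg (k : ℕ) (c : ℝ) : (QP_ww_R k c).degree = (k : WithBot ℕ) := by
  unfold QP_ww_R
  rw [degree_C_mul (by positivity), QP_ww_R_comp_deg]

open Polynomial in
theorem QP_ww_R_lc (k : ℕ) (c : ℝ) :
    (QP_ww_R k c).leadingCoeff = (k.factorial : ℝ)⁻¹ * (1 / 2) ^ k := by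
  unfold QP_ww_R
  rw [leadingCoeff_mul, leadingCoeff_C, QP_ww_R_comp_lc]

open Polynomial in
theorem QP_ww_R_eval (k : ℕ) (c x : ℝ) (p : ℕ) (h : 1 / 2 * x + c = (p : ℝ) + 1) :
    (QP_ww_R k c).eval x = (Nat.multichoose (k + 1) p : ℝ) := by
  unfold QP_ww_R
  rw [eval_mul, eval_C, eval_comp, eval_add, eval_mul, eval_C, eval_X, eval_C, h]
  have h1 : ((p : ℝ) + 1) = ((p + 1 : ℕ) : ℝ) := by push_cast; ring
  rw [h1, ← ascPochhammer_eval_cast, ascPochhammer_nat_eq_ascFactorial,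
    Nat.ascFactorial_eq_factorial_mul_choose]
  have h2 : Nat.multichoose (k + 1) p = (p + k).choose k := by
    rw [Nat.multichoose_eq]
    have : k + 1 + p - 1 = p + k := by omega
    rw [this, Nat.choose_symm_add]
  rw [h2]
  push_cast
  field_simp

theorem QP_ww_filter (e e1 : ℤ) (s : ℕ) (h1 : e1 = e ∨ e1 = e + 1) (hpar : (s + e1) % 2 = 0)
    (hle : e1 ≤ s) (hge : -(s : ℤ) ≤ e1) :
    (Finset.range (s + 1)).filter (fun p : ℕ => 2 * (p : ℤ) - s = e ∨ 2 * (p : ℤ) - s = e + 1) =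
      {((s + e1) / 2).toNat} := by
  ext q
  simp only [Finset.mem_filter, Finset.mem_range, Finset.mem_singleton]
  omega

theorem QP_ww_val (i j : ℕ) (e e1 : ℤ) (s : ℕ) (h1 : e1 = e ∨ e1 = e + 1)
    (hpar : (s + e1) % 2 = 0) (hle : e1 ≤ s) (hge : -(s : ℤ) ≤ e1) :
    ww (i + 1) (j + 1) e s = (QP_ww_R i ((e1 : ℝ) / 2 + 1) * QP_ww_R j (-(e1 : ℝ) / 2 + 1)).eval (s : ℝ) := by
  unfold ww
  rw [QP_ww_filter e e1 s h1 hpar hle hge, Finset.sum_singleton, Polynomial.eval_mul]
  set p := ((s + e1) / 2).toNat with hp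
  have hp2 : 2 * (p : ℤ) = s + e1 := by omega
  have hps : p ≤ s := by omega
  have hp2' : 2 * (p : ℝ) = s + e1 := by exact_mod_cast hp2
  rw [QP_ww_R_eval i _ _ p (by linarith), QP_ww_R_eval j _ _ (s - p) (by
    rw [Nat.cast_sub hps]; linarith)]

theorem QP_ww (i j : ℕ) (hi : 1 ≤ i) (hj : 1 ≤ j) (e : ℤ) : QP (i + j - 1) (i + j - 2) (ww i j e) := by
  obtain ⟨i, rfl⟩ : ∃ i', i = i' + 1 := ⟨i - 1, by omega⟩
  obtain ⟨j, rfl⟩ : ∃ j', j = j' + 1 := ⟨j - 1, by omega⟩
  let er : ℤ → ℤ := fun r => if (e + r) % 2 = 0 then e else e + 1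
  have her : ∀ r, er r = e ∨ er r = e + 1 := by
    intro r
    simp only [er]
    split_ifs <;> simp
  have herp : ∀ r, (r + er r) % 2 = 0 := by
    intro r
    simp only [er]
    split_ifs <;> omega
  let A : ℤ → Polynomial ℝ := fun r =>
    QP_ww_R i ((er r : ℝ) / 2 + 1) * QP_ww_R j (-(er r : ℝ) / 2 + 1)
  have hAdeg : ∀ r, (A r).degree = ((i + j : ℕ) : WithBot ℕ) := by
    intro r
    simp only [A]
    rw [Polynomial.degree_mul, QP_ww_R_deg, QP_ww_R_deg]
    push_cast; rfl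
  have hAlc : ∀ r, (A r).leadingCoeff =
      ((i.factorial : ℝ)⁻¹ * (1 / 2) ^ i) * ((j.factorial : ℝ)⁻¹ * (1 / 2) ^ j) := by
    intro r
    simp only [A]
    rw [Polynomial.leadingCoeff_mul, QP_ww_R_lc, QP_ww_R_lc]
  have hval : ∀ (r : ℤ) (s : ℕ), (s : ℤ) % 2 = r % 2 → |e| + 1 ≤ (s : ℤ) →
      ww (i + 1) (j + 1) e s = (A r).eval (s : ℝ) := by
    intro r s hsr hs
    have h1 := her r
    have h2 := herp r
    have h3 := abs_le.mp (le_refl |e|)
    apply QP_ww_val i j e (er r) s h1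
    · omega
    · omega
    · omega
  have hsub : (A 0 - A 1).degree < ((i + j : ℕ) : WithBot ℕ) := by
    have h1 : (A 0 - A 1).degree < (A 0).degree := by
      apply Polynomial.degree_sub_lt
      · rw [hAdeg, hAdeg]
      · intro h0
        have := hAdeg 0
        rw [h0, Polynomial.degree_zero] at this
        exact WithBot.bot_ne_coe this
      · rw [hAlc, hAlc]
    rwa [hAdeg] at h1
  have e1 : i + 1 + (j + 1) - 1 = i + j + 1 := by omega
  have e2 : i + 1 + (j + 1) - 2 = i + j := by omega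
  rw [e1, e2]
  refine ⟨Polynomial.C (1 / 2) * (A 0 + A 1), Polynomial.C (1 / 2) * (A 0 - A 1), ?_, ?_, ?_⟩
  · rw [Polynomial.degree_C_mul (by norm_num)]
    refine lt_of_le_of_lt (Polynomial.degree_add_le _ _) ?_
    rw [hAdeg, hAdeg, max_self]
    exact_mod_cast Nat.lt_succ_self _
  · rw [Polynomial.degree_C_mul (by norm_num)]
    exact hsub
  · filter_upwards [eventually_ge_atTop (|e| + 1).toNat] with s hs
    have hs' : |e| + 1 ≤ (s : ℤ) := by omega
    rcases Nat.even_or_odd s with hev | hodd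
    · rw [hval 0 s (by have := Nat.even_iff.mp hev; omega) hs', hev.neg_one_pow]
      simp only [Polynomial.eval_mul, Polynomial.eval_C, Polynomial.eval_add, Polynomial.eval_sub]
      ring
    · rw [hval 1 s (by have := Nat.odd_iff.mp hodd; omega) hs', hodd.neg_one_pow]
      simp only [Polynomial.eval_mul, Polynomial.eval_C, Polynomial.eval_add, Polynomial.eval_sub]
      ring

end N3a

end Pool.Agent.Helper602.Growth
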