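import Mathlib
import Pool.Agent.Helper602.Growth.QDefs

set_option autoImplicit false

namespace Pool.Agent.Helper602.Growth

open Filter Topology

namespace N3b


theorem mc_sum (z : ℕ) : ∀ s : ℕ,
    ∑ t ∈ Finset.range (s + 1), Nat.multichoose z t = Nat.multichoose (z + 1) s := by
  intro s
  induction s with
  | zero => simp
  | succ s ih => rw [Finset.sum_range_succ, ih, Nat.multichoose_succ_succ, add_comm]

theorem card_pa {ι : Type} [DecidableEq ι] (A : Finset ι) :
    ∀ n : ℕ, (Finset.piAntidiag A n).card = Nat.multichoose A.card n := by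
  induction A using Finset.cons_induction with
  | empty =>
    intro n
    rcases n with _ | n
    · simp
    · simp
  | cons i A hi ih =>
    intro n
    rw [Finset.piAntidiag_cons, Finset.card_disjiUnion, Finset.card_cons]
    simp only [Finset.card_map, ih]
    rw [← mc_sum, ← Finset.sum_range_reflect, 
      Finset.Nat.sum_antidiagonal_eq_sum_range_succ (fun _ b => Nat.multichoose A.card b) n]
    refine Finset.sum_congr rfl fun j _ => ?_
    rfl

theorem cs_iter (w : ℕ → ℝ) : ∀ (z : ℕ) (s : ℕ), (cs^[z] w) s =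
    ∑ r ∈ Finset.range (s + 1), (Nat.multichoose z (s - r) : ℝ) * w r := by
  intro z
  induction z with
  | zero =>
    intro s
    rw [Function.iterate_zero, id, Finset.sum_range_succ, Nat.sub_self, Nat.multichoose_zero_right,
      Finset.sum_eq_zero]
    · simp
    · intro r hr
      rw [Finset.mem_range] at hr
      obtain ⟨t, ht⟩ : ∃ t, s - r = t + 1 := ⟨s - r - 1, by omega⟩
      rw [ht, Nat.multichoose_zero_succ]
      simp
  | succ z ih =>
    have h1 : ∀ s, (cs^[z + 1] w) s = ∑ i ∈ Finset.range (s + 1), (cs^[z] w) i := by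
      intro s
      rw [Function.iterate_succ_apply']
      rfl
    intro s
    induction s with
    | zero =>
      rw [h1]
      simp [ih]
    | succ s ihs =>
      rw [h1, Finset.sum_range_succ, ← h1, ihs, ih, Finset.sum_range_succ _ (s + 1),
        Finset.sum_range_succ _ (s + 1), Nat.sub_self, Nat.multichoose_zero_right,
        Nat.multichoose_zero_right, ← add_assoc, ← Finset.sum_add_distrib]
      congr 1
      refine Finset.sum_congr rfl fun r hr => ?_
      rw [Finset.mem_range] at hr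
      have h2 : s + 1 - r = (s - r) + 1 := by omega
      rw [h2, Nat.multichoose_succ_succ]
      push_cast
      ring

theorem fiber3 {ι : Type} [Fintype ι] [DecidableEq ι] (A B C : Finset ι)
    (hAB : ∀ i, i ∈ A → i ∉ B) (hAC : ∀ i, i ∈ A → i ∉ C) (hBC : ∀ i, i ∈ B → i ∉ C)
    (S : Finset (ι → ℕ)) (x y w : ℕ)
    (hS : ∀ m, m ∈ S ↔ (∀ i, m i ≠ 0 → i ∈ A ∨ i ∈ B ∨ i ∈ C) ∧ ∑ i ∈ A, m i = x ∧
      ∑ i ∈ B, m i = y ∧ ∑ i ∈ C, m i = w) :
    S.card = Nat.multichoose A.card x * (Nat.multichoose B.card y * Nat.multichoose C.card w) := by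
  rw [← card_pa A x, ← card_pa B y, ← card_pa C w, ← Finset.card_product, ← Finset.card_product]
  refine Finset.card_nbij'
    (fun m => ((fun i => if i ∈ A then m i else 0), ((fun i => if i ∈ B then m i else 0),
      (fun i => if i ∈ C then m i else 0))))
    (fun q => fun i => q.1 i + q.2.1 i + q.2.2 i) ?_ ?_ ?_ ?_
  · intro m hm
    have hm := (hS m).1 hm
    rw [Finset.mem_coe, Finset.mem_product, Finset.mem_product]
    simp only [Finset.mem_piAntidiag]
    refine ⟨⟨?_, ?_⟩, ⟨?_, ?_⟩, ?_, ?_⟩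
    · rw [← hm.2.1]
      exact Finset.sum_congr rfl fun i hi => if_pos hi
    · intro i hi
      by_contra hcon
      exact hi (if_neg hcon)
    · rw [← hm.2.2.1]
      exact Finset.sum_congr rfl fun i hi => if_pos hi
    · intro i hi
      by_contra hcon
      exact hi (if_neg hcon)
    · rw [← hm.2.2.2]
      exact Finset.sum_congr rfl fun i hi => if_pos hi
    · intro i hi
      by_contra hcon
      exact hi (if_neg hcon)
  · rintro ⟨f, g, h⟩ hq
    rw [Finset.mem_coe, Finset.mem_product, Finset.mem_product] at hq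
    simp only [Finset.mem_piAntidiag] at hq
    obtain ⟨⟨hf1, hf2⟩, ⟨hg1, hg2⟩, hh1, hh2⟩ := hq
    rw [Finset.mem_coe, hS]
    have e1 : ∀ i, i ∉ A → f i = 0 := fun i hi => by
      by_contra hc; exact hi (hf2 i hc)
    have e2 : ∀ i, i ∉ B → g i = 0 := fun i hi => by
      by_contra hc; exact hi (hg2 i hc)
    have e3 : ∀ i, i ∉ C → h i = 0 := fun i hi => by
      by_contra hc; exact hi (hh2 i hc)
    refine ⟨?_, ?_, ?_, ?_⟩
    · intro i hi
      by_contra hcon
      push Not at hcon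
      apply hi
      show f i + g i + h i = 0
      rw [e1 i hcon.1, e2 i hcon.2.1, e3 i hcon.2.2]
    · rw [← hf1]
      refine Finset.sum_congr rfl fun i hi => ?_
      show f i + g i + h i = f i
      rw [e2 i (hAB i hi), e3 i (hAC i hi)]
      ring
    · rw [← hg1]
      refine Finset.sum_congr rfl fun i hi => ?_
      show f i + g i + h i = g i
      rw [e1 i (fun hA => hAB i hA hi), e3 i (hBC i hi)]
      ring
    · rw [← hh1]
      refine Finset.sum_congr rfl fun i hi => ?_
      show f i + g i + h i = h i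
      rw [e1 i (fun hA => hAC i hA hi), e2 i (fun hB => hBC i hB hi)]
      ring
  · intro m hm
    have hm := (hS m).1 hm
    funext i
    show (if i ∈ A then m i else 0) + (if i ∈ B then m i else 0) + (if i ∈ C then m i else 0) = m i
    by_cases hA : i ∈ A
    · rw [if_pos hA, if_neg (hAB i hA), if_neg (hAC i hA)]
      ring
    · by_cases hB : i ∈ B
      · rw [if_neg hA, if_pos hB, if_neg (hBC i hB)]
        ring
      · by_cases hC : i ∈ C
        · rw [if_neg hA, if_neg hB, if_pos hC]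
          ring
        · rw [if_neg hA, if_neg hB, if_neg hC]
          by_contra hne
          rcases hm.1 i (fun h0 => hne (by rw [h0])) with h | h | h
          · exact hA h
          · exact hB h
          · exact hC h
  · rintro ⟨f, g, h⟩ hq
    rw [Finset.mem_coe, Finset.mem_product, Finset.mem_product] at hq
    simp only [Finset.mem_piAntidiag] at hq
    obtain ⟨⟨hf1, hf2⟩, ⟨hg1, hg2⟩, hh1, hh2⟩ := hq
    have e1 : ∀ i, i ∉ A → f i = 0 := fun i hi => by
      by_contra hc; exact hi (hf2 i hc)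
    have e2 : ∀ i, i ∉ B → g i = 0 := fun i hi => by
      by_contra hc; exact hi (hg2 i hc)
    have e3 : ∀ i, i ∉ C → h i = 0 := fun i hi => by
      by_contra hc; exact hi (hh2 i hc)
    refine Prod.ext ?_ (Prod.ext ?_ ?_)
    · funext i
      show (if i ∈ A then f i + g i + h i else 0) = f i
      by_cases hA : i ∈ A
      · rw [if_pos hA, e2 i (hAB i hA), e3 i (hAC i hA)]
        ring
      · rw [if_neg hA, e1 i hA]
    · funext i
      show (if i ∈ B then f i + g i + h i else 0) = g i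
      by_cases hB : i ∈ B
      · rw [if_pos hB, e1 i (fun hA => hAB i hA hB), e3 i (hBC i hB)]
        ring
      · rw [if_neg hB, e2 i hB]
    · funext i
      show (if i ∈ C then f i + g i + h i else 0) = h i
      by_cases hC : i ∈ C
      · rw [if_pos hC, e1 i (fun hA => hAC i hA hC), e2 i (fun hB => hBC i hB hC)]
        ring
      · rw [if_neg hC, e3 i hC]

theorem count_box {ι : Type} [Fintype ι] [DecidableEq ι] (v : ι → ℕ) (T : Finset ι) (ε : ι → ℤ)
    (hε : ∀ i, ε i = -1 ∨ ε i = 0 ∨ ε i = 1) (e : ℤ) (k : ℕ) (hk : ∑ i, v i ≤ k) :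
    ((Set.ncard {n : ι → ℕ | n ∈ box v T ∧ ∑ i, n i ≤ k ∧
      (∑ i, (n i : ℤ) * ε i = e ∨ ∑ i, (n i : ℤ) * ε i = e + 1)} : ℕ) : ℝ) =
      (cs^[(T.filter (fun i => ε i = 0)).card + 1]
        (ww (T.filter (fun i => ε i = 1)).card (T.filter (fun i => ε i = -1)).card
          (e - ∑ i, (v i : ℤ) * ε i))) (k - ∑ i, v i) := by
  classical
  obtain ⟨K, hK⟩ : ∃ K, K = k - ∑ i, v i := ⟨_, rfl⟩
  obtain ⟨e1, he1⟩ : ∃ e1, e1 = e - ∑ i, (v i : ℤ) * ε i := ⟨_, rfl⟩
  obtain ⟨A, hA⟩ : ∃ A, A = T.filter (fun i => ε i = 0) := ⟨_, rfl⟩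
  obtain ⟨B, hB⟩ : ∃ B, B = T.filter (fun i => ε i = 1) := ⟨_, rfl⟩
  obtain ⟨C, hC⟩ : ∃ C, C = T.filter (fun i => ε i = -1) := ⟨_, rfl⟩
  rw [← hK, ← he1, ← hA, ← hB, ← hC]
  have mA : ∀ i, i ∈ A ↔ i ∈ T ∧ ε i = 0 := fun i => by rw [hA, Finset.mem_filter]
  have mB : ∀ i, i ∈ B ↔ i ∈ T ∧ ε i = 1 := fun i => by rw [hB, Finset.mem_filter]
  have mC : ∀ i, i ∈ C ↔ i ∈ T ∧ ε i = -1 := fun i => by rw [hC, Finset.mem_filter]
  have hAB : ∀ i, i ∈ A → i ∉ B := by
    intro i h1 h2
    have := (mA i).1 h1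
    have := (mB i).1 h2
    omega
  have hAC : ∀ i, i ∈ A → i ∉ C := by
    intro i h1 h2
    have := (mA i).1 h1
    have := (mC i).1 h2
    omega
  have hBC : ∀ i, i ∈ B → i ∉ C := by
    intro i h1 h2
    have := (mB i).1 h1
    have := (mC i).1 h2
    omega
  have hT : ∀ i, i ∈ T ↔ i ∈ A ∨ i ∈ B ∨ i ∈ C := by
    intro i
    rw [mA, mB, mC]
    have := hε i
    tauto
  -- sums
  have sum1 : ∀ m : ι → ℕ, (∀ i, m i ≠ 0 → i ∈ T) →
      ∑ i, m i = ∑ i ∈ A, m i + (∑ i ∈ B, m i + ∑ i ∈ C, m i) := by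
    intro m hm
    have h1 : ∀ i, m i = (if i ∈ A then m i else 0) + ((if i ∈ B then m i else 0) +
        (if i ∈ C then m i else 0)) := by
      intro i
      by_cases h2 : i ∈ A
      · rw [if_pos h2, if_neg (hAB i h2), if_neg (hAC i h2)]
        ring
      · by_cases h3 : i ∈ B
        · rw [if_neg h2, if_pos h3, if_neg (hBC i h3)]
          ring
        · by_cases h4 : i ∈ C
          · rw [if_neg h2, if_neg h3, if_pos h4]
            ring
          · rw [if_neg h2, if_neg h3, if_neg h4]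
            by_contra hne
            have := (hT i).1 (hm i hne)
            tauto
    rw [Finset.sum_congr rfl fun i _ => h1 i, Finset.sum_add_distrib, Finset.sum_add_distrib]
    simp [Finset.sum_ite_mem]
  have sum2 : ∀ m : ι → ℕ, (∀ i, m i ≠ 0 → i ∈ T) →
      ∑ i, (m i : ℤ) * ε i = ((∑ i ∈ B, m i : ℕ) : ℤ) - ((∑ i ∈ C, m i : ℕ) : ℤ) := by
    intro m hm
    have h1 : ∀ i, (m i : ℤ) * ε i = (if i ∈ B then (m i : ℤ) else 0) -
        (if i ∈ C then (m i : ℤ) else 0) := by
      intro i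
      by_cases h3 : i ∈ B
      · rw [if_pos h3, if_neg (hBC i h3), ((mB i).1 h3).2]
        ring
      · by_cases h4 : i ∈ C
        · rw [if_neg h3, if_pos h4, ((mC i).1 h4).2]
          ring
        · rw [if_neg h3, if_neg h4]
          by_cases h2 : i ∈ A
          · rw [((mA i).1 h2).2]
            ring
          · have h5 : m i = 0 := by
              by_contra hne
              have := (hT i).1 (hm i hne)
              tauto
            rw [h5]
            simp
    rw [Finset.sum_congr rfl fun i _ => h1 i, Finset.sum_sub_distrib]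
    simp [Finset.sum_ite_mem]
  -- the finset of differences
  obtain ⟨S, hS⟩ : ∃ S : Finset (ι → ℕ), S = (Fintype.piFinset fun _ : ι => Finset.range (K + 1)).filter
      (fun m => (∀ i, m i ≠ 0 → i ∈ T) ∧ ∑ i, m i ≤ K ∧
        (∑ i, (m i : ℤ) * ε i = e1 ∨ ∑ i, (m i : ℤ) * ε i = e1 + 1)) := ⟨_, rfl⟩
  have mS : ∀ m, m ∈ S ↔ (∀ i, m i ≠ 0 → i ∈ T) ∧ ∑ i, m i ≤ K ∧
        (∑ i, (m i : ℤ) * ε i = e1 ∨ ∑ i, (m i : ℤ) * ε i = e1 + 1) := by
    intro m
    rw [hS, Finset.mem_filter, Fintype.mem_piFinset]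
    constructor
    · exact fun h => h.2
    · intro h
      refine ⟨fun i => ?_, h⟩
      rw [Finset.mem_range]
      have := Finset.single_le_sum (f := m) (fun j _ => Nat.zero_le _) (Finset.mem_univ i)
      have := h.2.1
      omega
  have hset : {n : ι → ℕ | n ∈ box v T ∧ ∑ i, n i ≤ k ∧
      (∑ i, (n i : ℤ) * ε i = e ∨ ∑ i, (n i : ℤ) * ε i = e + 1)} =
      ((S.image (fun m => fun i => v i + m i) : Finset (ι → ℕ)) : Set (ι → ℕ)) := by
    ext n
    rw [Finset.mem_coe, Finset.mem_image, Set.mem_setOf_eq]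
    constructor
    · rintro ⟨⟨h1, h2⟩, h3, h4⟩
      have h5 : ∀ i, v i + (n i - v i) = n i := by
        intro i
        by_cases hi : i ∈ T
        · have := h1 i hi
          omega
        · have := h2 i hi
          omega
      have h6 : ∑ i, n i = ∑ i, v i + ∑ i, (n i - v i) := by
        rw [← Finset.sum_add_distrib]
        exact Finset.sum_congr rfl fun i _ => (h5 i).symm
      have h7 : ∑ i, (n i : ℤ) * ε i = ∑ i, (v i : ℤ) * ε i + ∑ i, ((n i - v i : ℕ) : ℤ) * ε i := by
        rw [← Finset.sum_add_distrib]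
        refine Finset.sum_congr rfl fun i _ => ?_
        rw [← add_mul]
        congr 1
        exact_mod_cast (h5 i).symm
      refine ⟨fun i => n i - v i, (mS _).2 ⟨?_, ?_, ?_⟩, funext h5⟩
      · intro i hi
        by_contra hcon
        have := h2 i hcon
        omega
      · show ∑ i, (n i - v i) ≤ K
        omega
      · show ∑ i, ((n i - v i : ℕ) : ℤ) * ε i = e1 ∨ ∑ i, ((n i - v i : ℕ) : ℤ) * ε i = e1 + 1
        rw [h7] at h4
        omega
    · rintro ⟨m, hm, rfl⟩
      obtain ⟨h1, h2, h3⟩ := (mS m).1 hm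
      have h6 : ∑ i, (v i + m i) = ∑ i, v i + ∑ i, m i := Finset.sum_add_distrib
      have h7 : ∑ i, ((v i + m i : ℕ) : ℤ) * ε i = ∑ i, (v i : ℤ) * ε i + ∑ i, (m i : ℤ) * ε i := by
        rw [← Finset.sum_add_distrib]
        refine Finset.sum_congr rfl fun i _ => ?_
        push_cast
        ring
      refine ⟨⟨fun i _ => Nat.le_add_right _ _, fun i hi => ?_⟩, ?_, ?_⟩
      · have : m i = 0 := by
          by_contra hne
          exact hi (h1 i hne)
        show v i + m i = v i
        omega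
      · show ∑ i, (v i + m i) ≤ k
        omega
      · show ∑ i, ((v i + m i : ℕ) : ℤ) * ε i = e ∨ ∑ i, ((v i + m i : ℕ) : ℤ) * ε i = e + 1
        rw [h7]
        omega
  rw [hset, Set.ncard_coe_finset, Finset.card_image_of_injective _ (by
    intro m m' hmm
    funext i
    have := congrFun hmm i
    simp only at this
    omega)]
  -- fiberwise
  rw [Finset.card_eq_sum_card_fiberwise
    (f := fun m : ι → ℕ => (⟨∑ i ∈ B, m i + ∑ i ∈ C, m i, (∑ i ∈ B, m i, ∑ i ∈ A, m i)⟩ : Σ _ : ℕ, ℕ × ℕ))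
    (t := (Finset.range (K + 1)).sigma (fun r => ((Finset.range (r + 1)).filter
      (fun p : ℕ => 2 * (p : ℤ) - r = e1 ∨ 2 * (p : ℤ) - r = e1 + 1)) ×ˢ Finset.range (K - r + 1)))
    (by
      intro m hm
      obtain ⟨h1, h2, h3⟩ := (mS m).1 hm
      rw [sum1 m h1] at h2
      rw [sum2 m h1] at h3
      rw [Finset.mem_coe, Finset.mem_sigma, Finset.mem_product, Finset.mem_filter, Finset.mem_range,
        Finset.mem_range, Finset.mem_range]
      refine ⟨?_, ⟨?_, ?_⟩, ?_⟩
      · show ∑ i ∈ B, m i + ∑ i ∈ C, m i < K + 1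
        omega
      · show ∑ i ∈ B, m i < ∑ i ∈ B, m i + ∑ i ∈ C, m i + 1
        omega
      · show 2 * ((∑ i ∈ B, m i : ℕ) : ℤ) - ((∑ i ∈ B, m i + ∑ i ∈ C, m i : ℕ) : ℤ) = e1 ∨
          2 * ((∑ i ∈ B, m i : ℕ) : ℤ) - ((∑ i ∈ B, m i + ∑ i ∈ C, m i : ℕ) : ℤ) = e1 + 1
        rw [Nat.cast_add]
        omega
      · show ∑ i ∈ A, m i < K - (∑ i ∈ B, m i + ∑ i ∈ C, m i) + 1
        omega)]
  rw [Finset.sum_sigma, cs_iter, Nat.cast_sum]
  refine Finset.sum_congr rfl fun r hr => ?_
  rw [Finset.mem_range] at hr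
  rw [← mc_sum, Finset.sum_product_right]
  unfold ww
  rw [Nat.cast_sum, Nat.cast_sum, Finset.sum_mul]
  refine Finset.sum_congr rfl fun x hx => ?_
  rw [Finset.mem_range] at hx
  rw [Nat.cast_sum, Finset.mul_sum]
  refine Finset.sum_congr rfl fun p hp => ?_
  rw [Finset.mem_filter, Finset.mem_range] at hp
  rw [← Nat.cast_mul, ← Nat.cast_mul]
  congr 1
  refine fiber3 A B C hAB hAC hBC _ x p (r - p) ?_
  intro m
  rw [Finset.mem_filter, mS]
  constructor
  · rintro ⟨⟨h1, h2, h3⟩, h4⟩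
    have h5 : ∑ i ∈ B, m i + ∑ i ∈ C, m i = r := congrArg (fun q : (Σ _ : ℕ, ℕ × ℕ) => q.1) h4
    have h6 : ∑ i ∈ B, m i = p := congrArg (fun q : (Σ _ : ℕ, ℕ × ℕ) => q.2.1) h4
    have h7 : ∑ i ∈ A, m i = x := congrArg (fun q : (Σ _ : ℕ, ℕ × ℕ) => q.2.2) h4
    refine ⟨fun i hi => (hT i).1 (h1 i hi), h7, h6, ?_⟩
    omega
  · rintro ⟨h1, h2, h3, h4⟩
    have h5 : ∀ i, m i ≠ 0 → i ∈ T := fun i hi => (hT i).2 (h1 i hi)
    refine ⟨⟨h5, ?_, ?_⟩, ?_⟩
    · rw [sum1 m h5]
      omega
    · rw [sum2 m h5, h3, h4]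
      have := hp.2
      omega
    · have h6 : ∑ i ∈ B, m i + ∑ i ∈ C, m i = r := by omega
      rw [h6, h3, h2]

end N3b

end Pool.Agent.Helper602.Growth
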