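import Mathlib
import Pool.Agent.Helper602.Growth.QDefs

set_option autoImplicit false

namespace Pool.Agent.Helper602.Growth

open Filter Topology

namespace N3z


theorem QP_ww_zero (i j : ℕ) (h : i = 0 ∨ j = 0) (e : ℤ) : QP 0 0 (ww i j e) := by
  refine ⟨0, 0, by simp, by simp, ?_⟩
  filter_upwards [eventually_gt_atTop (e.natAbs + 1)] with s hs
  simp only [Polynomial.eval_zero, mul_zero, add_zero]
  unfold ww
  apply Finset.sum_eq_zero
  intro p hp
  rw [Finset.mem_filter, Finset.mem_range] at hp
  obtain ⟨hp1, hp2⟩ := hp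
  rcases h with rfl | rfl
  · rcases Nat.eq_zero_or_pos p with rfl | hpos
    · exfalso
      omega
    · obtain ⟨q, rfl⟩ := Nat.exists_eq_succ_of_ne_zero hpos.ne'
      simp [Nat.multichoose_zero_succ]
  · rcases Nat.eq_zero_or_pos (s - p) with h0 | hpos
    · exfalso
      omega
    · obtain ⟨q, hq⟩ := Nat.exists_eq_succ_of_ne_zero hpos.ne'
      rw [hq]
      simp [Nat.multichoose_zero_succ]

end N3z

end Pool.Agent.Helper602.Growth
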