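import Mathlib
import Pool.Agent.Helper602.Growth.QDefs
import Pool.Agent.Helper602.Growth.N1
import Pool.Agent.Helper602.Growth.N2
import Pool.Agent.Helper602.Growth.N3a
import Pool.Agent.Helper602.Growth.N3z
import Pool.Agent.Helper602.Growth.N3b

set_option autoImplicit false

namespace Pool.Agent.Helper602.Growth

open Filter Topology

open N1 N2 N3a N3z N3b

namespace N3c




theorem QP_cs_iter_aux (a b n : ℕ) (f : ℕ → ℝ) (hf : QP a b f) : QP (a + n) b (cs^[n] f) := by
  induction n with
  | zero => simpa using hf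
  | succ n ih =>
    rw [Function.iterate_succ_apply']
    exact QP_cs ih

theorem QP_box {ι : Type} [Fintype ι] [DecidableEq ι] (v : ι → ℕ) (T : Finset ι) (ε : ι → ℤ)
    (hε : ∀ i, ε i = -1 ∨ ε i = 0 ∨ ε i = 1) (e : ℤ) (d : ℕ) (h1 : T.card ≤ d + 1)
    (h2 : (T.filter (fun i => ε i = 0)).card ≤ d) :
    QP (d + 1) (d - 1) (fun k => ((Set.ncard {n : ι → ℕ | n ∈ box v T ∧ ∑ i, n i ≤ k ∧
      (∑ i, (n i : ℤ) * ε i = e ∨ ∑ i, (n i : ℤ) * ε i = e + 1)} : ℕ) : ℝ)) := by
  have hcard : T.card = (T.filter (fun i => ε i = 0)).card + (T.filter (fun i => ε i = 1)).card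
      + (T.filter (fun i => ε i = -1)).card := by
    have e1 := Finset.card_filter_add_card_filter_not (s := T) (fun i => ε i = 0)
    have e2 := Finset.card_filter_add_card_filter_not (s := T.filter (fun i => ¬ ε i = 0))
      (fun i => ε i = 1)
    rw [Finset.filter_filter, Finset.filter_filter] at e2
    have e3 : T.filter (fun i => ¬ ε i = 0 ∧ ε i = 1) = T.filter (fun i => ε i = 1) := by
      apply Finset.filter_congr
      intro i _
      constructor
      · exact fun h => h.2
      · intro h; exact ⟨by rw [h]; norm_num, h⟩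
    have e4 : T.filter (fun i => ¬ ε i = 0 ∧ ¬ ε i = 1) = T.filter (fun i => ε i = -1) := by
      apply Finset.filter_congr
      intro i _
      constructor
      · intro h
        rcases hε i with h' | h' | h'
        · exact h'
        · exact absurd h' h.1
        · exact absurd h' h.2
      · intro h; rw [h]; norm_num
    rw [e3, e4] at e2
    omega
  set n0 := (T.filter (fun i => ε i = 0)).card
  set p := (T.filter (fun i => ε i = 1)).card
  set m := (T.filter (fun i => ε i = -1)).card
  have key : QP (d + 1) (d - 1) (cs^[n0 + 1] (ww p m (e - ∑ i, (v i : ℤ) * ε i))) := by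
    by_cases hpm : 1 ≤ p ∧ 1 ≤ m
    · have h3 := QP_cs_iter_aux _ _ (n0 + 1) _ (QP_ww p m hpm.1 hpm.2 (e - ∑ i, (v i : ℤ) * ε i))
      exact QP_mono (by omega) (by omega) h3
    · have h3 := QP_cs_iter_aux _ _ (n0 + 1) _ (QP_ww_zero p m (by omega)
        (e - ∑ i, (v i : ℤ) * ε i))
      exact QP_mono (by omega) (by omega) h3
  refine QP_congr (QP_shift (∑ i, v i) key) ?_
  filter_upwards [Filter.eventually_ge_atTop (∑ i, v i)] with k hk
  exact count_box v T ε hε e k hk

end N3c

end Pool.Agent.Helper602.Growth
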