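import Mathlib
import Pool.Agent.Helper602.Growth.QDefs

set_option autoImplicit false

namespace Pool.Agent.Helper602.Growth

open Filter Topology

namespace N4


/-- a lower set of `ι → ℕ` is a finite disjoint union of boxes -/
theorem lower_boxes {ι : Type} [Fintype ι] [DecidableEq ι] (D : Set (ι → ℕ)) (hD : IsLowerSet D) :
    ∃ B : Finset ((ι → ℕ) × Finset ι), (∀ b ∈ B, box b.1 b.2 ⊆ D) ∧
      ∀ n ∈ D, ∃! b, b ∈ B ∧ n ∈ box b.1 b.2 := by
  classical
  -- a uniform bound for the minimal elements of the complement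
  obtain ⟨M, hM⟩ : ∃ M : ℕ, ∀ m : ι → ℕ, Minimal (fun x => x ∉ D) m → ∀ i, m i ≤ M := by
    have hfin : {m : ι → ℕ | Minimal (fun x => x ∉ D) m}.Finite :=
      WellQuasiOrderedLE.finite_of_isAntichain (fun a ha b hb hne hle => hne (by
        have ha' : Minimal (fun x => x ∉ D) a := ha
        have hb' : Minimal (fun x => x ∉ D) b := hb
        exact le_antisymm hle (hb'.2 ha'.1 hle)))
    refine ⟨∑ m ∈ hfin.toFinset, ∑ i, m i, fun m hm i => ?_⟩
    have h1 : m i ≤ ∑ i, m i := Finset.single_le_sum (f := fun i => m i) (fun _ _ => Nat.zero_le _) (Finset.mem_univ i)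
    have h2 : (∑ i, m i) ≤ ∑ m ∈ hfin.toFinset, ∑ i, m i :=
      Finset.single_le_sum (f := fun m : ι → ℕ => ∑ i, m i) (fun _ _ => Nat.zero_le _) (hfin.mem_toFinset.mpr hm)
    exact h1.trans h2
  -- membership depends on the truncation only
  have key : ∀ n : ι → ℕ, n ∈ D ↔ (fun i => min (n i) M) ∈ D := by
    intro n
    constructor
    · intro hn
      exact hD (fun i => min_le_left _ _) hn
    · intro hn
      by_contra hc
      obtain ⟨m, hmn, hm⟩ := exists_minimal_le_of_wellFoundedLT (fun x => x ∉ D) n hc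
      apply hm.1
      refine hD (fun i => ?_) hn
      exact le_min (hmn i) (hM m hm i)
  -- boxes
  have hbox : ∀ c : ι → ℕ, (∀ i, c i ≤ M) → ∀ n : ι → ℕ,
      n ∈ box c (Finset.univ.filter (fun i => c i = M)) ↔ (fun i => min (n i) M) = c := by
    intro c hc n
    constructor
    · rintro ⟨h1, h2⟩
      funext i
      by_cases hi : c i = M
      · have := h1 i (by simp [hi])
        rw [hi] at this
        simp only [min_eq_right this, hi]
      · have := h2 i (by simp [hi])
        simp only [this, min_eq_left (hc i)]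
    · intro h
      refine ⟨fun i _ => ?_, fun i hi => ?_⟩
      · rw [← congrFun h i]
        exact min_le_left _ _
      · have hi' : c i ≠ M := by simpa using hi
        have h3 : min (n i) M = c i := congrFun h i
        rcases le_total (n i) M with h4 | h4
        · rw [min_eq_left h4] at h3
          exact h3
        · rw [min_eq_right h4] at h3
          exact absurd h3.symm hi'
  refine ⟨((Fintype.piFinset (fun _ : ι => Finset.range (M + 1))).filter (fun c => c ∈ D)).image
    (fun c => (c, Finset.univ.filter (fun i => c i = M))), ?_, ?_⟩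
  · intro b hb n hn
    obtain ⟨c, hc, rfl⟩ := Finset.mem_image.mp hb
    obtain ⟨hc1, hc2⟩ := Finset.mem_filter.mp hc
    have hc3 : ∀ i, c i ≤ M := fun i => by
      have := Fintype.mem_piFinset.mp hc1 i
      exact Nat.lt_succ_iff.mp (Finset.mem_range.mp this)
    rw [key n, (hbox c hc3 n).mp hn]
    exact hc2
  · intro n hn
    have hc3 : ∀ i, (fun i => min (n i) M) i ≤ M := fun i => min_le_right _ _
    refine ⟨((fun i => min (n i) M), Finset.univ.filter (fun i => (fun i => min (n i) M) i = M)), ⟨?_, ?_⟩, ?_⟩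
    · refine Finset.mem_image.mpr ⟨fun i => min (n i) M, Finset.mem_filter.mpr ⟨?_, (key n).mp hn⟩, rfl⟩
      exact Fintype.mem_piFinset.mpr (fun i => Finset.mem_range.mpr (Nat.lt_succ_of_le (min_le_right _ _)))
    · exact (hbox _ hc3 n).mpr rfl
    · rintro b ⟨hb, hnb⟩
      obtain ⟨c, hc, rfl⟩ := Finset.mem_image.mp hb
      obtain ⟨hc1, hc2⟩ := Finset.mem_filter.mp hc
      have hc4 : ∀ i, c i ≤ M := fun i => by
        have := Fintype.mem_piFinset.mp hc1 i
        exact Nat.lt_succ_iff.mp (Finset.mem_range.mp this)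
      have h5 := (hbox c hc4 n).mp hnb
      rw [← h5]

end N4

end Pool.Agent.Helper602.Growth
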