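import Mathlib
import Pool.Agent.Helper602.Growth.QDefs

set_option autoImplicit false

namespace Pool.Agent.Helper602.Growth

open Filter Topology

namespace N5


theorem canonical {V : Type} [AddCommGroup V] {ι κ : Type} [Fintype ι] [DecidableEq ι] [Fintype κ]
    (u : ι → V) (f : κ → V) :
    ∃ C : κ → Set (ι → ℕ), (∀ a, IsLowerSet (C a)) ∧
      (∀ (a b : κ) (n m : ι → ℕ), n ∈ C a → m ∈ C b →
        f a + ∑ i, n i • u i = f b + ∑ i, m i • u i → a = b ∧ n = m) ∧
      (∀ (a : κ) (n : ι → ℕ), ∃ b, ∃ m ∈ C b, f b + ∑ i, m i • u i = f a + ∑ i, n i • u i ∧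
        ∑ i, m i ≤ ∑ i, n i) := by
  classical
  letI : LinearOrder ι := LinearOrder.lift' (Fintype.equivFin ι) (Fintype.equivFin ι).injective
  let key : κ × (ι → ℕ) → Lex (ℕ × Lex (Lex (ι → ℕ) × Fin (Fintype.card κ))) := fun p =>
    toLex (∑ i, p.2 i, toLex (toLex p.2, Fintype.equivFin κ p.1))
  have hinj : Function.Injective key := by
    intro p q h
    have h1 : ((∑ i, p.2 i, toLex (toLex p.2, Fintype.equivFin κ p.1)) :
        ℕ × Lex (Lex (ι → ℕ) × Fin (Fintype.card κ))) =
        (∑ i, q.2 i, toLex (toLex q.2, Fintype.equivFin κ q.1)) := toLex.injective h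
    have h2 := (Prod.mk.inj h1).2
    have h3 := Prod.mk.inj (toLex.injective h2)
    exact Prod.ext ((Fintype.equivFin κ).injective h3.2) (toLex.injective h3.1)
  have hwf : WellFounded (fun x y : Lex (ℕ × Lex (Lex (ι → ℕ) × Fin (Fintype.card κ))) => x < y) :=
    wellFounded_lt
  have hadd : ∀ (a b : κ) (n k m : ι → ℕ), key (a, n) < key (b, k) →
      key (a, n + m) < key (b, k + m) := by
    intro a b n k m h
    have hs : ∀ n m : ι → ℕ, ∑ i, (n + m) i = ∑ i, n i + ∑ i, m i := by
      intro n m; simp [Finset.sum_add_distrib]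
    simp only [key, Prod.Lex.toLex_lt_toLex] at h ⊢
    rw [hs, hs]
    rcases h with h | ⟨h1, h | ⟨h2, h3⟩⟩
    · left; omega
    · right
      refine ⟨by rw [h1], Or.inl ?_⟩
      obtain ⟨i, hi, hi'⟩ := h
      refine ⟨i, fun j hj => ?_, ?_⟩
      · have := hi j hj
        show n j + m j = k j + m j
        have h5 : n j = k j := this
        rw [h5]
      · show n i + m i < k i + m i
        have h5 : n i < k i := hi'
        omega
    · right
      refine ⟨by rw [h1], Or.inr ⟨?_, h3⟩⟩
      have h5 : n = k := toLex.injective h2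
      rw [h5]
  let val : κ × (ι → ℕ) → V := fun p => f p.1 + ∑ i, p.2 i • u i
  have hval : ∀ (a : κ) (n m : ι → ℕ), val (a, n + m) = val (a, n) + ∑ i, m i • u i := by
    intro a n m
    simp only [val, Pi.add_apply, add_smul, Finset.sum_add_distrib, add_assoc]
  refine ⟨fun a => {n | ∀ q : κ × (ι → ℕ), val q = val (a, n) → key (a, n) ≤ key q}, ?_, ?_, ?_⟩
  · intro a n n' hle hn q hq
    obtain ⟨m, rfl⟩ : ∃ m : ι → ℕ, n = n' + m := ⟨n - n', by
      funext i
      have h7 : n' i ≤ n i := hle i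
      show n i = n' i + (n i - n' i)
      omega⟩
    by_contra hc
    rw [not_le] at hc
    have h1 := hadd q.1 a q.2 n' m hc
    have h2 := hn (q.1, q.2 + m) (by
      rw [hval, hval]
      have : val (q.1, q.2) = val (a, n') := hq
      rw [this])
    exact absurd h1 (not_lt.2 h2)
  · intro a b n m hn hm h
    have h1 := hn (b, m) h.symm
    have h2 := hm (a, n) h
    have h3 := hinj (le_antisymm h1 h2)
    exact ⟨(Prod.mk.inj h3).1, (Prod.mk.inj h3).2⟩
  · intro a n
    obtain ⟨p, hp, hmin⟩ := WellFounded.has_min (InvImage.wf key hwf)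
      {p : κ × (ι → ℕ) | val p = val (a, n)} ⟨(a, n), rfl⟩
    refine ⟨p.1, p.2, ?_, hp, ?_⟩
    · intro q hq
      exact not_lt.1 (hmin q (hq.trans hp))
    · have h1 : key p ≤ key (a, n) := not_lt.1 (hmin (a, n) rfl)
      simp only [key, Prod.Lex.toLex_le_toLex] at h1
      rcases h1 with h1 | h1
      · exact h1.le
      · exact h1.1.le

end N5

end Pool.Agent.Helper602.Growth
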