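import Mathlib
import Pool.Agent.Helper602.Growth.QDefs

set_option autoImplicit false

namespace Pool.Agent.Helper602.Growth

open Filter Topology

namespace N6


theorem rb_core {A : Type} [AddCommGroup A] {ι : Type} [Fintype ι]
    [DecidableEq ι] (x : ι → A) (ε : ι → ℤ) (v : ι → ℕ) (T : Finset ι)
    (hinj : Set.InjOn (fun n : ι → ℕ => ((∑ i, n i • x i, ∑ i, (n i : ℤ) * ε i) : A × ℤ)) (box v T))
    (z : ι → ℤ) (hz : ∀ i, i ∉ T → z i = 0) (h1 : ∑ i, z i • x i = 0)
    (h2 : ∑ i, z i * ε i = 0) (i : ι) : z i = 0 := by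
  have hn : (fun i => v i + (z i).toNat) ∈ box v T := by
    refine ⟨fun i _ => Nat.le_add_right _ _, fun i hi => ?_⟩
    simp [hz i hi]
  have hm : (fun i => v i + (-z i).toNat) ∈ box v T := by
    refine ⟨fun i _ => Nat.le_add_right _ _, fun i hi => ?_⟩
    simp [hz i hi]
  have hd : ∀ i, ((v i + (z i).toNat : ℕ) : ℤ) = ((v i + (-z i).toNat : ℕ) : ℤ) + z i := by
    intro i
    push_cast
    have := Int.toNat_sub_toNat_neg (z i)
    omega
  have heq := hinj hn hm (by
    refine Prod.ext ?_ ?_
    · change ∑ i, (v i + (z i).toNat) • x i = ∑ i, (v i + (-z i).toNat) • x i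
      have h3 : ∑ i, (v i + (z i).toNat) • x i =
          ∑ i, (v i + (-z i).toNat) • x i + ∑ i, z i • x i := by
        rw [← Finset.sum_add_distrib]
        refine Finset.sum_congr rfl (fun i _ => ?_)
        rw [← natCast_zsmul, ← natCast_zsmul, hd i, add_zsmul]
      rw [h3, h1, add_zero]
    · change ∑ i, ((v i + (z i).toNat : ℕ) : ℤ) * ε i = ∑ i, ((v i + (-z i).toNat : ℕ) : ℤ) * ε i
      have h3 : ∑ i, ((v i + (z i).toNat : ℕ) : ℤ) * ε i =
          ∑ i, ((v i + (-z i).toNat : ℕ) : ℤ) * ε i + ∑ i, z i * ε i := by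
        rw [← Finset.sum_add_distrib]
        refine Finset.sum_congr rfl (fun i _ => ?_)
        rw [hd i, add_mul]
      rw [h3, h2, add_zero])
  have h4 := congrFun heq i
  have h5 := hd i
  have h6 : v i + (z i).toNat = v i + (-z i).toNat := h4
  rw [h6] at h5
  omega

theorem rb_sum {M : Type} [AddCommGroup M] {ι : Type} [Fintype ι] [DecidableEq ι] (S : Finset ι)
    (g : {i // i ∈ S} → ℤ) (f : ι → M) :
    ∑ i, (if h : i ∈ S then g ⟨i, h⟩ else 0) • f i = ∑ i : {i // i ∈ S}, g i • f i := by
  have h1 : ∑ i, (if h : i ∈ S then g ⟨i, h⟩ else 0) • f i =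
      ∑ i ∈ S, (if h : i ∈ S then g ⟨i, h⟩ else 0) • f i := by
    symm
    refine Finset.sum_subset (Finset.subset_univ _) (fun i _ hi => ?_)
    rw [dif_neg hi, zero_smul]
  rw [h1, ← Finset.sum_coe_sort S]
  refine Finset.sum_congr rfl (fun i _ => ?_)
  rw [dif_pos i.2]

theorem rb_rank (A : Type) [AddCommGroup A] [Module.Finite ℤ A] :
    Module.finrank ℤ (A × ℤ) = Module.finrank ℤ A + 1 := by
  have h1 := Submodule.finrank_quotient_add_finrank (LinearMap.ker (LinearMap.snd ℤ A ℤ))
  have h2 : Module.finrank ℤ ((A × ℤ) ⧸ LinearMap.ker (LinearMap.snd ℤ A ℤ)) = 1 := by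
    rw [(LinearMap.quotKerEquivOfSurjective _ LinearMap.snd_surjective).finrank_eq]
    exact Module.finrank_self ℤ
  have h3 : Module.finrank ℤ (LinearMap.ker (LinearMap.snd ℤ A ℤ)) = Module.finrank ℤ A := by
    rw [LinearMap.ker_snd]
    exact (LinearEquiv.ofInjective (LinearMap.inl ℤ A ℤ) LinearMap.inl_injective).finrank_eq.symm
  omega

theorem rank_bounds {A : Type} [AddCommGroup A] [Module.Finite ℤ A] {ι : Type} [Fintype ι]
    [DecidableEq ι] (x : ι → A) (ε : ι → ℤ) (v : ι → ℕ) (T : Finset ι)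
    (hinj : Set.InjOn (fun n : ι → ℕ => ((∑ i, n i • x i, ∑ i, (n i : ℤ) * ε i) : A × ℤ)) (box v T)) :
    T.card ≤ Module.finrank ℤ A + 1 ∧
      (T.filter (fun i => ε i = 0)).card ≤ Module.finrank ℤ A := by
  constructor
  · have hli : LinearIndependent ℤ (fun i : {i // i ∈ T} => ((x i, ε i) : A × ℤ)) := by
      rw [Fintype.linearIndependent_iff]
      intro g hg i
      have hg1 : ∑ i : {i // i ∈ T}, g i • x i = 0 := by
        have := congrArg Prod.fst hg
        rw [Prod.fst_sum] at this
        exact this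
      have hg2 : ∑ i : {i // i ∈ T}, g i • ε i = 0 := by
        have := congrArg Prod.snd hg
        rw [Prod.snd_sum] at this
        exact this
      rw [← rb_sum T g x] at hg1
      rw [← rb_sum T g ε] at hg2
      have h := rb_core x ε v T hinj (fun i => if h : i ∈ T then g ⟨i, h⟩ else 0)
        (fun i hi => dif_neg hi) hg1 (by simpa only [smul_eq_mul] using hg2) i
      rw [dif_pos i.2] at h
      exact h
    have h := hli.fintype_card_le_finrank
    rw [Fintype.card_coe, rb_rank] at h
    exact h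
  · have hli : LinearIndependent ℤ
        (fun i : {i // i ∈ T.filter (fun i => ε i = 0)} => x i) := by
      rw [Fintype.linearIndependent_iff]
      intro g hg1 i
      rw [← rb_sum (T.filter (fun i => ε i = 0)) g x] at hg1
      have h := rb_core x ε v T hinj
        (fun i => if h : i ∈ T.filter (fun i => ε i = 0) then g ⟨i, h⟩ else 0)
        (fun i hi => dif_neg (fun hh => hi (Finset.mem_filter.1 hh).1)) hg1
        (Finset.sum_eq_zero (fun i _ => by
          by_cases hi : i ∈ T.filter (fun i => ε i = 0)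
          · rw [(Finset.mem_filter.1 hi).2, mul_zero]
          · rw [dif_neg hi, zero_mul])) i
      rw [dif_pos i.2] at h
      exact h
    have h := hli.fintype_card_le_finrank
    rw [Fintype.card_coe] at h
    exact h

end N6

end Pool.Agent.Helper602.Growth
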