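import Mathlib
import Pool.Agent.Helper602.Growth.QDefs
import Pool.Agent.Helper602.Growth.N1
import Pool.Agent.Helper602.Growth.F3
import Pool.Agent.Helper602.Growth.N4
import Pool.Agent.Helper602.Growth.N5
import Pool.Agent.Helper602.Growth.N6
import Pool.Agent.Helper602.Growth.N3c

set_option autoImplicit false

namespace Pool.Agent.Helper602.Growth

open Filter Topology

open N1 F3 N4 N5 N6 N3c

namespace E2
























/-- value of a vector of multiplicities -/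
def vl {A : Type} [AddCommGroup A] {ι : Type} [Fintype ι] (x : ι → A) (ε : ι → ℤ) (n : ι → ℕ) :
    A × ℤ := (∑ i, n i • x i, ∑ i, (n i : ℤ) * ε i)

theorem vl_single {A : Type} [AddCommGroup A] {ι : Type} [Fintype ι] [DecidableEq ι] (x : ι → A)
    (ε : ι → ℤ) (n : ι → ℕ) (i : ι) :
    vl x ε (n + Pi.single i 1) = vl x ε n + (x i, ε i) := by
  unfold vl
  ext
  · simp [add_smul, Finset.sum_add_distrib, Pi.single_apply, ite_smul]
  · simp [add_mul, Finset.sum_add_distrib, Pi.single_apply, ite_mul]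

theorem vl_grow {A : Type} [AddCommGroup A] {ι : Type} [Fintype ι] [DecidableEq ι] (x : ι → A)
    (ε : ι → ℤ) (Y : ℕ → Set (A × ℤ)) (hadd : ∀ k i, ∀ y ∈ Y k, y + (x i, ε i) ∈ Y (k + 1))
    (N : ℕ) : ∀ (δ : ι → ℕ), ∑ i, δ i = N → ∀ (n : ι → ℕ) (K : ℕ), vl x ε n ∈ Y K →
      vl x ε (n + δ) ∈ Y (K + N) := by
  induction N with
  | zero =>
    intro δ hδ n K h
    have h0 : δ = 0 := by
      funext i
      exact (Finset.sum_eq_zero_iff.1 hδ) i (Finset.mem_univ i)
    rw [h0, add_zero, add_zero]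
    exact h
  | succ N ih =>
    intro δ hδ n K h
    have hex : ∃ i, δ i ≠ 0 := by
      by_contra hc
      push Not at hc
      have : ∑ i, δ i = 0 := Finset.sum_eq_zero fun i _ => hc i
      omega
    obtain ⟨i, hi⟩ := hex
    have hδ' : δ = Function.update δ i (δ i - 1) + Pi.single i 1 := by
      funext j
      by_cases hj : j = i
      · subst hj
        simp
        omega
      · simp [hj]
    have hs : ∑ j, Function.update δ i (δ i - 1) j = N := by
      have h1 : ∑ j, δ j = ∑ j, Function.update δ i (δ i - 1) j + 1 := by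
        conv_lhs => rw [hδ']
        simp [Finset.sum_add_distrib]
      omega
    have h2 := hadd _ i _ (ih _ hs n K h)
    rw [← vl_single, add_assoc n, ← hδ', add_assoc] at h2
    exact h2



/-- slices 0 and 1 of the complement of a submodule -/
theorem diff_slices_QP {A : Type} [AddCommGroup A] [Module.Finite ℤ A] {ι : Type} [Fintype ι]
    [DecidableEq ι] (x : ι → A) (ε : ι → ℤ) (hε : ∀ i, ε i = -1 ∨ ε i = 0 ∨ ε i = 1)
    (Y : ℕ → Set (A × ℤ)) (hmono : ∀ k, Y k ⊆ Y (k + 1))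
    (hadd : ∀ k i, ∀ y ∈ Y k, y + (x i, ε i) ∈ Y (k + 1)) :
    QP (Module.finrank ℤ A + 1) (Module.finrank ℤ A - 1)
      (fun k => ((Set.ncard {y : A × ℤ | (y.2 = 0 ∨ y.2 = 1) ∧
        (∃ n : ι → ℕ, ∑ i, n i ≤ k ∧ y = (∑ i, n i • x i, ∑ i, (n i : ℤ) * ε i)) ∧
        y ∉ Y k} : ℕ) : ℝ)) := by
  classical
  have hY : Monotone Y := monotone_nat_of_le_succ hmono
  obtain ⟨C0, hC0, hinj0, hrep0⟩ := canonical (V := A × ℤ) (κ := Unit) (fun i => (x i, ε i)) (fun _ => 0)
  have hval : ∀ n : ι → ℕ, (0 : A × ℤ) + ∑ i, n i • ((x i, ε i) : A × ℤ) = vl x ε n := by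
    intro n
    rw [zero_add]
    unfold vl
    ext
    · rw [Prod.fst_sum]; simp
    · rw [Prod.snd_sum]; simp
  simp only [hval] at hinj0 hrep0
  obtain ⟨C, hCd⟩ : ∃ C : Set (ι → ℕ), C = C0 () := ⟨_, rfl⟩
  have hC : IsLowerSet C := by rw [hCd]; exact hC0 ()
  have hinj : ∀ n m : ι → ℕ, n ∈ C → m ∈ C → vl x ε n = vl x ε m → n = m := by
    intro n m hn hm h
    rw [hCd] at hn hm
    exact (hinj0 () () n m hn hm h).2
  have hrep : ∀ n : ι → ℕ, ∃ m ∈ C, vl x ε m = vl x ε n ∧ ∑ i, m i ≤ ∑ i, n i := by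
    intro n
    obtain ⟨⟨⟩, m, hm, h1, h2⟩ := hrep0 () n
    exact ⟨m, by rw [hCd]; exact hm, h1, h2⟩
  let D : Set (Option ι → ℕ) := {m | (fun i => m (some i)) ∈ C ∧
    vl x ε (fun i => m (some i)) ∉ Y (∑ o, m o)}
  have hD : IsLowerSet D := by
    intro a b hba ha
    refine ⟨hC (fun i => hba (some i)) ha.1, fun hb => ha.2 ?_⟩
    have h1 := vl_grow x ε Y hadd _ (fun i => a (some i) - b (some i)) rfl _ _ hb
    have h2 : ((fun i => b (some i)) + fun i => a (some i) - b (some i)) = fun i => a (some i) := by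
      funext i
      have : b (some i) ≤ a (some i) := hba (some i)
      simp only [Pi.add_apply]
      omega
    rw [h2] at h1
    refine hY ?_ h1
    rw [Fintype.sum_option, Fintype.sum_option]
    have h3 : ∑ i, b (some i) + ∑ i, (a (some i) - b (some i)) = ∑ i, a (some i) := by
      rw [← Finset.sum_add_distrib]
      refine Finset.sum_congr rfl fun i _ => ?_
      have : b (some i) ≤ a (some i) := hba (some i)
      omega
    have h4 : b none ≤ a none := hba none
    omega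
  obtain ⟨B, hB1, hB2⟩ := lower_boxes D hD
  -- counts in boxes
  let cnt : ((Option ι → ℕ) × Finset (Option ι)) → ℕ → Set (Option ι → ℕ) := fun b k =>
    {m | m ∈ box b.1 b.2 ∧ ∑ o, m o = k ∧
      (∑ i, (m (some i) : ℤ) * ε i = 0 ∨ ∑ i, (m (some i) : ℤ) * ε i = 1)}
  have hmain : ∀ k, (Set.ncard {y : A × ℤ | (y.2 = 0 ∨ y.2 = 1) ∧
        (∃ n : ι → ℕ, ∑ i, n i ≤ k ∧ y = (∑ i, n i • x i, ∑ i, (n i : ℤ) * ε i)) ∧
        y ∉ Y k} : ℕ) = ∑ b ∈ B, (cnt b k).ncard := by
    intro k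
    let M : Set (Option ι → ℕ) := {m | m ∈ D ∧ ∑ o, m o = k ∧
      (∑ i, (m (some i) : ℤ) * ε i = 0 ∨ ∑ i, (m (some i) : ℤ) * ε i = 1)}
    have hA : {y : A × ℤ | (y.2 = 0 ∨ y.2 = 1) ∧
        (∃ n : ι → ℕ, ∑ i, n i ≤ k ∧ y = (∑ i, n i • x i, ∑ i, (n i : ℤ) * ε i)) ∧
        y ∉ Y k} = (fun m : Option ι → ℕ => vl x ε (fun i => m (some i))) '' M := by
      ext y
      constructor
      · rintro ⟨hy2, ⟨n, hn, hyn⟩, hyY⟩
        have hyn' : y = vl x ε n := hyn
        obtain ⟨m0, hm0C, hm0v, hm0s⟩ := hrep n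
        have hsum : ∑ o : Option ι, (fun o : Option ι => o.elim (k - ∑ i, m0 i) m0) o = k := by
          rw [Fintype.sum_option]
          change k - ∑ i, m0 i + ∑ i, m0 i = k
          omega
        refine ⟨fun o => o.elim (k - ∑ i, m0 i) m0, ⟨⟨hm0C, ?_⟩, hsum, ?_⟩, ?_⟩
        · rw [hsum]
          change vl x ε m0 ∉ Y k
          rw [hm0v, ← hyn']
          exact hyY
        · have h5 : y.2 = ∑ i, (m0 i : ℤ) * ε i := by
            rw [hyn', ← hm0v]; rfl
          rw [h5] at hy2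
          exact hy2
        · change vl x ε m0 = y
          rw [hm0v, hyn']
      · rintro ⟨m, ⟨⟨hmC, hmY⟩, hms, hmP⟩, rfl⟩
        refine ⟨hmP, ⟨fun i => m (some i), ?_, rfl⟩, ?_⟩
        · rw [Fintype.sum_option] at hms
          change ∑ i, m (some i) ≤ k
          omega
        · rw [hms] at hmY
          exact hmY
    have hAinj : Set.InjOn (fun m : Option ι → ℕ => vl x ε (fun i => m (some i))) M := by
      intro m hm m' hm' h
      have h6 := hinj _ _ hm.1.1 hm'.1.1 h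
      have h7 := hm.2.1
      have h8 := hm'.2.1
      rw [Fintype.sum_option] at h7 h8
      have h9 : ∑ i, m (some i) = ∑ i, m' (some i) :=
        Finset.sum_congr rfl fun i _ => congrFun h6 i
      funext o
      cases o with
      | none => omega
      | some i => exact congrFun h6 i
    rw [hA, Set.ncard_image_of_injOn hAinj]
    obtain ⟨Mf, hMfd⟩ : ∃ Mf : Finset (Option ι → ℕ), Mf =
      (Finset.piAntidiag Finset.univ k).filter (fun m => m ∈ M) := ⟨_, rfl⟩
    have hMf : ∀ m, m ∈ Mf ↔ m ∈ M := by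
      intro m
      rw [hMfd, Finset.mem_filter, Finset.mem_piAntidiag]
      constructor
      · exact fun h => h.2
      · exact fun h => ⟨⟨h.2.1, fun i _ => Finset.mem_univ i⟩, h⟩
    have hcard : M.ncard = Mf.card := by
      rw [← Set.ncard_coe_finset]
      congr 1
      ext m
      exact (hMf m).symm
    have hcb : ∀ b ∈ B, (cnt b k).ncard = (Mf.filter (fun m => m ∈ box b.1 b.2)).card := by
      intro b hb
      rw [← Set.ncard_coe_finset]
      congr 1
      ext m
      rw [Finset.mem_coe, Finset.mem_filter, hMf]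
      constructor
      · rintro ⟨h1, h2, h3⟩
        exact ⟨⟨hB1 b hb h1, h2, h3⟩, h1⟩
      · rintro ⟨⟨_, h2, h3⟩, h1⟩
        exact ⟨h1, h2, h3⟩
    have hU : Mf = B.biUnion (fun b => Mf.filter (fun m => m ∈ box b.1 b.2)) := by
      ext m
      rw [Finset.mem_biUnion]
      constructor
      · intro hm
        obtain ⟨b, ⟨hb, hmb⟩, _⟩ := hB2 m ((hMf m).1 hm).1
        exact ⟨b, hb, Finset.mem_filter.2 ⟨hm, hmb⟩⟩
      · rintro ⟨b, _, hm⟩
        exact (Finset.mem_filter.1 hm).1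
    have hU2 : (B.biUnion (fun b => Mf.filter (fun m => m ∈ box b.1 b.2))).card =
        ∑ b ∈ B, (Mf.filter (fun m => m ∈ box b.1 b.2)).card := by
      refine Finset.card_biUnion fun b hb b' hb' hne => ?_
      change Disjoint (Mf.filter (fun m => m ∈ box b.1 b.2)) (Mf.filter (fun m => m ∈ box b'.1 b'.2))
      rw [Finset.disjoint_left]
      intro m hm hm'
      rw [Finset.mem_filter] at hm hm'
      exact hne ((hB2 m ((hMf m).1 hm.1).1).unique ⟨hb, hm.2⟩ ⟨hb', hm'.2⟩)
    rw [hcard, Finset.sum_congr rfl hcb, ← hU2, ← hU]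
  simp only [hmain]
  push_cast
  refine QP_sum B (fun b k => ((cnt b k).ncard : ℝ)) ?_
  rintro ⟨v, T⟩ hb
  obtain ⟨v1, hv1⟩ : ∃ v1 : ι → ℕ, v1 = fun i => v (some i) := ⟨_, rfl⟩
  obtain ⟨T1, hT1⟩ : ∃ T1 : Finset ι, T1 = Finset.univ.filter (fun i => some i ∈ T) := ⟨_, rfl⟩
  have hbox : ∀ m : Option ι → ℕ, m ∈ box v T ↔ (fun i => m (some i)) ∈ box v1 T1 ∧
      (none ∈ T → v none ≤ m none) ∧ (none ∉ T → m none = v none) := by
    intro m
    unfold box
    rw [hv1, hT1]
    simp only [Set.mem_setOf_eq, Finset.mem_filter, Finset.mem_univ, true_and]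
    constructor
    · rintro ⟨h1, h2⟩
      exact ⟨⟨fun i hi => h1 (some i) hi, fun i hi => h2 (some i) hi⟩, fun h => h1 none h,
        fun h => h2 none h⟩
    · rintro ⟨⟨h1, h2⟩, h3, h4⟩
      constructor
      · intro o ho
        cases o with
        | none => exact h3 ho
        | some i => exact h1 i ho
      · intro o ho
        cases o with
        | none => exact h4 ho
        | some i => exact h2 i ho
  have hboxC : ∀ n ∈ box v1 T1, n ∈ C := by
    intro n hn
    have h1 : (fun o : Option ι => o.elim (v none) n) ∈ box v T :=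
      (hbox _).2 ⟨hn, fun _ => le_rfl, fun _ => rfl⟩
    exact (hB1 _ hb h1).1
  have hinj1 : Set.InjOn (fun n : ι → ℕ => ((∑ i, n i • x i, ∑ i, (n i : ℤ) * ε i) : A × ℤ))
      (box v1 T1) := fun n hn n' hn' h => hinj n n' (hboxC n hn) (hboxC n' hn') h
  obtain ⟨h1, h2⟩ := rank_bounds x ε v1 T1 hinj1
  have hG := QP_box v1 T1 ε hε 0 (Module.finrank ℤ A) h1 h2
  have hfinK : ∀ K : ℕ, {n : ι → ℕ | n ∈ box v1 T1 ∧ ∑ i, n i ≤ K ∧
      (∑ i, (n i : ℤ) * ε i = 0 ∨ ∑ i, (n i : ℤ) * ε i = 0 + 1)}.Finite := by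
    intro K
    refine (Set.finite_Icc (0 : ι → ℕ) (fun _ => K)).subset ?_
    rintro n ⟨_, hn, _⟩
    refine ⟨fun i => Nat.zero_le _, fun i => ?_⟩
    exact (Finset.single_le_sum (f := n) (fun j _ => Nat.zero_le _) (Finset.mem_univ i)).trans hn
  have hinjc : ∀ k, Set.InjOn (fun (m : Option ι → ℕ) (i : ι) => m (some i)) (cnt (v, T) k) := by
    intro k m hm m' hm' h
    have h7 := hm.2.1
    have h8 := hm'.2.1
    rw [Fintype.sum_option] at h7 h8
    have h9 : ∑ i, m (some i) = ∑ i, m' (some i) :=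
      Finset.sum_congr rfl fun i _ => congrFun h i
    funext o
    cases o with
    | none => omega
    | some i => exact congrFun h i
  by_cases hT : none ∈ T
  · refine QP_congr (QP_shift (v none) hG) ?_
    filter_upwards [eventually_ge_atTop (v none)] with k hk
    rw [← Set.ncard_image_of_injOn (hinjc k)]
    congr 2
    ext n
    constructor
    · rintro ⟨m, ⟨hm1, hm2, hm3⟩, rfl⟩
      have h3 := (hbox m).1 hm1
      refine ⟨h3.1, ?_, by rw [zero_add]; exact hm3⟩
      rw [Fintype.sum_option] at hm2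
      have h4 := h3.2.1 hT
      change ∑ i, m (some i) ≤ k - v none
      omega
    · rintro ⟨hn1, hn2, hn3⟩
      rw [zero_add] at hn3
      refine ⟨fun o => o.elim (k - ∑ i, n i) n, ⟨(hbox _).2 ⟨hn1, fun _ => ?_, fun h => absurd hT h⟩,
        ?_, hn3⟩, rfl⟩
      · change v none ≤ k - ∑ i, n i
        omega
      · rw [Fintype.sum_option]
        change k - ∑ i, n i + ∑ i, n i = k
        omega
  · refine QP_congr (QP_add (QP_shift (v none) hG) (QP_neg (QP_shift (v none + 1) hG))) ?_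
    filter_upwards [eventually_ge_atTop (v none + 1)] with k hk
    rw [← Set.ncard_image_of_injOn (hinjc k)]
    have hsub : {n : ι → ℕ | n ∈ box v1 T1 ∧ ∑ i, n i ≤ k - (v none + 1) ∧
        (∑ i, (n i : ℤ) * ε i = 0 ∨ ∑ i, (n i : ℤ) * ε i = 0 + 1)} ⊆
        {n : ι → ℕ | n ∈ box v1 T1 ∧ ∑ i, n i ≤ k - v none ∧
        (∑ i, (n i : ℤ) * ε i = 0 ∨ ∑ i, (n i : ℤ) * ε i = 0 + 1)} := by
      rintro n ⟨hn1, hn2, hn3⟩
      exact ⟨hn1, by omega, hn3⟩
    have him : (fun (m : Option ι → ℕ) (i : ι) => m (some i)) '' (cnt (v, T) k) =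
        {n : ι → ℕ | n ∈ box v1 T1 ∧ ∑ i, n i ≤ k - v none ∧
        (∑ i, (n i : ℤ) * ε i = 0 ∨ ∑ i, (n i : ℤ) * ε i = 0 + 1)} \
        {n : ι → ℕ | n ∈ box v1 T1 ∧ ∑ i, n i ≤ k - (v none + 1) ∧
        (∑ i, (n i : ℤ) * ε i = 0 ∨ ∑ i, (n i : ℤ) * ε i = 0 + 1)} := by
      ext n
      constructor
      · rintro ⟨m, ⟨hm1, hm2, hm3⟩, rfl⟩
        have h3 := (hbox m).1 hm1
        have h4 := h3.2.2 hT
        rw [Fintype.sum_option] at hm2
        refine ⟨⟨h3.1, ?_, by rw [zero_add]; exact hm3⟩, ?_⟩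
        · change ∑ i, m (some i) ≤ k - v none
          omega
        · rintro ⟨_, h5, _⟩
          have h5' : ∑ i, m (some i) ≤ k - (v none + 1) := h5
          omega
      · rintro ⟨⟨hn1, hn2, hn3⟩, hn4⟩
        have h6 : ¬ ∑ i, n i ≤ k - (v none + 1) := fun h => hn4 ⟨hn1, h, hn3⟩
        rw [zero_add] at hn3
        refine ⟨fun o => o.elim (v none) n, ⟨(hbox _).2 ⟨hn1, fun _ => le_rfl, fun _ => rfl⟩,
          ?_, hn3⟩, rfl⟩
        rw [Fintype.sum_option]
        change v none + ∑ i, n i = k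
        omega
    rw [him]
    have hdiff := Set.ncard_diff_add_ncard_of_subset hsub (hfinK (k - v none))
    rw [← hdiff]
    push_cast
    ring

end E2

end Pool.Agent.Helper602.Growth
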