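import Mathlib
import Pool.Agent.Helper602.Growth.QDefs
import Pool.Agent.Helper602.Growth.N1
import Pool.Agent.Helper602.Growth.F3
import Pool.Agent.Helper602.Growth.E2

set_option autoImplicit false

namespace Pool.Agent.Helper602.Growth

open Filter Topology

open N1 F3 E2

namespace E3


















section HZ

variable {G : Type} [Group G] {A₀ : Type} [AddCommGroup A₀]

noncomputable def hz_st (ε : G →* ℤˣ) (g : G) : ℤ := if ε g = 1 then 0 else 1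

def hz_x (p : G → A₀) (s : G) (b : Bool) : A₀ := if b then - p s else p s

noncomputable def hz_w (ε : G →* ℤˣ) (s : G) (b : Bool) : ℤ :=
  if ε s = 1 then 0 else if b then -1 else 1

noncomputable def hz_c (ε : G →* ℤˣ) (p : G → A₀) (S : Finset G) (k : ℕ) (a : A₀) (b : ℤ) : ℕ :=
  Set.ncard {g : G | g ∈ ball S k ∧ p g = a ∧ hz_st ε g = b}

theorem hz_neg_ne : ¬ ((-1 : ℤˣ) = 1) := by decide

theorem hz_ball_left (S : Finset G) (k : ℕ) (g u : G) (hg : g ∈ ball S k) (hu : u ∈ S ∨ u⁻¹ ∈ S) :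
    u * g ∈ ball S (k + 1) := by
  obtain ⟨l, hl, hl2, rfl⟩ := hg
  refine ⟨u :: l, by simpa using hl, ?_, by simp⟩
  intro s hs
  rcases List.mem_cons.mp hs with rfl | hs
  · exact hu
  · exact hl2 s hs

theorem hz_ball_right (S : Finset G) (k : ℕ) (g u : G) (hg : g ∈ ball S k) (hu : u ∈ S ∨ u⁻¹ ∈ S) :
    g * u ∈ ball S (k + 1) := by
  obtain ⟨l, hl, hl2, rfl⟩ := hg
  refine ⟨l ++ [u], by simpa using hl, ?_, by simp⟩
  intro s hs
  rcases List.mem_append.mp hs with hs | hs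
  · exact hl2 s hs
  · rw [List.mem_singleton] at hs
    rw [hs]
    exact hu

theorem hz_ball_mono (S : Finset G) (k k' : ℕ) (h : k ≤ k') : ball S k ⊆ ball S k' := by
  rintro g ⟨l, hl, hl2, rfl⟩
  exact ⟨l, hl.trans h, hl2, rfl⟩

theorem hz_c_map (ε : G →* ℤˣ) (p : G → A₀) (hfin : ∀ a : A₀, {g | p g = a}.Finite) (S : Finset G)
    (φ : G → G) (hφ : Function.Injective φ) (k k' : ℕ) (a a' : A₀) (b b' : ℤ)
    (hmap : ∀ g ∈ ball S k, p g = a → hz_st ε g = b → φ g ∈ ball S k' ∧ p (φ g) = a' ∧ hz_st ε (φ g) = b') :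
    hz_c ε p S k a b ≤ hz_c ε p S k' a' b' := by
  unfold hz_c
  refine Set.ncard_le_ncard_of_injOn φ ?_ ?_ ?_
  · rintro g ⟨h1, h2, h3⟩
    exact hmap g h1 h2 h3
  · exact fun _ _ _ _ h => hφ h
  · exact (hfin a').subset fun g hg => hg.2.1

theorem hz_sum_single {ι : Type} [Fintype ι] [DecidableEq ι] (n : ι → ℕ) (l : ι) (x : ι → A₀) (w : ι → ℤ) :
    (∑ i, (n + Pi.single l 1 : ι → ℕ) i = ∑ i, n i + 1) ∧
    (∑ i, (n + Pi.single l 1 : ι → ℕ) i • x i = ∑ i, n i • x i + x l) ∧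
    (∑ i, (((n + Pi.single l 1 : ι → ℕ) i : ℕ) : ℤ) * w i = ∑ i, (n i : ℤ) * w i + w l) := by
  refine ⟨?_, ?_, ?_⟩
  · simp [Finset.sum_add_distrib, Pi.single_apply]
  · simp [Finset.sum_add_distrib, Pi.single_apply, add_smul, ite_smul]
  · simp [Finset.sum_add_distrib, Pi.single_apply, add_mul]

theorem hz_p_one (ε : G →* ℤˣ) (p : G → A₀) (hp : ∀ g h, p (g * h) = p g + (ε g : ℤ) • p h) :
    p 1 = 0 := by
  have := hp 1 1
  simpa using this

theorem hz_p_inv (ε : G →* ℤˣ) (p : G → A₀) (hp : ∀ g h, p (g * h) = p g + (ε g : ℤ) • p h)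
    (t : G) (ht : ε t = 1) : p t⁻¹ = - p t := by
  have h1 := hp t⁻¹ t
  rw [inv_mul_cancel, hz_p_one ε p hp, map_inv, ht] at h1
  simp only [inv_one, Units.val_one, one_smul] at h1
  exact eq_neg_of_add_eq_zero_left h1.symm

theorem hz_step (ε : G →* ℤˣ) (p : G → A₀) (hp : ∀ g h, p (g * h) = p g + (ε g : ℤ) • p h) (g s : G) :
    ∃ b : Bool, p (g * s) = p g + hz_x p s b ∧ hz_st ε (g * s) = hz_st ε g + hz_w ε s b := by
  rcases Int.units_eq_one_or (ε g) with h | h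
  · refine ⟨false, ?_, ?_⟩
    · rw [hp, h]
      simp [hz_x]
    · rcases Int.units_eq_one_or (ε s) with h' | h'
      · simp [hz_st, hz_w, map_mul, h, h']
      · simp [hz_st, hz_w, map_mul, h, h', hz_neg_ne]
  · refine ⟨true, ?_, ?_⟩
    · rw [hp, h]
      simp [hz_x]
    · rcases Int.units_eq_one_or (ε s) with h' | h'
      · simp [hz_st, hz_w, map_mul, h, h', hz_neg_ne]
      · simp [hz_st, hz_w, map_mul, h, h', hz_neg_ne]

theorem hz_ball_M (ε : G →* ℤˣ) (p : G → A₀) (hp : ∀ g h, p (g * h) = p g + (ε g : ℤ) • p h)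
    (Lt : Finset G) [DecidableEq {s // s ∈ Lt}] (l : List G) (hl : ∀ s ∈ l, s ∈ Lt) :
    ∃ n : ({s // s ∈ Lt} × Bool) → ℕ, ∑ i, n i = l.length ∧ p l.prod = ∑ i, n i • hz_x p i.1.1 i.2 ∧
      hz_st ε l.prod = ∑ i, (n i : ℤ) * hz_w ε i.1.1 i.2 := by
  induction l using List.reverseRecOn with
  | nil => exact ⟨0, by simp, by simp [hz_p_one ε p hp], by simp [hz_st]⟩
  | append_singleton l s ih =>
    obtain ⟨n, hn1, hn2, hn3⟩ := ih (fun t ht => hl t (List.mem_append_left _ ht))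
    obtain ⟨b, hb1, hb2⟩ := hz_step ε p hp l.prod s
    have hs : s ∈ Lt := hl s (by simp)
    obtain ⟨e1, e2, e3⟩ := hz_sum_single n (⟨s, hs⟩, b) (fun i => hz_x p i.1.1 i.2) (fun i => hz_w ε i.1.1 i.2)
    refine ⟨n + Pi.single (⟨s, hs⟩, b) 1, ?_, ?_, ?_⟩
    · rw [e1, hn1]
      simp
    · rw [e2, List.prod_append, List.prod_singleton, hb1, hn2]
    · rw [e3, List.prod_append, List.prod_singleton, hb2, hn3]

/-- one letter -/
theorem hz_letter (ε : G →* ℤˣ) (p : G → A₀) (hp : ∀ g h, p (g * h) = p g + (ε g : ℤ) • p h)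
    (hfin : ∀ a : A₀, {g | p g = a}.Finite) (S : Finset G)
    (Lt : Finset G) (hLt : ∀ s, s ∈ Lt ↔ (s ∈ S ∨ s⁻¹ ∈ S))
    (n : ({s // s ∈ Lt} × Bool) → ℕ) (i : ℕ) (a : A₀) (b : ℤ) (hb : b = 0 ∨ b = 1)
    (hn : 1 ≤ ∑ i, n i)
    (hfinal : b + ∑ i, (n i : ℤ) * hz_w ε i.1.1 i.2 = 0 ∨ b + ∑ i, (n i : ℤ) * hz_w ε i.1.1 i.2 = 1) :
    ∃ l : {s // s ∈ Lt} × Bool, 1 ≤ n l ∧ (b + hz_w ε l.1.1 l.2 = 0 ∨ b + hz_w ε l.1.1 l.2 = 1) ∧
      hz_c ε p S i a b ≤ hz_c ε p S (i + 1) (a + hz_x p l.1.1 l.2) (b + hz_w ε l.1.1 l.2) := by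
  by_cases h0 : ∃ l : {s // s ∈ Lt} × Bool, 1 ≤ n l ∧ ε l.1.1 = 1
  · obtain ⟨⟨⟨t, ht⟩, β⟩, hn1, hε⟩ := h0
    have hε' : ε t = 1 := hε
    have hw : hz_w ε t β = 0 := by simp [hz_w, hε']
    refine ⟨(⟨t, ht⟩, β), hn1, ?_, ?_⟩
    · show b + hz_w ε t β = 0 ∨ b + hz_w ε t β = 1
      rw [hw, add_zero]
      exact hb
    · show hz_c ε p S i a b ≤ hz_c ε p S (i + 1) (a + hz_x p t β) (b + hz_w ε t β)
      rw [hw, add_zero]
      obtain ⟨u, hu1, hu2, hu3⟩ : ∃ u : G, (u ∈ S ∨ u⁻¹ ∈ S) ∧ ε u = 1 ∧ p u = hz_x p t β := by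
        cases β with
        | false => exact ⟨t, (hLt t).mp ht, hε', by simp [hz_x]⟩
        | true =>
          refine ⟨t⁻¹, ?_, ?_, ?_⟩
          · rw [inv_inv]
            exact ((hLt t).mp ht).symm
          · rw [map_inv, hε', inv_one]
          · rw [hz_p_inv ε p hp t hε']
            simp [hz_x]
      refine hz_c_map ε p hfin S (fun g => u * g) (mul_right_injective u) i (i + 1) _ _ _ _ ?_
      intro g hg hpg hst
      refine ⟨hz_ball_left S i g u hg hu1, ?_, ?_⟩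
      · rw [hp, hu2, hu3, hpg]
        simp [add_comm]
      · unfold hz_st at hst ⊢
        rw [map_mul, hu2, one_mul]
        exact hst
  · have h0' : ∀ l : {s // s ∈ Lt} × Bool, 1 ≤ n l → ε l.1.1 = -1 := by
      intro l hl
      rcases Int.units_eq_one_or (ε l.1.1) with h | h
      · exact absurd ⟨l, hl, h⟩ h0
      · exact h
    have hnZ : (1:ℤ) ≤ ∑ i, (n i : ℤ) := by exact_mod_cast hn
    rcases hb with rfl | rfl
    · obtain ⟨⟨⟨r, hr⟩, β⟩, hl1, hl2⟩ : ∃ l : {s // s ∈ Lt} × Bool, 1 ≤ n l ∧ l.2 = false := by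
        by_contra hcon
        push Not at hcon
        have h1 : ∑ i, (n i : ℤ) * hz_w ε i.1.1 i.2 ≤ ∑ i, - (n i : ℤ) := by
          refine Finset.sum_le_sum fun l _ => ?_
          rcases Nat.eq_zero_or_pos (n l) with h | h
          · simp [h]
          · have h2 : l.2 = true := by
              have := hcon l h
              simpa using this
            have h3 := h0' l h
            simp [hz_w, h3, h2, hz_neg_ne]
        rw [Finset.sum_neg_distrib] at h1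
        omega
      have hβ : β = false := hl2
      subst hβ
      have hεr : ε r = -1 := h0' _ hl1
      have hw : hz_w ε r false = 1 := by simp [hz_w, hεr, hz_neg_ne]
      refine ⟨(⟨r, hr⟩, false), hl1, ?_, ?_⟩
      · show 0 + hz_w ε r false = 0 ∨ 0 + hz_w ε r false = 1
        rw [hw]
        right
        norm_num
      · show hz_c ε p S i a 0 ≤ hz_c ε p S (i + 1) (a + hz_x p r false) (0 + hz_w ε r false)
        rw [hw]
        refine hz_c_map ε p hfin S (fun g => g * r) (mul_left_injective r) i (i + 1) _ _ _ _ ?_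
        intro g hg hpg hst
        have hεg : ε g = 1 := by
          by_contra hcon
          unfold hz_st at hst
          rw [if_neg hcon] at hst
          norm_num at hst
        refine ⟨hz_ball_right S i g r hg ((hLt r).mp hr), ?_, ?_⟩
        · rw [hp, hεg, hpg]
          simp [hz_x]
        · simp [hz_st, map_mul, hεg, hεr, hz_neg_ne]
    · obtain ⟨⟨⟨r, hr⟩, β⟩, hl1, hl2⟩ : ∃ l : {s // s ∈ Lt} × Bool, 1 ≤ n l ∧ l.2 = true := by
        by_contra hcon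
        push Not at hcon
        have h1 : ∑ i, (n i : ℤ) ≤ ∑ i, (n i : ℤ) * hz_w ε i.1.1 i.2 := by
          refine Finset.sum_le_sum fun l _ => ?_
          rcases Nat.eq_zero_or_pos (n l) with h | h
          · simp [h]
          · have h2 : l.2 = false := by
              have := hcon l h
              simpa using this
            have h3 := h0' l h
            simp [hz_w, h3, h2, hz_neg_ne]
        omega
      have hβ : β = true := hl2
      subst hβ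
      have hεr : ε r = -1 := h0' _ hl1
      have hw : hz_w ε r true = -1 := by simp [hz_w, hεr, hz_neg_ne]
      refine ⟨(⟨r, hr⟩, true), hl1, ?_, ?_⟩
      · show 1 + hz_w ε r true = 0 ∨ 1 + hz_w ε r true = 1
        rw [hw]
        left
        norm_num
      · show hz_c ε p S i a 1 ≤ hz_c ε p S (i + 1) (a + hz_x p r true) (1 + hz_w ε r true)
        rw [hw]
        refine hz_c_map ε p hfin S (fun g => g * r) (mul_left_injective r) i (i + 1) _ _ _ _ ?_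
        intro g hg hpg hst
        have hεg : ε g = -1 := by
          rcases Int.units_eq_one_or (ε g) with h | h
          · unfold hz_st at hst
            rw [if_pos h] at hst
            norm_num at hst
          · exact h
        refine ⟨hz_ball_right S i g r hg ((hLt r).mp hr), ?_, ?_⟩
        · rw [hp, hεg, hpg]
          simp [hz_x]
        · simp [hz_st, map_mul, hεg, hεr]

theorem hz_key (ε : G →* ℤˣ) (p : G → A₀) (hp : ∀ g h, p (g * h) = p g + (ε g : ℤ) • p h)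
    (hfin : ∀ a : A₀, {g | p g = a}.Finite) (S : Finset G)
    (Lt : Finset G) [DecidableEq {s // s ∈ Lt}] (hLt : ∀ s, s ∈ Lt ↔ (s ∈ S ∨ s⁻¹ ∈ S)) (j : ℕ) (N : ℕ) :
    ∀ (n : ({s // s ∈ Lt} × Bool) → ℕ) (i : ℕ) (a : A₀) (b : ℤ), ∑ i, n i = N → (b = 0 ∨ b = 1) →
    j ≤ hz_c ε p S i a b →
    (b + ∑ i, (n i : ℤ) * hz_w ε i.1.1 i.2 = 0 ∨ b + ∑ i, (n i : ℤ) * hz_w ε i.1.1 i.2 = 1) →
    j ≤ hz_c ε p S (i + N) (a + ∑ i, n i • hz_x p i.1.1 i.2) (b + ∑ i, (n i : ℤ) * hz_w ε i.1.1 i.2) := by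
  induction N with
  | zero =>
    intro n i a b hn hb hj _
    have h0 : ∀ i, n i = 0 := fun i => (Finset.sum_eq_zero_iff.mp hn) i (Finset.mem_univ i)
    simp only [h0]
    simpa using hj
  | succ N ih =>
    intro n i a b hn hb hj hfinal
    obtain ⟨l, hl1, hl2, hl3⟩ := hz_letter ε p hp hfin S Lt hLt n i a b hb (by omega) hfinal
    obtain ⟨n', hn'⟩ : ∃ n' : ({s // s ∈ Lt} × Bool) → ℕ, n = n' + Pi.single l 1 := by
      refine ⟨fun k => n k - (Pi.single l 1 : ({s // s ∈ Lt} × Bool) → ℕ) k, ?_⟩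
      funext k
      simp only [Pi.add_apply]
      by_cases hk : k = l
      · subst hk
        simp only [Pi.single_eq_same]
        omega
      · simp [Pi.single_eq_of_ne hk]
    obtain ⟨e1, e2, e3⟩ := hz_sum_single n' l (fun i => hz_x p i.1.1 i.2) (fun i => hz_w ε i.1.1 i.2)
    rw [← hn'] at e1 e2 e3
    rw [e2, e3]
    rw [e3] at hfinal
    have h1 := ih n' (i + 1) (a + hz_x p l.1.1 l.2) (b + hz_w ε l.1.1 l.2) (by omega) hl2 (hj.trans hl3) (by
      have : b + hz_w ε l.1.1 l.2 + ∑ i, (n' i : ℤ) * hz_w ε i.1.1 i.2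
        = b + (∑ i, (n' i : ℤ) * hz_w ε i.1.1 i.2 + hz_w ε l.1.1 l.2) := by ring
      rw [this]
      exact hfinal)
    have f1 : i + 1 + N = i + (N + 1) := by ring
    have f2 : a + hz_x p l.1.1 l.2 + ∑ i, n' i • hz_x p i.1.1 i.2
        = a + (∑ i, n' i • hz_x p i.1.1 i.2 + hz_x p l.1.1 l.2) := by abel
    have f3 : b + hz_w ε l.1.1 l.2 + ∑ i, (n' i : ℤ) * hz_w ε i.1.1 i.2
        = b + (∑ i, (n' i : ℤ) * hz_w ε i.1.1 i.2 + hz_w ε l.1.1 l.2) := by ring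
    rw [f1, f2, f3] at h1
    exact h1

theorem hz_c_le (ε : G →* ℤˣ) (p : G → A₀) (hp : ∀ g h, p (g * h) = p g + (ε g : ℤ) • p h)
    (hfin : ∀ a : A₀, {g | p g = a}.Finite) (S : Finset G) (k : ℕ) (a : A₀) (b : ℤ) :
    hz_c ε p S k a b ≤ Set.ncard {g | p g = (0 : A₀)} := by
  have h1 : hz_c ε p S k a b ≤ Set.ncard {g | p g = a} :=
    Set.ncard_le_ncard (fun g hg => hg.2.1) (hfin a)
  refine h1.trans ?_
  by_cases he : ∃ h : G, p h = a
  · obtain ⟨h, hh⟩ := he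
    refine Set.ncard_le_ncard_of_injOn (fun g => h⁻¹ * g) ?_ ?_ (hfin 0)
    · intro g hg
      have hg' : p g = a := hg
      show p (h⁻¹ * g) = 0
      have e1 := hp h⁻¹ h
      rw [inv_mul_cancel, hz_p_one ε p hp] at e1
      rw [hp, hg', ← hh, ← e1]
    · exact fun _ _ _ _ h' => mul_right_injective _ h'
  · have : {g | p g = a} = ∅ := by
      ext g
      constructor
      · intro hg
        exact absurd ⟨g, hg⟩ he
      · intro hg
        exact absurd hg (Set.notMem_empty g)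
    rw [this, Set.ncard_empty]
    exact Nat.zero_le _

theorem hz_count (c m : ℕ) (h : c ≤ m) : c = ∑ j ∈ Finset.Icc 1 m, if j ≤ c then 1 else 0 := by
  rw [← Finset.card_filter]
  have : (Finset.Icc 1 m).filter (fun j => j ≤ c) = Finset.Icc 1 c := by
    ext j
    simp only [Finset.mem_filter, Finset.mem_Icc]
    omega
  rw [this, Nat.card_Icc]
  omega

/-- the slices of `M_k` -/
def hz_D (ε : G →* ℤˣ) (p : G → A₀) (Lt : Finset G) (k : ℕ) : Set (A₀ × ℤ) :=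
  {y | (y.2 = 0 ∨ y.2 = 1) ∧ ∃ n : ({s // s ∈ Lt} × Bool) → ℕ, ∑ i, n i ≤ k ∧
    y = (∑ i, n i • hz_x p i.1.1 i.2, ∑ i, (n i : ℤ) * hz_w ε i.1.1 i.2)}

theorem hz_D_fin (ε : G →* ℤˣ) (p : G → A₀) (Lt : Finset G) [DecidableEq {s // s ∈ Lt}] (k : ℕ) :
    (hz_D ε p Lt k).Finite := by
  have h1 : (Set.Icc (0 : ({s // s ∈ Lt} × Bool) → ℕ) (fun _ => k)).Finite := Set.finite_Icc _ _
  refine (h1.image (fun n => (∑ i, n i • hz_x p i.1.1 i.2, ∑ i, (n i : ℤ) * hz_w ε i.1.1 i.2))).subset ?_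
  rintro y ⟨_, n, hn, rfl⟩
  refine ⟨n, ⟨fun i => Nat.zero_le _, fun i => ?_⟩, rfl⟩
  exact (Finset.single_le_sum (f := n) (fun i _ => Nat.zero_le _) (Finset.mem_univ i)).trans hn

theorem hz_ball_D (ε : G →* ℤˣ) (p : G → A₀) (hp : ∀ g h, p (g * h) = p g + (ε g : ℤ) • p h)
    (S : Finset G) (Lt : Finset G) [DecidableEq {s // s ∈ Lt}] (hLt : ∀ s, s ∈ Lt ↔ (s ∈ S ∨ s⁻¹ ∈ S))
    (k : ℕ) (g : G) (hg : g ∈ ball S k) : (p g, hz_st ε g) ∈ hz_D ε p Lt k := by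
  obtain ⟨l, hl, hl2, rfl⟩ := hg
  obtain ⟨n, hn1, hn2, hn3⟩ := hz_ball_M ε p hp Lt l (fun s hs => (hLt s).mpr (hl2 s hs))
  refine ⟨?_, n, by omega, by rw [hn2, hn3]⟩
  show hz_st ε l.prod = 0 ∨ hz_st ε l.prod = 1
  unfold hz_st
  split_ifs <;> simp

theorem hz_beta_sum (ε : G →* ℤˣ) (p : G → A₀) (hp : ∀ g h, p (g * h) = p g + (ε g : ℤ) • p h)
    (hfin : ∀ a : A₀, {g | p g = a}.Finite)
    (S : Finset G) (Lt : Finset G) [DecidableEq {s // s ∈ Lt}] (hLt : ∀ s, s ∈ Lt ↔ (s ∈ S ∨ s⁻¹ ∈ S))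
    (k : ℕ) : beta S k = ∑ y ∈ (hz_D_fin ε p Lt k).toFinset, hz_c ε p S k y.1 y.2 := by
  classical
  have hbf : (ball S k).Finite := by
    refine ((hz_D_fin ε p Lt k).biUnion (fun y _ => hfin y.1)).subset ?_
    intro g hg
    exact Set.mem_biUnion (hz_ball_D ε p hp S Lt hLt k g hg) rfl
  unfold beta
  rw [Set.ncard_eq_toFinset_card _ hbf,
    Finset.card_eq_sum_card_fiberwise (f := fun g => (p g, hz_st ε g)) (t := (hz_D_fin ε p Lt k).toFinset) (by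
      intro g hg
      have hg' : g ∈ ball S k := by simpa using hg
      simpa using hz_ball_D ε p hp S Lt hLt k g hg')]
  refine Finset.sum_congr rfl fun y _ => ?_
  unfold hz_c
  rw [← Set.ncard_coe_finset]
  congr 1
  ext g
  simp only [Finset.coe_filter, Set.Finite.mem_toFinset, Set.mem_setOf_eq]
  constructor
  · rintro ⟨h1, h2⟩
    exact ⟨h1, congrArg Prod.fst h2, congrArg Prod.snd h2⟩
  · rintro ⟨h1, h2, h3⟩
    exact ⟨h1, Prod.ext h2 h3⟩

def hz_Y (ε : G →* ℤˣ) (p : G → A₀) (S : Finset G) (Lt : Finset G) (j k : ℕ) : Set (A₀ × ℤ) :=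
  {y | ∃ (i : ℕ) (a : A₀) (b : ℤ) (n : ({s // s ∈ Lt} × Bool) → ℕ), (b = 0 ∨ b = 1) ∧
    j ≤ hz_c ε p S i a b ∧ i + ∑ i, n i ≤ k ∧
    y = (a + ∑ i, n i • hz_x p i.1.1 i.2, b + ∑ i, (n i : ℤ) * hz_w ε i.1.1 i.2)}

theorem hz_Y_iff (ε : G →* ℤˣ) (p : G → A₀) (hp : ∀ g h, p (g * h) = p g + (ε g : ℤ) • p h)
    (hfin : ∀ a : A₀, {g | p g = a}.Finite)
    (S : Finset G) (Lt : Finset G) [DecidableEq {s // s ∈ Lt}] (hLt : ∀ s, s ∈ Lt ↔ (s ∈ S ∨ s⁻¹ ∈ S))
    (j k : ℕ) (y : A₀ × ℤ) (hy : y.2 = 0 ∨ y.2 = 1) :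
    y ∈ hz_Y ε p S Lt j k ↔ j ≤ hz_c ε p S k y.1 y.2 := by
  constructor
  · rintro ⟨i, a, b, n, hb, hj, hk, rfl⟩
    have h1 := hz_key ε p hp hfin S Lt hLt j (∑ i, n i) n i a b rfl hb hj hy
    refine h1.trans ?_
    exact hz_c_map ε p hfin S id Function.injective_id _ _ _ _ _ _
      (fun g hg h1 h2 => ⟨hz_ball_mono S _ _ hk hg, h1, h2⟩)
  · intro h
    exact ⟨k, y.1, y.2, 0, hy, h, by simp, by simp⟩

end HZ



theorem beta_QP_cocycle {G : Type} [Group G] {A₀ : Type} [AddCommGroup A₀] [Module.Finite ℤ A₀]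
    (ε : G →* ℤˣ) (p : G → A₀) (hp : ∀ g h, p (g * h) = p g + (ε g : ℤ) • p h)
    (hfin : ∀ a : A₀, {g | p g = a}.Finite) (S : Finset G) :
    QP (Module.finrank ℤ A₀ + 1) (Module.finrank ℤ A₀ - 1) (fun k => (beta S k : ℝ)) := by
  classical
  obtain ⟨Lt, hLt⟩ : ∃ Lt : Finset G, ∀ s, s ∈ Lt ↔ (s ∈ S ∨ s⁻¹ ∈ S) := by
    refine ⟨S ∪ S.image (fun s => s⁻¹), fun s => ?_⟩
    rw [Finset.mem_union, Finset.mem_image]
    constructor
    · rintro (h | ⟨t, ht, rfl⟩)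
      · exact Or.inl h
      · right
        rwa [inv_inv]
    · rintro (h | h)
      · exact Or.inl h
      · exact Or.inr ⟨s⁻¹, h, inv_inv s⟩
  have hε : ∀ i : {s // s ∈ Lt} × Bool, hz_w ε i.1.1 i.2 = -1 ∨ hz_w ε i.1.1 i.2 = 0 ∨ hz_w ε i.1.1 i.2 = 1 := by
    intro i
    unfold hz_w
    split_ifs <;> simp
  have hQ1 := diff_slices_QP (A := A₀) (ι := {s // s ∈ Lt} × Bool) (fun i => hz_x p i.1.1 i.2)
    (fun i => hz_w ε i.1.1 i.2) hε (fun _ => ∅) (fun _ => subset_rfl) (fun k i y hy => absurd hy (Set.notMem_empty y))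
  have hQ2 := fun j => diff_slices_QP (A := A₀) (ι := {s // s ∈ Lt} × Bool) (fun i => hz_x p i.1.1 i.2)
    (fun i => hz_w ε i.1.1 i.2) hε (fun k => hz_Y ε p S Lt j k) (by
      rintro k y ⟨i, a, b, n, hb, hj, hk, rfl⟩
      exact ⟨i, a, b, n, hb, hj, by omega, rfl⟩) (by
      rintro k l y ⟨i, a, b, n, hb, hj, hk, rfl⟩
      obtain ⟨e1, e2, e3⟩ := hz_sum_single n l (fun i => hz_x p i.1.1 i.2) (fun i => hz_w ε i.1.1 i.2)
      refine ⟨i, a, b, n + Pi.single l 1, hb, hj, ?_, ?_⟩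
      · rw [e1]
        omega
      · rw [e2, e3]
        apply Prod.ext
        · show a + _ + _ = _
          rw [add_assoc]
        · show b + _ + _ = _
          rw [add_assoc])
  set m := Set.ncard {g | p g = (0 : A₀)} with hm
  refine QP_congr (QP_sum (Finset.Icc 1 m) _ (fun j _ => QP_add hQ1 (QP_neg (hQ2 j)))) ?_
  refine Filter.Eventually.of_forall fun k => ?_
  have hD1 : {y : A₀ × ℤ | (y.2 = 0 ∨ y.2 = 1) ∧
        (∃ n : ({s // s ∈ Lt} × Bool) → ℕ, ∑ i, n i ≤ k ∧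
          y = (∑ i, n i • hz_x p i.1.1 i.2, ∑ i, (n i : ℤ) * hz_w ε i.1.1 i.2)) ∧ y ∉ (∅ : Set (A₀ × ℤ))}
      = ((hz_D_fin ε p Lt k).toFinset : Set (A₀ × ℤ)) := by
    ext y
    rw [Set.Finite.coe_toFinset]
    constructor
    · rintro ⟨h1, h2, _⟩
      exact ⟨h1, h2⟩
    · rintro ⟨h1, h2⟩
      exact ⟨h1, h2, Set.notMem_empty y⟩
  have hD2 : ∀ j, {y : A₀ × ℤ | (y.2 = 0 ∨ y.2 = 1) ∧
        (∃ n : ({s // s ∈ Lt} × Bool) → ℕ, ∑ i, n i ≤ k ∧
          y = (∑ i, n i • hz_x p i.1.1 i.2, ∑ i, (n i : ℤ) * hz_w ε i.1.1 i.2)) ∧ y ∉ hz_Y ε p S Lt j k}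
      = (((hz_D_fin ε p Lt k).toFinset.filter (fun y => ¬ j ≤ hz_c ε p S k y.1 y.2) : Finset (A₀ × ℤ)) : Set (A₀ × ℤ)) := by
    intro j
    ext y
    rw [Finset.mem_coe, Finset.mem_filter, Set.Finite.mem_toFinset]
    constructor
    · rintro ⟨h1, h2, h3⟩
      exact ⟨⟨h1, h2⟩, fun hc => h3 ((hz_Y_iff ε p hp hfin S Lt hLt j k y h1).mpr hc)⟩
    · rintro ⟨⟨h1, h2⟩, h3⟩
      exact ⟨h1, h2, fun hc => h3 ((hz_Y_iff ε p hp hfin S Lt hLt j k y h1).mp hc)⟩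
  have hβ : beta S k = ∑ j ∈ Finset.Icc 1 m,
      ((hz_D_fin ε p Lt k).toFinset.filter (fun y => j ≤ hz_c ε p S k y.1 y.2)).card := by
    rw [hz_beta_sum ε p hp hfin S Lt hLt k]
    calc ∑ y ∈ (hz_D_fin ε p Lt k).toFinset, hz_c ε p S k y.1 y.2
        = ∑ y ∈ (hz_D_fin ε p Lt k).toFinset, ∑ j ∈ Finset.Icc 1 m, (if j ≤ hz_c ε p S k y.1 y.2 then 1 else 0) :=
          Finset.sum_congr rfl fun y _ => hz_count _ _ (hz_c_le ε p hp hfin S k y.1 y.2)
      _ = _ := by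
          rw [Finset.sum_comm]
          refine Finset.sum_congr rfl fun j _ => ?_
          rw [Finset.card_filter]
  rw [hβ]
  push_cast
  refine Finset.sum_congr rfl fun j _ => ?_
  rw [hD1, hD2 j, Set.ncard_coe_finset, Set.ncard_coe_finset]
  have h3 := Finset.card_filter_add_card_filter_not (s := (hz_D_fin ε p Lt k).toFinset)
    (fun y => j ≤ hz_c ε p S k y.1 y.2)
  have h4 : ((((hz_D_fin ε p Lt k).toFinset.filter (fun y => j ≤ hz_c ε p S k y.1 y.2)).card : ℕ) : ℝ)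
    + ((((hz_D_fin ε p Lt k).toFinset.filter (fun y => ¬ j ≤ hz_c ε p S k y.1 y.2)).card : ℕ) : ℝ)
    = (((hz_D_fin ε p Lt k).toFinset.card : ℕ) : ℝ) := by exact_mod_cast h3
  linarith

end E3

end Pool.Agent.Helper602.Growth
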