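import Mathlib
import Pool.Agent.Helper602.Growth.QDefs

set_option autoImplicit false

namespace Pool.Agent.Helper602.Growth

open Filter Topology

namespace E4


/- The cyclic case, proved, as a model for the proof (may be deleted). -/

/-- an infinite virtually cyclic group acts on `ℤ` by isometries `x ↦ p g + ε g * x` with finite fibres -/
theorem exists_cocycle {G : Type*} [Group G] [Infinite G] (H : Subgroup G) [H.FiniteIndex]
    (hH : IsCyclic H) :
    ∃ (ε : G →* ℤˣ) (p : G → ℤ), (∀ g h, p (g * h) = p g + (ε g : ℤ) * p h) ∧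
      ∀ n : ℤ, {g | p g = n}.Finite := by
  classical
  obtain ⟨N, hN⟩ : ∃ N : Subgroup G, N = H.normalCore := ⟨_, rfl⟩
  haveI hNn : N.Normal := by rw [hN]; infer_instance
  haveI hNf : N.FiniteIndex := by rw [hN]; infer_instance
  have hNH : N ≤ H := by rw [hN]; exact H.normalCore_le
  have hNc : IsCyclic N :=
    isCyclic_of_injective (Subgroup.inclusion hNH) (Subgroup.inclusion_injective hNH)
  obtain ⟨z, hz⟩ := (Subgroup.isCyclic_iff_exists_zpowers_eq_top N).1 hNc
  have hord : orderOf z = 0 := by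
    rw [← Nat.card_zpowers, hz]
    have h1 := N.card_mul_index
    have h2 : Nat.card G = 0 := Nat.card_eq_zero_of_infinite
    rw [h2] at h1
    rcases Nat.mul_eq_zero.1 h1 with h | h
    · exact h
    · exact absurd h hNf.index_ne_zero
  have hinj : Function.Injective (fun n : ℤ => z ^ n) :=
    injective_zpow_iff_not_isOfFinOrder.2 (orderOf_eq_zero_iff.1 hord)
  have hmem : ∀ x, x ∈ N → ∃ i : ℤ, z ^ i = x := by
    intro x hx
    rw [← hz] at hx
    exact Subgroup.mem_zpowers_iff.1 hx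
  have hzN : z ∈ N := by rw [← hz]; exact Subgroup.mem_zpowers z
  have hu : ∀ g : G, ∃ u : ℤˣ, g * z * g⁻¹ = z ^ (u : ℤ) := by
    intro g
    obtain ⟨e, he⟩ := hmem _ (hNn.conj_mem z hzN g)
    obtain ⟨f, hf⟩ := hmem _ (hNn.conj_mem z hzN g⁻¹)
    have h1 : e * f = 1 := by
      apply hinj
      show z ^ (e * f) = z ^ (1 : ℤ)
      rw [zpow_mul, he, conj_zpow, hf]
      group
    exact ⟨Units.mkOfMulEqOne e f h1, he.symm⟩
  choose eps heps using hu
  have hmul : ∀ g h, eps (g * h) = eps g * eps h := by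
    intro g h
    apply Units.ext
    apply hinj
    show z ^ ((eps (g * h) : ℤˣ) : ℤ) = z ^ ((eps g * eps h : ℤˣ) : ℤ)
    rw [← heps, Units.val_mul, zpow_mul, ← heps g, conj_zpow, ← heps h]
    group
  obtain ⟨ε, hε⟩ : ∃ ε : G →* ℤˣ, ∀ g, ε g = eps g := ⟨MonoidHom.mk' eps hmul, fun g => rfl⟩
  have hc : ∀ (g : G) (i : ℤ), g * z ^ i * g⁻¹ = z ^ ((ε g : ℤ) * i) := by
    intro g i
    rw [← conj_zpow, heps g, ← zpow_mul, hε]
  have hεz : ∀ i : ℤ, ε (z ^ i) = 1 := by
    intro i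
    apply Units.ext
    apply hinj
    show z ^ ((ε (z ^ i) : ℤˣ) : ℤ) = z ^ ((1 : ℤˣ) : ℤ)
    have := hc (z ^ i) 1
    rw [mul_one] at this
    rw [← this]
    simp
    group
  haveI : Finite (G ⧸ N) := inferInstance
  haveI : Fintype (G ⧸ N) := Fintype.ofFinite _
  have hA : ∀ (g : G) (q : G ⧸ N), ∃ a : ℤ, g * q.out = ((g : G ⧸ N) * q).out * z ^ a := by
    intro g q
    have h1 : (((g : G ⧸ N) * q).out)⁻¹ * (g * q.out) ∈ N := by
      rw [← QuotientGroup.eq]
      simp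
    obtain ⟨a, ha⟩ := hmem _ h1
    exact ⟨a, by rw [ha]; group⟩
  choose a ha using hA
  have hw : ∀ (g : G) (q : G ⧸ N), ε (((g : G ⧸ N) * q).out) = ε g * ε q.out := by
    intro g q
    rw [← map_mul, ha, map_mul, hεz, mul_one]
  have haa : ∀ (g h : G) (q : G ⧸ N), a (g * h) q = a g ((h : G ⧸ N) * q) + a h q := by
    intro g h q
    apply hinj
    show z ^ (a (g * h) q) = z ^ (a g ((h : G ⧸ N) * q) + a h q)
    have h1 := ha (g * h) q
    have h2 := ha g ((h : G ⧸ N) * q)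
    have h3 := ha h q
    have h4 : ((g * h : G) : G ⧸ N) * q = (g : G ⧸ N) * ((h : G ⧸ N) * q) := by
      rw [QuotientGroup.mk_mul, mul_assoc]
    rw [h4] at h1
    rw [zpow_add]
    have h5 : g * h * q.out = ((g : G ⧸ N) * ((h : G ⧸ N) * q)).out * (z ^ a g ((h : G ⧸ N) * q) * z ^ a h q) := by
      rw [mul_assoc g h, h3, ← mul_assoc, h2]
      group
    rw [h5] at h1
    exact (mul_left_cancel h1).symm
  refine ⟨ε, fun g => ∑ q : G ⧸ N, (ε (((g : G ⧸ N) * q).out) : ℤ) * a g q, ?_, ?_⟩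
  · intro g h
    show ∑ q : G ⧸ N, (ε ((((g * h : G) : G ⧸ N) * q).out) : ℤ) * a (g * h) q = _
    have e1 : ∀ q : G ⧸ N, (ε ((((g * h : G) : G ⧸ N) * q).out) : ℤ) * a (g * h) q =
        (ε (((g : G ⧸ N) * ((h : G ⧸ N) * q)).out) : ℤ) * a g ((h : G ⧸ N) * q) +
          (ε g : ℤ) * ((ε (((h : G ⧸ N) * q).out) : ℤ) * a h q) := by
      intro q
      rw [haa, mul_add]
      have h4 : ((g * h : G) : G ⧸ N) * q = (g : G ⧸ N) * ((h : G ⧸ N) * q) := by
        rw [QuotientGroup.mk_mul, mul_assoc]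
      rw [h4, hw g ((h : G ⧸ N) * q), Units.val_mul]
      ring
    rw [Finset.sum_congr rfl (fun q _ => e1 q), Finset.sum_add_distrib, ← Finset.mul_sum]
    congr 1
    exact Fintype.sum_equiv (Equiv.mulLeft (h : G ⧸ N)) _ _ (fun q => rfl)
  · intro n
    have hM : (0 : ℤ) < (Fintype.card (G ⧸ N) : ℤ) := by exact_mod_cast Fintype.card_pos
    have haz : ∀ (j : ℤ) (q : G ⧸ N), a (z ^ j) q = (ε q.out : ℤ) * j := by
      intro j q
      apply hinj
      show z ^ (a (z ^ j) q) = z ^ ((ε q.out : ℤ) * j)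
      have h1 := ha (z ^ j) q
      have h2 : ((z ^ j : G) : G ⧸ N) * q = q := by
        have : ((z ^ j : G) : G ⧸ N) = 1 := (QuotientGroup.eq_one_iff _).2 (N.zpow_mem hzN j)
        rw [this, one_mul]
      rw [h2] at h1
      have h3 : z ^ (a (z ^ j) q) = q.out⁻¹ * (z ^ j) * q.out⁻¹⁻¹ := by
        rw [inv_inv, mul_assoc, h1]
        group
      rw [h3, hc, map_inv]
      congr 2
      rcases Int.units_eq_one_or (ε q.out) with h | h <;> rw [h] <;> rfl
    have hpz : ∀ (g : G) (j : ℤ), ∑ q : G ⧸ N, (ε ((((g * z ^ j : G) : G ⧸ N) * q).out) : ℤ) * a (g * z ^ j) q =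
        (∑ q : G ⧸ N, (ε (((g : G ⧸ N) * q).out) : ℤ) * a g q) + (ε g : ℤ) * ((Fintype.card (G ⧸ N) : ℤ) * j) := by
      intro g j
      have e0 : ((z ^ j : G) : G ⧸ N) = 1 := (QuotientGroup.eq_one_iff _).2 (N.zpow_mem hzN j)
      have e1 : ∀ q : G ⧸ N, (ε ((((g * z ^ j : G) : G ⧸ N) * q).out) : ℤ) * a (g * z ^ j) q =
          (ε (((g : G ⧸ N) * q).out) : ℤ) * a g q + (ε g : ℤ) * j := by
        intro q
        rw [haa, QuotientGroup.mk_mul, e0, mul_one, one_mul, haz, mul_add]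
        congr 1
        rw [hw, Units.val_mul]
        have : (ε q.out : ℤ) * (ε q.out : ℤ) = 1 := by
          rw [← Units.val_mul, Int.units_mul_self]; rfl
        calc (ε g : ℤ) * (ε q.out : ℤ) * ((ε q.out : ℤ) * j)
            = (ε g : ℤ) * ((ε q.out : ℤ) * (ε q.out : ℤ)) * j := by ring
          _ = (ε g : ℤ) * j := by rw [this, mul_one]
      rw [Finset.sum_congr rfl (fun q _ => e1 q), Finset.sum_add_distrib, Finset.sum_const, Finset.card_univ, nsmul_eq_mul]
      ring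
    refine Set.Finite.of_injOn (f := fun g : G => (g : G ⧸ N)) (t := Set.univ) (fun _ _ => Set.mem_univ _) ?_ Set.finite_univ
    intro g hg g' hg' hgg
    have h1 : g⁻¹ * g' ∈ N := QuotientGroup.eq.1 hgg
    obtain ⟨j, hj⟩ := hmem _ h1
    have h2 : g' = g * z ^ j := by rw [hj]; group
    have hg1 : ∑ q : G ⧸ N, (ε (((g : G ⧸ N) * q).out) : ℤ) * a g q = n := hg
    have hg2 : ∑ q : G ⧸ N, (ε (((g' : G ⧸ N) * q).out) : ℤ) * a g' q = n := hg'
    rw [h2, hpz, hg1] at hg2
    have h3 : (ε g : ℤ) * ((Fintype.card (G ⧸ N) : ℤ) * j) = 0 := by linarith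
    have h4 : j = 0 := by
      rcases mul_eq_zero.1 h3 with h | h
      · exact absurd h (Units.ne_zero _)
      · rcases mul_eq_zero.1 h with h | h
        · exact absurd h hM.ne'
        · exact h
    rw [h2, h4]
    simp


/- To prove: -/

theorem exists_cocycle_general (G : Type) [Group G] (hfg : Group.FG G) (A : Subgroup G)
    (hidx : A.index ≠ 0) (hA : ∀ u ∈ A, ∀ v ∈ A, u * v = v * u)
    (h : ∀ g : G, (∀ a ∈ A, g * a * g⁻¹ = a) ∨ (∀ a ∈ A, g * a * g⁻¹ = a⁻¹)) :
    ∃ (A₀ : Type) (_ : AddCommGroup A₀) (_ : Module.Finite ℤ A₀) (ε : G →* ℤˣ) (p : G → A₀)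
      (ψ : Multiplicative A₀ →* G), Function.Injective ψ ∧
      (∀ g h, p (g * h) = p g + (ε g : ℤ) • p h) ∧ ∀ a : A₀, {g | p g = a}.Finite := by
  classical
  haveI := hfg
  haveI hAf : A.FiniteIndex := ⟨hidx⟩
  haveI hAn : A.Normal := by
    refine ⟨fun a ha g => ?_⟩
    rcases h g with h1 | h1
    · rw [h1 a ha]; exact ha
    · rw [h1 a ha]; exact A.inv_mem ha
  obtain ⟨ε, hε, hεA⟩ : ∃ ε : G →* ℤˣ, (∀ g, ∀ a ∈ A, g * a * g⁻¹ = a ^ ((ε g : ℤˣ) : ℤ)) ∧
      ∀ a ∈ A, ε a = 1 := by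
    by_cases hc : ∀ a ∈ A, a⁻¹ = a
    · refine ⟨1, fun g a ha => ?_, fun a _ => rfl⟩
      rcases h g with h1 | h1
      · rw [h1 a ha]; simp
      · rw [h1 a ha, hc a ha]; simp
    · push Not at hc
      obtain ⟨a0, ha0, hne⟩ := hc
      have hinj : ∀ u v : ℤˣ, a0 ^ (u : ℤ) = a0 ^ (v : ℤ) → u = v := by
        intro u v huv
        rcases Int.units_eq_one_or u with h1 | h1 <;> rcases Int.units_eq_one_or v with h2 | h2
        · rw [h1, h2]
        · rw [h1, h2] at huv; simp at huv; exact absurd huv.symm hne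
        · rw [h1, h2] at huv; simp at huv; exact absurd huv hne
        · rw [h1, h2]
      have hu : ∀ g : G, ∃ u : ℤˣ, ∀ a ∈ A, g * a * g⁻¹ = a ^ (u : ℤ) := by
        intro g
        rcases h g with h1 | h1
        · exact ⟨1, fun a ha => by rw [h1 a ha]; simp⟩
        · exact ⟨-1, fun a ha => by rw [h1 a ha]; simp⟩
      choose eps heps using hu
      have hmul : ∀ g h, eps (g * h) = eps g * eps h := by
        intro g k
        apply hinj
        rw [← heps (g * k) a0 ha0, Units.val_mul, zpow_mul, ← heps g a0 ha0, conj_zpow,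
          ← heps k a0 ha0]
        group
      refine ⟨MonoidHom.mk' eps hmul, fun g a ha => heps g a ha, fun a ha => ?_⟩
      apply hinj
      show a0 ^ ((eps a : ℤˣ) : ℤ) = a0 ^ ((1 : ℤˣ) : ℤ)
      rw [← heps a a0 ha0, hA a ha a0 ha0]
      simp
  letI instA : CommGroup A := { (inferInstance : Group A) with
    mul_comm := fun u v => Subtype.ext (hA u u.2 v v.2) }
  haveI : Group.FG A := inferInstance
  haveI hfin : Module.Finite ℤ (Additive A) := Module.Finite.iff_addGroup_fg.2 inferInstance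
  haveI : Finite (G ⧸ A) := inferInstance
  haveI : Fintype (G ⧸ A) := Fintype.ofFinite _
  have hmemA : ∀ (g : G) (q : G ⧸ A), (((g : G ⧸ A) * q).out)⁻¹ * (g * q.out) ∈ A := by
    intro g q
    rw [← QuotientGroup.eq]
    simp
  obtain ⟨aa, haa⟩ : ∃ aa : G → G ⧸ A → Additive A, ∀ g q,
      ((Additive.toMul (aa g q) : A) : G) = (((g : G ⧸ A) * q).out)⁻¹ * (g * q.out) :=
    ⟨fun g q => Additive.ofMul ⟨_, hmemA g q⟩, fun g q => rfl⟩
  have hval : ∀ x y : Additive A, ((Additive.toMul x : A) : G) = ((Additive.toMul y : A) : G) →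
      x = y := fun x y hxy => Additive.toMul.injective (Subtype.ext hxy)
  have hw : ∀ (g : G) (q : G ⧸ A), ε (((g : G ⧸ A) * q).out) = ε g * ε q.out := by
    intro g q
    have h1 : g * q.out = ((g : G ⧸ A) * q).out * ((((g : G ⧸ A) * q).out)⁻¹ * (g * q.out)) := by
      group
    rw [← map_mul, h1, map_mul, hεA _ (hmemA g q), mul_one]
  have hadd : ∀ (g k : G) (q : G ⧸ A), aa (g * k) q = aa g ((k : G ⧸ A) * q) + aa k q := by
    intro g k q
    apply hval
    rw [toMul_add, Subgroup.coe_mul, haa, haa, haa]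
    have h4 : ((g * k : G) : G ⧸ A) * q = (g : G ⧸ A) * ((k : G ⧸ A) * q) := by
      rw [QuotientGroup.mk_mul, mul_assoc]
    rw [h4]
    group
  obtain ⟨p, hp⟩ : ∃ p : G → Additive A, ∀ g, p g =
      ∑ q : G ⧸ A, ((ε (((g : G ⧸ A) * q).out) : ℤˣ) : ℤ) • aa g q := ⟨_, fun g => rfl⟩
  have hcoc : ∀ g k, p (g * k) = p g + ((ε g : ℤˣ) : ℤ) • p k := by
    intro g k
    rw [hp, hp, hp]
    have e1 : ∀ q : G ⧸ A, ((ε ((((g * k : G) : G ⧸ A) * q).out) : ℤˣ) : ℤ) • aa (g * k) q =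
        ((ε (((g : G ⧸ A) * ((k : G ⧸ A) * q)).out) : ℤˣ) : ℤ) • aa g ((k : G ⧸ A) * q) +
          ((ε g : ℤˣ) : ℤ) • (((ε (((k : G ⧸ A) * q).out) : ℤˣ) : ℤ) • aa k q) := by
      intro q
      rw [hadd, smul_add]
      have h4 : ((g * k : G) : G ⧸ A) * q = (g : G ⧸ A) * ((k : G ⧸ A) * q) := by
        rw [QuotientGroup.mk_mul, mul_assoc]
      rw [h4]
      congr 1
      rw [smul_smul, ← Units.val_mul, hw g ((k : G ⧸ A) * q)]
    rw [Finset.sum_congr rfl (fun q _ => e1 q), Finset.sum_add_distrib, ← Finset.smul_sum]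
    congr 1
    exact Fintype.sum_equiv (Equiv.mulLeft (k : G ⧸ A)) _ _ (fun q => rfl)
  have hpz : ∀ z : A, p (z : G) = (Fintype.card (G ⧸ A)) • (Additive.ofMul z) := by
    intro z
    rw [hp]
    have e0 : ((z : G) : G ⧸ A) = 1 := (QuotientGroup.eq_one_iff _).2 z.2
    have e1 : ∀ q : G ⧸ A, ((ε ((((z : G) : G ⧸ A) * q).out) : ℤˣ) : ℤ) • aa (z : G) q =
        Additive.ofMul z := by
      intro q
      apply hval
      rw [toMul_zsmul, Subgroup.coe_zpow, haa, e0, one_mul, toMul_ofMul]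
      have h3 : q.out⁻¹ * ((z : G) * q.out) = q.out⁻¹ * (z : G) * q.out⁻¹⁻¹ := by
        rw [inv_inv, mul_assoc]
      rw [h3, hε q.out⁻¹ z z.2, map_inv, ← zpow_mul]
      rcases Int.units_eq_one_or (ε q.out) with h | h <;> rw [h] <;> simp
    rw [Finset.sum_congr rfl (fun q _ => e1 q), Finset.sum_const, Finset.card_univ]
  have hm : Fintype.card (G ⧸ A) ≠ 0 := Fintype.card_ne_zero
  -- the torsion is finite
  have htor : {x : Additive A | (Fintype.card (G ⧸ A)) • x = 0}.Finite := by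
    let N : Submodule ℤ (Additive A) := Submodule.torsionBy ℤ (Additive A) (Fintype.card (G ⧸ A) : ℤ)
    haveI : Module.Finite ℤ N := inferInstance
    have hN : Module.IsTorsion ℤ N := by
      intro x
      refine ⟨⟨(Fintype.card (G ⧸ A) : ℤ), mem_nonZeroDivisors_of_ne_zero (by exact_mod_cast hm)⟩, ?_⟩
      apply Subtype.ext
      exact (Submodule.mem_torsionBy_iff _ _).1 x.2
    haveI : Finite N := Module.finite_of_fg_torsion N hN
    have : {x : Additive A | (Fintype.card (G ⧸ A)) • x = 0} = (N : Set (Additive A)) := by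
      ext x
      simp only [Set.mem_setOf_eq, SetLike.mem_coe]
      rw [show x ∈ N ↔ x ∈ Submodule.torsionBy ℤ (Additive A) (Fintype.card (G ⧸ A) : ℤ) from Iff.rfl,
        Submodule.mem_torsionBy_iff, natCast_zsmul]
    rw [this]
    exact Set.toFinite _
  refine ⟨Additive A, inferInstance, hfin, ε, p, A.subtype.comp
    (MulEquiv.refl A : A ≃* A).toMonoidHom, ?_, hcoc, fun a => ?_⟩
  · exact A.subtype_injective
  · refine Set.Finite.of_finite_fibers (fun g : G => (g : G ⧸ A)) (Set.toFinite _) ?_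
    rintro _ ⟨g0, hg0, rfl⟩
    refine (htor.image (fun x : Additive A => g0 * ((Additive.toMul x : A) : G))).subset ?_
    rintro g ⟨hg, hgg⟩
    have h1 : g0⁻¹ * g ∈ A := QuotientGroup.eq.1 (show (g0 : G ⧸ A) = g from hgg.symm)
    refine ⟨Additive.ofMul ⟨_, h1⟩, ?_, ?_⟩
    · have h2 := hcoc g0 (g0⁻¹ * g)
      rw [mul_inv_cancel_left, show p g = a from hg, show p g0 = a from hg0] at h2
      have h3 : ((ε g0 : ℤˣ) : ℤ) • p (g0⁻¹ * g) = 0 := by
        have := h2
        simpa using this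
      have h4 : p (g0⁻¹ * g) = 0 := by
        rcases Int.units_eq_one_or (ε g0) with h | h <;> rw [h] at h3 <;> simpa using h3
      rw [show g0⁻¹ * g = ((⟨_, h1⟩ : A) : G) from rfl, hpz] at h4
      exact h4
    · show g0 * (g0⁻¹ * g) = g
      rw [mul_inv_cancel_left]

end E4

end Pool.Agent.Helper602.Growth
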