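import Mathlib
import Pool.Agent.Helper602.Growth.QDefs

set_option autoImplicit false

namespace Pool.Agent.Helper602.Growth

open Filter Topology

namespace N3d


theorem box_count_aux {ι : Type} [Fintype ι] [DecidableEq ι] (v : ι → ℕ) (T : Finset ι) (k : ℕ)
    (hk : ∑ i, v i ≤ k) :
    Set.ncard {n : ι → ℕ | n ∈ box v T ∧ ∑ i, n i = k} = T.card.multichoose (k - ∑ i, v i) := by
  have h1 : {n : ι → ℕ | n ∈ box v T ∧ ∑ i, n i = k} =
      (fun (f : ι →₀ ℕ) (i : ι) => v i + f i) ''
        (↑(Finset.finsuppAntidiag T (k - ∑ i, v i)) : Set (ι →₀ ℕ)) := by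
    ext n
    simp only [Set.mem_setOf_eq, Set.mem_image, Finset.mem_coe, Finset.mem_finsuppAntidiag]
    constructor
    · rintro ⟨⟨ha, hb⟩, hc⟩
      have hvn : ∀ i, v i ≤ n i := by
        intro i
        by_cases hi : i ∈ T
        · exact ha i hi
        · exact (hb i hi).ge
      refine ⟨Finsupp.equivFunOnFinite.symm (fun i => n i - v i), ⟨?_, ?_⟩, ?_⟩
      · have h2 : ∑ i ∈ T, (n i - v i) = ∑ i, (n i - v i) := by
          apply Finset.sum_subset (Finset.subset_univ T)
          intro i _ hi
          rw [hb i hi]; simp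
        have h3 : ∑ i, (n i - v i) + ∑ i, v i = k := by
          rw [← Finset.sum_add_distrib, ← hc]
          apply Finset.sum_congr rfl
          intro i _
          exact Nat.sub_add_cancel (hvn i)
        have h4 : ∑ i ∈ T, (Finsupp.equivFunOnFinite.symm (fun i => n i - v i)) i
            = ∑ i ∈ T, (n i - v i) := by
          apply Finset.sum_congr rfl
          intro i _
          simp
        rw [h4, h2]
        omega
      · intro i hi
        by_contra hiT
        rw [Finsupp.mem_support_iff] at hi
        apply hi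
        simp [hb i hiT]
      · funext i
        have := hvn i
        simp only [Finsupp.equivFunOnFinite_symm_apply_apply]
        omega
    · rintro ⟨f, ⟨hf1, hf2⟩, rfl⟩
      refine ⟨⟨fun i _ => by simp, fun i hi => ?_⟩, ?_⟩
      · have : f i = 0 := by
          by_contra h
          exact hi (hf2 (Finsupp.mem_support_iff.mpr h))
        simp [this]
      · have h2 : ∑ i ∈ T, f i = ∑ i, f i := by
          apply Finset.sum_subset (Finset.subset_univ T)
          intro i _ hi
          by_contra h
          exact hi (hf2 (Finsupp.mem_support_iff.mpr h))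
        rw [Finset.sum_add_distrib, ← h2, hf1]
        omega
  rw [h1, Set.ncard_image_of_injective, Set.ncard_coe_finset,
    Finset.card_finsuppAntidiag_nat_eq_multichoose]
  intro f g hfg
  ext i
  have := congrFun hfg i
  simp only at this
  omega

theorem QP_box_exact {ι : Type} [Fintype ι] [DecidableEq ι] (v : ι → ℕ) (T : Finset ι) (d : ℕ)
    (h1 : T.card ≤ d) :
    QP d 0 (fun k => ((Set.ncard {n : ι → ℕ | n ∈ box v T ∧ ∑ i, n i = k} : ℕ) : ℝ)) := by
  by_cases hT : T.card = 0
  · refine ⟨0, 0, ?_, ?_, ?_⟩
    · rw [Polynomial.degree_zero]; exact WithBot.bot_lt_coe _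
    · rw [Polynomial.degree_zero]; exact WithBot.bot_lt_coe _
    · filter_upwards [eventually_gt_atTop (∑ i, v i)] with k hk
      rw [box_count_aux v T k hk.le, hT]
      obtain ⟨m, hm⟩ : ∃ m, k - ∑ i, v i = m + 1 := ⟨k - ∑ i, v i - 1, by omega⟩
      rw [hm, Nat.multichoose_zero_succ]
      simp
  · obtain ⟨t, ht⟩ : ∃ t, T.card = t + 1 := ⟨T.card - 1, by omega⟩
    refine ⟨Polynomial.C (1 / (t.factorial : ℝ)) * (ascPochhammer ℝ t).comp
      (Polynomial.X + Polynomial.C (1 - ((∑ i, v i : ℕ) : ℝ))), 0, ?_, ?_, ?_⟩
    · have h2 : (Polynomial.C (1 / (t.factorial : ℝ)) * (ascPochhammer ℝ t).comp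
          (Polynomial.X + Polynomial.C (1 - ((∑ i, v i : ℕ) : ℝ)))).natDegree ≤ t := by
        refine (Polynomial.natDegree_C_mul_le _ _).trans ?_
        rw [Polynomial.natDegree_comp, ascPochhammer_natDegree, Polynomial.natDegree_X_add_C]
        simp
      refine lt_of_le_of_lt (Polynomial.degree_le_of_natDegree_le h2) ?_
      exact_mod_cast (show t < d by omega)
    · rw [Polynomial.degree_zero]; exact WithBot.bot_lt_coe _
    · filter_upwards [eventually_ge_atTop (∑ i, v i)] with k hk
      rw [box_count_aux v T k hk, ht]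
      obtain ⟨K, hK⟩ : ∃ K, k = (∑ i, v i) + K := ⟨k - ∑ i, v i, by omega⟩
      have h3 : k - ∑ i, v i = K := by omega
      rw [h3]
      have h4 : Polynomial.eval (k : ℝ) (Polynomial.C (1 / (t.factorial : ℝ)) *
          (ascPochhammer ℝ t).comp
          (Polynomial.X + Polynomial.C (1 - ((∑ i, v i : ℕ) : ℝ))))
          = (1 / (t.factorial : ℝ)) * (ascPochhammer ℝ t).eval ((K + 1 : ℕ) : ℝ) := by
        rw [Polynomial.eval_mul, Polynomial.eval_C, Polynomial.eval_comp]
        congr 2
        rw [Polynomial.eval_add, Polynomial.eval_X, Polynomial.eval_C, hK]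
        push_cast
        ring
      rw [h4, ascPochhammer_nat_eq_natCast_ascFactorial, Nat.ascFactorial_eq_factorial_mul_choose,
        Nat.multichoose_eq]
      have h5 : (t + 1 + K - 1).choose K = (K + t).choose t := by
        have : t + 1 + K - 1 = K + t := by omega
        rw [this]
        exact (Nat.choose_symm_add).symm ▸ rfl
      rw [h5]
      have h6 : (t.factorial : ℝ) ≠ 0 := by exact_mod_cast t.factorial_ne_zero
      push_cast
      rw [Polynomial.eval_zero]
      field_simp
      ring

end N3d

end Pool.Agent.Helper602.Growth
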