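import Mathlib
import Pool.Agent.Helper602.Growth.QDefs
import Pool.Agent.Helper602.Growth.N1
import Pool.Agent.Helper602.Growth.N4
import Pool.Agent.Helper602.Growth.N5
import Pool.Agent.Helper602.Growth.N6
import Pool.Agent.Helper602.Growth.N3d

set_option autoImplicit false

namespace Pool.Agent.Helper602.Growth

open Filter Topology

open N1 N4 N5 N6 N3d

namespace N8




theorem cnt_boxes {ι : Type} [Fintype ι] [DecidableEq ι] (D : Set (ι → ℕ))
    (B : Finset ((ι → ℕ) × Finset ι)) (h1 : ∀ b ∈ B, box b.1 b.2 ⊆ D)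
    (h2 : ∀ n ∈ D, ∃! b, b ∈ B ∧ n ∈ box b.1 b.2) (k : ℕ) :
    Set.ncard {n : ι → ℕ | n ∈ D ∧ ∑ i, n i = k} =
      ∑ b ∈ B, Set.ncard {n : ι → ℕ | n ∈ box b.1 b.2 ∧ ∑ i, n i = k} := by
  classical
  have key : ∀ s : Set (ι → ℕ), Set.ncard {n : ι → ℕ | n ∈ s ∧ ∑ i, n i = k} =
      ((Finset.piAntidiag (Finset.univ : Finset ι) k).filter (fun n => n ∈ s)).card := by
    intro s
    rw [← Set.ncard_coe_finset]
    congr 1
    ext n
    simp [Finset.mem_piAntidiag, and_comm]
  rw [key D]
  simp_rw [key, Finset.card_filter]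
  rw [Finset.sum_comm]
  refine Finset.sum_congr rfl fun n _ => ?_
  by_cases hD : n ∈ D
  · obtain ⟨b, ⟨hb, hnb⟩, hu⟩ := h2 n hD
    rw [if_pos hD, Finset.sum_eq_single b]
    · rw [if_pos hnb]
    · intro c hc hcb
      rw [if_neg]
      intro hnc
      exact hcb (hu c ⟨hc, hnc⟩)
    · intro hb'
      exact absurd hb hb'
  · rw [if_neg hD]
    symm
    refine Finset.sum_eq_zero fun b hb => ?_
    rw [if_neg]
    intro hnb
    exact hD (h1 b hb hnb)

theorem add_many {A : Type} [AddCommGroup A] {ι : Type} [DecidableEq ι] (x : ι → A)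
    (Y : ℕ → Set A) (hadd : ∀ k i, ∀ y ∈ Y k, y + x i ∈ Y (k + 1)) (s : Finset ι) (n : ι → ℕ) :
    ∀ (K : ℕ) (y : A), y ∈ Y K → y + ∑ i ∈ s, n i • x i ∈ Y (K + ∑ i ∈ s, n i) := by
  classical
  have one : ∀ (a : ι) (j K : ℕ) (y : A), y ∈ Y K → y + j • x a ∈ Y (K + j) := by
    intro a j
    induction j with
    | zero => intro K y hy; simpa using hy
    | succ j ih =>
      intro K y hy
      have := hadd _ a _ (ih K y hy)
      have e : y + (j + 1) • x a = y + j • x a + x a := by rw [add_smul, one_smul]; abel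
      rw [e]
      exact this
  induction s using Finset.induction_on with
  | empty => intro K y hy; simpa using hy
  | insert a s ha ih =>
    intro K y hy
    rw [Finset.sum_insert ha, Finset.sum_insert ha]
    have h := ih _ _ (one a (n a) K y hy)
    rw [← add_assoc, ← add_assoc]
    exact h

/-- complement of a submodule in the module of sums -/
theorem diff_QP {A : Type} [AddCommGroup A] [Module.Finite ℤ A] {ι : Type} [Fintype ι]
    [DecidableEq ι] (x : ι → A) (Y : ℕ → Set A) (hmono : ∀ k, Y k ⊆ Y (k + 1))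
    (hadd : ∀ k i, ∀ y ∈ Y k, y + x i ∈ Y (k + 1)) :
    QP (Module.finrank ℤ A + 1) 0
      (fun k => ((Set.ncard {y : A | (∃ n : ι → ℕ, ∑ i, n i ≤ k ∧ y = ∑ i, n i • x i) ∧
        y ∉ Y k} : ℕ) : ℝ)) := by
  classical
  obtain ⟨C0, hlow0, hinj0, hrep0⟩ := canonical (κ := Unit) x (fun _ => (0 : A))
  set C : Set (ι → ℕ) := C0 () with hC
  have hlow : IsLowerSet C := hlow0 ()
  have hinj : ∀ n m : ι → ℕ, n ∈ C → m ∈ C → ∑ i, n i • x i = ∑ i, m i • x i → n = m := by
    intro n m hn hm h
    exact (hinj0 () () n m hn hm (by simpa using h)).2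
  have hrep : ∀ n : ι → ℕ, ∃ m ∈ C, ∑ i, m i • x i = ∑ i, n i • x i ∧ ∑ i, m i ≤ ∑ i, n i := by
    intro n
    obtain ⟨b, m, hm, h1, h2⟩ := hrep0 () n
    cases b
    exact ⟨m, hm, by simpa using h1, h2⟩
  have hmono' : Monotone Y := monotone_nat_of_le_succ hmono
  set D : Set (Option ι → ℕ) := {m | (fun i => m (some i)) ∈ C ∧
    ∑ i, m (some i) • x i ∉ Y (∑ j, m j)} with hDdef
  have hDlow : IsLowerSet D := by
    intro m1 m hle hm1
    obtain ⟨h1, h2⟩ := hm1
    refine ⟨hlow (fun i => hle (some i)) h1, fun hmem => h2 ?_⟩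
    have h3 := add_many x Y hadd Finset.univ (fun i => m1 (some i) - m (some i)) _ _ hmem
    have e1 : ∑ i, m (some i) • x i + ∑ i, (m1 (some i) - m (some i)) • x i =
        ∑ i, m1 (some i) • x i := by
      rw [← Finset.sum_add_distrib]
      refine Finset.sum_congr rfl fun i _ => ?_
      rw [← add_smul]
      congr 1
      have : m (some i) ≤ m1 (some i) := hle (some i)
      omega
    rw [e1] at h3
    refine hmono' ?_ h3
    have e2 : ∑ i, m (some i) + ∑ i, (m1 (some i) - m (some i)) = ∑ i, m1 (some i) := by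
      rw [← Finset.sum_add_distrib]
      refine Finset.sum_congr rfl fun i _ => ?_
      have : m (some i) ≤ m1 (some i) := hle (some i)
      omega
    rw [Fintype.sum_option, Fintype.sum_option]
    have : m none ≤ m1 none := hle none
    omega
  obtain ⟨B, hB1, hB2⟩ := lower_boxes D hDlow
  have hcard : ∀ b ∈ B, b.2.card ≤ Module.finrank ℤ A + 1 := by
    intro b hb
    set T' : Finset ι := Finset.univ.filter (fun i => some i ∈ b.2) with hT'
    have hsub : box (fun i => b.1 (some i)) T' ⊆ C := by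
      intro n hn
      have hmem : (fun j : Option ι => j.elim (b.1 none) n) ∈ box b.1 b.2 := by
        refine ⟨?_, ?_⟩
        · intro j hj
          cases j with
          | none => simp
          | some i => exact hn.1 i (by rw [hT']; simpa using hj)
        · intro j hj
          cases j with
          | none => simp
          | some i => exact hn.2 i (by rw [hT']; simpa using hj)
      have := (hB1 b hb hmem).1
      simpa using this
    have hi : Set.InjOn (fun n : ι → ℕ =>
        ((∑ i, n i • x i, ∑ i, (n i : ℤ) * (fun _ : ι => (0 : ℤ)) i) : A × ℤ))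
        (box (fun i => b.1 (some i)) T') := by
      intro n hn m hm h
      have h1 := congrArg Prod.fst h
      exact hinj n m (hsub hn) (hsub hm) h1
    have hr := (rank_bounds x (fun _ => (0 : ℤ)) _ T' hi).2
    have hf : T'.filter (fun i => (fun _ : ι => (0 : ℤ)) i = 0) = T' := by simp
    rw [hf] at hr
    have hT : b.2 ⊆ insert none (T'.map ⟨some, Option.some_injective ι⟩) := by
      intro j hj
      cases j with
      | none => simp
      | some i =>
        refine Finset.mem_insert_of_mem ?_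
        rw [Finset.mem_map]
        exact ⟨i, by rw [hT']; simpa using hj, rfl⟩
    calc b.2.card ≤ (insert none (T'.map ⟨some, Option.some_injective ι⟩)).card :=
          Finset.card_le_card hT
      _ ≤ (T'.map ⟨some, Option.some_injective ι⟩).card + 1 := Finset.card_insert_le _ _
      _ = T'.card + 1 := by rw [Finset.card_map]
      _ ≤ _ := by omega
  have hmain : ∀ k : ℕ, Set.ncard {y : A | (∃ n : ι → ℕ, ∑ i, n i ≤ k ∧ y = ∑ i, n i • x i) ∧
        y ∉ Y k} = ∑ b ∈ B, Set.ncard {n : Option ι → ℕ | n ∈ box b.1 b.2 ∧ ∑ i, n i = k} := by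
    intro k
    rw [← cnt_boxes D B hB1 hB2 k]
    have himg : {y : A | (∃ n : ι → ℕ, ∑ i, n i ≤ k ∧ y = ∑ i, n i • x i) ∧ y ∉ Y k} =
        (fun m : Option ι → ℕ => ∑ i, m (some i) • x i) ''
          {m : Option ι → ℕ | m ∈ D ∧ ∑ j, m j = k} := by
      ext y
      constructor
      · rintro ⟨⟨n, hn, rfl⟩, hy⟩
        obtain ⟨m, hm, hv, hs⟩ := hrep n
        refine ⟨fun j => j.elim (k - ∑ i, m i) m, ⟨⟨?_, ?_⟩, ?_⟩, ?_⟩
        · simpa using hm
        · rw [Fintype.sum_option]
          simp only [Option.elim_none, Option.elim_some]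
          rw [hv]
          have e : k - ∑ i, m i + ∑ i, m i = k := by omega
          rw [e]
          exact hy
        · rw [Fintype.sum_option]
          simp only [Option.elim_none, Option.elim_some]
          omega
        · simpa using hv
      · rintro ⟨m, ⟨⟨h1, h2⟩, h3⟩, rfl⟩
        refine ⟨⟨fun i => m (some i), ?_, rfl⟩, ?_⟩
        · rw [Fintype.sum_option] at h3
          simp only
          omega
        · rw [h3] at h2
          exact h2
    rw [himg, Set.InjOn.ncard_image]
    rintro m ⟨⟨h1, -⟩, h3⟩ m' ⟨⟨h1', -⟩, h3'⟩ h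
    have h4 := hinj _ _ h1 h1' h
    funext j
    rw [Fintype.sum_option] at h3 h3'
    have h5 : ∀ i, m (some i) = m' (some i) := fun i => congrFun h4 i
    cases j with
    | none =>
      have h6 : ∑ i, m (some i) = ∑ i, m' (some i) := Finset.sum_congr rfl fun i _ => h5 i
      omega
    | some i => exact h5 i
  refine QP_congr (QP_sum B (fun b k =>
    ((Set.ncard {n : Option ι → ℕ | n ∈ box b.1 b.2 ∧ ∑ i, n i = k} : ℕ) : ℝ)) ?_) ?_
  · intro b hb
    exact QP_box_exact b.1 b.2 _ (hcard b hb)
  · refine Filter.Eventually.of_forall fun k => ?_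
    rw [hmain k]
    push_cast
    rfl

end N8

end Pool.Agent.Helper602.Growth
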