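import Mathlib
import Pool.Agent.Helper602.Growth.QDefs
import Pool.Agent.Helper602.Growth.N1
import Pool.Agent.Helper602.Growth.F3
import Pool.Agent.Helper602.Growth.N8

set_option autoImplicit false

namespace Pool.Agent.Helper602.Growth

open Filter Topology

open N1 F3 N8

namespace F1




theorem lists_iff {A : Type} [AddCommGroup A] {ι : Type} [Fintype ι] [DecidableEq ι] (x : ι → A)
    (k : ℕ) (y : A) :
    (∃ n : ι → ℕ, ∑ i, n i ≤ k ∧ y = ∑ i, n i • x i) ↔
      ∃ l : List ι, l.length ≤ k ∧ y = (l.map x).sum := by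
  constructor
  · rintro ⟨n, hn, rfl⟩
    have key : ∀ N : ℕ, ∀ n : ι → ℕ, ∑ i, n i = N →
        ∃ l : List ι, l.length = N ∧ ∑ i, n i • x i = (l.map x).sum := by
      intro N
      induction N with
      | zero =>
        intro n hn
        refine ⟨[], rfl, ?_⟩
        have h0 : ∀ i, n i = 0 := by
          intro i
          exact (Finset.sum_eq_zero_iff.1 hn) i (Finset.mem_univ i)
        simp [h0]
      | succ N ih =>
        intro n hn
        have hex : ∃ i, n i ≠ 0 := by
          by_contra hcon
          push Not at hcon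
          simp [hcon] at hn
        obtain ⟨i, hi⟩ := hex
        set n' : ι → ℕ := fun j => if j = i then n i - 1 else n j with hn'
        have hdec : ∀ j, n j = n' j + (if j = i then 1 else 0) := by
          intro j
          by_cases hj : j = i
          · subst hj
            simp [hn']
            omega
          · simp [hn', hj]
        have h1 : ∑ j, n j = ∑ j, n' j + 1 := by
          rw [Finset.sum_congr rfl (fun j _ => hdec j), Finset.sum_add_distrib]
          simp
        obtain ⟨l, hl, hs⟩ := ih n' (by omega)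
        refine ⟨i :: l, by simp [hl], ?_⟩
        rw [Finset.sum_congr rfl (fun j _ => by rw [hdec j, add_smul]), Finset.sum_add_distrib, hs]
        simp [add_comm]
    obtain ⟨l, hl, hs⟩ := key _ n rfl
    exact ⟨l, by omega, hs⟩
  · rintro ⟨l, hl, rfl⟩
    have key : ∀ l : List ι, ∃ n : ι → ℕ, ∑ i, n i = l.length ∧ (l.map x).sum = ∑ i, n i • x i := by
      intro l
      induction l with
      | nil => exact ⟨fun _ => 0, by simp, by simp⟩
      | cons a l ih =>
        obtain ⟨n, h1, h2⟩ := ih
        refine ⟨fun j => n j + (if j = a then 1 else 0), ?_, ?_⟩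
        · rw [Finset.sum_add_distrib]
          simp [h1]
        · simp only [add_smul, Finset.sum_add_distrib]
          simp [h2, add_comm]
    obtain ⟨n, h1, h2⟩ := key l
    exact ⟨n, by omega, h2⟩

theorem beta_QP_finite_kernel {G : Type} [Group G] {A₀ : Type} [AddCommGroup A₀]
    [Module.Finite ℤ A₀] (π : G →* Multiplicative A₀) (hker : Finite π.ker) (S : Finset G) :
    QP (Module.finrank ℤ A₀ + 1) 0 (fun k => (beta S k : ℝ)) := by
  classical
  set Lt : Finset G := S ∪ S.image (fun s => s⁻¹) with hLt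
  have hmem : ∀ s : G, s ∈ Lt ↔ (s ∈ S ∨ s⁻¹ ∈ S) := by
    intro s
    simp only [hLt, Finset.mem_union, Finset.mem_image]
    constructor
    · rintro (h | ⟨a, ha, rfl⟩)
      · exact Or.inl h
      · right; simpa using ha
    · rintro (h | h)
      · exact Or.inl h
      · right; exact ⟨s⁻¹, h, by simp⟩
  let x : {s // s ∈ Lt} → A₀ := fun s => Multiplicative.toAdd (π s.1)
  let q : G → A₀ := fun g => Multiplicative.toAdd (π g)
  have hqmul : ∀ a b, q (a * b) = q a + q b := by
    intro a b
    simp [q]
  -- ball as a set of list products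
  have hball : ∀ k g, g ∈ ball S k ↔
      ∃ l : List {s // s ∈ Lt}, l.length ≤ k ∧ (l.map Subtype.val).prod = g := by
    intro k g
    constructor
    · rintro ⟨l, hl, hs, hg⟩
      refine ⟨l.attach.map (fun a => ⟨a.1, (hmem _).2 (hs _ a.2)⟩), by simpa using hl, ?_⟩
      rw [List.map_map]
      have : (Subtype.val ∘ fun a : {a // a ∈ l} =>
          (⟨a.1, (hmem _).2 (hs _ a.2)⟩ : {s // s ∈ Lt})) = fun a => a.1 := rfl
      rw [this, List.attach_map_subtype_val]
      exact hg
    · rintro ⟨l, hl, hg⟩
      refine ⟨l.map Subtype.val, by simpa using hl, ?_, hg⟩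
      intro s hs
      rw [List.mem_map] at hs
      obtain ⟨a, -, rfl⟩ := hs
      exact (hmem _).1 a.2
  have hfin : ∀ k, (ball S k).Finite := by
    intro k
    have h1 : {l : List {s // s ∈ Lt} | l.length ≤ k}.Finite := List.finite_length_le _ k
    refine (h1.image (fun l => (l.map Subtype.val).prod)).subset ?_
    intro g hg
    obtain ⟨l, hl, h⟩ := (hball k g).1 hg
    exact ⟨l, hl, h⟩
  have hqprod : ∀ l : List {s // s ∈ Lt}, q ((l.map Subtype.val).prod) = (l.map x).sum := by
    intro l
    induction l with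
    | nil => simp [q]
    | cons a l ih =>
      rw [List.map_cons, List.prod_cons, hqmul, ih, List.map_cons, List.sum_cons]
  let X : ℕ → Set A₀ := fun k => {y | ∃ n : {s // s ∈ Lt} → ℕ, ∑ i, n i ≤ k ∧ y = ∑ i, n i • x i}
  have hX : ∀ k, X k = q '' (ball S k) := by
    intro k
    ext y
    simp only [X, Set.mem_setOf_eq, Set.mem_image]
    rw [lists_iff]
    constructor
    · rintro ⟨l, hl, rfl⟩
      exact ⟨_, (hball k _).2 ⟨l, hl, rfl⟩, hqprod l⟩
    · rintro ⟨g, hg, rfl⟩
      obtain ⟨l, hl, rfl⟩ := (hball k g).1 hg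
      exact ⟨l, hl, hqprod l⟩
  have hXfin : ∀ k, (X k).Finite := by
    intro k
    rw [hX]
    exact (hfin k).image _
  let fib : ℕ → A₀ → Set G := fun k y => {g | g ∈ ball S k ∧ q g = y}
  have hfibfin : ∀ k y, (fib k y).Finite := fun k y => (hfin k).subset (fun g hg => hg.1)
  have hmonoB : ∀ k, ball S k ⊆ ball S (k + 1) := by
    rintro k g ⟨l, hl, h⟩
    exact ⟨l, by omega, h⟩
  let Y : ℕ → ℕ → Set A₀ := fun j k => {y | j ≤ (fib k y).ncard}
  have hYmono : ∀ j k, Y j k ⊆ Y j (k + 1) := by
    intro j k y hy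
    have hy' : j ≤ (fib k y).ncard := hy
    exact hy'.trans (Set.ncard_le_ncard (fun g hg => ⟨hmonoB k hg.1, hg.2⟩) (hfibfin _ _))
  have hYadd : ∀ j k, ∀ i, ∀ y ∈ Y j k, y + x i ∈ Y j (k + 1) := by
    intro j k i y hy
    have hy' : j ≤ (fib k y).ncard := hy
    refine hy'.trans ?_
    refine Set.ncard_le_ncard_of_injOn (fun g => g * i.1) ?_ ?_ (hfibfin _ _)
    · rintro g ⟨hg, hgy⟩
      refine ⟨?_, ?_⟩
      · obtain ⟨l, hl, rfl⟩ := (hball k g).1 hg
        refine (hball (k + 1) _).2 ⟨l ++ [i], by simpa using hl, by simp⟩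
      · rw [hqmul, hgy]
    · intro a _ b _ hab
      exact mul_right_cancel hab
  have hcard : ∀ k y, (fib k y).ncard ≤ Nat.card π.ker := by
    intro k y
    rcases Set.eq_empty_or_nonempty (fib k y) with h | ⟨g0, hg0⟩
    · rw [h]; simp
    · have hK : (π.ker : Set G).Finite := Set.toFinite _
      have h1 : (fib k y).ncard ≤ (π.ker : Set G).ncard := by
        refine Set.ncard_le_ncard_of_injOn (fun g => g0⁻¹ * g) ?_ ?_ hK
        · rintro g ⟨_, hgy⟩
          have e : π g = π g0 := by
            have h2 : q g = q g0 := hgy.trans hg0.2.symm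
            exact Multiplicative.toAdd.injective h2
          simp only [SetLike.mem_coe, MonoidHom.mem_ker, map_mul, map_inv, e, inv_mul_cancel]
        · intro a _ b _ hab
          exact mul_left_cancel hab
      exact h1.trans (le_of_eq (Nat.card_coe_set_eq _).symm)
  set m := Nat.card π.ker with hm
  have hYX : ∀ j k, 1 ≤ j → Y j k ⊆ X k := by
    intro j k hj y hy
    have hy' : j ≤ (fib k y).ncard := hy
    have hne : (fib k y).Nonempty := by
      rw [← Set.ncard_pos (hfibfin _ _)]
      omega
    obtain ⟨g, hg, hgy⟩ := hne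
    rw [hX]
    exact ⟨g, hg, hgy⟩
  have hmain : ∀ k, (beta S k : ℝ) = ∑ j ∈ Finset.Icc 1 m,
      (((X k).ncard : ℝ) - ((X k \ Y j k).ncard : ℝ)) := by
    intro k
    have e1 : beta S k = ∑ y ∈ (hXfin k).toFinset, (fib k y).ncard := by
      have h1 : beta S k = (hfin k).toFinset.card := Set.ncard_eq_toFinset_card _ (hfin k)
      have h2 : (hXfin k).toFinset = (hfin k).toFinset.image q := by
        ext y
        simp [hX]
      rw [h1, h2, Finset.card_eq_sum_card_image q]
      refine Finset.sum_congr rfl ?_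
      intro y _
      rw [Set.ncard_eq_toFinset_card _ (hfibfin k y)]
      congr 1
      ext g
      simp [fib]
    have e2 : ∀ y, (fib k y).ncard = ∑ j ∈ Finset.Icc 1 m, (if j ≤ (fib k y).ncard then 1 else 0) := by
      intro y
      rw [← Finset.card_filter]
      have h3 : (Finset.Icc 1 m).filter (fun j => j ≤ (fib k y).ncard)
          = Finset.Icc 1 (fib k y).ncard := by
        ext j
        simp only [Finset.mem_filter, Finset.mem_Icc]
        have := hcard k y
        omega
      rw [h3]
      simp
    rw [e1, Finset.sum_congr rfl (fun y _ => e2 y), Finset.sum_comm]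
    push_cast
    refine Finset.sum_congr rfl ?_
    intro j hj
    have hj1 : 1 ≤ j := (Finset.mem_Icc.1 hj).1
    have e3 : (X k \ Y j k).ncard + (Y j k).ncard = (X k).ncard :=
      Set.ncard_diff_add_ncard_of_subset (hYX j k hj1) (hXfin k)
    have e4 : ∑ y ∈ (hXfin k).toFinset, (if j ≤ (fib k y).ncard then (1 : ℝ) else 0)
        = ((Y j k).ncard : ℝ) := by
      rw [Finset.sum_boole]
      congr 1
      rw [Set.ncard_eq_toFinset_card _ ((hXfin k).subset (hYX j k hj1))]
      congr 1
      ext y
      simp only [Finset.mem_filter, Set.Finite.mem_toFinset]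
      constructor
      · rintro ⟨_, h⟩
        exact h
      · intro h
        exact ⟨hYX j k hj1 h, h⟩
    rw [e4]
    have e5 : ((X k \ Y j k).ncard : ℝ) + ((Y j k).ncard : ℝ) = ((X k).ncard : ℝ) := by
      exact_mod_cast e3
    linarith
  have hfun : (fun k => (beta S k : ℝ)) = fun k => ∑ j ∈ Finset.Icc 1 m,
      (((X k).ncard : ℝ) + -((X k \ Y j k).ncard : ℝ)) := by
    funext k
    rw [hmain k]
    refine Finset.sum_congr rfl (fun j _ => by ring)
  rw [hfun]
  refine QP_sum _ _ ?_
  intro j _
  refine QP_add ?_ (QP_neg ?_)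
  · have h := diff_QP x (fun _ => (∅ : Set A₀)) (fun k => le_rfl) (by simp)
    refine QP_congr h (Filter.Eventually.of_forall ?_)
    intro k
    simp [X]
  · exact diff_QP x (Y j) (hYmono j) (fun k i y hy => hYadd j k i y hy)

end F1

end Pool.Agent.Helper602.Growth
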