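import Mathlib
import Pool.Agent.Helper602.Growth.QDefs

set_option autoImplicit false

namespace Pool.Agent.Helper602.Growth

open Filter Topology

namespace F2



theorem bil_finite {G : Type} [Group G] (S : Finset G) (k : ℕ) : (ball S k).Finite := by
  classical
  have hfin : Finite {s : G // s ∈ S ∨ s⁻¹ ∈ S} := by
    have h1 : ({s : G | s ∈ S ∨ s⁻¹ ∈ S} : Set G).Finite := by
      refine (S.finite_toSet.union (S.finite_toSet.image (fun x => x⁻¹))).subset ?_
      rintro s (hs | hs)
      · exact Or.inl hs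
      · exact Or.inr ⟨s⁻¹, hs, inv_inv s⟩
    exact h1.to_subtype
  have h2 := List.finite_length_le {s : G // s ∈ S ∨ s⁻¹ ∈ S} k
  refine (h2.image (fun l => (l.map Subtype.val).prod)).subset ?_
  rintro g ⟨l, hl, hm, rfl⟩
  refine ⟨l.attach.map (fun x => ⟨x.1, hm x.1 x.2⟩), ?_, ?_⟩
  · show (l.attach.map _).length ≤ k
    rw [List.length_map, List.length_attach]; exact hl
  · show ((l.attach.map _).map Subtype.val).prod = l.prod
    rw [List.map_map]
    congr 1
    exact List.attach_map_subtype_val l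

theorem bil_lift {G H : Type} [Group G] [Group H] [DecidableEq H] (π : G →* H)
    (S : Finset G) (l : List H) : (∀ s ∈ l, s ∈ S.image π ∨ s⁻¹ ∈ S.image π) →
    ∃ l' : List G, l'.length = l.length ∧ (∀ s ∈ l', s ∈ S ∨ s⁻¹ ∈ S) ∧ π l'.prod = l.prod := by
  induction l with
  | nil => intro _; exact ⟨[], rfl, by simp, by simp⟩
  | cons h t ih =>
    intro hm
    obtain ⟨t', h1, h2, h3⟩ := ih (fun s hs => hm s (List.mem_cons_of_mem _ hs))
    have h4 : ∃ g : G, (g ∈ S ∨ g⁻¹ ∈ S) ∧ π g = h := by
      rcases hm h List.mem_cons_self with h5 | h5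
      · obtain ⟨g, hg, hgh⟩ := Finset.mem_image.mp h5
        exact ⟨g, Or.inl hg, hgh⟩
      · obtain ⟨g, hg, hgh⟩ := Finset.mem_image.mp h5
        exact ⟨g⁻¹, Or.inr (by rwa [inv_inv]), by rw [map_inv, hgh, inv_inv]⟩
    obtain ⟨g, hg, hgh⟩ := h4
    refine ⟨g :: t', ?_, ?_, ?_⟩
    · rw [List.length_cons, List.length_cons, h1]
    · intro s hs
      rcases List.mem_cons.mp hs with rfl | hs
      · exact hg
      · exact h2 s hs
    · rw [List.prod_cons, List.prod_cons, map_mul, hgh, h3]

theorem beta_image_le {G H : Type} [Group G] [Group H] [DecidableEq H] (π : G →* H)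
    (S : Finset G) (k : ℕ) : beta (S.image π) k ≤ beta S k := by
  unfold beta
  have hsub : ball (S.image π) k ⊆ π '' (ball S k) := by
    rintro h ⟨l, hl, hm, rfl⟩
    obtain ⟨l', h1, h2, h3⟩ := bil_lift π S l hm
    exact ⟨l'.prod, ⟨l', by rw [h1]; exact hl, h2, rfl⟩, h3⟩
  exact (Set.ncard_le_ncard hsub ((bil_finite S k).image _)).trans (Set.ncard_image_le (bil_finite S k))


theorem closure_image {G H : Type} [Group G] [Group H] [DecidableEq H] (π : G →* H)
    (hπ : Function.Surjective π) (S : Finset G) (hS : Subgroup.closure (S : Set G) = ⊤) :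
    Subgroup.closure ((S.image π : Finset H) : Set H) = ⊤ := by
  rw [Finset.coe_image, ← MonoidHom.map_closure, hS]
  exact Subgroup.map_top_of_surjective π hπ

end F2

end Pool.Agent.Helper602.Growth
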