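import Mathlib
import Pool.Agent.Helper602.Growth.Defs

set_option autoImplicit false

namespace Pool.Agent.Helper602.Growth

open Filter Topology

namespace JD2


theorem tendsto_log_nat_atTop : Tendsto (fun k : ℕ => Real.log (k : ℝ)) atTop atTop :=
  Real.tendsto_log_atTop.comp tendsto_natCast_atTop_atTop

theorem hasDegree_of_tendsto {G : Type*} [Group G] (S : Finset G) (n : ℕ) (c : ℝ) (hc : 0 < c)
    (h : Tendsto (fun k : ℕ => (beta S k : ℝ) / (k : ℝ) ^ n) atTop (𝓝 c)) : HasDegree S n := by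
  have hpos : ∀ᶠ k : ℕ in atTop, 0 < (beta S k : ℝ) / (k : ℝ) ^ n := h.eventually_const_lt hc
  have hlog : Tendsto (fun k : ℕ => Real.log ((beta S k : ℝ) / (k : ℝ) ^ n)) atTop
      (𝓝 (Real.log c)) := (Real.continuousAt_log hc.ne').tendsto.comp h
  have h0 : Tendsto (fun k : ℕ => Real.log ((beta S k : ℝ) / (k : ℝ) ^ n) / Real.log k) atTop
      (𝓝 0) := hlog.div_atTop tendsto_log_nat_atTop
  have h1 : Tendsto (fun k : ℕ => Real.log ((beta S k : ℝ) / (k : ℝ) ^ n) / Real.log k + n) atTop
      (𝓝 (n : ℝ)) := by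
    simpa using h0.add_const (n : ℝ)
  have h2 : Tendsto (fun k : ℕ => Real.log (beta S k) / Real.log k) atTop (𝓝 (n : ℝ)) := by
    refine h1.congr' ?_
    filter_upwards [hpos, eventually_ge_atTop 2] with k hk hk2
    have hk0 : (0 : ℝ) < k := by exact_mod_cast (by omega : 0 < k)
    have hk1 : (1 : ℝ) < k := by exact_mod_cast (by omega : 1 < k)
    have hb : (beta S k : ℝ) ≠ 0 := by
      intro h0
      rw [h0, zero_div] at hk
      exact lt_irrefl _ hk
    have hl : Real.log k ≠ 0 := (Real.log_pos hk1).ne'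
    rw [Real.log_div hb (by positivity), Real.log_pow]
    field_simp
    ring
  have h3 := (continuous_coe_real_ereal.tendsto (n : ℝ)).comp h2
  have h4 : limsup (fun k : ℕ => ((Real.log (beta S k) / Real.log k : ℝ) : EReal)) atTop =
      ((n : ℝ) : EReal) := h3.limsup_eq
  unfold HasDegree
  rw [h4]
  norm_cast

theorem finite_eventually {G : Type*} [Group G] [Finite G] (S : Finset G)
    (hS : Subgroup.closure (S : Set G) = ⊤) : ∀ᶠ k : ℕ in atTop, beta S k = Nat.card G := by
  classical
  haveI := Fintype.ofFinite G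
  have hex : ∀ g : G, ∃ l : List G, (∀ x ∈ l, x ∈ S ∨ x⁻¹ ∈ S) ∧ l.prod = g := by
    intro g
    have hg : g ∈ Subgroup.closure (S : Set G) := by rw [hS]; trivial
    have hg' : g ∈ (Subgroup.closure (S : Set G)).toSubmonoid := hg
    rw [Subgroup.closure_toSubmonoid] at hg'
    obtain ⟨l, h1, h2⟩ := Submonoid.exists_list_of_mem_closure hg'
    refine ⟨l, fun x hx => ?_, h2⟩
    rcases h1 x hx with h | h
    · exact Or.inl h
    · exact Or.inr h
  choose l hl1 hl2 using hex
  filter_upwards [eventually_ge_atTop (Finset.univ.sup fun g => (l g).length)] with k hk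
  have huniv : ball S k = Set.univ := by
    refine Set.eq_univ_of_forall fun g => ⟨l g, ?_, hl1 g, hl2 g⟩
    exact (Finset.le_sup (f := fun g => (l g).length) (Finset.mem_univ g)).trans hk
  rw [beta, huniv, Set.ncard_univ]

theorem two_le_limsup {G : Type*} [Group G] (S : Finset G) (c : ℝ) (hc : 0 < c)
    (hlow : ∀ k : ℕ, c * (k : ℝ) ^ 2 ≤ (beta S k : ℝ)) :
    (2 : EReal) ≤ limsup (fun k : ℕ => ((Real.log (beta S k) / Real.log k : ℝ) : EReal)) atTop := by
  have h0 : Tendsto (fun k : ℕ => Real.log c / Real.log k + 2) atTop (𝓝 (2 : ℝ)) := by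
    have := (tendsto_const_nhds (x := Real.log c)).div_atTop tendsto_log_nat_atTop
    simpa using this.add_const (2 : ℝ)
  have h3 := (continuous_coe_real_ereal.tendsto (2 : ℝ)).comp h0
  have h4 : limsup (fun k : ℕ => ((Real.log c / Real.log k + 2 : ℝ) : EReal)) atTop =
      ((2 : ℝ) : EReal) := h3.limsup_eq
  have h5 : ((2 : ℝ) : EReal) = 2 := by norm_cast
  rw [← h5, ← h4]
  refine limsup_le_limsup ?_
  filter_upwards [eventually_ge_atTop 2] with k hk2
  have hk0 : (0 : ℝ) < k := by exact_mod_cast (by omega : 0 < k)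
  have hk1 : (1 : ℝ) < k := by exact_mod_cast (by omega : 1 < k)
  have hl : 0 < Real.log k := Real.log_pos hk1
  rw [EReal.coe_le_coe_iff]
  have h6 : Real.log c + 2 * Real.log k ≤ Real.log (beta S k) := by
    have h7 : Real.log (c * (k : ℝ) ^ 2) ≤ Real.log (beta S k) :=
      Real.log_le_log (by positivity) (hlow k)
    rw [Real.log_mul hc.ne' (by positivity), Real.log_pow] at h7
    exact_mod_cast h7
  rw [le_div_iff₀ hl, add_mul, div_mul_cancel₀ _ hl.ne']
  exact h6

end JD2

end Pool.Agent.Helper602.Growth
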