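import Mathlib
import Pool.Agent.Helper602.Growth.Defs

set_option autoImplicit false

namespace Pool.Agent.Helper602.Growth

open Filter Topology

open P3

namespace JE1


namespace P3

theorem ball_zero' {G : Type*} [Group G] (S : Finset G) : ball S 0 = {1} := by
  ext g
  simp only [ball, Set.mem_setOf_eq, Set.mem_singleton_iff]
  constructor
  · rintro ⟨l, hl, -, rfl⟩
    have : l = [] := List.length_eq_zero_iff.mp (by omega)
    rw [this, List.prod_nil]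
  · rintro rfl
    exact ⟨[], by simp, by simp, by simp⟩

theorem mem_ball_succ {G : Type*} [Group G] (S : Finset G) (k : ℕ) (g : G) :
    g ∈ ball S (k + 1) ↔ g ∈ ball S k ∨ ∃ h ∈ ball S k, ∃ s, (s ∈ S ∨ s⁻¹ ∈ S) ∧ g = h * s := by
  constructor
  · rintro ⟨l, hl, hs, rfl⟩
    by_cases h : l.length ≤ k
    · exact Or.inl ⟨l, h, hs, rfl⟩
    · right
      rcases List.eq_nil_or_concat l with h0 | ⟨L, b, hb⟩
      · rw [h0] at h
        simp at h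
      · rw [List.concat_eq_append] at hb
        subst hb
        refine ⟨L.prod, ⟨L, ?_, ?_, rfl⟩, b, ?_, ?_⟩
        · rw [List.length_append] at hl
          simp at hl
          omega
        · intro s hsL
          exact hs s (List.mem_append_left _ hsL)
        · exact hs b (by simp)
        · simp
  · rintro (⟨l, hl, hs, rfl⟩ | ⟨h, ⟨l, hl, hs, rfl⟩, s, hss, rfl⟩)
    · exact ⟨l, by omega, hs, rfl⟩
    · refine ⟨l ++ [s], ?_, ?_, ?_⟩
      · rw [List.length_append]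
        simp
        omega
      · intro t ht
        rcases List.mem_append.mp ht with ht | ht
        · exact hs t ht
        · rw [List.mem_singleton] at ht
          subst ht
          exact hss
      · simp

theorem mem_S1_succ (k : ℕ) (g : P3) :
    g ∈ ball S₁ (k + 1) ↔ g ∈ ball S₁ k ∨ g * x ∈ ball S₁ k ∨ g * x⁻¹ ∈ ball S₁ k ∨
      g * y ∈ ball S₁ k ∨ g * y⁻¹ ∈ ball S₁ k := by
  rw [mem_ball_succ]
  constructor
  · rintro (h | ⟨h, hh, s, hs, rfl⟩)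
    · exact Or.inl h
    · right
      simp only [S₁, Finset.mem_insert, Finset.mem_singleton] at hs
      rcases hs with (rfl | rfl) | (hs | hs)
      · right; left
        rwa [mul_inv_cancel_right]
      · right; right; right
        rwa [mul_inv_cancel_right]
      · left
        rw [← hs, mul_inv_cancel_right]
        exact hh
      · right; right; left
        rw [← hs, mul_inv_cancel_right]
        exact hh
  · rintro (h | h | h | h | h)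
    · exact Or.inl h
    · right
      refine ⟨_, h, x⁻¹, ?_, by group⟩
      right
      simp [S₁]
    · right
      refine ⟨_, h, x, ?_, by group⟩
      left
      simp [S₁]
    · right
      refine ⟨_, h, y⁻¹, ?_, by group⟩
      right
      simp [S₁]
    · right
      refine ⟨_, h, y, ?_, by group⟩
      left
      simp [S₁]

theorem m_x (a b : ℤ) (r : ZMod 3) : (⟨a, b, r⟩ : P3) * x = ⟨a, b, r + 1⟩ := by
  rw [mul_def]
  simp [x, ra_zz, rb_zz]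

theorem m_xi (a b : ℤ) (r : ZMod 3) : (⟨a, b, r⟩ : P3) * x⁻¹ = ⟨a, b, r + 2⟩ := by
  have h : (-1 : ZMod 3) = 2 := by decide
  rw [inv_def, mul_def]
  simp [x, ra_zz, rb_zz, h]

theorem m_y (a b : ℤ) (r : ZMod 3) :
    (⟨a, b, r⟩ : P3) * y = ⟨a + ra r 1 0, b + rb r 1 0, r + 1⟩ := by
  rw [mul_def]
  rfl

theorem m_yi (a b : ℤ) (r : ZMod 3) :
    (⟨a, b, r⟩ : P3) * y⁻¹ = ⟨a + ra r 1 1, b + rb r 1 1, r + 2⟩ := by
  have h : y⁻¹ = (⟨1, 1, 2⟩ : P3) := by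
    rw [inv_def]
    have h1 : (-y.r : ZMod 3) = 2 := by decide
    rw [h1]
    have h20 : ¬ (2 : ZMod 3) = 0 := by decide
    have h21 : ¬ (2 : ZMod 3) = 1 := by decide
    simp [ra, rb, y, h20, h21]
  rw [h, mul_def]

theorem st0 (k : ℕ) (a b : ℤ) : (⟨a, b, 0⟩ : P3) ∈ ball S₁ (k + 1) ↔
    (⟨a, b, 0⟩ : P3) ∈ ball S₁ k ∨ (⟨a, b, 1⟩ : P3) ∈ ball S₁ k ∨ (⟨a, b, 2⟩ : P3) ∈ ball S₁ k ∨
    (⟨a + 1, b, 1⟩ : P3) ∈ ball S₁ k ∨ (⟨a + 1, b + 1, 2⟩ : P3) ∈ ball S₁ k := by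
  rw [mem_S1_succ, m_x, m_xi, m_y, m_yi]
  simp [ra, rb]

theorem st1 (k : ℕ) (a b : ℤ) : (⟨a, b, 1⟩ : P3) ∈ ball S₁ (k + 1) ↔
    (⟨a, b, 1⟩ : P3) ∈ ball S₁ k ∨ (⟨a, b, 2⟩ : P3) ∈ ball S₁ k ∨ (⟨a, b, 0⟩ : P3) ∈ ball S₁ k ∨
    (⟨a, b + 1, 2⟩ : P3) ∈ ball S₁ k ∨ (⟨a - 1, b, 0⟩ : P3) ∈ ball S₁ k := by
  rw [mem_S1_succ, m_x, m_xi, m_y, m_yi]
  have h01 : ¬ (1 : ZMod 3) = 0 := by decide
  have e12 : (1 : ZMod 3) + 2 = 0 := by decide
  have e11 : (1 : ZMod 3) + 1 = 2 := by decide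
  simp [ra, rb, h01, e12, e11, sub_eq_add_neg]

theorem st2 (k : ℕ) (a b : ℤ) : (⟨a, b, 2⟩ : P3) ∈ ball S₁ (k + 1) ↔
    (⟨a, b, 2⟩ : P3) ∈ ball S₁ k ∨ (⟨a, b, 0⟩ : P3) ∈ ball S₁ k ∨ (⟨a, b, 1⟩ : P3) ∈ ball S₁ k ∨
    (⟨a - 1, b - 1, 0⟩ : P3) ∈ ball S₁ k ∨ (⟨a, b - 1, 1⟩ : P3) ∈ ball S₁ k := by
  rw [mem_S1_succ, m_x, m_xi, m_y, m_yi]
  have h20 : ¬ (2 : ZMod 3) = 0 := by decide
  have h21 : ¬ (2 : ZMod 3) = 1 := by decide
  have e21 : (2 : ZMod 3) + 1 = 0 := by decide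
  have e22 : (2 : ZMod 3) + 2 = 1 := by decide
  simp [ra, rb, h20, h21, e21, e22, sub_eq_add_neg]

/-- inequalities -/
def O0 (n a b : ℤ) : Prop := -n ≤ a ∧ a ≤ n ∧ -n ≤ b ∧ b ≤ n ∧ -n ≤ a - b ∧ a - b ≤ n
def O1 (n a b : ℤ) : Prop := -n ≤ a ∧ a ≤ n + 1 ∧ -n ≤ b ∧ b ≤ n ∧ -n ≤ a - b ∧ a - b ≤ n + 1
def O2 (n a b : ℤ) : Prop := -n ≤ a ∧ a ≤ n + 1 ∧ -n ≤ b ∧ b ≤ n + 1 ∧ -n ≤ a - b ∧ a - b ≤ n
def E0 (n a b : ℤ) : Prop := -n ≤ a ∧ a ≤ n ∧ -n ≤ b ∧ b ≤ n ∧ -n ≤ a - b ∧ a - b ≤ n ∧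
    ¬ (a = 0 ∧ b = n) ∧ ¬ (a = 0 ∧ b = -n)
def E1 (n a b : ℤ) : Prop := -n + 1 ≤ a ∧ a ≤ n ∧ -n ≤ b ∧ b ≤ n ∧ -n + 1 ≤ a - b ∧ a - b ≤ n
def E2 (n a b : ℤ) : Prop := -n + 1 ≤ a ∧ a ≤ n ∧ -n + 1 ≤ b ∧ b ≤ n ∧ -n ≤ a - b ∧ a - b ≤ n

/-- the three coordinates of the balls -/
def Od (k : ℕ) (n : ℤ) : Prop := ∀ a b : ℤ,
  ((⟨a, b, 0⟩ : P3) ∈ ball S₁ k ↔ O0 n a b) ∧ ((⟨a, b, 1⟩ : P3) ∈ ball S₁ k ↔ O1 n a b) ∧
    ((⟨a, b, 2⟩ : P3) ∈ ball S₁ k ↔ O2 n a b)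

def Ev (k : ℕ) (n : ℤ) : Prop := ∀ a b : ℤ,
  ((⟨a, b, 0⟩ : P3) ∈ ball S₁ k ↔ E0 n a b) ∧ ((⟨a, b, 1⟩ : P3) ∈ ball S₁ k ↔ E1 n a b) ∧
    ((⟨a, b, 2⟩ : P3) ∈ ball S₁ k ↔ E2 n a b)

theorem base0 (a b : ℤ) (r : ZMod 3) :
    (⟨a, b, r⟩ : P3) ∈ ball S₁ 0 ↔ a = 0 ∧ b = 0 ∧ r = 0 := by
  rw [ball_zero', Set.mem_singleton_iff, one_def, P3.mk.injEq]

theorem od_zero : Od 1 0 := by
  have h10 : ¬ (1 : ZMod 3) = 0 := by decide
  have h20 : ¬ (2 : ZMod 3) = 0 := by decide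
  intro a b
  refine ⟨?_, ?_, ?_⟩
  · rw [st0 0]
    simp only [base0, h10, h20, and_false, or_false, and_true]
    unfold O0
    omega
  · rw [st1 0]
    simp only [base0, h10, h20, and_false, or_false, false_or, and_true]
    unfold O1
    omega
  · rw [st2 0]
    simp only [base0, h10, h20, and_false, or_false, false_or, and_true]
    unfold O2
    omega

theorem od_ev (k : ℕ) (n : ℤ) (hn : 0 ≤ n) (h : Od k n) : Ev (k + 1) (n + 1) := by
  intro a b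
  refine ⟨?_, ?_, ?_⟩
  · rw [st0 k, (h a b).1, (h a b).2.1, (h a b).2.2, (h _ _).2.1, (h _ _).2.2]
    unfold E0 O0 O1 O2
    constructor
    · intro h
      omega
    · intro h
      omega
  · rw [st1 k, (h a b).1, (h a b).2.1, (h a b).2.2, (h _ _).2.2, (h _ _).1]
    unfold E1 O0 O1 O2
    constructor
    · intro h
      omega
    · intro h
      omega
  · rw [st2 k, (h a b).1, (h a b).2.1, (h a b).2.2, (h _ _).1, (h _ _).2.1]
    unfold E2 O0 O1 O2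
    constructor
    · intro h
      omega
    · intro h
      omega

theorem ev_od (k : ℕ) (n : ℤ) (hn : 1 ≤ n) (h : Ev k n) : Od (k + 1) n := by
  intro a b
  refine ⟨?_, ?_, ?_⟩
  · rw [st0 k, (h a b).1, (h a b).2.1, (h a b).2.2, (h _ _).2.1, (h _ _).2.2]
    unfold E0 O0 E1 E2
    constructor
    · intro h
      omega
    · intro h
      omega
  · rw [st1 k, (h a b).1, (h a b).2.1, (h a b).2.2, (h _ _).2.2, (h _ _).1]
    unfold O1 E0 E1 E2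
    constructor
    · intro h
      omega
    · intro h
      omega
  · rw [st2 k, (h a b).1, (h a b).2.1, (h a b).2.2, (h _ _).1, (h _ _).2.1]
    unfold O2 E0 E1 E2
    constructor
    · intro h
      omega
    · intro h
      omega

theorem od_all (n : ℕ) : Od (2 * n + 1) n := by
  induction n with
  | zero => simpa using od_zero
  | succ n ih =>
    have h1 := od_ev _ _ (Int.natCast_nonneg n) ih
    have h2 := ev_od _ _ (by omega) h1
    have e : 2 * (n + 1) + 1 = 2 * n + 1 + 1 + 1 := by ring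
    rw [e]
    push_cast
    exact h2

theorem zc (r : ZMod 3) : r = 0 ∨ r = 1 ∨ r = 2 := by revert r; decide

theorem ball_odd (n : ℕ) : ball S₁ (2 * n + 1) = {g | DOdd n g} := by
  ext g
  obtain ⟨a, b, r⟩ := g
  have h := od_all n a b
  have h01 : ¬ (0 : ZMod 3) = 1 := by decide
  have h02 : ¬ (0 : ZMod 3) = 2 := by decide
  have h10 : ¬ (1 : ZMod 3) = 0 := by decide
  have h12 : ¬ (1 : ZMod 3) = 2 := by decide
  have h20 : ¬ (2 : ZMod 3) = 0 := by decide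
  have h21 : ¬ (2 : ZMod 3) = 1 := by decide
  rw [Set.mem_setOf_eq]
  rcases zc r with rfl | rfl | rfl
  · rw [h.1]
    simp only [O0, DOdd, h01, h02, false_and, or_false, true_and]
  · rw [h.2.1]
    simp only [O1, DOdd, h10, h12, false_and, or_false, false_or, true_and]
  · rw [h.2.2]
    simp only [O2, DOdd, h20, h21, false_and, false_or, true_and]


theorem ball_even (n : ℕ) (hn : 1 ≤ n) : ball S₁ (2 * n) = {g | DEven n g} := by
  obtain ⟨m, rfl⟩ : ∃ m, n = m + 1 := ⟨n - 1, by omega⟩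
  ext g
  obtain ⟨a, b, r⟩ := g
  have h := od_ev _ _ (Int.natCast_nonneg m) (od_all m) a b
  have e : 2 * (m + 1) = 2 * m + 1 + 1 := by ring
  have h01 : ¬ (0 : ZMod 3) = 1 := by decide
  have h02 : ¬ (0 : ZMod 3) = 2 := by decide
  have h10 : ¬ (1 : ZMod 3) = 0 := by decide
  have h12 : ¬ (1 : ZMod 3) = 2 := by decide
  have h20 : ¬ (2 : ZMod 3) = 0 := by decide
  have h21 : ¬ (2 : ZMod 3) = 1 := by decide
  rw [Set.mem_setOf_eq, e]
  push_cast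
  rcases zc r with rfl | rfl | rfl
  · rw [h.1]
    simp only [E0, DEven, h01, h02, false_and, or_false, true_and]
  · rw [h.2.1]
    simp only [E1, DEven, h10, h12, false_and, or_false, false_or, true_and]
  · rw [h.2.2]
    simp only [E2, DEven, h20, h21, false_and, false_or, true_and]


end P3

end JE1

end Pool.Agent.Helper602.Growth
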