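import Mathlib
import Pool.Agent.Helper602.Growth.Defs

set_option autoImplicit false

namespace Pool.Agent.Helper602.Growth

open Filter Topology

open P3

namespace JE2


namespace P3

/-- auxiliary: the lattice points of a hexagon. -/
noncomputable def card_odd_F (p q : ℤ) (n : ℕ) : Finset (ℤ × ℤ) :=
  ((Finset.Icc (-p) q) ×ˢ (Finset.Icc (-(n : ℤ)) n)).filter
    (fun x => -p ≤ x.1 - x.2 ∧ x.1 - x.2 ≤ q)

theorem card_odd_memF (p q : ℤ) (n : ℕ) (x : ℤ × ℤ) : x ∈ card_odd_F p q n ↔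
    (-p ≤ x.1 ∧ x.1 ≤ q) ∧ (-(n : ℤ) ≤ x.2 ∧ x.2 ≤ n) ∧ -p ≤ x.1 - x.2 ∧ x.1 - x.2 ≤ q := by
  unfold card_odd_F
  rw [Finset.mem_filter, Finset.mem_product, Finset.mem_Icc, Finset.mem_Icc, and_assoc]

theorem card_odd_cardF (p q : ℤ) (n : ℕ) (h : (n : ℤ) ≤ p + q + 1) :
    ((card_odd_F p q n).card : ℤ) = (2 * n + 1) * (p + q + 1) - n * (n + 1) := by
  induction n with
  | zero =>
    have e : card_odd_F p q 0 = (Finset.Icc (-p) q).image (fun a => (a, (0 : ℤ))) := by
      ext ⟨a, b⟩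
      rw [card_odd_memF, Finset.mem_image]
      constructor
      · rintro ⟨h1, h2, h3⟩
        simp only [Nat.cast_zero, neg_zero] at h1 h2 h3
        have hb : b = 0 := le_antisymm h2.2 h2.1
        exact ⟨a, Finset.mem_Icc.2 h1, by rw [hb]⟩
      · rintro ⟨a', ha', h4⟩
        rw [Prod.mk.injEq] at h4
        obtain ⟨rfl, rfl⟩ := h4
        have h1 := Finset.mem_Icc.1 ha'
        simp only [Nat.cast_zero, neg_zero, sub_zero]
        exact ⟨h1, ⟨le_rfl, le_rfl⟩, h1⟩
    rw [e, Finset.card_image_of_injective _ (fun a b hab => (Prod.mk.inj hab).1), Int.card_Icc]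
    rw [Int.toNat_of_nonneg (by push_cast at h; linarith)]
    push_cast
    ring
  | succ n ih =>
    have ih' := ih (by push_cast at h; linarith)
    have e : card_odd_F p q (n + 1) = (card_odd_F p q n ∪
        (Finset.Icc ((n : ℤ) + 1 - p) q).image (fun a => (a, (n : ℤ) + 1))) ∪
        (Finset.Icc (-p) (q - ((n : ℤ) + 1))).image (fun a => (a, -((n : ℤ) + 1))) := by
      ext ⟨a, b⟩
      rw [Finset.mem_union, Finset.mem_union, card_odd_memF, card_odd_memF, Finset.mem_image,
        Finset.mem_image]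
      push_cast
      constructor
      · rintro ⟨h1, h2, h3⟩
        by_cases hb : b = (n : ℤ) + 1
        · left
          right
          exact ⟨a, Finset.mem_Icc.2 ⟨by linarith, h1.2⟩, by rw [hb]⟩
        · by_cases hb' : b = -((n : ℤ) + 1)
          · right
            exact ⟨a, Finset.mem_Icc.2 ⟨h1.1, by linarith⟩, by rw [hb']⟩
          · left
            left
            refine ⟨h1, ⟨?_, ?_⟩, h3⟩
            · omega
            · omega
      · rintro ((⟨h1, h2, h3⟩ | ⟨a', ha', h4⟩) | ⟨a', ha', h4⟩)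
        · exact ⟨h1, ⟨by linarith [h2.1], by linarith [h2.2]⟩, h3⟩
        · rw [Prod.mk.injEq] at h4
          obtain ⟨rfl, rfl⟩ := h4
          have h1 := Finset.mem_Icc.1 ha'
          refine ⟨⟨?_, ?_⟩, ⟨?_, ?_⟩, ?_, ?_⟩ <;> omega
        · rw [Prod.mk.injEq] at h4
          obtain ⟨rfl, rfl⟩ := h4
          have h1 := Finset.mem_Icc.1 ha'
          refine ⟨⟨?_, ?_⟩, ⟨?_, ?_⟩, ?_, ?_⟩ <;> omega
    have d1 : Disjoint (card_odd_F p q n)
        ((Finset.Icc ((n : ℤ) + 1 - p) q).image (fun a => (a, (n : ℤ) + 1))) := by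
      rw [Finset.disjoint_left]
      rintro ⟨a, b⟩ h1 h2
      rw [card_odd_memF] at h1
      rw [Finset.mem_image] at h2
      obtain ⟨a', _, h4⟩ := h2
      rw [Prod.mk.injEq] at h4
      have h5 := h1.2.1.2
      simp only at h5
      omega
    have d2 : Disjoint (card_odd_F p q n ∪
        (Finset.Icc ((n : ℤ) + 1 - p) q).image (fun a => (a, (n : ℤ) + 1)))
        ((Finset.Icc (-p) (q - ((n : ℤ) + 1))).image (fun a => (a, -((n : ℤ) + 1)))) := by
      rw [Finset.disjoint_left]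
      rintro ⟨a, b⟩ h1 h2
      rw [Finset.mem_union, card_odd_memF, Finset.mem_image] at h1
      rw [Finset.mem_image] at h2
      obtain ⟨a', _, h4⟩ := h2
      rw [Prod.mk.injEq] at h4
      rcases h1 with h1 | ⟨a'', _, h1⟩
      · have h5 := h1.2.1.1
        simp only at h5
        omega
      · rw [Prod.mk.injEq] at h1
        omega
    rw [e, Finset.card_union_of_disjoint d2, Finset.card_union_of_disjoint d1,
      Finset.card_image_of_injective _ (fun a b hab => (Prod.mk.inj hab).1),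
      Finset.card_image_of_injective _ (fun a b hab => (Prod.mk.inj hab).1),
      Int.card_Icc, Int.card_Icc]
    push_cast
    push_cast at h
    rw [ih', Int.toNat_of_nonneg (by linarith), Int.toNat_of_nonneg (by linarith)]
    ring

theorem card_odd_three (D : P3 → Prop) (F0 F1 F2 : Finset (ℤ × ℤ))
    (h : ∀ g, D g ↔ (g.r = 0 ∧ (g.a, g.b) ∈ F0) ∨ (g.r = 1 ∧ (g.a, g.b) ∈ F1) ∨
      (g.r = 2 ∧ (g.a, g.b) ∈ F2)) :
    ({g | D g} : Set P3).ncard = F0.card + F1.card + F2.card := by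
  have h01 : (0 : ZMod 3) ≠ 1 := by decide
  have h02 : (0 : ZMod 3) ≠ 2 := by decide
  have h12 : (1 : ZMod 3) ≠ 2 := by decide
  have hm : ∀ (F : Finset (ℤ × ℤ)) (r : ZMod 3) (g : P3),
      g ∈ F.image (fun x => (⟨x.1, x.2, r⟩ : P3)) ↔ g.r = r ∧ (g.a, g.b) ∈ F := by
    intro F r g
    rw [Finset.mem_image]
    constructor
    · rintro ⟨x, hx, rfl⟩
      exact ⟨rfl, hx⟩
    · rintro ⟨h1, h2⟩
      refine ⟨(g.a, g.b), h2, ?_⟩
      rw [← h1]
  have hi : ∀ r : ZMod 3, Function.Injective (fun x : ℤ × ℤ => (⟨x.1, x.2, r⟩ : P3)) := by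
    intro r x y hxy
    rw [P3.mk.injEq] at hxy
    exact Prod.ext hxy.1 hxy.2.1
  have hdis : ∀ (F F' : Finset (ℤ × ℤ)) (r r' : ZMod 3), r ≠ r' →
      Disjoint (F.image (fun x => (⟨x.1, x.2, r⟩ : P3)))
        (F'.image (fun x => (⟨x.1, x.2, r'⟩ : P3))) := by
    intro F F' r r' hr
    rw [Finset.disjoint_left]
    intro g h1 h2
    rw [hm] at h1 h2
    exact hr (h1.1.symm.trans h2.1)
  have e : ({g | D g} : Set P3) = ((F0.image (fun x => (⟨x.1, x.2, 0⟩ : P3)) ∪
      F1.image (fun x => (⟨x.1, x.2, 1⟩ : P3))) ∪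
      F2.image (fun x => (⟨x.1, x.2, 2⟩ : P3)) : Finset P3) := by
    ext g
    rw [Finset.mem_coe, Finset.mem_union, Finset.mem_union, hm, hm, hm, or_assoc]
    exact h g
  rw [e, Set.ncard_coe_finset, Finset.card_union_of_disjoint, Finset.card_union_of_disjoint,
    Finset.card_image_of_injective _ (hi 0), Finset.card_image_of_injective _ (hi 1),
    Finset.card_image_of_injective _ (hi 2)]
  · exact hdis _ _ _ _ h01
  · rw [Finset.disjoint_union_left]
    exact ⟨hdis _ _ _ _ h02, hdis _ _ _ _ h12⟩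

theorem card_odd_mem2 (F : Finset (ℤ × ℤ)) (a b : ℤ) :
    (a, b) ∈ F.image (fun x => (x.1, x.1 - x.2)) ↔ (a, a - b) ∈ F := by
  rw [Finset.mem_image]
  constructor
  · rintro ⟨x, hx, h⟩
    rw [Prod.mk.injEq] at h
    have h1 : x = (a, a - b) := Prod.ext h.1 (by simp only; linarith [h.1, h.2])
    rw [← h1]
    exact hx
  · intro h
    exact ⟨_, h, by simp⟩

theorem card_odd_card2 (F : Finset (ℤ × ℤ)) :
    (F.image (fun x => (x.1, x.1 - x.2))).card = F.card := by
  refine Finset.card_image_of_injective _ (fun x y hxy => ?_)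
  rw [Prod.mk.injEq] at hxy
  exact Prod.ext hxy.1 (by linarith [hxy.1, hxy.2])

theorem card_odd (n : ℕ) : ({g | DOdd n g} : Set P3).ncard = 9 * n ^ 2 + 13 * n + 5 := by
  have h := card_odd_three (DOdd n) (card_odd_F n n n) (card_odd_F n (n + 1) n)
    ((card_odd_F n (n + 1) n).image (fun x => (x.1, x.1 - x.2))) (by
      intro g
      rw [card_odd_mem2, card_odd_memF, card_odd_memF, card_odd_memF]
      unfold DOdd
      simp only
      constructor
      · rintro (h | h | h)
        · exact Or.inl ⟨h.1, by omega⟩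
        · exact Or.inr (Or.inl ⟨h.1, by omega⟩)
        · exact Or.inr (Or.inr ⟨h.1, by omega⟩)
      · rintro (h | h | h)
        · exact Or.inl ⟨h.1, by omega⟩
        · exact Or.inr (Or.inl ⟨h.1, by omega⟩)
        · exact Or.inr (Or.inr ⟨h.1, by omega⟩))
  rw [card_odd_card2] at h
  have h1 := card_odd_cardF n n n (by linarith [Int.natCast_nonneg n])
  have h2 := card_odd_cardF n (n + 1) n (by linarith [Int.natCast_nonneg n])
  have h3 : (({g | DOdd n g} : Set P3).ncard : ℤ) = 9 * (n : ℤ) ^ 2 + 13 * n + 5 := by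
    rw [h]
    push_cast
    rw [h1, h2]
    ring
  exact_mod_cast h3

theorem card_even (n : ℕ) (hn : 1 ≤ n) :
    (({g | DEven n g} : Set P3).ncard : ℤ) = 9 * (n : ℤ) ^ 2 + 5 * n - 1 := by
  have h := card_odd_three (DEven n)
    (((card_odd_F n n n).erase (0, (n : ℤ))).erase (0, -(n : ℤ))) (card_odd_F (n - 1) n n)
    ((card_odd_F (n - 1) n n).image (fun x => (x.1, x.1 - x.2))) (by
      intro g
      rw [card_odd_mem2, Finset.mem_erase, Finset.mem_erase, card_odd_memF, card_odd_memF,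
        card_odd_memF]
      unfold DEven
      simp only [ne_eq, Prod.mk.injEq]
      constructor
      · rintro (h | h | h)
        · exact Or.inl ⟨h.1, by omega⟩
        · exact Or.inr (Or.inl ⟨h.1, by omega⟩)
        · exact Or.inr (Or.inr ⟨h.1, by omega⟩)
      · rintro (h | h | h)
        · exact Or.inl ⟨h.1, by omega⟩
        · exact Or.inr (Or.inl ⟨h.1, by omega⟩)
        · exact Or.inr (Or.inr ⟨h.1, by omega⟩))
  rw [card_odd_card2] at h
  have h1 := card_odd_cardF n n n (by linarith [Int.natCast_nonneg n])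
  have h2 := card_odd_cardF (n - 1) n n (by linarith [Int.natCast_nonneg n])
  have m1 : ((0 : ℤ), (n : ℤ)) ∈ card_odd_F n n n := by
    rw [card_odd_memF]
    simp only
    omega
  have m2 : ((0 : ℤ), -(n : ℤ)) ∈ (card_odd_F n n n).erase (0, (n : ℤ)) := by
    rw [Finset.mem_erase, card_odd_memF]
    simp only [ne_eq, Prod.mk.injEq]
    omega
  have c1 := Finset.card_erase_add_one m1
  have c2 := Finset.card_erase_add_one m2
  rw [h]
  push_cast
  rw [h2]
  have c3 : ((((card_odd_F n n n).erase (0, (n : ℤ))).erase (0, -(n : ℤ))).card : ℤ) =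
      ((card_odd_F n n n).card : ℤ) - 2 := by omega
  rw [c3, h1]
  ring

theorem card_D2 (k : ℕ) (hk : 1 ≤ k) :
    (({g | D2 k g} : Set P3).ncard : ℤ) = 9 * (k : ℤ) ^ 2 - 3 * k + 3 := by
  obtain ⟨m, rfl⟩ : ∃ m, k = m + 1 := ⟨k - 1, by omega⟩
  have hr : ∀ r : ZMod 3, r ≠ 0 ↔ (r = 1 ∨ r = 2) := by decide
  have h := card_odd_three (D2 ((m + 1 : ℕ) : ℤ)) (card_odd_F ((m + 1 : ℕ) : ℤ) ((m + 1 : ℕ) : ℤ) (m + 1))
    (card_odd_F m m m) (card_odd_F m m m) (by
      intro g
      rw [card_odd_memF, card_odd_memF]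
      unfold D2
      rw [hr]
      push_cast
      constructor
      · rintro (h | ⟨h | h, h'⟩)
        · exact Or.inl ⟨h.1, by omega⟩
        · exact Or.inr (Or.inl ⟨h, by omega⟩)
        · exact Or.inr (Or.inr ⟨h, by omega⟩)
      · rintro (h | h | h)
        · exact Or.inl ⟨h.1, by omega⟩
        · exact Or.inr ⟨Or.inl h.1, by omega⟩
        · exact Or.inr ⟨Or.inr h.1, by omega⟩)
  have h1 := card_odd_cardF ((m + 1 : ℕ) : ℤ) ((m + 1 : ℕ) : ℤ) (m + 1)
    (by linarith [Int.natCast_nonneg (m + 1)])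
  have h2 := card_odd_cardF m m m (by linarith [Int.natCast_nonneg m])
  rw [h, Nat.cast_add, Nat.cast_add, h1, h2]
  push_cast
  ring

end P3

end JE2

end Pool.Agent.Helper602.Growth
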