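import Mathlib
import Pool.Agent.Helper602.Growth.Defs

set_option autoImplicit false

namespace Pool.Agent.Helper602.Growth

open Filter Topology

open P3

namespace JF


namespace P3

theorem z10 : ¬ (1 : ZMod 3) = 0 := by decide
theorem z20 : ¬ (2 : ZMod 3) = 0 := by decide
theorem z21 : ¬ (2 : ZMod 3) = 1 := by decide
theorem z12' : (1 : ZMod 3) + 2 = 0 := by decide
theorem z21' : (2 : ZMod 3) + 1 = 0 := by decide
theorem z22' : (2 : ZMod 3) + 2 = 1 := by decide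
theorem z11' : (1 : ZMod 3) + 1 = 2 := by decide
theorem zcases (r : ZMod 3) : r = 0 ∨ r = 1 ∨ r = 2 := by revert r; decide

/-- description of the letters -/
theorem letter {s : P3} (h : s ∈ S₂ ∨ s⁻¹ ∈ S₂) :
    (s.r = 0 ∧ ((s.a = 1 ∧ s.b = 0) ∨ (s.a = 0 ∧ s.b = 1) ∨ (s.a = 1 ∧ s.b = 1) ∨
      (s.a = -1 ∧ s.b = 0) ∨ (s.a = 0 ∧ s.b = -1) ∨ (s.a = -1 ∧ s.b = -1))) ∨
    (s.a = 0 ∧ s.b = 0 ∧ s.r ≠ 0) := by
  have key : ∀ t : P3, t ∈ S₂ → t = x ∨ t = ⟨1, 0, 0⟩ ∨ t = ⟨0, 1, 0⟩ ∨ t = ⟨1, 1, 0⟩ := by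
    intro t ht
    simpa [S₂] using ht
  rcases h with h | h
  · rcases key s h with rfl | rfl | rfl | rfl
    · right
      exact ⟨rfl, rfl, z10⟩
    · left
      exact ⟨rfl, Or.inl ⟨rfl, rfl⟩⟩
    · left
      exact ⟨rfl, Or.inr (Or.inl ⟨rfl, rfl⟩)⟩
    · left
      exact ⟨rfl, Or.inr (Or.inr (Or.inl ⟨rfl, rfl⟩))⟩
  · rcases key _ h with h | h | h | h
    · have h' : s = x⁻¹ := by rw [← h, inv_inv]
      subst h'
      right
      rw [inv_def]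
      refine ⟨?_, ?_, ?_⟩
      · simp [x, ra_zz]
      · simp [x, rb_zz]
      · show -(1 : ZMod 3) ≠ 0
        decide
    · have h' : s = (⟨1, 0, 0⟩ : P3)⁻¹ := by rw [← h, inv_inv]
      subst h'
      left
      rw [inv_def]
      simp [ra_zero, rb_zero]
    · have h' : s = (⟨0, 1, 0⟩ : P3)⁻¹ := by rw [← h, inv_inv]
      subst h'
      left
      rw [inv_def]
      simp [ra_zero, rb_zero]
    · have h' : s = (⟨1, 1, 0⟩ : P3)⁻¹ := by rw [← h, inv_inv]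
      subst h'
      left
      rw [inv_def]
      simp [ra_zero, rb_zero]

theorem D2_step {s : P3} (h : s ∈ S₂ ∨ s⁻¹ ∈ S₂) (k : ℤ) (g : P3) (hg : D2 k g) :
    D2 (k + 1) (s * g) := by
  obtain ⟨a, b, r⟩ := g
  have hs := letter h
  obtain ⟨sa, sb, sr⟩ := s
  rw [mul_def]
  simp only at hs
  rcases hs with ⟨h0, hs⟩ | ⟨h1, h2, h3⟩
  · subst h0
    simp only [D2, ra_zero, rb_zero, zero_add] at hg ⊢
    rcases hg with ⟨hr, hg⟩ | ⟨hr, hg⟩
    · left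
      refine ⟨hr, ?_⟩
      rcases hs with ⟨rfl, rfl⟩ | ⟨rfl, rfl⟩ | ⟨rfl, rfl⟩ | ⟨rfl, rfl⟩ | ⟨rfl, rfl⟩ | ⟨rfl, rfl⟩ <;> omega
    · right
      refine ⟨hr, ?_⟩
      rcases hs with ⟨rfl, rfl⟩ | ⟨rfl, rfl⟩ | ⟨rfl, rfl⟩ | ⟨rfl, rfl⟩ | ⟨rfl, rfl⟩ | ⟨rfl, rfl⟩ <;> omega
  · subst h1
    subst h2
    rcases zcases sr with rfl | rfl | rfl
    · exact absurd rfl h3
    · rcases zcases r with rfl | rfl | rfl
      · simp only [D2, ra, rb, if_neg z10, if_true, add_zero, zero_add] at hg ⊢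
        rcases hg with ⟨_, hg⟩ | ⟨hr, _⟩
        · right
          exact ⟨z10, by omega⟩
        · exact absurd rfl hr
      · simp only [D2, ra, rb, if_neg z10, if_true, z11', zero_add] at hg ⊢
        rcases hg with ⟨hr, _⟩ | ⟨_, hg⟩
        · exact absurd hr z10
        · right
          exact ⟨z20, by omega⟩
      · simp only [D2, ra, rb, if_neg z10, if_true, z12', zero_add] at hg ⊢
        rcases hg with ⟨hr, _⟩ | ⟨_, hg⟩
        · exact absurd hr z20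
        · left
          exact ⟨trivial, by omega⟩
    · rcases zcases r with rfl | rfl | rfl
      · simp only [D2, ra, rb, if_neg z20, if_neg z21, add_zero, zero_add] at hg ⊢
        rcases hg with ⟨_, hg⟩ | ⟨hr, _⟩
        · right
          exact ⟨z20, by omega⟩
        · exact absurd rfl hr
      · simp only [D2, ra, rb, if_neg z20, if_neg z21, z21', zero_add] at hg ⊢
        rcases hg with ⟨hr, _⟩ | ⟨_, hg⟩
        · exact absurd hr z10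
        · left
          exact ⟨trivial, by omega⟩
      · simp only [D2, ra, rb, if_neg z20, if_neg z21, z22', zero_add] at hg ⊢
        rcases hg with ⟨hr, _⟩ | ⟨_, hg⟩
        · exact absurd hr z20
        · right
          exact ⟨z10, by omega⟩

theorem ball_mono' {k : ℕ} {g : P3} (h : g ∈ ball S₂ k) : g ∈ ball S₂ (k + 1) := by
  obtain ⟨l, h1, h2, h3⟩ := h
  exact ⟨l, by omega, h2, h3⟩

theorem ball_cons {k : ℕ} {g s : P3} (hs : s ∈ S₂ ∨ s⁻¹ ∈ S₂) (h : g ∈ ball S₂ k) :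
    s * g ∈ ball S₂ (k + 1) := by
  obtain ⟨l, h1, h2, h3⟩ := h
  refine ⟨s :: l, by simpa using h1, ?_, by rw [List.prod_cons, h3]⟩
  intro t ht
  rcases List.mem_cons.1 ht with rfl | ht
  · exact hs
  · exact h2 t ht

theorem mem_t1 : (⟨1, 0, 0⟩ : P3) ∈ S₂ := by simp [S₂]
theorem mem_t2 : (⟨0, 1, 0⟩ : P3) ∈ S₂ := by simp [S₂]
theorem mem_t3 : (⟨1, 1, 0⟩ : P3) ∈ S₂ := by simp [S₂]
theorem mem_x : x ∈ S₂ := by simp [S₂]

theorem tr_mul (a b a' b' : ℤ) (r : ZMod 3) :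
    (⟨a, b, 0⟩ : P3) * ⟨a', b', r⟩ = ⟨a + a', b + b', r⟩ := by
  rw [mul_def]
  simp [ra_zero, rb_zero]

theorem tr_inv (a b : ℤ) : (⟨a, b, 0⟩ : P3)⁻¹ = ⟨-a, -b, 0⟩ := by
  rw [inv_def]
  simp [ra_zero, rb_zero]

theorem step_tr {k : ℕ} {a b : ℤ} {r : ZMod 3} (c d : ℤ)
    (hs : (⟨c, d, 0⟩ : P3) ∈ S₂ ∨ (⟨c, d, 0⟩ : P3)⁻¹ ∈ S₂)
    (h : (⟨a - c, b - d, r⟩ : P3) ∈ ball S₂ k) : (⟨a, b, r⟩ : P3) ∈ ball S₂ (k + 1) := by
  have h1 := ball_cons hs h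
  rw [tr_mul] at h1
  have e1 : c + (a - c) = a := by ring
  have e2 : d + (b - d) = b := by ring
  rwa [e1, e2] at h1

theorem x_mul (a b : ℤ) (r : ZMod 3) : x * ⟨a, b, r⟩ = ⟨-b, a - b, 1 + r⟩ := by
  rw [mul_def]
  simp [x, ra, rb, z10]

theorem xi : x⁻¹ = ⟨0, 0, 2⟩ := by
  rw [inv_def]
  simp only [x, ra_zz, rb_zz, neg_zero]
  congr 1

theorem xi_mul (a b : ℤ) (r : ZMod 3) : x⁻¹ * ⟨a, b, r⟩ = ⟨b - a, -a, 2 + r⟩ := by
  rw [xi, mul_def]
  simp [ra, rb, z20, z21]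

theorem D2_mem (k : ℕ) : ∀ g : P3, D2 k g → g ∈ ball S₂ k := by
  induction k with
  | zero =>
    intro g hg
    obtain ⟨a, b, r⟩ := g
    simp only [D2] at hg
    push_cast at hg
    rcases hg with ⟨hr, hg⟩ | ⟨hr, hg⟩
    · have ha : a = 0 := by omega
      have hb : b = 0 := by omega
      subst ha; subst hb; subst hr
      exact ⟨[], le_rfl, by simp, rfl⟩
    · exfalso
      omega
  | succ k ih =>
    intro g hg
    obtain ⟨a, b, r⟩ := g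
    simp only [D2] at hg
    push_cast at hg
    rcases hg with ⟨hr, hg⟩ | ⟨hr, hg⟩
    · subst hr
      by_cases hN : -(k:ℤ) ≤ a ∧ a ≤ k ∧ -(k:ℤ) ≤ b ∧ b ≤ k ∧ -(k:ℤ) ≤ a - b ∧ a - b ≤ k
      · exact ball_mono' (ih _ (Or.inl ⟨rfl, hN⟩))
      · by_cases h1 : 0 < a ∧ 0 < b
        · refine step_tr 1 1 (Or.inl mem_t3) (ih _ (Or.inl ⟨rfl, ?_⟩))
          show -(k:ℤ) ≤ a - 1 ∧ a - 1 ≤ k ∧ -(k:ℤ) ≤ b - 1 ∧ b - 1 ≤ k ∧
            -(k:ℤ) ≤ a - 1 - (b - 1) ∧ a - 1 - (b - 1) ≤ k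
          omega
        by_cases h2 : a < 0 ∧ b < 0
        · refine step_tr (-1) (-1) (Or.inr (by rw [tr_inv]; exact mem_t3))
            (ih _ (Or.inl ⟨rfl, ?_⟩))
          show -(k:ℤ) ≤ a - -1 ∧ a - -1 ≤ k ∧ -(k:ℤ) ≤ b - -1 ∧ b - -1 ≤ k ∧
            -(k:ℤ) ≤ a - -1 - (b - -1) ∧ a - -1 - (b - -1) ≤ k
          omega
        by_cases h3 : 0 < a
        · refine step_tr 1 0 (Or.inl mem_t1) (ih _ (Or.inl ⟨rfl, ?_⟩))
          show -(k:ℤ) ≤ a - 1 ∧ a - 1 ≤ k ∧ -(k:ℤ) ≤ b - 0 ∧ b - 0 ≤ k ∧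
            -(k:ℤ) ≤ a - 1 - (b - 0) ∧ a - 1 - (b - 0) ≤ k
          omega
        by_cases h4 : 0 < b
        · refine step_tr 0 1 (Or.inl mem_t2) (ih _ (Or.inl ⟨rfl, ?_⟩))
          show -(k:ℤ) ≤ a - 0 ∧ a - 0 ≤ k ∧ -(k:ℤ) ≤ b - 1 ∧ b - 1 ≤ k ∧
            -(k:ℤ) ≤ a - 0 - (b - 1) ∧ a - 0 - (b - 1) ≤ k
          omega
        by_cases h5 : a < 0
        · refine step_tr (-1) 0 (Or.inr (by rw [tr_inv]; exact mem_t1))
            (ih _ (Or.inl ⟨rfl, ?_⟩))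
          show -(k:ℤ) ≤ a - -1 ∧ a - -1 ≤ k ∧ -(k:ℤ) ≤ b - 0 ∧ b - 0 ≤ k ∧
            -(k:ℤ) ≤ a - -1 - (b - 0) ∧ a - -1 - (b - 0) ≤ k
          omega
        · refine step_tr 0 (-1) (Or.inr (by rw [tr_inv]; exact mem_t2))
            (ih _ (Or.inl ⟨rfl, ?_⟩))
          show -(k:ℤ) ≤ a - 0 ∧ a - 0 ≤ k ∧ -(k:ℤ) ≤ b - -1 ∧ b - -1 ≤ k ∧
            -(k:ℤ) ≤ a - 0 - (b - -1) ∧ a - 0 - (b - -1) ≤ k
          omega
    · rcases zcases r with rfl | rfl | rfl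
      · exact absurd rfl hr
      · have h1 : x⁻¹ * ⟨a, b, 1⟩ ∈ ball S₂ k := by
          rw [xi_mul, z21']
          refine ih _ (Or.inl ⟨rfl, ?_⟩)
          show -(k:ℤ) ≤ b - a ∧ b - a ≤ k ∧ -(k:ℤ) ≤ -a ∧ -a ≤ k ∧
            -(k:ℤ) ≤ b - a - -a ∧ b - a - -a ≤ k
          omega
        have h2 := ball_cons (Or.inl mem_x) h1
        rwa [mul_inv_cancel_left] at h2
      · have h1 : x * ⟨a, b, 2⟩ ∈ ball S₂ k := by
          rw [x_mul, z12']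
          refine ih _ (Or.inl ⟨rfl, ?_⟩)
          show -(k:ℤ) ≤ -b ∧ -b ≤ k ∧ -(k:ℤ) ≤ a - b ∧ a - b ≤ k ∧
            -(k:ℤ) ≤ -b - (a - b) ∧ -b - (a - b) ≤ k
          omega
        have h2 := ball_cons (s := x⁻¹) (Or.inr (by rw [inv_inv]; exact mem_x)) h1
        rwa [inv_mul_cancel_left] at h2

theorem D2_list (l : List P3) (hl : ∀ s ∈ l, s ∈ S₂ ∨ s⁻¹ ∈ S₂) : D2 l.length l.prod := by
  induction l with
  | nil =>
    rw [List.prod_nil, one_def]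
    simp [D2]
  | cons s l ih =>
    rw [List.prod_cons, List.length_cons]
    have h1 := D2_step (hl s (by simp)) _ _ (ih fun t ht => hl t (by simp [ht]))
    push_cast
    exact h1

theorem D2_mono {k k' : ℤ} (h : k ≤ k') {g : P3} (hg : D2 k g) : D2 k' g := by
  obtain ⟨a, b, r⟩ := g
  simp only [D2] at hg ⊢
  rcases hg with ⟨hr, hg⟩ | ⟨hr, hg⟩
  · left
    exact ⟨hr, by omega⟩
  · right
    exact ⟨hr, by omega⟩

theorem ball_S₂ (k : ℕ) (hk : 1 ≤ k) : ball S₂ k = {g | D2 k g} := by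
  ext g
  constructor
  · rintro ⟨l, h1, h2, rfl⟩
    exact D2_mono (by exact_mod_cast h1) (D2_list l h2)
  · intro hg
    exact D2_mem k g hg

theorem t1_zpow (n : ℤ) : (⟨1, 0, 0⟩ : P3) ^ n = ⟨n, 0, 0⟩ := by
  induction n using Int.induction_on with
  | zero => rw [zpow_zero, one_def]
  | succ n ih => rw [zpow_add_one, ih, tr_mul, add_zero]
  | pred n ih => rw [zpow_sub_one, ih, tr_inv, tr_mul, neg_zero, add_zero]; rfl

theorem t2_zpow (n : ℤ) : (⟨0, 1, 0⟩ : P3) ^ n = ⟨0, n, 0⟩ := by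
  induction n using Int.induction_on with
  | zero => rw [zpow_zero, one_def]
  | succ n ih => rw [zpow_add_one, ih, tr_mul, add_zero]
  | pred n ih => rw [zpow_sub_one, ih, tr_inv, tr_mul, neg_zero, add_zero]; rfl

theorem eq_top_of {K : Subgroup P3} (hx : x ∈ K) (h1 : (⟨1, 0, 0⟩ : P3) ∈ K) : K = ⊤ := by
  rw [eq_top_iff]
  rintro ⟨a, b, r⟩ _
  have h2 : (⟨0, 1, 0⟩ : P3) ∈ K := by
    have h3 : x * ⟨1, 0, 0⟩ * x⁻¹ ∈ K := K.mul_mem (K.mul_mem hx h1) (K.inv_mem hx)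
    have h4 : x * ⟨1, 0, 0⟩ * x⁻¹ = (⟨0, 1, 0⟩ : P3) := by
      rw [x_mul, xi, mul_def]
      simp only [ra_zz, rb_zz, add_zero, neg_zero, sub_zero]
      rw [z12']
    rwa [h4] at h3
  have h3 : (⟨a, b, 0⟩ : P3) ∈ K := by
    have h4 := K.mul_mem (K.zpow_mem h1 a) (K.zpow_mem h2 b)
    rwa [t1_zpow, t2_zpow, tr_mul, add_zero, zero_add] at h4
  rcases zcases r with rfl | rfl | rfl
  · exact h3
  · have h4 := K.mul_mem h3 hx
    rwa [x, tr_mul, add_zero, add_zero] at h4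
  · have h4 := K.mul_mem h3 (K.inv_mem hx)
    rwa [xi, tr_mul, add_zero, add_zero] at h4

theorem closure_S₁ : Subgroup.closure (S₁ : Set P3) = ⊤ := by
  have hx : x ∈ Subgroup.closure (S₁ : Set P3) := Subgroup.subset_closure (by simp [S₁])
  have hy : y ∈ Subgroup.closure (S₁ : Set P3) := Subgroup.subset_closure (by simp [S₁])
  refine eq_top_of hx ?_
  have h1 := (Subgroup.closure (S₁ : Set P3)).mul_mem hy
    ((Subgroup.closure (S₁ : Set P3)).inv_mem hx)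
  have h2 : y * x⁻¹ = (⟨1, 0, 0⟩ : P3) := by
    rw [xi, y, mul_def]
    simp only [ra_zz, rb_zz, add_zero]
    rw [z12']
  rwa [h2] at h1

theorem closure_S₂ : Subgroup.closure (S₂ : Set P3) = ⊤ :=
  eq_top_of (Subgroup.subset_closure (by exact_mod_cast mem_x))
    (Subgroup.subset_closure (by exact_mod_cast mem_t1))

/-- the rotation part -/
def rot : P3 →* Multiplicative (ZMod 3) where
  toFun g := Multiplicative.ofAdd g.r
  map_one' := rfl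
  map_mul' _ _ := rfl

/-- the translations form an abelian subgroup of index 3 -/
theorem exists_abelian : ∃ H : Subgroup P3, H.FiniteIndex ∧ ∀ u ∈ H, ∀ v ∈ H, u * v = v * u := by
  have : Finite (Multiplicative (ZMod 3)) := inferInstanceAs (Finite (ZMod 3))
  refine ⟨rot.ker, Subgroup.finiteIndex_ker rot, fun u hu v hv => ?_⟩
  obtain ⟨a, b, r⟩ := u
  obtain ⟨a', b', r'⟩ := v
  have hr : r = 0 := hu
  have hr' : r' = 0 := hv
  subst hr
  subst hr'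
  rw [tr_mul, tr_mul, add_comm a, add_comm b]

end P3

end JF

end Pool.Agent.Helper602.Growth
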