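import Mathlib
import Pool.Agent.Helper602.Growth.Defs

set_option autoImplicit false

namespace Pool.Agent.Helper602.Growth

open Filter Topology

namespace JH


theorem ball_zero' {G : Type*} [Group G] (S : Finset G) (g : G) : g ∈ ball S 0 ↔ g = 1 := by
  constructor
  · rintro ⟨l, hl, -, hp⟩
    have : l = [] := List.length_eq_zero_iff.mp (Nat.le_zero.mp hl)
    rw [← hp, this, List.prod_nil]
  · rintro rfl
    exact ⟨[], by simp, by simp, by simp⟩

theorem ball_succ' {G : Type*} [Group G] (S : Finset G) (h1 : (1 : G) ∈ S) (k : ℕ) (g : G) :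
    g ∈ ball S (k + 1) ↔ ∃ s, (s ∈ S ∨ s⁻¹ ∈ S) ∧ s⁻¹ * g ∈ ball S k := by
  constructor
  · rintro ⟨l, hl, hm, hp⟩
    cases l with
    | nil =>
      refine ⟨1, Or.inl h1, [], by simp, by simp, ?_⟩
      rw [← hp]; simp
    | cons s l =>
      refine ⟨s, hm s (by simp), l, ?_, fun t ht => hm t (by simp [ht]), ?_⟩
      · simpa using hl
      · rw [← hp, List.prod_cons, inv_mul_cancel_left]
  · rintro ⟨s, hs, l, hl, hm, hp⟩
    refine ⟨s :: l, by simpa using hl, ?_, ?_⟩
    · intro t ht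
      rcases List.mem_cons.mp ht with rfl | ht
      · exact hs
      · exact hm t ht
    · rw [List.prod_cons, hp, mul_inv_cancel_left]

theorem mem_E' (e : Multiplicative ℤ) :
    e ∈ ({Multiplicative.ofAdd (-1 : ℤ), 1, Multiplicative.ofAdd (1 : ℤ)} : Finset (Multiplicative ℤ)) ↔
      |Multiplicative.toAdd e| ≤ 1 := by
  rw [Finset.mem_insert, Finset.mem_insert, Finset.mem_singleton]
  have h1 : e = Multiplicative.ofAdd (-1 : ℤ) ↔ Multiplicative.toAdd e = -1 := by
    constructor
    · rintro rfl; rfl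
    · intro h; rw [← h]; rfl
  have h2 : e = 1 ↔ Multiplicative.toAdd e = 0 := by
    constructor
    · rintro rfl; rfl
    · intro h
      have : Multiplicative.ofAdd (Multiplicative.toAdd e) = Multiplicative.ofAdd (0 : ℤ) := by rw [h]
      exact this
  have h3 : e = Multiplicative.ofAdd (1 : ℤ) ↔ Multiplicative.toAdd e = 1 := by
    constructor
    · rintro rfl; rfl
    · intro h; rw [← h]; rfl
  rw [h1, h2, h3, abs_le]
  omega

theorem ball_prod' {G : Type} [Group G] (S : Finset G) (h1 : (1 : G) ∈ S)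
    (T : Finset (G × Multiplicative ℤ))
    (hT : T = S ×ˢ {Multiplicative.ofAdd (-1 : ℤ), 1, Multiplicative.ofAdd (1 : ℤ)}) (k : ℕ) :
    ∀ (g : G) (n : Multiplicative ℤ), (g, n) ∈ ball T k ↔ g ∈ ball S k ∧ |Multiplicative.toAdd n| ≤ (k : ℤ) := by
  have hT1 : (1 : G × Multiplicative ℤ) ∈ T := by
    rw [hT]; simp [h1]
  have hlet : ∀ (s : G) (e : Multiplicative ℤ), ((s, e) ∈ T ∨ (s, e)⁻¹ ∈ T) ↔
      ((s ∈ S ∨ s⁻¹ ∈ S) ∧ |Multiplicative.toAdd e| ≤ 1) := by
    intro s e
    rw [hT, Finset.mem_product, mem_E', Prod.inv_mk, Finset.mem_product, mem_E', toAdd_inv, abs_neg]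
    tauto
  induction k with
  | zero =>
    intro g n
    rw [ball_zero', ball_zero', Prod.mk_eq_one]
    have h2 : n = 1 ↔ Multiplicative.toAdd n = 0 := by
      constructor
      · rintro rfl; rfl
      · intro h
        have : Multiplicative.ofAdd (Multiplicative.toAdd n) = Multiplicative.ofAdd (0 : ℤ) := by rw [h]
        exact this
    rw [h2]
    simp
  | succ k ih =>
    intro g n
    rw [ball_succ' T hT1, ball_succ' S h1]
    constructor
    · rintro ⟨⟨s, e⟩, hse, hb⟩
      rw [hlet] at hse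
      have hb' : (s⁻¹ * g, e⁻¹ * n) ∈ ball T k := hb
      rw [ih] at hb'
      refine ⟨⟨s, hse.1, hb'.1⟩, ?_⟩
      have h3 := hb'.2
      have h4 := hse.2
      rw [toAdd_mul, toAdd_inv] at h3
      rw [abs_le] at h3 h4 ⊢
      push_cast
      omega
    · rintro ⟨⟨s, hs, hb⟩, hn⟩
      have : ∃ z : ℤ, |z| ≤ 1 ∧ |-z + Multiplicative.toAdd n| ≤ (k : ℤ) := by
        rw [abs_le] at hn
        push_cast at hn
        rcases lt_trichotomy (Multiplicative.toAdd n) 0 with h | h | h
        · exact ⟨-1, by simp, by rw [abs_le]; omega⟩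
        · exact ⟨0, by simp, by rw [abs_le]; omega⟩
        · exact ⟨1, by simp, by rw [abs_le]; omega⟩
      obtain ⟨z, hz1, hz2⟩ := this
      refine ⟨(s, Multiplicative.ofAdd z), (hlet _ _).2 ⟨hs, hz1⟩, ?_⟩
      show (s⁻¹ * g, (Multiplicative.ofAdd z)⁻¹ * n) ∈ ball T k
      rw [ih]
      refine ⟨hb, ?_⟩
      rw [toAdd_mul, toAdd_inv, toAdd_ofAdd]
      exact hz2

/-- multiplying with `ℤ` and the generating set `S × {-1,0,1}` multiplies the growth function by `2k+1` -/
theorem product_step {G : Type} [Group G] (S : Finset G) (h1 : (1 : G) ∈ S)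
    (hS : Subgroup.closure (S : Set G) = ⊤)
    (T : Finset (G × Multiplicative ℤ))
    (hT : T = S ×ˢ {Multiplicative.ofAdd (-1 : ℤ), 1, Multiplicative.ofAdd (1 : ℤ)}) :
    (1 : G × Multiplicative ℤ) ∈ T ∧ Subgroup.closure (T : Set (G × Multiplicative ℤ)) = ⊤ ∧
      ∀ k, beta T k = beta S k * (2 * k + 1) := by
  have hT1 : (1 : G × Multiplicative ℤ) ∈ T := by
    rw [hT]; simp [h1]
  refine ⟨hT1, ?_, ?_⟩
  · rw [eq_top_iff]
    rintro ⟨g, n⟩ -
    have ha : (g, (1 : Multiplicative ℤ)) ∈ Subgroup.closure (T : Set (G × Multiplicative ℤ)) := by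
      have h2 : Subgroup.closure (S : Set G) ≤
          (Subgroup.closure (T : Set (G × Multiplicative ℤ))).comap (MonoidHom.inl G (Multiplicative ℤ)) := by
        rw [Subgroup.closure_le]
        intro s hs
        show (s, (1 : Multiplicative ℤ)) ∈ Subgroup.closure (T : Set (G × Multiplicative ℤ))
        apply Subgroup.subset_closure
        rw [hT]
        have : s ∈ S := hs
        simp [this]
      rw [hS] at h2
      exact h2 (Subgroup.mem_top g)
    have hb : ((1 : G), n) ∈ Subgroup.closure (T : Set (G × Multiplicative ℤ)) := by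
      have h3 : ((1 : G), Multiplicative.ofAdd (1 : ℤ)) ∈ Subgroup.closure (T : Set (G × Multiplicative ℤ)) := by
        apply Subgroup.subset_closure
        rw [hT]
        simp [h1]
      have h4 := Subgroup.zpow_mem _ h3 (Multiplicative.toAdd n)
      have h5 : ((1 : G), Multiplicative.ofAdd (1 : ℤ)) ^ (Multiplicative.toAdd n) = ((1 : G), n) := by
        rw [Prod.pow_mk, one_zpow, ← ofAdd_zsmul]
        simp
      rw [h5] at h4
      exact h4
    have := Subgroup.mul_mem _ ha hb
    simpa using this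
  · intro k
    have h2 : ball T k = ball S k ×ˢ {n : Multiplicative ℤ | |Multiplicative.toAdd n| ≤ (k : ℤ)} := by
      ext ⟨g, n⟩
      rw [ball_prod' S h1 T hT k g n]
      rfl
    have h3 : {n : Multiplicative ℤ | |Multiplicative.toAdd n| ≤ (k : ℤ)} =
        Multiplicative.ofAdd '' ((Finset.Icc (-(k:ℤ)) k : Finset ℤ) : Set ℤ) := by
      ext n
      constructor
      · intro hn
        refine ⟨Multiplicative.toAdd n, ?_, rfl⟩
        rw [Finset.mem_coe, Finset.mem_Icc]
        exact abs_le.mp hn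
      · rintro ⟨z, hz, rfl⟩
        rw [Finset.mem_coe, Finset.mem_Icc] at hz
        exact abs_le.mpr hz
    unfold beta
    rw [h2, Set.ncard_prod, h3, Set.ncard_image_of_injective _ Multiplicative.ofAdd.injective,
      Set.ncard_coe_finset, Int.card_Icc]
    congr 1
    omega

theorem product_abelian {G : Type} [Group G]
    (h : ∃ H : Subgroup G, H.FiniteIndex ∧ ∀ u ∈ H, ∀ v ∈ H, u * v = v * u) :
    ∃ H : Subgroup (G × Multiplicative ℤ), H.FiniteIndex ∧ ∀ u ∈ H, ∀ v ∈ H, u * v = v * u := by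
  obtain ⟨H, hH, hc⟩ := h
  refine ⟨H.prod ⊤, ?_, ?_⟩
  · constructor
    rw [Subgroup.index_prod]
    have := hH.index_ne_zero
    simpa using this
  · rintro ⟨a, n⟩ ha ⟨b, m⟩ hb
    rw [Prod.mk_mul_mk, Prod.mk_mul_mk, hc a ha.1 b hb.1, mul_comm n m]

/-- adding the identity to the generating set does not change the balls -/
theorem beta_insert_one {G : Type*} [Group G] [DecidableEq G] (S : Finset G) (k : ℕ) :
    beta (insert 1 S) k = beta S k := by
  have key : ∀ l : List G, (∀ s ∈ l, s ∈ insert 1 S ∨ s⁻¹ ∈ insert 1 S) →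
      ∃ l' : List G, l'.length ≤ l.length ∧ (∀ s ∈ l', s ∈ S ∨ s⁻¹ ∈ S) ∧ l'.prod = l.prod := by
    intro l
    induction l with
    | nil => intro _; exact ⟨[], by simp, by simp, by simp⟩
    | cons a l ih =>
      intro h
      obtain ⟨l', h1, h2, h3⟩ := ih (fun s hs => h s (by simp [hs]))
      by_cases ha : a = 1
      · refine ⟨l', ?_, h2, ?_⟩
        · simp only [List.length_cons]; omega
        · rw [List.prod_cons, ha, one_mul, h3]
      · have haS : a ∈ S ∨ a⁻¹ ∈ S := by
          rcases h a (by simp) with h4 | h4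
          · rcases Finset.mem_insert.mp h4 with h5 | h5
            · exact absurd h5 ha
            · exact Or.inl h5
          · rcases Finset.mem_insert.mp h4 with h5 | h5
            · exact absurd (inv_eq_one.mp h5) ha
            · exact Or.inr h5
        refine ⟨a :: l', ?_, ?_, ?_⟩
        · simp only [List.length_cons]; omega
        · intro s hs
          rcases List.mem_cons.mp hs with rfl | hs
          · exact haS
          · exact h2 s hs
        · rw [List.prod_cons, List.prod_cons, h3]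
  unfold beta
  congr 1
  ext g
  constructor
  · rintro ⟨l, hl, hm, hp⟩
    obtain ⟨l', h1, h2, h3⟩ := key l hm
    exact ⟨l', h1.trans hl, h2, h3.trans hp⟩
  · rintro ⟨l, hl, hm, hp⟩
    refine ⟨l, hl, fun s hs => ?_, hp⟩
    rcases hm s hs with h | h
    · exact Or.inl (Finset.mem_insert_of_mem h)
    · exact Or.inr (Finset.mem_insert_of_mem h)

/-- iterating -/
theorem iterate_product {G : Type} [Group G] (S S' : Finset G) (h1 : (1 : G) ∈ S)
    (h1' : (1 : G) ∈ S') (hS : Subgroup.closure (S : Set G) = ⊤)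
    (hS' : Subgroup.closure (S' : Set G) = ⊤)
    (h : ∃ H : Subgroup G, H.FiniteIndex ∧ ∀ u ∈ H, ∀ v ∈ H, u * v = v * u) (m : ℕ) :
    ∃ (Γ : Type) (_ : Group Γ) (T T' : Finset Γ), Subgroup.closure (T : Set Γ) = ⊤ ∧
      Subgroup.closure (T' : Set Γ) = ⊤ ∧
      (∃ H : Subgroup Γ, H.FiniteIndex ∧ ∀ u ∈ H, ∀ v ∈ H, u * v = v * u) ∧
      (∀ k, beta T k = beta S k * (2 * k + 1) ^ m) ∧
      (∀ k, beta T' k = beta S' k * (2 * k + 1) ^ m) := by
  have key : ∃ (Γ : Type) (_ : Group Γ) (T T' : Finset Γ), (1 : Γ) ∈ T ∧ (1 : Γ) ∈ T' ∧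
      Subgroup.closure (T : Set Γ) = ⊤ ∧
      Subgroup.closure (T' : Set Γ) = ⊤ ∧
      (∃ H : Subgroup Γ, H.FiniteIndex ∧ ∀ u ∈ H, ∀ v ∈ H, u * v = v * u) ∧
      (∀ k, beta T k = beta S k * (2 * k + 1) ^ m) ∧
      (∀ k, beta T' k = beta S' k * (2 * k + 1) ^ m) := by
    induction m with
    | zero => exact ⟨G, inferInstance, S, S', h1, h1', hS, hS', h, by simp, by simp⟩
    | succ m ih =>
      obtain ⟨Γ, _, T, T', a1, a2, a3, a4, a5, a6, a7⟩ := ih
      obtain ⟨b1, b2, b3⟩ := product_step T a1 a3 _ rfl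
      obtain ⟨c1, c2, c3⟩ := product_step T' a2 a4 _ rfl
      refine ⟨Γ × Multiplicative ℤ, inferInstance, _, _, b1, c1, b2, c2, product_abelian a5, ?_, ?_⟩
      · intro k
        rw [b3, a6, pow_succ, mul_assoc]
      · intro k
        rw [c3, a7, pow_succ, mul_assoc]
  obtain ⟨Γ, i, T, T', -, -, h3⟩ := key
  exact ⟨Γ, i, T, T', h3⟩

end JH

end Pool.Agent.Helper602.Growth
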