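import Mathlib
import Pool.Agent.Helper602.Growth.Defs

set_option autoImplicit false

namespace Pool.Agent.Helper602.Growth

open Filter Topology

namespace JI


theorem aux_gen (m : ℕ) (a u v : ℝ) (s : ℕ → ℕ) (hs : Tendsto s atTop atTop) (F : ℕ → ℝ)
    (hF : ∀ᶠ n in atTop, F n = (a * (s n : ℝ) ^ 2 + u * (s n : ℝ) + v) * (2 * (s n : ℝ) + 1) ^ m) :
    Tendsto (fun n => F n / (s n : ℝ) ^ (m + 2)) atTop (𝓝 (a * 2 ^ m)) ∧
    Tendsto (fun n => (F n - a * 2 ^ m * (s n : ℝ) ^ (m + 2)) / (s n : ℝ) ^ (m + 1)) atTop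
      (𝓝 (a * (m * 2 ^ (m - 1)) + u * 2 ^ m)) := by
  have hinv : Tendsto (fun n => ((s n : ℝ))⁻¹) atTop (𝓝 0) :=
    (tendsto_inv_atTop_nhds_zero_nat (𝕜 := ℝ)).comp hs
  have hpos : ∀ᶠ n in atTop, (0 : ℝ) < (s n : ℝ) := by
    filter_upwards [hs.eventually_ge_atTop 1] with n hn
    exact_mod_cast hn
  have h1 : Tendsto (fun n => (2 + ((s n : ℝ))⁻¹) ^ m) atTop (𝓝 ((2 + 0) ^ m)) :=
    (tendsto_const_nhds.add hinv).pow m
  rw [add_zero] at h1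
  have hne : Tendsto (fun n => ((s n : ℝ))⁻¹) atTop (𝓝[≠] 0) := by
    rw [tendsto_nhdsWithin_iff]
    refine ⟨hinv, ?_⟩
    filter_upwards [hpos] with n hn
    exact inv_ne_zero hn.ne'
  have hd : HasDerivAt (fun t : ℝ => (2 + t) ^ m) (m * 2 ^ (m - 1)) 0 := by
    have h := ((hasDerivAt_id (0 : ℝ)).const_add 2).fun_pow m
    simpa using h
  have h2 : Tendsto (fun n => (s n : ℝ) * ((2 + ((s n : ℝ))⁻¹) ^ m - 2 ^ m)) atTop
      (𝓝 (m * 2 ^ (m - 1))) := by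
    have h := (hasDerivAt_iff_tendsto_slope_zero.mp hd).comp hne
    refine h.congr ?_
    intro n
    simp [Function.comp]
  constructor
  · have h3 : Tendsto (fun n => (a + u * ((s n : ℝ))⁻¹ + v * (((s n : ℝ))⁻¹) ^ 2) *
        (2 + ((s n : ℝ))⁻¹) ^ m) atTop (𝓝 ((a + u * 0 + v * 0 ^ 2) * 2 ^ m)) :=
      ((tendsto_const_nhds.add (tendsto_const_nhds.mul hinv)).add
        (tendsto_const_nhds.mul (hinv.pow 2))).mul h1
    have h4 : (a + u * 0 + v * 0 ^ 2) * 2 ^ m = a * 2 ^ m := by ring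
    rw [h4] at h3
    refine h3.congr' ?_
    filter_upwards [hpos, hF] with n hn hFn
    rw [hFn]
    have h5 : (2 * (s n : ℝ) + 1) = (s n : ℝ) * (2 + ((s n : ℝ))⁻¹) := by
      field_simp
    rw [h5, mul_pow]
    have h6 : (s n : ℝ) ≠ 0 := hn.ne'
    rw [eq_div_iff (pow_ne_zero _ h6), pow_add]
    have h7 : (a + u * ((s n : ℝ))⁻¹ + v * (((s n : ℝ))⁻¹) ^ 2) * (s n : ℝ) ^ 2 =
        a * (s n : ℝ) ^ 2 + u * (s n : ℝ) + v := by
      field_simp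
    rw [← h7]
    ring
  · have h3 : Tendsto (fun n => a * ((s n : ℝ) * ((2 + ((s n : ℝ))⁻¹) ^ m - 2 ^ m)) +
        (u + v * ((s n : ℝ))⁻¹) * (2 + ((s n : ℝ))⁻¹) ^ m) atTop
        (𝓝 (a * (m * 2 ^ (m - 1)) + (u + v * 0) * 2 ^ m)) :=
      (tendsto_const_nhds.mul h2).add
        ((tendsto_const_nhds.add (tendsto_const_nhds.mul hinv)).mul h1)
    have h4 : a * (m * 2 ^ (m - 1)) + (u + v * 0) * 2 ^ m = a * (m * 2 ^ (m - 1)) + u * 2 ^ m := by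
      ring
    rw [h4] at h3
    refine h3.congr' ?_
    filter_upwards [hpos, hF] with n hn hFn
    rw [hFn]
    have h5 : (2 * (s n : ℝ) + 1) = (s n : ℝ) * (2 + ((s n : ℝ))⁻¹) := by
      field_simp
    rw [h5, mul_pow]
    have h6 : (s n : ℝ) ≠ 0 := hn.ne'
    rw [eq_div_iff (pow_ne_zero _ h6), pow_add, pow_add, pow_one]
    have h7 : (u + v * ((s n : ℝ))⁻¹) * (s n : ℝ) = u * (s n : ℝ) + v := by
      field_simp
    have h8 : a * (s n : ℝ) ^ 2 + u * (s n : ℝ) + v =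
        a * (s n : ℝ) ^ 2 + (u + v * ((s n : ℝ))⁻¹) * (s n : ℝ) := by
      rw [h7]; ring
    rw [h8]
    ring

theorem aux_even_odd (F : ℕ → ℝ) (l : ℝ) (h0 : Tendsto (fun n => F (2 * n)) atTop (𝓝 l))
    (h1 : Tendsto (fun n => F (2 * n + 1)) atTop (𝓝 l)) : Tendsto F atTop (𝓝 l) := by
  rw [tendsto_def] at h0 h1 ⊢
  intro U hU
  have h2 := h0 U hU
  have h3 := h1 U hU
  rw [mem_atTop_sets] at h2 h3 ⊢
  obtain ⟨N1, hN1⟩ := h2
  obtain ⟨N2, hN2⟩ := h3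
  refine ⟨2 * (N1 + N2) + 1, fun k hk => ?_⟩
  rcases Nat.even_or_odd' k with ⟨j, rfl | rfl⟩
  · exact hN1 j (by omega)
  · exact hN2 j (by omega)

/-- asymptotics for the first generating set: no second term -/
theorem asymp_one (f : ℕ → ℕ) (m : ℕ)
    (hodd : ∀ n : ℕ, (f (2 * n + 1) : ℤ) = (9 * (n : ℤ) ^ 2 + 13 * n + 5) * (2 * (2 * n + 1) + 1) ^ m)
    (heven : ∀ n : ℕ, 1 ≤ n →
      (f (2 * n) : ℤ) = (9 * (n : ℤ) ^ 2 + 5 * n - 1) * (2 * (2 * n) + 1) ^ m) :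
    ∃ c : ℝ, 0 < c ∧ Tendsto (fun k : ℕ => (f k : ℝ) / (k : ℝ) ^ (m + 2)) atTop (𝓝 c) ∧
      ¬ ∃ L : ℝ, Tendsto (fun k : ℕ => ((f k : ℝ) - c * (k : ℝ) ^ (m + 2)) / (k : ℝ) ^ (m + 1))
        atTop (𝓝 L) := by
  have hs0 : Tendsto (fun n : ℕ => 2 * n) atTop atTop :=
    tendsto_atTop_mono (f := fun n : ℕ => n) (fun n => by omega) tendsto_id
  have hs1 : Tendsto (fun n : ℕ => 2 * n + 1) atTop atTop := 
    tendsto_atTop_mono (f := fun n : ℕ => n) (fun n => by omega) tendsto_id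
  have e0 := aux_gen m (9 / 4) (5 / 2) (-1) (fun n => 2 * n) hs0 (fun n => (f (2 * n) : ℝ)) (by
    filter_upwards [eventually_ge_atTop 1] with n hn
    have h := heven n hn
    have h' : ((f (2 * n) : ℤ) : ℝ) =
        (((9 * (n : ℤ) ^ 2 + 5 * n - 1) * (2 * (2 * n) + 1) ^ m : ℤ) : ℝ) := by rw [h]
    push_cast at h' ⊢
    rw [h']
    congr 1
    ring)
  have e1 := aux_gen m (9 / 4) 2 (3 / 4) (fun n => 2 * n + 1) hs1
    (fun n => (f (2 * n + 1) : ℝ)) (by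
    filter_upwards with n
    have h := hodd n
    have h' : ((f (2 * n + 1) : ℤ) : ℝ) =
        (((9 * (n : ℤ) ^ 2 + 13 * n + 5) * (2 * (2 * n + 1) + 1) ^ m : ℤ) : ℝ) := by rw [h]
    push_cast at h' ⊢
    rw [h']
    congr 1
    ring)
  refine ⟨9 / 4 * 2 ^ m, by positivity, ?_, ?_⟩
  · exact aux_even_odd _ _ e0.1 e1.1
  · rintro ⟨L, hL⟩
    have l0 := tendsto_nhds_unique (hL.comp hs0) e0.2
    have l1 := tendsto_nhds_unique (hL.comp hs1) e1.2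
    have hp : (0 : ℝ) < 2 ^ m := by positivity
    linarith

/-- asymptotics for the second generating set: second term exists -/
theorem asymp_two (f : ℕ → ℕ) (m : ℕ)
    (hf : ∀ k : ℕ, 1 ≤ k → (f k : ℤ) = (9 * (k : ℤ) ^ 2 - 3 * k + 3) * (2 * k + 1) ^ m) :
    ∃ c : ℝ, 0 < c ∧ Tendsto (fun k : ℕ => (f k : ℝ) / (k : ℝ) ^ (m + 2)) atTop (𝓝 c) ∧
      ∃ L : ℝ, Tendsto (fun k : ℕ => ((f k : ℝ) - c * (k : ℝ) ^ (m + 2)) / (k : ℝ) ^ (m + 1))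
        atTop (𝓝 L) := by
  have e := aux_gen m 9 (-3) 3 (fun n => n) tendsto_id (fun n => (f n : ℝ)) (by
    filter_upwards [eventually_ge_atTop 1] with n hn
    have h := hf n hn
    have h' : ((f n : ℤ) : ℝ) =
        (((9 * (n : ℤ) ^ 2 - 3 * n + 3) * (2 * n + 1) ^ m : ℤ) : ℝ) := by rw [h]
    push_cast at h' ⊢
    rw [h']
    congr 1
    ring)
  exact ⟨9 * 2 ^ m, by positivity, e.1, _, e.2⟩

end JI

end Pool.Agent.Helper602.Growth
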