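import Mathlib
import Pool.Agent.Helper602.Growth.Defs
import Pool.Agent.Helper602.Growth.JD2
import Pool.Agent.Helper602.Growth.JE1
import Pool.Agent.Helper602.Growth.JE2
import Pool.Agent.Helper602.Growth.JF
import Pool.Agent.Helper602.Growth.JH
import Pool.Agent.Helper602.Growth.JI

set_option autoImplicit false

namespace Pool.Agent.Helper602.Growth

open Filter Topology P3

theorem beta_S₁_odd (n : ℕ) : beta S₁ (2 * n + 1) = 9 * n ^ 2 + 13 * n + 5 := by
  unfold beta
  rw [JE1.P3.ball_odd, JE2.P3.card_odd]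

theorem beta_S₁_even (n : ℕ) (hn : 1 ≤ n) : (beta S₁ (2 * n) : ℤ) = 9 * (n : ℤ) ^ 2 + 5 * n - 1 := by
  unfold beta
  rw [JE1.P3.ball_even n hn, JE2.P3.card_even n hn]

theorem beta_S₂ (k : ℕ) (hk : 1 ≤ k) : (beta S₂ k : ℤ) = 9 * (k : ℤ) ^ 2 - 3 * k + 3 := by
  unfold beta
  rw [JF.P3.ball_S₂ k hk, JE2.P3.card_D2 k hk]

theorem zpow_conv (m : ℕ) (k : ℕ) : (k : ℝ) ^ (((m + 2 : ℕ) : ℤ) - 1) = (k : ℝ) ^ (m + 1) := by
  have : (((m + 2 : ℕ) : ℤ) - 1) = ((m + 1 : ℕ) : ℤ) := by push_cast; ring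
  rw [this, zpow_natCast]

/-- for every degree `d = m + 2` there is a virtually abelian group with two generating sets, the
first without and the second with a second order term -/
theorem high_degree (m : ℕ) : ∃ (Γ : Type) (_ : Group Γ) (T T' : Finset Γ),
    Subgroup.closure (T : Set Γ) = ⊤ ∧ Subgroup.closure (T' : Set Γ) = ⊤ ∧
    (∃ H : Subgroup Γ, H.FiniteIndex ∧ ∀ u ∈ H, ∀ v ∈ H, u * v = v * u) ∧
    HasDegree T (m + 2) ∧ HasDegree T' (m + 2) ∧
    (¬ ∃ c L : ℝ, SecondTerm T (m + 2) c L) ∧ ∃ c L : ℝ, SecondTerm T' (m + 2) c L := by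
  classical
  obtain ⟨Γ, hΓ, T, T', hT, hT', hab, hb, hb'⟩ := JH.iterate_product (insert 1 S₁) (insert 1 S₂)
    (Finset.mem_insert_self _ _) (Finset.mem_insert_self _ _)
    (by
      rw [eq_top_iff, ← JF.P3.closure_S₁]
      apply Subgroup.closure_mono
      intro z hz
      simp only [Finset.coe_insert, Set.mem_insert_iff]
      exact Or.inr hz)
    (by
      rw [eq_top_iff, ← JF.P3.closure_S₂]
      apply Subgroup.closure_mono
      intro z hz
      simp only [Finset.coe_insert, Set.mem_insert_iff]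
      exact Or.inr hz) JF.P3.exists_abelian m
  obtain ⟨c, hc, hc1, hc2⟩ := JI.asymp_one (fun k => beta T k) m
    (by
      intro n
      show ((beta T (2 * n + 1) : ℕ) : ℤ) = _
      rw [hb, JH.beta_insert_one, beta_S₁_odd]
      push_cast
      ring)
    (by
      intro n hn
      show ((beta T (2 * n) : ℕ) : ℤ) = _
      rw [hb, JH.beta_insert_one]
      push_cast
      rw [beta_S₁_even n hn])
  obtain ⟨c', hc', hc1', L', hc2'⟩ := JI.asymp_two (fun k => beta T' k) m
    (by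
      intro k hk
      show ((beta T' k : ℕ) : ℤ) = _
      rw [hb', JH.beta_insert_one]
      push_cast
      rw [beta_S₂ k hk])
  refine ⟨Γ, hΓ, T, T', hT, hT', hab, JD2.hasDegree_of_tendsto T (m + 2) c hc hc1,
    JD2.hasDegree_of_tendsto T' (m + 2) c' hc' hc1', ?_, c', L', hc1', ?_⟩
  · rintro ⟨e, L, h1, h2⟩
    have he : e = c := tendsto_nhds_unique h1 hc1
    subst he
    refine hc2 ⟨L, ?_⟩
    refine h2.congr ?_
    intro k
    rw [zpow_conv]
  · refine hc2'.congr ?_
    intro k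
    rw [zpow_conv]

theorem nilpotent_of_abelian {Γ : Type} [Group Γ]
    (h : ∃ H : Subgroup Γ, H.FiniteIndex ∧ ∀ u ∈ H, ∀ v ∈ H, u * v = v * u) :
    ∃ H : Subgroup Γ, H.FiniteIndex ∧ Group.IsNilpotent H := by
  obtain ⟨H, hH, hc⟩ := h
  refine ⟨H, hH, ?_⟩
  let _ : CommGroup H := { (inferInstance : Group H) with
    mul_comm := fun a b => Subtype.ext (hc a a.2 b b.2) }
  exact (inferInstance : Group.IsNilpotent H)

end Pool.Agent.Helper602.Growth
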