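import Mathlib
import Pool.Agent.Helper602.Growth.Defs

set_option autoImplicit false

namespace Pool.Agent.Helper602.Growth

open Filter Topology

namespace JA


/-- an infinite virtually cyclic group acts on `ℤ` by isometries `x ↦ p g + ε g * x` with finite fibres -/
theorem exists_cocycle {G : Type*} [Group G] [Infinite G] (H : Subgroup G) [H.FiniteIndex]
    (hH : IsCyclic H) :
    ∃ (ε : G →* ℤˣ) (p : G → ℤ), (∀ g h, p (g * h) = p g + (ε g : ℤ) * p h) ∧
      ∀ n : ℤ, {g | p g = n}.Finite := by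
  classical
  obtain ⟨N, hN⟩ : ∃ N : Subgroup G, N = H.normalCore := ⟨_, rfl⟩
  haveI hNn : N.Normal := by rw [hN]; infer_instance
  haveI hNf : N.FiniteIndex := by rw [hN]; infer_instance
  have hNH : N ≤ H := by rw [hN]; exact H.normalCore_le
  have hNc : IsCyclic N :=
    isCyclic_of_injective (Subgroup.inclusion hNH) (Subgroup.inclusion_injective hNH)
  obtain ⟨z, hz⟩ := (Subgroup.isCyclic_iff_exists_zpowers_eq_top N).1 hNc
  have hord : orderOf z = 0 := by
    rw [← Nat.card_zpowers, hz]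
    have h1 := N.card_mul_index
    have h2 : Nat.card G = 0 := Nat.card_eq_zero_of_infinite
    rw [h2] at h1
    rcases Nat.mul_eq_zero.1 h1 with h | h
    · exact h
    · exact absurd h hNf.index_ne_zero
  have hinj : Function.Injective (fun n : ℤ => z ^ n) :=
    injective_zpow_iff_not_isOfFinOrder.2 (orderOf_eq_zero_iff.1 hord)
  have hmem : ∀ x, x ∈ N → ∃ i : ℤ, z ^ i = x := by
    intro x hx
    rw [← hz] at hx
    exact Subgroup.mem_zpowers_iff.1 hx
  have hzN : z ∈ N := by rw [← hz]; exact Subgroup.mem_zpowers z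
  have hu : ∀ g : G, ∃ u : ℤˣ, g * z * g⁻¹ = z ^ (u : ℤ) := by
    intro g
    obtain ⟨e, he⟩ := hmem _ (hNn.conj_mem z hzN g)
    obtain ⟨f, hf⟩ := hmem _ (hNn.conj_mem z hzN g⁻¹)
    have h1 : e * f = 1 := by
      apply hinj
      show z ^ (e * f) = z ^ (1 : ℤ)
      rw [zpow_mul, he, conj_zpow, hf]
      group
    exact ⟨Units.mkOfMulEqOne e f h1, he.symm⟩
  choose eps heps using hu
  have hmul : ∀ g h, eps (g * h) = eps g * eps h := by
    intro g h
    apply Units.ext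
    apply hinj
    show z ^ ((eps (g * h) : ℤˣ) : ℤ) = z ^ ((eps g * eps h : ℤˣ) : ℤ)
    rw [← heps, Units.val_mul, zpow_mul, ← heps g, conj_zpow, ← heps h]
    group
  obtain ⟨ε, hε⟩ : ∃ ε : G →* ℤˣ, ∀ g, ε g = eps g := ⟨MonoidHom.mk' eps hmul, fun g => rfl⟩
  have hc : ∀ (g : G) (i : ℤ), g * z ^ i * g⁻¹ = z ^ ((ε g : ℤ) * i) := by
    intro g i
    rw [← conj_zpow, heps g, ← zpow_mul, hε]
  have hεz : ∀ i : ℤ, ε (z ^ i) = 1 := by
    intro i
    apply Units.ext
    apply hinj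
    show z ^ ((ε (z ^ i) : ℤˣ) : ℤ) = z ^ ((1 : ℤˣ) : ℤ)
    have := hc (z ^ i) 1
    rw [mul_one] at this
    rw [← this]
    simp
    group
  haveI : Finite (G ⧸ N) := inferInstance
  haveI : Fintype (G ⧸ N) := Fintype.ofFinite _
  have hA : ∀ (g : G) (q : G ⧸ N), ∃ a : ℤ, g * q.out = ((g : G ⧸ N) * q).out * z ^ a := by
    intro g q
    have h1 : (((g : G ⧸ N) * q).out)⁻¹ * (g * q.out) ∈ N := by
      rw [← QuotientGroup.eq]
      simp
    obtain ⟨a, ha⟩ := hmem _ h1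
    exact ⟨a, by rw [ha]; group⟩
  choose a ha using hA
  have hw : ∀ (g : G) (q : G ⧸ N), ε (((g : G ⧸ N) * q).out) = ε g * ε q.out := by
    intro g q
    rw [← map_mul, ha, map_mul, hεz, mul_one]
  have haa : ∀ (g h : G) (q : G ⧸ N), a (g * h) q = a g ((h : G ⧸ N) * q) + a h q := by
    intro g h q
    apply hinj
    show z ^ (a (g * h) q) = z ^ (a g ((h : G ⧸ N) * q) + a h q)
    have h1 := ha (g * h) q
    have h2 := ha g ((h : G ⧸ N) * q)
    have h3 := ha h q
    have h4 : ((g * h : G) : G ⧸ N) * q = (g : G ⧸ N) * ((h : G ⧸ N) * q) := by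
      rw [QuotientGroup.mk_mul, mul_assoc]
    rw [h4] at h1
    rw [zpow_add]
    have h5 : g * h * q.out = ((g : G ⧸ N) * ((h : G ⧸ N) * q)).out * (z ^ a g ((h : G ⧸ N) * q) * z ^ a h q) := by
      rw [mul_assoc g h, h3, ← mul_assoc, h2]
      group
    rw [h5] at h1
    exact (mul_left_cancel h1).symm
  refine ⟨ε, fun g => ∑ q : G ⧸ N, (ε (((g : G ⧸ N) * q).out) : ℤ) * a g q, ?_, ?_⟩
  · intro g h
    show ∑ q : G ⧸ N, (ε ((((g * h : G) : G ⧸ N) * q).out) : ℤ) * a (g * h) q = _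
    have e1 : ∀ q : G ⧸ N, (ε ((((g * h : G) : G ⧸ N) * q).out) : ℤ) * a (g * h) q =
        (ε (((g : G ⧸ N) * ((h : G ⧸ N) * q)).out) : ℤ) * a g ((h : G ⧸ N) * q) +
          (ε g : ℤ) * ((ε (((h : G ⧸ N) * q).out) : ℤ) * a h q) := by
      intro q
      rw [haa, mul_add]
      have h4 : ((g * h : G) : G ⧸ N) * q = (g : G ⧸ N) * ((h : G ⧸ N) * q) := by
        rw [QuotientGroup.mk_mul, mul_assoc]
      rw [h4, hw g ((h : G ⧸ N) * q), Units.val_mul]
      ring
    rw [Finset.sum_congr rfl (fun q _ => e1 q), Finset.sum_add_distrib, ← Finset.mul_sum]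
    congr 1
    exact Fintype.sum_equiv (Equiv.mulLeft (h : G ⧸ N)) _ _ (fun q => rfl)
  · intro n
    have hM : (0 : ℤ) < (Fintype.card (G ⧸ N) : ℤ) := by exact_mod_cast Fintype.card_pos
    have haz : ∀ (j : ℤ) (q : G ⧸ N), a (z ^ j) q = (ε q.out : ℤ) * j := by
      intro j q
      apply hinj
      show z ^ (a (z ^ j) q) = z ^ ((ε q.out : ℤ) * j)
      have h1 := ha (z ^ j) q
      have h2 : ((z ^ j : G) : G ⧸ N) * q = q := by
        have : ((z ^ j : G) : G ⧸ N) = 1 := (QuotientGroup.eq_one_iff _).2 (N.zpow_mem hzN j)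
        rw [this, one_mul]
      rw [h2] at h1
      have h3 : z ^ (a (z ^ j) q) = q.out⁻¹ * (z ^ j) * q.out⁻¹⁻¹ := by
        rw [inv_inv, mul_assoc, h1]
        group
      rw [h3, hc, map_inv]
      congr 2
      rcases Int.units_eq_one_or (ε q.out) with h | h <;> rw [h] <;> rfl
    have hpz : ∀ (g : G) (j : ℤ), ∑ q : G ⧸ N, (ε ((((g * z ^ j : G) : G ⧸ N) * q).out) : ℤ) * a (g * z ^ j) q =
        (∑ q : G ⧸ N, (ε (((g : G ⧸ N) * q).out) : ℤ) * a g q) + (ε g : ℤ) * ((Fintype.card (G ⧸ N) : ℤ) * j) := by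
      intro g j
      have e0 : ((z ^ j : G) : G ⧸ N) = 1 := (QuotientGroup.eq_one_iff _).2 (N.zpow_mem hzN j)
      have e1 : ∀ q : G ⧸ N, (ε ((((g * z ^ j : G) : G ⧸ N) * q).out) : ℤ) * a (g * z ^ j) q =
          (ε (((g : G ⧸ N) * q).out) : ℤ) * a g q + (ε g : ℤ) * j := by
        intro q
        rw [haa, QuotientGroup.mk_mul, e0, mul_one, one_mul, haz, mul_add]
        congr 1
        rw [hw, Units.val_mul]
        have : (ε q.out : ℤ) * (ε q.out : ℤ) = 1 := by
          rw [← Units.val_mul, Int.units_mul_self]; rfl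
        calc (ε g : ℤ) * (ε q.out : ℤ) * ((ε q.out : ℤ) * j)
            = (ε g : ℤ) * ((ε q.out : ℤ) * (ε q.out : ℤ)) * j := by ring
          _ = (ε g : ℤ) * j := by rw [this, mul_one]
      rw [Finset.sum_congr rfl (fun q _ => e1 q), Finset.sum_add_distrib, Finset.sum_const, Finset.card_univ, nsmul_eq_mul]
      ring
    refine Set.Finite.of_injOn (f := fun g : G => (g : G ⧸ N)) (t := Set.univ) (fun _ _ => Set.mem_univ _) ?_ Set.finite_univ
    intro g hg g' hg' hgg
    have h1 : g⁻¹ * g' ∈ N := QuotientGroup.eq.1 hgg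
    obtain ⟨j, hj⟩ := hmem _ h1
    have h2 : g' = g * z ^ j := by rw [hj]; group
    have hg1 : ∑ q : G ⧸ N, (ε (((g : G ⧸ N) * q).out) : ℤ) * a g q = n := hg
    have hg2 : ∑ q : G ⧸ N, (ε (((g' : G ⧸ N) * q).out) : ℤ) * a g' q = n := hg'
    rw [h2, hpz, hg1] at hg2
    have h3 : (ε g : ℤ) * ((Fintype.card (G ⧸ N) : ℤ) * j) = 0 := by linarith
    have h4 : j = 0 := by
      rcases mul_eq_zero.1 h3 with h | h
      · exact absurd h (Units.ne_zero _)
      · rcases mul_eq_zero.1 h with h | h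
        · exact absurd h hM.ne'
        · exact h
    rw [h2, h4]
    simp

end JA

end Pool.Agent.Helper602.Growth
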