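import Mathlib
import Pool.Agent.Helper602.Growth.Defs

set_option autoImplicit false

namespace Pool.Agent.Helper602.Growth

open Filter Topology

namespace JB1


theorem side_aux {G : Type*} (B : ℕ → Set G) (hmono : ∀ k, B k ⊆ B (k + 1)) (hex : ∀ g, ∃ k, g ∈ B k)
    (p : G → ℤ) (V : ℤ) (hV : 0 < V)
    (hp : ∀ k : ℕ, ∀ g ∈ B k, p g ≤ V * k) (hfin : ∀ n : ℤ, {g | p g = n}.Finite)
    (φ : G → G) (hφ : Function.Bijective φ)
    (hpφ : ∀ g, p (φ g) = p g + V) (hB : ∀ k, ∀ g ∈ B k, φ g ∈ B (k + 1)) :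
    ∃ J0 : ℕ, ∀ J : ℕ, J0 ≤ J → ∃ b : ℤ, ∀ᶠ k : ℕ in atTop,
      ((B k ∩ {g | V * J ≤ p g}).ncard : ℤ) = ({g | 0 ≤ p g ∧ p g < V}.ncard : ℤ) * k + b := by
  classical
  have hW : {g | 0 ≤ p g ∧ p g < V}.Finite := by
    have h : ((fun g => p g) ⁻¹' (Set.Ico 0 V)).Finite := by
      apply Set.Finite.preimage' (Set.finite_Ico 0 V)
      intro b _
      exact hfin b
    exact h
  let ell : G → ℕ := fun g => Nat.find (hex g)
  have hmono' : ∀ i j, i ≤ j → B i ⊆ B j := fun i j h => monotone_nat_of_le_succ (f := B) hmono h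
  have hell : ∀ g k, g ∈ B k ↔ ell g ≤ k := by
    intro g k
    constructor
    · intro h
      exact Nat.find_min' (hex g) h
    · intro h
      exact hmono' _ _ h (Nat.find_spec (hex g))
  have hstep : ∀ g, ell (φ g) ≤ ell g + 1 := fun g => (hell _ _).1 (hB _ _ ((hell g _).2 le_rfl))
  have hpl : ∀ g, p g ≤ V * ell g := fun g => hp _ _ ((hell g _).2 le_rfl)
  have hpit : ∀ (j : ℕ) (g : G), p (φ^[j] g) = p g + V * j := by
    intro j g
    induction j with
    | zero => simp
    | succ j ih =>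
      rw [Function.iterate_succ_apply', hpφ, ih]
      push_cast
      ring
  have hJw : ∀ w, 0 ≤ p w → ∃ Jw, ∀ j, Jw ≤ j → ell (φ^[j + 1] w) = ell (φ^[j] w) + 1 := by
    intro w hw
    have hlow : ∀ j, j ≤ ell (φ^[j] w) := by
      intro j
      have h1 := hpl (φ^[j] w)
      rw [hpit] at h1
      have h2 : V * (j : ℤ) ≤ V * (ell (φ^[j] w) : ℤ) := by linarith
      exact_mod_cast le_of_mul_le_mul_left h2 hV
    have hst : ∀ j, ell (φ^[j + 1] w) ≤ ell (φ^[j] w) + 1 := fun j => by
      rw [Function.iterate_succ_apply']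
      exact hstep _
    have hanti : Antitone (fun j => ell (φ^[j] w) - j) :=
      antitone_nat_of_succ_le (fun j => by have := hst j; omega)
    obtain ⟨m, ⟨Jw, hJ⟩, hm⟩ :=
      wellFounded_lt.has_min (Set.range (fun j => ell (φ^[j] w) - j)) ⟨_, 0, rfl⟩
    refine ⟨Jw, fun j hj => ?_⟩
    have h1 : ell (φ^[j] w) - j ≤ ell (φ^[Jw] w) - Jw := hanti hj
    have h2 : ¬ (ell (φ^[j + 1] w) - (j + 1) < m) := hm _ ⟨j + 1, rfl⟩
    have h3 := hlow j
    have h4 := hlow (j + 1)
    have h5 := hst j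
    have h6 : ell (φ^[Jw] w) - Jw = m := hJ
    omega
  choose! Jw hJw using hJw
  refine ⟨hW.toFinset.sup Jw, fun J hJ => ?_⟩
  have hJ' : ∀ w, 0 ≤ p w → p w < V → ∀ i, ell (φ^[J + i] w) = ell (φ^[J] w) + i := by
    intro w h0 h1 i
    have hle : Jw w ≤ J := (Finset.le_sup (f := Jw) (hW.mem_toFinset.2 ⟨h0, h1⟩)).trans hJ
    induction i with
    | zero => rfl
    | succ i ih =>
      rw [← add_assoc, hJw w h0 (J + i) (by omega), ih]
      ring
  refine ⟨∑ w ∈ hW.toFinset, (1 - (ell (φ^[J] w) : ℤ)), ?_⟩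
  filter_upwards [eventually_ge_atTop (hW.toFinset.sup (fun w => ell (φ^[J] w)))] with k hk
  have hset : B k ∩ {g | V * J ≤ p g} =
      ↑((hW.toFinset.sigma (fun w => Finset.range (k + 1 - ell (φ^[J] w)))).image
        (fun x : (_ : G) × ℕ => φ^[J + x.2] x.1)) := by
    ext g
    simp only [Set.mem_inter_iff, Set.mem_ofPred_eq, Finset.coe_image, Set.mem_image, Finset.mem_coe,
      Finset.mem_sigma, Finset.mem_range, hW.mem_toFinset]
    constructor
    · rintro ⟨hg, hpg⟩
      have hq : (J : ℤ) ≤ p g / V := Int.le_ediv_of_mul_le hV (by linarith)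
      obtain ⟨i, hi⟩ := Int.eq_ofNat_of_zero_le (sub_nonneg.2 hq)
      obtain ⟨w, hw⟩ := (hφ.surjective.iterate (J + i)) g
      have h1 := hpit (J + i) w
      rw [hw] at h1
      have h2 := Int.mul_ediv_add_emod (p g) V
      have h3 := Int.emod_nonneg (p g) hV.ne'
      have h4 := Int.emod_lt_of_pos (p g) hV
      have h5 : p g / V = J + i := by linarith
      rw [h5] at h2
      push_cast at h1
      have h6 : 0 ≤ p w := by linarith
      have h7 : p w < V := by linarith
      refine ⟨⟨w, i⟩, ⟨⟨h6, h7⟩, ?_⟩, hw⟩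
      have h8 := hJ' w h6 h7 i
      rw [hw] at h8
      have h9 := (hell g k).1 hg
      show i < k + 1 - ell (φ^[J] w)
      omega
    · rintro ⟨⟨w, i⟩, ⟨⟨h6, h7⟩, hi⟩, rfl⟩
      have hi' : i < k + 1 - ell (φ^[J] w) := hi
      constructor
      · rw [hell]
        show ell (φ^[J + i] w) ≤ k
        rw [hJ' w h6 h7 i]
        omega
      · show V * (J : ℤ) ≤ p (φ^[J + i] w)
        rw [hpit]
        push_cast
        have h6' : 0 ≤ p w := h6
        nlinarith [mul_nonneg hV.le (Int.natCast_nonneg i)]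
  rw [hset, Set.ncard_coe_finset, Finset.card_image_of_injOn]
  · rw [Finset.card_sigma, Set.ncard_eq_toFinset_card _ hW]
    push_cast
    have h1 : ∀ w ∈ hW.toFinset, ((Finset.range (k + 1 - ell (φ^[J] w))).card : ℤ) =
        (k : ℤ) + (1 - (ell (φ^[J] w) : ℤ)) := by
      intro w hw
      rw [Finset.card_range]
      have h2 : ell (φ^[J] w) ≤ k :=
        (Finset.le_sup (f := fun w => ell (φ^[J] w)) hw).trans hk
      omega
    rw [Finset.sum_congr rfl h1, Finset.sum_add_distrib, Finset.sum_const, nsmul_eq_mul]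
  · rintro ⟨w, i⟩ hw ⟨w', i'⟩ hw' heq
    simp only [Finset.coe_sigma, Set.mem_sigma_iff, Finset.mem_coe, hW.mem_toFinset, Set.mem_ofPred_eq] at hw hw'
    obtain ⟨⟨a1, a2⟩, _⟩ := hw
    obtain ⟨⟨b1, b2⟩, _⟩ := hw'
    have heq' : φ^[J + i] w = φ^[J + i'] w' := heq
    have h1 := hpit (J + i) w
    have h2 := hpit (J + i') w'
    rw [heq'] at h1
    push_cast at h1 h2
    have hi : i = i' := by
      rcases lt_trichotomy i i' with h | h | h
      · exfalso
        have h3 : (i : ℤ) + 1 ≤ i' := by exact_mod_cast h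
        nlinarith
      · exact h
      · exfalso
        have h3 : (i' : ℤ) + 1 ≤ i := by exact_mod_cast h
        nlinarith
    subst hi
    have := hφ.injective.iterate (J + i) heq'
    rw [this]

theorem fast_bij {G : Type*} [Group G] (ε : G →* ℤˣ) (s t : G) (hst : ε s = ε t) :
    Function.Bijective (fun g : G => g * if ε g = 1 then s else t) := by
  have hE : ∀ g : G, ε (g * if ε g = 1 then s else t) = ε g * ε s := by
    intro g
    rw [map_mul]
    split_ifs
    · rfl
    · rw [hst]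
  constructor
  · intro g h hgh
    have hgh' : (g * if ε g = 1 then s else t) = (h * if ε h = 1 then s else t) := hgh
    have h1 : ε g * ε s = ε h * ε s := by rw [← hE g, ← hE h, hgh']
    have h2 : ε g = ε h := mul_right_cancel h1
    rw [h2] at hgh'
    exact mul_right_cancel hgh'
  · intro h
    refine ⟨h * (if ε h * ε s = 1 then s else t)⁻¹, ?_⟩
    have h1 : ε (h * (if ε h * ε s = 1 then s else t)⁻¹) = ε h * ε s := by
      rw [map_mul, map_inv]
      have h2 : ε (if ε h * ε s = 1 then s else t) = ε s := by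
        split_ifs
        · rfl
        · exact hst.symm
      rw [h2]
      congr 1
      rcases Int.units_eq_one_or (ε s) with h3 | h3 <;> rw [h3] <;> rfl
    show (h * (if ε h * ε s = 1 then s else t)⁻¹) *
      (if ε (h * (if ε h * ε s = 1 then s else t)⁻¹) = 1 then s else t) = h
    rw [h1, inv_mul_cancel_right]

theorem linear_of_fast {G : Type*} [Group G] [Infinite G] (S : Finset G)
    (hS : Subgroup.closure (S : Set G) = ⊤) (ε : G →* ℤˣ) (q : G → ℤ)
    (hq : ∀ g h, q (g * h) = q g + (ε g : ℤ) * q h) (hfin : ∀ n : ℤ, {g | q g = n}.Finite)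
    (V : ℤ) (hV : 0 < V) (hle : ∀ s ∈ S, |q s| ≤ V) (sp sm : G)
    (hsp : sp ∈ S ∨ sp⁻¹ ∈ S) (hsm : sm ∈ S ∨ sm⁻¹ ∈ S) (hqp : q sp = V) (hqm : q sm = -V)
    (hε : ε sp = ε sm) :
    ∃ a b : ℤ, 0 < a ∧ ∀ᶠ k : ℕ in atTop, (beta S k : ℤ) = a * k + b := by
  classical
  have hu : ∀ e : ℤˣ, (e : ℤ) = 1 ∨ (e : ℤ) = -1 := by
    intro e
    rcases Int.units_eq_one_or e with h | h <;> simp [h]
  have hq1 : q 1 = 0 := by
    have h := hq 1 1
    simp at h
    exact h
  have hinv : ∀ g, |q g⁻¹| = |q g| := by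
    intro g
    have h := hq g g⁻¹
    rw [mul_inv_cancel, hq1] at h
    rcases hu (ε g) with h1 | h1 <;> rw [h1] at h
    · have h2 : q g⁻¹ = - q g := by linarith
      rw [h2, abs_neg]
    · have h2 : q g⁻¹ = q g := by linarith
      rw [h2]
  have hlet : ∀ s, (s ∈ S ∨ s⁻¹ ∈ S) → |q s| ≤ V := by
    rintro s (h | h)
    · exact hle s h
    · rw [← hinv]
      exact hle _ h
  have hlist : ∀ l : List G, (∀ s ∈ l, s ∈ S ∨ s⁻¹ ∈ S) → |q l.prod| ≤ V * l.length := by
    intro l
    induction l with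
    | nil => intro _; simp [hq1]
    | cons a l ih =>
      intro h
      rw [List.prod_cons, hq, List.length_cons]
      have h1 := hlet a (h a (by simp))
      have h2 := ih (fun s hs => h s (by simp [hs]))
      have h3 : |(ε a : ℤ) * q l.prod| = |q l.prod| := by
        rw [abs_mul]
        rcases hu (ε a) with h | h <;> simp [h]
      calc |q a + (ε a : ℤ) * q l.prod| ≤ |q a| + |(ε a : ℤ) * q l.prod| := abs_add_le _ _
        _ ≤ V + V * l.length := by
          rw [h3]
          exact add_le_add h1 h2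
        _ = V * ((l.length + 1 : ℕ) : ℤ) := by
          push_cast
          ring
  have hball : ∀ k : ℕ, ∀ g ∈ ball S k, |q g| ≤ V * k := by
    rintro k g ⟨l, hl, hs, rfl⟩
    exact (hlist l hs).trans (mul_le_mul_of_nonneg_left (by exact_mod_cast hl) hV.le)
  have hmono : ∀ k, ball S k ⊆ ball S (k + 1) := by
    rintro k g ⟨l, hl, hs, rfl⟩
    exact ⟨l, hl.trans (Nat.le_succ _), hs, rfl⟩
  have hex : ∀ g, ∃ k, g ∈ ball S k := by
    intro g
    have hg : g ∈ Subgroup.closure (S : Set G) := by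
      rw [hS]
      exact Subgroup.mem_top g
    rw [← Subgroup.mem_toSubmonoid, Subgroup.closure_toSubmonoid] at hg
    obtain ⟨l, hl, rfl⟩ := Submonoid.exists_list_of_mem_closure hg
    exact ⟨l.length, l, le_rfl, fun s hs => by simpa using hl s hs, rfl⟩
  have hmul : ∀ k, ∀ g ∈ ball S k, ∀ a, (a ∈ S ∨ a⁻¹ ∈ S) → g * a ∈ ball S (k + 1) := by
    rintro k g ⟨l, hl, hs, rfl⟩ a ha
    refine ⟨l ++ [a], by simpa using hl, ?_, by simp⟩
    intro s hs'
    rw [List.mem_append, List.mem_singleton] at hs'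
    rcases hs' with h | h
    · exact hs s h
    · rw [h]
      exact ha
  have hpre : ∀ (A : Set ℤ), A.Finite → {g | q g ∈ A}.Finite := by
    intro A hA
    have h : ((fun g => q g) ⁻¹' A).Finite := by
      apply Set.Finite.preimage' hA
      intro b _
      exact hfin b
    exact h
  have hbf : ∀ k, (ball S k).Finite := by
    intro k
    refine (hpre (Set.Icc (-(V * k)) (V * k)) (Set.finite_Icc _ _)).subset ?_
    intro g hg
    exact abs_le.1 (hball k g hg)
  obtain ⟨J1, h1⟩ := side_aux (ball S) hmono hex q V hV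
    (fun k g hg => (le_abs_self _).trans (hball k g hg)) hfin
    (fun g : G => g * if ε g = 1 then sp else sm) (fast_bij ε sp sm hε)
    (by
      intro g
      show q (g * if ε g = 1 then sp else sm) = q g + V
      rw [hq]
      rcases Int.units_eq_one_or (ε g) with h | h
      · rw [h, if_pos rfl, hqp]
        simp
      · rw [h, if_neg (by decide), hqm]
        simp)
    (by
      intro k g hg
      refine hmul k g hg _ ?_
      split_ifs
      · exact hsp
      · exact hsm)
  obtain ⟨J2, h2⟩ := side_aux (ball S) hmono hex (fun g => - q g) V hV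
    (fun k g hg => (neg_le_abs _).trans (hball k g hg))
    (by
      intro n
      have h : {g | - q g = n} = {g | q g = -n} := by
        ext g
        simp only [Set.mem_ofPred_eq]
        constructor <;> intro h <;> linarith
      rw [h]
      exact hfin _)
    (fun g : G => g * if ε g = 1 then sm else sp) (fast_bij ε sm sp hε.symm)
    (by
      intro g
      show - q (g * if ε g = 1 then sm else sp) = - q g + V
      rw [hq]
      rcases Int.units_eq_one_or (ε g) with h | h
      · rw [h, if_pos rfl, hqm]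
        simp [add_comm]
      · rw [h, if_neg (by decide), hqp]
        simp [add_comm])
    (by
      intro k g hg
      refine hmul k g hg _ ?_
      split_ifs
      · exact hsm
      · exact hsp)
  obtain ⟨J, hJ1, hJ2, hJ3⟩ : ∃ J : ℕ, J1 ≤ J ∧ J2 ≤ J ∧ 1 ≤ J :=
    ⟨max (max J1 J2) 1, (le_max_left _ _).trans (le_max_left _ _),
      (le_max_right _ _).trans (le_max_left _ _), le_max_right _ _⟩
  obtain ⟨b1, e1⟩ := h1 J hJ1
  obtain ⟨b2, e2⟩ := h2 J hJ2
  have hVJ : 0 < V * (J : ℤ) := mul_pos hV (by exact_mod_cast hJ3)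
  have hM : {g | q g ∈ Set.Ioo (-(V * (J : ℤ))) (V * J)}.Finite := hpre _ (Set.finite_Ioo _ _)
  have hMK : ∃ K : ℕ, ∀ k, K ≤ k → {g | q g ∈ Set.Ioo (-(V * (J : ℤ))) (V * J)} ⊆ ball S k := by
    choose kk hkk using hex
    refine ⟨hM.toFinset.sup kk, fun k hk g hg => ?_⟩
    have h3 : kk g ≤ k := (Finset.le_sup (f := kk) (hM.mem_toFinset.2 hg)).trans hk
    exact (monotone_nat_of_le_succ (f := ball S) hmono h3) (hkk g)
  obtain ⟨K, hK⟩ := hMK
  refine ⟨({g | 0 ≤ q g ∧ q g < V}.ncard : ℤ) + ({g | 0 ≤ - q g ∧ - q g < V}.ncard : ℤ),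
    b1 + b2 + ({g | q g ∈ Set.Ioo (-(V * (J : ℤ))) (V * J)}.ncard : ℤ), ?_, ?_⟩
  · have hWf : {g | 0 ≤ q g ∧ q g < V}.Finite := hpre (Set.Ico 0 V) (Set.finite_Ico _ _)
    have h3 : 0 < {g | 0 ≤ q g ∧ q g < V}.ncard := by
      rw [Set.ncard_pos hWf]
      exact ⟨1, by rw [Set.mem_ofPred_eq, hq1]; exact ⟨le_rfl, hV⟩⟩
    have h4 : (0 : ℤ) < ({g | 0 ≤ q g ∧ q g < V}.ncard : ℤ) := by exact_mod_cast h3
    have h5 : (0 : ℤ) ≤ ({g | 0 ≤ - q g ∧ - q g < V}.ncard : ℤ) := Int.natCast_nonneg _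
    linarith
  · filter_upwards [e1, e2, eventually_ge_atTop K] with k f1 f2 f3
    have hsplit : ball S k = ((ball S k ∩ {g | V * J ≤ q g}) ∪ (ball S k ∩ {g | V * J ≤ - q g})) ∪
        {g | q g ∈ Set.Ioo (-(V * (J : ℤ))) (V * J)} := by
      ext g
      simp only [Set.mem_union, Set.mem_inter_iff, Set.mem_ofPred_eq, Set.mem_Ioo]
      constructor
      · intro hg
        by_cases c1 : V * (J : ℤ) ≤ q g
        · exact Or.inl (Or.inl ⟨hg, c1⟩)
        · by_cases c2 : V * (J : ℤ) ≤ - q g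
          · exact Or.inl (Or.inr ⟨hg, c2⟩)
          · exact Or.inr ⟨by linarith, by linarith⟩
      · rintro ((h | h) | h)
        · exact h.1
        · exact h.1
        · exact hK k f3 h
    unfold beta
    rw [hsplit, Set.ncard_union_eq ?_ ?_ hM, Set.ncard_union_eq ?_ ?_ ?_]
    · push_cast
      rw [f1, f2]
      ring
    · rw [Set.disjoint_left]
      rintro g ⟨_, h3⟩ ⟨_, h4⟩
      have h3' : V * (J : ℤ) ≤ q g := h3
      have h4' : V * (J : ℤ) ≤ - q g := h4
      linarith
    · exact (hbf k).inter_of_left _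
    · exact (hbf k).inter_of_left _
    · rw [Set.disjoint_left]
      rintro g (⟨_, h3⟩ | ⟨_, h3⟩) ⟨h4, h5⟩
      · have h3' : V * (J : ℤ) ≤ q g := h3
        linarith
      · have h3' : V * (J : ℤ) ≤ - q g := h3
        linarith
    · exact ((hbf k).inter_of_left _).union ((hbf k).inter_of_left _)

end JB1

end Pool.Agent.Helper602.Growth
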