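import Mathlib
import Pool.Agent.Helper602.Growth.Defs

set_option autoImplicit false

namespace Pool.Agent.Helper602.Growth

open Filter Topology

namespace JB2


theorem coc_one {G : Type*} [Group G] (ε : G →* ℤˣ) (p : G → ℤ)
    (hp : ∀ g h, p (g * h) = p g + (ε g : ℤ) * p h) : p 1 = 0 := by
  have := hp 1 1
  rw [mul_one, map_one, Units.val_one, one_mul] at this
  linarith

theorem eps_inv {G : Type*} [Group G] (ε : G →* ℤˣ) (g : G) : ε g⁻¹ = ε g := by
  rw [map_inv, Int.units_inv_eq_self]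

theorem coc_inv {G : Type*} [Group G] (ε : G →* ℤˣ) (p : G → ℤ)
    (hp : ∀ g h, p (g * h) = p g + (ε g : ℤ) * p h) (g : G) :
    p g⁻¹ = - ((ε g : ℤ) * p g) := by
  have h1 := hp g⁻¹ g
  rw [inv_mul_cancel, coc_one ε p hp, eps_inv] at h1
  linarith

theorem exists_ne_zero {G : Type*} [Group G] [Infinite G] (S : Finset G)
    (hS : Subgroup.closure (S : Set G) = ⊤) (ε : G →* ℤˣ) (p : G → ℤ)
    (hp : ∀ g h, p (g * h) = p g + (ε g : ℤ) * p h) (hfin : ∀ n : ℤ, {g | p g = n}.Finite) :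
    ∃ s ∈ S, p s ≠ 0 := by
  by_contra hcon
  push Not at hcon
  have hall : ∀ g : G, p g = 0 := by
    intro g
    have hg : g ∈ Subgroup.closure (S : Set G) := by rw [hS]; trivial
    induction hg using Subgroup.closure_induction with
    | mem x hx => exact hcon x hx
    | one => exact coc_one ε p hp
    | mul x y _ _ hx hy => rw [hp, hx, hy]; simp
    | inv x _ hx => rw [coc_inv ε p hp, hx]; simp
  have h0 := hfin 0
  have : {g : G | p g = 0} = Set.univ := by
    ext g; simp [hall g]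
  rw [this] at h0
  exact Set.infinite_univ h0

theorem fast_of_translation {G : Type*} [Group G] (S : Finset G)
    (ε : G →* ℤˣ) (q : G → ℤ)
    (hq : ∀ g h, q (g * h) = q g + (ε g : ℤ) * q h) (s0 : G) (hs0 : s0 ∈ S) (h1 : ε s0 = 1) :
    ∃ sp sm : G, (sp ∈ S ∨ sp⁻¹ ∈ S) ∧ (sm ∈ S ∨ sm⁻¹ ∈ S) ∧ q sp = |q s0| ∧ q sm = -|q s0| ∧
      ε sp = ε sm := by
  have hinv : q s0⁻¹ = - q s0 := by
    rw [coc_inv ε q hq, h1]; simp
  rcases le_total 0 (q s0) with h | h
  · refine ⟨s0, s0⁻¹, Or.inl hs0, Or.inr (by simpa using hs0), ?_, ?_, ?_⟩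
    · rw [abs_of_nonneg h]
    · rw [abs_of_nonneg h, hinv]
    · rw [eps_inv]
  · refine ⟨s0⁻¹, s0, Or.inr (by simpa using hs0), Or.inl hs0, ?_, ?_, ?_⟩
    · rw [abs_of_nonpos h, hinv]
    · rw [abs_of_nonpos h]; ring
    · rw [eps_inv]

theorem exists_fast {G : Type*} [Group G] [Infinite G] (S : Finset G)
    (hS : Subgroup.closure (S : Set G) = ⊤) (ε : G →* ℤˣ) (p : G → ℤ)
    (hp : ∀ g h, p (g * h) = p g + (ε g : ℤ) * p h) (hfin : ∀ n : ℤ, {g | p g = n}.Finite) :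
    ∃ (q : G → ℤ) (V : ℤ) (sp sm : G), (∀ g h, q (g * h) = q g + (ε g : ℤ) * q h) ∧
      (∀ n : ℤ, {g | q g = n}.Finite) ∧ 0 < V ∧ (∀ s ∈ S, |q s| ≤ V) ∧
      (sp ∈ S ∨ sp⁻¹ ∈ S) ∧ (sm ∈ S ∨ sm⁻¹ ∈ S) ∧ q sp = V ∧ q sm = -V ∧ ε sp = ε sm := by
  by_cases hR : ∃ r ∈ S, ε r = -1
  · obtain ⟨r0, hr0, hr0e⟩ := hR
    set R := S.filter (fun s => ε s = -1) with hRdef
    have hRne : R.Nonempty := ⟨r0, by rw [hRdef, Finset.mem_filter]; exact ⟨hr0, hr0e⟩⟩
    obtain ⟨r1, hr1, hmax⟩ := Finset.exists_max_image R p hRne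
    obtain ⟨r2, hr2, hmin⟩ := Finset.exists_min_image R p hRne
    rw [hRdef, Finset.mem_filter] at hr1 hr2
    set m := p r1 + p r2 with hm
    let q : G → ℤ := fun g => 4 * p g + ((ε g : ℤ) - 1) * m
    have hqdef : ∀ g, q g = 4 * p g + ((ε g : ℤ) - 1) * m := fun g => rfl
    have hq : ∀ g h, q (g * h) = q g + (ε g : ℤ) * q h := by
      intro g h
      rw [hqdef, hqdef, hqdef, hp, map_mul, Units.val_mul]
      ring
    have hqt : ∀ g, ε g = 1 → q g = 4 * p g := by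
      intro g hg
      rw [hqdef, hg]; simp
    have hqr : ∀ g, ε g = -1 → q g = 4 * p g - 2 * m := by
      intro g hg
      rw [hqdef, hg]; simp; ring
    have hqfin : ∀ n : ℤ, {g | q g = n}.Finite := by
      intro n
      apply ((hfin (n / 4)).union (hfin ((n + 2 * m) / 4))).subset
      intro g hg
      simp only [Set.mem_setOf_eq] at hg
      rcases Int.units_eq_one_or (ε g) with h | h
      · left
        simp only [Set.mem_setOf_eq]
        rw [hqt g h] at hg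
        omega
      · right
        simp only [Set.mem_setOf_eq]
        rw [hqr g h] at hg
        omega
    obtain ⟨s1, hs1, hs1q⟩ := exists_ne_zero S hS ε q hq hqfin
    obtain ⟨s0, hs0, hs0max⟩ := Finset.exists_max_image S (fun s => |q s|) ⟨s1, hs1⟩
    have hVpos : 0 < |q s0| := lt_of_lt_of_le (abs_pos.mpr hs1q) (hs0max s1 hs1)
    rcases Int.units_eq_one_or (ε s0) with h | h
    · obtain ⟨sp, sm, h1, h2, h3, h4, h5⟩ := fast_of_translation S ε q hq s0 hs0 h
      exact ⟨q, |q s0|, sp, sm, hq, hqfin, hVpos, hs0max, h1, h2, h3, h4, h5⟩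
    · have hs0R : s0 ∈ R := by rw [hRdef, Finset.mem_filter]; exact ⟨hs0, h⟩
      have e1 := hmax s0 hs0R
      have e2 := hmin s0 hs0R
      have e3 := hmax r2 (by rw [hRdef, Finset.mem_filter]; exact hr2)
      have f0 := hqr s0 h
      have f1 := hqr r1 hr1.2
      have f2 := hqr r2 hr2.2
      have g1 := hs0max r1 hr1.1
      have hle : |q s0| ≤ 2 * (p r1 - p r2) := by
        rw [abs_le]; constructor <;> omega
      have hq1 : q r1 = 2 * (p r1 - p r2) := by omega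
      have hq2 : q r2 = -(2 * (p r1 - p r2)) := by omega
      have hge : 2 * (p r1 - p r2) ≤ |q s0| := by
        have : |q r1| = 2 * (p r1 - p r2) := by
          rw [hq1, abs_of_nonneg]; omega
        rw [← this]
        exact g1
      have heq : |q s0| = 2 * (p r1 - p r2) := le_antisymm hle hge
      refine ⟨q, |q s0|, r1, r2, hq, hqfin, hVpos, hs0max, Or.inl hr1.1, Or.inl hr2.1, ?_, ?_, ?_⟩
      · rw [heq, hq1]
      · rw [heq, hq2]
      · rw [hr1.2, hr2.2]
  · push Not at hR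
    have hall : ∀ s ∈ S, ε s = 1 := fun s hs => (Int.units_eq_one_or (ε s)).resolve_right (hR s hs)
    obtain ⟨s1, hs1, hs1q⟩ := exists_ne_zero S hS ε p hp hfin
    obtain ⟨s0, hs0, hs0max⟩ := Finset.exists_max_image S (fun s => |p s|) ⟨s1, hs1⟩
    have hVpos : 0 < |p s0| := lt_of_lt_of_le (abs_pos.mpr hs1q) (hs0max s1 hs1)
    obtain ⟨sp, sm, h1, h2, h3, h4, h5⟩ := fast_of_translation S ε p hp s0 hs0 (hall s0 hs0)
    exact ⟨p, |p s0|, sp, sm, hp, hfin, hVpos, hs0max, h1, h2, h3, h4, h5⟩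

end JB2

end Pool.Agent.Helper602.Growth
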