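import Mathlib
import Pool.Agent.Helper602.Growth.Defs

set_option autoImplicit false

namespace Pool.Agent.Helper602.Growth

open Filter Topology

namespace JK2


theorem ball_finite {G : Type*} [Group G] (S : Finset G) (k : ℕ) : (ball S k).Finite := by
  have hT : {s : G | s ∈ S ∨ s⁻¹ ∈ S}.Finite := by
    have h1 : {s : G | s⁻¹ ∈ S}.Finite :=
      S.finite_toSet.preimage (inv_injective.injOn (s := (fun s : G => s⁻¹) ⁻¹' (S : Set G)))
    exact S.finite_toSet.union h1
  induction k with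
  | zero =>
    refine (Set.finite_singleton (1 : G)).subset ?_
    rintro g ⟨l, hl, -, rfl⟩
    have : l = [] := List.length_eq_zero_iff.1 (Nat.le_zero.1 hl)
    subst this
    rfl
  | succ k ih =>
    refine ((hT.image2 (fun a b => a * b) ih).insert 1).subset ?_
    rintro g ⟨l, hl, hS, rfl⟩
    cases l with
    | nil => exact Set.mem_insert _ _
    | cons a l =>
      refine Set.mem_insert_of_mem _ ⟨a, hS a (by simp), l.prod, ⟨l, ?_, ?_, rfl⟩, ?_⟩
      · simpa using hl
      · exact fun s hs => hS s (by simp [hs])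
      · simp

theorem ball_mono' {G : Type*} [Group G] (S : Finset G) {a b : ℕ} (h : a ≤ b) :
    ball S a ⊆ ball S b := by
  rintro g ⟨l, hl, hS, rfl⟩
  exact ⟨l, hl.trans h, hS, rfl⟩

theorem ball_mul' {G : Type*} [Group G] (S : Finset G) {a b : ℕ} {x y : G} (hx : x ∈ ball S a)
    (hy : y ∈ ball S b) : x * y ∈ ball S (a + b) := by
  obtain ⟨l, hl, hS, rfl⟩ := hx
  obtain ⟨l', hl', hS', rfl⟩ := hy
  refine ⟨l ++ l', ?_, ?_, by simp⟩
  · rw [List.length_append]; omega
  · intro s hs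
    rcases List.mem_append.1 hs with h | h
    · exact hS s h
    · exact hS' s h

theorem ball_inv' {G : Type*} [Group G] (S : Finset G) {a : ℕ} {x : G} (hx : x ∈ ball S a) :
    x⁻¹ ∈ ball S a := by
  obtain ⟨l, hl, hS, rfl⟩ := hx
  refine ⟨(l.map fun x => x⁻¹).reverse, by simpa using hl, ?_, (List.prod_inv_reverse l).symm⟩
  intro s hs
  rw [List.mem_reverse, List.mem_map] at hs
  obtain ⟨t, ht, rfl⟩ := hs
  rcases hS t ht with h | h
  · right; simpa using h
  · left; exact h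

theorem ball_pow' {G : Type*} [Group G] (S : Finset G) {a : ℕ} {x : G} (hx : x ∈ ball S a)
    (n : ℕ) : x ^ n ∈ ball S (n * a) := by
  induction n with
  | zero => exact ⟨[], by simp, by simp, by simp⟩
  | succ n ih =>
    rw [pow_succ, Nat.add_mul, one_mul]
    exact ball_mul' S ih hx

theorem ball_zpow' {G : Type*} [Group G] (S : Finset G) {a n : ℕ} {x : G} (hx : x ∈ ball S a)
    (i : ℤ) (h1 : -(n : ℤ) ≤ i) (h2 : i ≤ n) : x ^ i ∈ ball S (n * a) := by
  rcases Int.natAbs_eq i with h | h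
  · rw [h, zpow_natCast]
    exact ball_mono' S (Nat.mul_le_mul_right _ (by omega)) (ball_pow' S hx i.natAbs)
  · rw [h, zpow_neg, zpow_natCast]
    exact ball_inv' S (ball_mono' S (Nat.mul_le_mul_right _ (by omega)) (ball_pow' S hx i.natAbs))

theorem ball_exists' {G : Type*} [Group G] (S : Finset G)
    (hS : Subgroup.closure (S : Set G) = ⊤) (g : G) : ∃ a, g ∈ ball S a := by
  have hg : g ∈ Subgroup.closure (S : Set G) := by rw [hS]; exact Subgroup.mem_top g
  induction hg using Subgroup.closure_induction with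
  | mem x hx => exact ⟨1, [x], by simp, by simpa using Or.inl hx, by simp⟩
  | one => exact ⟨0, [], by simp, by simp, by simp⟩
  | mul x y _ _ hx hy =>
    obtain ⟨a, ha⟩ := hx
    obtain ⟨b, hb⟩ := hy
    exact ⟨a + b, ball_mul' S ha hb⟩
  | inv x _ hx =>
    obtain ⟨a, ha⟩ := hx
    exact ⟨a, ball_inv' S ha⟩

theorem quadratic_lower {G : Type*} [Group G] (S : Finset G)
    (hS : Subgroup.closure (S : Set G) = ⊤) (u v : G) (huv : u * v = v * u)
    (hind : ∀ i j : ℤ, u ^ i * v ^ j = 1 → i = 0 ∧ j = 0) :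
    ∃ c : ℝ, 0 < c ∧ ∀ k : ℕ, c * (k : ℝ) ^ 2 ≤ (beta S k : ℝ) := by
  classical
  obtain ⟨a, ha⟩ := ball_exists' S hS u
  obtain ⟨b, hb⟩ := ball_exists' S hS v
  obtain ⟨m, hm1, hu, hv⟩ : ∃ m : ℕ, 1 ≤ m ∧ u ∈ ball S m ∧ v ∈ ball S m :=
    ⟨a + b + 1, by omega, ball_mono' S (by omega) ha, ball_mono' S (by omega) hb⟩
  have hm0 : (0 : ℝ) < m := by exact_mod_cast hm1
  refine ⟨1 / (2 * m) ^ 2, by positivity, fun k => ?_⟩
  set n : ℕ := k / (2 * m) with hn
  have hkn : k < 2 * m * (n + 1) := Nat.lt_mul_div_succ k (by omega)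
  have hnk : n * m + n * m ≤ k := by
    have : 2 * m * n ≤ k := Nat.mul_div_le k (2 * m)
    calc n * m + n * m = 2 * m * n := by ring
      _ ≤ k := this
  let P : Finset (ℤ × ℤ) := Finset.Icc (-(n : ℤ)) n ×ˢ Finset.Icc (-(n : ℤ)) n
  let f : ℤ × ℤ → G := fun p => u ^ p.1 * v ^ p.2
  have hinj : Set.InjOn f (P : Set (ℤ × ℤ)) := by
    rintro ⟨i, j⟩ _ ⟨i', j'⟩ _ h
    have h0 : u ^ i * v ^ j = u ^ i' * v ^ j' := h
    have h1 : u ^ (i - i') * v ^ (j - j') = 1 := by
      have h2 : u ^ i = u ^ i' * v ^ j' * (v ^ j)⁻¹ := by rw [← h0, mul_inv_cancel_right]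
      have h3 : u ^ (i - i') = v ^ (j' - j) := by
        rw [sub_eq_add_neg, add_comm, zpow_add, h2, zpow_neg, mul_assoc, inv_mul_cancel_left,
          sub_eq_add_neg, zpow_add, zpow_neg]
      rw [h3, ← zpow_add]
      have : j' - j + (j - j') = 0 := by ring
      rw [this, zpow_zero]
    obtain ⟨e1, e2⟩ := hind _ _ h1
    exact Prod.ext (by show i = i'; omega) (by show j = j'; omega)
  have hsub : ((P.image f : Finset G) : Set G) ⊆ ball S k := by
    intro g hg
    rw [Finset.mem_coe, Finset.mem_image] at hg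
    obtain ⟨⟨i, j⟩, hp, rfl⟩ := hg
    rw [Finset.mem_product, Finset.mem_Icc, Finset.mem_Icc] at hp
    exact ball_mono' S hnk (ball_mul' S (ball_zpow' S hu i hp.1.1 hp.1.2)
      (ball_zpow' S hv j hp.2.1 hp.2.2))
  have hcard : (P.image f).card = (2 * n + 1) * (2 * n + 1) := by
    rw [Finset.card_image_of_injOn hinj, Finset.card_product, Int.card_Icc]
    have : ((n : ℤ) + 1 - -(n : ℤ)).toNat = 2 * n + 1 := by omega
    rw [this]
  have hle : (2 * n + 1) * (2 * n + 1) ≤ beta S k := by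
    have := Set.ncard_le_ncard hsub (ball_finite S k)
    rwa [Set.ncard_coe_finset, hcard] at this
  have hle' : ((2 * n + 1 : ℕ) : ℝ) ^ 2 ≤ (beta S k : ℝ) := by
    rw [sq]; exact_mod_cast hle
  refine le_trans ?_ hle'
  have hkn' : (k : ℝ) ≤ 2 * m * (n + 1) := by exact_mod_cast hkn.le
  have h4 : (k : ℝ) / (2 * m) ≤ ((2 * n + 1 : ℕ) : ℝ) := by
    rw [div_le_iff₀ (by positivity)]
    push_cast
    have : (0 : ℝ) ≤ n := Nat.cast_nonneg n
    nlinarith
  calc 1 / (2 * (m : ℝ)) ^ 2 * (k : ℝ) ^ 2 = ((k : ℝ) / (2 * m)) ^ 2 := by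
        rw [div_pow]; ring
    _ ≤ _ := pow_le_pow_left₀ (by positivity) h4 2

end JK2

end Pool.Agent.Helper602.Growth
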