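import Mathlib
import Pool.Agent.Helper602.Growth.Defs

set_option autoImplicit false

namespace Pool.Agent.Helper602.Growth

open Filter Topology

namespace JK3


theorem cyc_key (A : Type*) [CommGroup A] [Group.FG A] :
    (∃ w : A, (Subgroup.zpowers w).FiniteIndex) ∨
      ∃ u v : A, ∀ i j : ℤ, u ^ i * v ^ j = 1 → i = 0 ∧ j = 0 := by
  classical
  have hfin : ∀ w : A, (∀ v : A, ∃ j : ℤ, j ≠ 0 ∧ v ^ j ∈ Subgroup.zpowers w) →
      (Subgroup.zpowers w).FiniteIndex := by
    intro w hw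
    have htor : IsMulTorsion (A ⧸ Subgroup.zpowers w) := by
      intro q
      induction q using QuotientGroup.induction_on with
      | H v =>
        obtain ⟨j, hj, hv⟩ := hw v
        rw [isOfFinOrder_iff_zpow_eq_one]
        refine ⟨j, hj, ?_⟩
        rw [← QuotientGroup.mk_zpow]
        exact (QuotientGroup.eq_one_iff _).mpr hv
    have : Finite (A ⧸ Subgroup.zpowers w) := CommGroup.finite_of_fg_isMulTorsion _ htor
    exact Subgroup.finiteIndex_of_finite_quotient
  by_cases h1 : ∃ w : A, ∀ i : ℤ, w ^ i = 1 → i = 0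
  · obtain ⟨w, hw⟩ := h1
    by_cases h2 : ∀ v : A, ∃ j : ℤ, j ≠ 0 ∧ v ^ j ∈ Subgroup.zpowers w
    · exact Or.inl ⟨w, hfin w h2⟩
    · push Not at h2
      obtain ⟨v, hv⟩ := h2
      refine Or.inr ⟨w, v, fun i j hij => ?_⟩
      have hj : j = 0 := by
        by_contra hj
        apply hv j hj
        have : v ^ j = (w ^ i)⁻¹ := eq_inv_of_mul_eq_one_right hij
        rw [this]
        exact Subgroup.inv_mem _ (Subgroup.zpow_mem_zpowers w i)
      subst hj
      rw [zpow_zero, mul_one] at hij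
      exact ⟨hw i hij, rfl⟩
  · push Not at h1
    refine Or.inl ⟨1, hfin 1 fun v => ?_⟩
    obtain ⟨i, hi, hi0⟩ := h1 v
    exact ⟨i, hi0, by rw [hi]; exact Subgroup.one_mem _⟩

theorem cyclic_or_rank_two {G : Type*} [Group G] (S : Finset G)
    (hS : Subgroup.closure (S : Set G) = ⊤)
    (h : ∃ H : Subgroup G, H.FiniteIndex ∧ ∀ u ∈ H, ∀ v ∈ H, u * v = v * u) :
    (∃ H : Subgroup G, H.FiniteIndex ∧ IsCyclic H) ∨
      ∃ u v : G, u * v = v * u ∧ ∀ i j : ℤ, u ^ i * v ^ j = 1 → i = 0 ∧ j = 0 := by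
  obtain ⟨H, hH, hc⟩ := h
  have hfg : Group.FG G := Group.fg_iff.mpr ⟨S, hS, S.finite_toSet⟩
  have hfgH : Group.FG H := inferInstance
  let _ : CommGroup H := { (inferInstance : Group H) with
    mul_comm := fun a b => Subtype.ext (hc a a.2 b b.2) }
  rcases cyc_key H with ⟨w, hw⟩ | ⟨u, v, huv⟩
  · left
    refine ⟨Subgroup.zpowers (w : G), ?_, inferInstance⟩
    have h1 : (Subgroup.zpowers w).map H.subtype = Subgroup.zpowers (w : G) := by
      rw [MonoidHom.map_zpowers]
      rfl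
    rw [← h1]
    constructor
    rw [Subgroup.index_map_subtype]
    exact mul_ne_zero hw.index_ne_zero hH.index_ne_zero
  · right
    refine ⟨u, v, hc u u.2 v v.2, fun i j hij => huv i j ?_⟩
    apply Subtype.ext
    simpa using hij

end JK3

end Pool.Agent.Helper602.Growth
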