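import Mathlib
import Pool.Agent.Helper602.Growth.Defs

set_option autoImplicit false

namespace Pool.Agent.Helper602.Growth

open Filter Topology

namespace JN1


theorem finite_of_torsion_nilpotent (N : Type*) [Group N] [Group.FG N] [Group.IsNilpotent N]
    (h : ∀ g : N, IsOfFinOrder g) : Finite N := by
  have key : ∀ (G : Type _) [Group G] [Group.IsNilpotent G],
      (Group.FG G → (∀ g : G, IsOfFinOrder g) → Finite G) := by
    intro G _ _
    refine Group.nilpotent_center_quotient_ind
      (P := fun (G : Type _) [Group G] [Group.IsNilpotent G] =>
        (Group.FG G → (∀ g : G, IsOfFinOrder g) → Finite G)) G ?_ ?_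
    · intro G _ _ _ _
      infer_instance
    · intro G _ _ ih hfg htor
      have h1 : Finite (G ⧸ Subgroup.center G) := by
        refine ih inferInstance ?_
        intro g
        obtain ⟨x, rfl⟩ := QuotientGroup.mk'_surjective (Subgroup.center G) g
        exact MonoidHom.isOfFinOrder _ (htor x)
      have h2 : (Subgroup.center G).FiniteIndex :=
        Subgroup.finiteIndex_of_finite_quotient
      have h3 : Group.FG (Subgroup.center G) := Subgroup.fg_of_index_ne_zero (Subgroup.center G)
      have h4 : Finite (Subgroup.center G) := by
        let _inst : CommGroup (Subgroup.center G) :=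
          { (inferInstance : Group (Subgroup.center G)) with
            mul_comm := fun a b => Subtype.ext (Subgroup.mem_center_iff.1 b.2 a.1) }
        refine CommGroup.finite_of_fg_isMulTorsion (G := Subgroup.center G) ?_
        have htor' : IsMulTorsion G := htor
        exact htor'.subgroup _
      exact Finite.of_equiv _ (Subgroup.groupEquivQuotientProdSubgroup (s := Subgroup.center G)).symm
  exact key N inferInstance h

end JN1

end Pool.Agent.Helper602.Growth
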