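import Mathlib
import Pool.Agent.Helper602.Growth.Defs

set_option autoImplicit false

namespace Pool.Agent.Helper602.Growth

open Filter Topology

namespace JN2


theorem tc_step {G : Type*} [Group G] (hfg : Group.FG G)
    (hz : ∀ z ∈ Subgroup.center G, IsOfFinOrder z)
    (z' : G ⧸ Subgroup.center G) (hz' : z' ∈ Subgroup.center (G ⧸ Subgroup.center G)) :
    IsOfFinOrder z' := by
  obtain ⟨g, rfl⟩ := QuotientGroup.mk_surjective z'
  have hc : ∀ x : G, g * x * g⁻¹ * x⁻¹ ∈ Subgroup.center G := by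
    intro x
    rw [← QuotientGroup.eq_one_iff]
    have h1 := Subgroup.mem_center_iff.1 hz' (x : G ⧸ Subgroup.center G)
    rw [QuotientGroup.mk_mul, QuotientGroup.mk_mul, QuotientGroup.mk_mul, QuotientGroup.mk_inv,
      QuotientGroup.mk_inv, ← h1]
    group
  have hcomm : ∀ (x : G) (m : ℕ), g ^ m * x = (g * x * g⁻¹ * x⁻¹) ^ m * x * g ^ m := by
    intro x m
    have hcx := Subgroup.mem_center_iff.1 (hc x)
    have hgx : g * x = (g * x * g⁻¹ * x⁻¹) * x * g := by group
    generalize g * x * g⁻¹ * x⁻¹ = c at hcx hgx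
    induction m with
    | zero => simp
    | succ m ih =>
      calc g ^ (m + 1) * x = g ^ m * (g * x) := by rw [pow_succ, mul_assoc]
        _ = g ^ m * (c * x * g) := by rw [hgx]
        _ = (g ^ m * c) * x * g := by group
        _ = (c * g ^ m) * x * g := by rw [hcx]
        _ = c * (g ^ m * x) * g := by group
        _ = c * (c ^ m * x * g ^ m) * g := by rw [ih]
        _ = (c * c ^ m) * x * (g ^ m * g) := by group
        _ = c ^ (m + 1) * x * g ^ (m + 1) := by rw [← pow_succ', ← pow_succ]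
  obtain ⟨S, hS⟩ := hfg.out
  have hm : 0 < ∏ x ∈ S, orderOf (g * x * g⁻¹ * x⁻¹) :=
    Finset.prod_pos fun x _ => (hz _ (hc x)).orderOf_pos
  have hgm : g ^ (∏ x ∈ S, orderOf (g * x * g⁻¹ * x⁻¹)) ∈ Subgroup.center G := by
    have hle : Subgroup.closure (S : Set G) ≤
        Subgroup.centralizer {g ^ (∏ x ∈ S, orderOf (g * x * g⁻¹ * x⁻¹))} := by
      rw [Subgroup.closure_le]
      intro x hx
      rw [SetLike.mem_coe, Subgroup.mem_centralizer_singleton_iff]
      have h1 : (g * x * g⁻¹ * x⁻¹) ^ (∏ x ∈ S, orderOf (g * x * g⁻¹ * x⁻¹)) = 1 := by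
        rw [← orderOf_dvd_iff_pow_eq_one]
        exact Finset.dvd_prod_of_mem (fun x => orderOf (g * x * g⁻¹ * x⁻¹)) hx
      have h2 := hcomm x (∏ x ∈ S, orderOf (g * x * g⁻¹ * x⁻¹))
      rw [h1, one_mul] at h2
      first
        | exact h2
        | exact h2.symm
    rw [Subgroup.mem_center_iff]
    intro y
    have hy : y ∈ Subgroup.closure (S : Set G) := by rw [hS]; trivial
    have h3 := Subgroup.mem_centralizer_singleton_iff.1 (hle hy)
    first
      | exact h3
      | exact h3.symm
  rw [isOfFinOrder_iff_pow_eq_one]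
  refine ⟨_, hm, ?_⟩
  rw [← QuotientGroup.mk_pow, QuotientGroup.eq_one_iff]
  exact hgm

theorem torsion_of_center (N : Type*) [Group N] [Group.FG N] [Group.IsNilpotent N]
    (h : ∀ z ∈ Subgroup.center N, IsOfFinOrder z) : ∀ g : N, IsOfFinOrder g := by
  have key : Group.FG N → (∀ z ∈ Subgroup.center N, IsOfFinOrder z) → ∀ g : N, IsOfFinOrder g := by
    refine Group.nilpotent_center_quotient_ind
      (P := fun (G : Type _) [Group G] [Group.IsNilpotent G] =>
        Group.FG G → (∀ z ∈ Subgroup.center G, IsOfFinOrder z) → ∀ g : G, IsOfFinOrder g) N ?_ ?_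
    · intro G _ _ _ _ g
      rw [Subsingleton.elim g 1]
      exact IsOfFinOrder.one
    · intro G _ _ ih hfg hz g
      have h1 := ih (QuotientGroup.fg _) (tc_step hfg hz) (g : G ⧸ Subgroup.center G)
      rw [isOfFinOrder_iff_pow_eq_one] at h1
      obtain ⟨k, hk, hk1⟩ := h1
      rw [← QuotientGroup.mk_pow, QuotientGroup.eq_one_iff] at hk1
      have h2 := hz _ hk1
      rcases isOfFinOrder_pow.1 h2 with h3 | h3
      · exact h3
      · omega
  exact key inferInstance h

end JN2

end Pool.Agent.Helper602.Growth
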