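import Mathlib
import Pool.Agent.Helper602.Growth.Defs

set_option autoImplicit false

namespace Pool.Agent.Helper602.Growth

open Filter Topology

namespace JN3


theorem nilpotent_cyclic_or_rank_two (N : Type) [Group N] [Group.FG N] [Group.IsNilpotent N]
    (hN1 : ∀ (M : Type) [Group M] [Group.FG M] [Group.IsNilpotent M],
      (∀ g : M, IsOfFinOrder g) → Finite M)
    (hN2 : (∀ z ∈ Subgroup.center N, IsOfFinOrder z) → ∀ g : N, IsOfFinOrder g)
    (hab : (∃ H : Subgroup N, H.FiniteIndex ∧ ∀ u ∈ H, ∀ v ∈ H, u * v = v * u) →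
      (∃ H : Subgroup N, H.FiniteIndex ∧ IsCyclic H) ∨
        ∃ u v : N, u * v = v * u ∧ ∀ i j : ℤ, u ^ i * v ^ j = 1 → i = 0 ∧ j = 0) :
    (∃ H : Subgroup N, H.FiniteIndex ∧ IsCyclic H) ∨
      ∃ u v : N, u * v = v * u ∧ ∀ i j : ℤ, u ^ i * v ^ j = 1 → i = 0 ∧ j = 0 := by
  by_cases hfin : Finite (N ⧸ Subgroup.center N)
  · apply hab
    refine ⟨Subgroup.center N, Subgroup.finiteIndex_of_finite_quotient, ?_⟩
    intro u hu v _
    exact ((Subgroup.mem_center_iff.1 hu) v).symm
  · have h1 : ¬ ∀ g : N ⧸ Subgroup.center N, IsOfFinOrder g := fun h =>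
      hfin (hN1 (N ⧸ Subgroup.center N) h)
    push Not at h1
    obtain ⟨g', hg'⟩ := h1
    obtain ⟨g, rfl⟩ := QuotientGroup.mk_surjective g'
    by_cases hz : ∀ z ∈ Subgroup.center N, IsOfFinOrder z
    · exfalso
      apply hg'
      have := (QuotientGroup.mk' (Subgroup.center N)).isOfFinOrder (hN2 hz g)
      simpa using this
    · push Not at hz
      obtain ⟨z, hzc, hzo⟩ := hz
      right
      refine ⟨g, z, (Subgroup.mem_center_iff.1 hzc) g, ?_⟩
      intro i j hij
      have hgi : ((g : N ⧸ Subgroup.center N)) ^ i = 1 := by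
        have h2 := congrArg (QuotientGroup.mk' (Subgroup.center N)) hij
        rw [map_mul, map_zpow, map_zpow, map_one] at h2
        have h3 : (QuotientGroup.mk' (Subgroup.center N)) z = 1 := by
          rw [QuotientGroup.mk'_apply]
          exact (QuotientGroup.eq_one_iff z).2 hzc
        rw [h3, one_zpow, mul_one] at h2
        exact h2
      have hi : i = 0 := by
        by_contra hi
        exact hg' (isOfFinOrder_iff_zpow_eq_one.2 ⟨i, hi, hgi⟩)
      refine ⟨hi, ?_⟩
      by_contra hj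
      rw [hi, zpow_zero, one_mul] at hij
      exact hzo (isOfFinOrder_iff_zpow_eq_one.2 ⟨j, hj, hij⟩)

end JN3

end Pool.Agent.Helper602.Growth
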