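import Mathlib
import Pool.Agent.Helper602.Growth.Defs

set_option autoImplicit false

namespace Pool.Agent.Helper602.Growth

open Filter Topology

namespace JN4


theorem virtually_nilpotent_cyclic_or_rank_two (G : Type) [Group G] [Group.FG G]
    (h : ∃ H : Subgroup G, H.FiniteIndex ∧ Group.IsNilpotent H)
    (hN : ∀ (N : Type) [Group N] [Group.FG N] [Group.IsNilpotent N],
      (∃ H : Subgroup N, H.FiniteIndex ∧ IsCyclic H) ∨
        ∃ u v : N, u * v = v * u ∧ ∀ i j : ℤ, u ^ i * v ^ j = 1 → i = 0 ∧ j = 0) :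
    (∃ H : Subgroup G, H.FiniteIndex ∧ IsCyclic H) ∨
      ∃ u v : G, u * v = v * u ∧ ∀ i j : ℤ, u ^ i * v ^ j = 1 → i = 0 ∧ j = 0 := by
  obtain ⟨H, hHf, hHn⟩ := h
  haveI := hHf
  haveI := hHn
  haveI : Group.FG H := inferInstance
  rcases hN H with ⟨K, hKf, hKc⟩ | ⟨u, v, huv, hij⟩
  · left
    haveI := hKf
    haveI := hKc
    refine ⟨K.map H.subtype, ⟨?_⟩, ?_⟩
    · rw [Subgroup.index_map_subtype]
      exact mul_ne_zero hKf.index_ne_zero hHf.index_ne_zero
    · exact isCyclic_of_surjective (K.equivMapOfInjective H.subtype H.subtype_injective)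
        (K.equivMapOfInjective H.subtype H.subtype_injective).surjective
  · right
    refine ⟨u, v, congrArg Subtype.val huv, ?_⟩
    intro i j h
    apply hij i j
    apply Subtype.ext
    simpa using h

end JN4

end Pool.Agent.Helper602.Growth
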