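import Mathlib
import Pool.Agent.Helper602.Growth.Defs

set_option autoImplicit false

namespace Pool.Agent.Helper602.Growth

open Filter Topology

namespace JP1



theorem beta_eq_of_aux {G : Type*} [Group G] (S T : Finset G)
    (h : ∀ t ∈ T, t = 1 ∨ t ∈ S ∨ t⁻¹ ∈ S) (l : List G) :
    (∀ s ∈ l, s ∈ T ∨ s⁻¹ ∈ T) → ∃ l' : List G, l'.length ≤ l.length ∧
      (∀ s ∈ l', s ∈ S ∨ s⁻¹ ∈ S) ∧ l'.prod = l.prod := by
  induction l with
  | nil => exact fun _ => ⟨[], le_rfl, by simp, rfl⟩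
  | cons a l ih =>
    intro hl
    obtain ⟨l', h1, h2, h3⟩ := ih (fun s hs => hl s (List.mem_cons_of_mem _ hs))
    have ha : a = 1 ∨ (a ∈ S ∨ a⁻¹ ∈ S) := by
      rcases hl a List.mem_cons_self with h4 | h4
      · rcases h a h4 with h5 | h5 | h5
        · exact Or.inl h5
        · exact Or.inr (Or.inl h5)
        · exact Or.inr (Or.inr h5)
      · rcases h _ h4 with h5 | h5 | h5
        · exact Or.inl (inv_eq_one.1 h5)
        · exact Or.inr (Or.inr h5)
        · rw [inv_inv] at h5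
          exact Or.inr (Or.inl h5)
    rcases ha with ha | ha
    · refine ⟨l', h1.trans (by simp), h2, ?_⟩
      rw [List.prod_cons, ha, one_mul, h3]
    · refine ⟨a :: l', by simpa using h1, ?_, by rw [List.prod_cons, List.prod_cons, h3]⟩
      intro s hs
      rcases List.mem_cons.1 hs with rfl | hs
      · exact ha
      · exact h2 s hs

/-- adding the identity and inverses to a generating set does not change the balls -/
theorem beta_eq_of {G : Type*} [Group G] (S T : Finset G) (hST : S ⊆ T)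
    (h : ∀ t ∈ T, t = 1 ∨ t ∈ S ∨ t⁻¹ ∈ S) (k : ℕ) : beta T k = beta S k := by
  unfold beta
  congr 1
  ext g
  constructor
  · rintro ⟨l, hl, hl2, rfl⟩
    obtain ⟨l', h1, h2, h3⟩ := beta_eq_of_aux S T h l hl2
    exact ⟨l', h1.trans hl, h2, h3⟩
  · rintro ⟨l, hl, hl2, rfl⟩
    exact ⟨l, hl, fun s hs => (hl2 s hs).imp (fun x => hST x) (fun x => hST x), rfl⟩

theorem beta_prod_aux {G H : Type*} [Group G] [Group H] (S : Finset G) (T : Finset H)
    (hS1 : (1 : G) ∈ S) (hT1 : (1 : H) ∈ T) (hT : ∀ t ∈ T, t⁻¹ ∈ T) (k : ℕ) :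
    ∀ (l1 : List G) (l2 : List H), l1.length ≤ k → l2.length ≤ k →
      (∀ s ∈ l1, s ∈ S ∨ s⁻¹ ∈ S) → (∀ t ∈ l2, t ∈ T ∨ t⁻¹ ∈ T) →
      ∃ l : List (G × H), l.length ≤ k ∧
        (∀ s ∈ l, s ∈ S ×ˢ T ∨ s⁻¹ ∈ S ×ˢ T) ∧ l.prod = (l1.prod, l2.prod) := by
  induction k with
  | zero =>
    intro l1 l2 h1 h2 _ _
    have e1 : l1 = [] := List.length_eq_zero_iff.1 (Nat.le_zero.1 h1)
    have e2 : l2 = [] := List.length_eq_zero_iff.1 (Nat.le_zero.1 h2)
    subst e1 e2
    exact ⟨[], le_rfl, by simp, rfl⟩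
  | succ k ih =>
    intro l1 l2 h1 h2 hl1 hl2
    have e1 : ∃ (s : G) (r : List G), r.length ≤ k ∧ (s ∈ S ∨ s⁻¹ ∈ S) ∧
        (∀ s ∈ r, s ∈ S ∨ s⁻¹ ∈ S) ∧ l1.prod = s * r.prod := by
      cases l1 with
      | nil => exact ⟨1, [], by simp, Or.inl hS1, by simp, by simp⟩
      | cons a r =>
        exact ⟨a, r, by simpa using h1, hl1 a List.mem_cons_self,
          fun s hs => hl1 s (List.mem_cons_of_mem _ hs), List.prod_cons⟩
    have e2 : ∃ (s : H) (r : List H), r.length ≤ k ∧ (s ∈ T ∨ s⁻¹ ∈ T) ∧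
        (∀ s ∈ r, s ∈ T ∨ s⁻¹ ∈ T) ∧ l2.prod = s * r.prod := by
      cases l2 with
      | nil => exact ⟨1, [], by simp, Or.inl hT1, by simp, by simp⟩
      | cons a r =>
        exact ⟨a, r, by simpa using h2, hl2 a List.mem_cons_self,
          fun s hs => hl2 s (List.mem_cons_of_mem _ hs), List.prod_cons⟩
    obtain ⟨s, r1, a1, a2, a3, a4⟩ := e1
    obtain ⟨t, r2, b1, b2, b3, b4⟩ := e2
    obtain ⟨l, c1, c2, c3⟩ := ih r1 r2 a1 b1 a3 b3
    have ht : t ∈ T := by
      rcases b2 with h | h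
      · exact h
      · have := hT _ h
        rwa [inv_inv] at this
    have hst : (s, t) ∈ S ×ˢ T ∨ (s, t)⁻¹ ∈ S ×ˢ T := by
      rcases a2 with h | h
      · exact Or.inl (Finset.mem_product.2 ⟨h, ht⟩)
      · exact Or.inr (Finset.mem_product.2 ⟨h, hT t ht⟩)
    refine ⟨(s, t) :: l, by simpa using c1, ?_, ?_⟩
    · intro x hx
      rcases List.mem_cons.1 hx with rfl | hx
      · exact hst
      · exact c2 x hx
    · rw [List.prod_cons, c3, a4, b4]
      rfl

/-- the balls of a product generating set, one factor being symmetric -/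
theorem beta_prod {G H : Type*} [Group G] [Group H] (S : Finset G) (T : Finset H)
    (hS1 : (1 : G) ∈ S) (hT1 : (1 : H) ∈ T) (hT : ∀ t ∈ T, t⁻¹ ∈ T) (k : ℕ) :
    beta (S ×ˢ T) k = beta S k * beta T k := by
  unfold beta
  have h1 : ball (S ×ˢ T) k = ball S k ×ˢ ball T k := by
    ext ⟨g, h⟩
    constructor
    · rintro ⟨l, hl, hl2, hl3⟩
      refine Set.mem_prod.2 ⟨⟨l.map Prod.fst, by simpa using hl, ?_, ?_⟩,
        ⟨l.map Prod.snd, by simpa using hl, ?_, ?_⟩⟩
      · intro s hs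
        obtain ⟨x, hx, rfl⟩ := List.mem_map.1 hs
        rcases hl2 x hx with h4 | h4
        · exact Or.inl (Finset.mem_product.1 h4).1
        · exact Or.inr (Finset.mem_product.1 h4).1
      · have h5 := map_list_prod (MonoidHom.fst G H) l
        rw [hl3] at h5
        exact h5.symm
      · intro s hs
        obtain ⟨x, hx, rfl⟩ := List.mem_map.1 hs
        rcases hl2 x hx with h4 | h4
        · exact Or.inl (Finset.mem_product.1 h4).2
        · exact Or.inr (Finset.mem_product.1 h4).2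
      · have h5 := map_list_prod (MonoidHom.snd G H) l
        rw [hl3] at h5
        exact h5.symm
    · rintro ⟨⟨l1, a1, a2, a3⟩, ⟨l2, b1, b2, b3⟩⟩
      obtain ⟨l, c1, c2, c3⟩ := beta_prod_aux S T hS1 hT1 hT k l1 l2 a1 b1 a2 b2
      exact ⟨l, c1, c2, by rw [c3, a3, b3]⟩
  rw [h1, Set.ncard_prod]

theorem closure_prod {G H : Type*} [Group G] [Group H] (S : Finset G) (T : Finset H)
    (hS1 : (1 : G) ∈ S) (hT1 : (1 : H) ∈ T) (hS : Subgroup.closure (S : Set G) = ⊤)
    (hT : Subgroup.closure (T : Set H) = ⊤) :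
    Subgroup.closure ((S ×ˢ T : Finset (G × H)) : Set (G × H)) = ⊤ := by
  set C := Subgroup.closure ((S ×ˢ T : Finset (G × H)) : Set (G × H)) with hC
  have h1 : ∀ g : G, (g, (1 : H)) ∈ C := by
    have h2 : (⊤ : Subgroup G) ≤ C.comap (MonoidHom.inl G H) := by
      rw [← hS, Subgroup.closure_le]
      intro s hs
      exact Subgroup.subset_closure (Finset.mem_coe.2 (Finset.mem_product.2 ⟨hs, hT1⟩))
    exact fun g => h2 (Subgroup.mem_top g)
  have h3 : ∀ h : H, ((1 : G), h) ∈ C := by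
    have h2 : (⊤ : Subgroup H) ≤ C.comap (MonoidHom.inr G H) := by
      rw [← hT, Subgroup.closure_le]
      intro s hs
      exact Subgroup.subset_closure (Finset.mem_coe.2 (Finset.mem_product.2 ⟨hS1, hs⟩))
    exact fun g => h2 (Subgroup.mem_top g)
  rw [eq_top_iff]
  rintro ⟨g, h⟩ _
  have h4 : ((g, h) : G × H) = (g, 1) * (1, h) := by simp
  rw [h4]
  exact C.mul_mem (h1 g) (h3 h)

end JP1

end Pool.Agent.Helper602.Growth
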