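import Mathlib
import Pool.Agent.Helper602.Growth.Defs

set_option autoImplicit false

namespace Pool.Agent.Helper602.Growth

open Filter Topology

namespace JP2


theorem prod_virtually_nilpotent {G H : Type*} [Group G] [Group H]
    (hG : ∃ K : Subgroup G, K.FiniteIndex ∧ Group.IsNilpotent K)
    (hH : ∃ K : Subgroup H, K.FiniteIndex ∧ Group.IsNilpotent K) :
    ∃ K : Subgroup (G × H), K.FiniteIndex ∧ Group.IsNilpotent K := by
  obtain ⟨K1, h1, n1⟩ := hG
  obtain ⟨K2, h2, n2⟩ := hH
  refine ⟨K1.prod K2, ⟨?_⟩, ?_⟩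
  · rw [Subgroup.index_prod]
    exact mul_ne_zero h1.index_ne_zero h2.index_ne_zero
  · exact Group.nilpotent_of_mulEquiv (Subgroup.prodEquiv K1 K2).symm

end JP2

end Pool.Agent.Helper602.Growth
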