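import Mathlib
import Pool.Agent.Helper602.Growth.Defs

set_option autoImplicit false

namespace Pool.Agent.Helper602.Growth

open Filter Topology

namespace JP3


theorem ap_A (f g : ℕ → ℕ) (e : ℕ) (a c₀ : ℝ)
    (h1 : Tendsto (fun k : ℕ => (g k : ℝ) / (k : ℝ) ^ e) atTop (𝓝 c₀))
    (h3 : Tendsto (fun k : ℕ => (f k : ℝ) / (k : ℝ) ^ 2) atTop (𝓝 a)) :
    Tendsto (fun k : ℕ => ((g k * f k : ℕ) : ℝ) / (k : ℝ) ^ (e + 2)) atTop (𝓝 (c₀ * a)) := by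
  refine (h1.mul h3).congr fun k => ?_
  rw [Nat.cast_mul, pow_add, mul_div_mul_comm]

theorem ap_B (F G K a c₀ : ℝ) (e : ℕ) (hK : K ≠ 0) :
    (G * F - c₀ * a * K ^ (e + 2)) / K ^ (((e + 2 : ℕ) : ℤ) - 1) =
      (G / K ^ e) * ((F - a * K ^ 2) / K) + a * ((G - c₀ * K ^ e) / K ^ ((e : ℤ) - 1)) := by
  have e1 : ((e + 2 : ℕ) : ℤ) - 1 = ((e + 1 : ℕ) : ℤ) := by
    push_cast
    ring
  have hKe : K ^ e ≠ 0 := pow_ne_zero _ hK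
  rw [e1, zpow_natCast, zpow_sub_one₀ hK, zpow_natCast, pow_succ K e, pow_add K e 2]
  field_simp
  ring

theorem ap_inv (c : ℝ) : Tendsto (fun k : ℕ => c / (k : ℝ)) atTop (𝓝 0) :=
  tendsto_const_div_atTop_nhds_zero_nat c

theorem ap_two : Tendsto (fun n : ℕ => 2 * n) atTop atTop :=
  tendsto_atTop_mono (fun n => show n ≤ 2 * n by omega) tendsto_id

theorem ap_two1 : Tendsto (fun n : ℕ => 2 * n + 1) atTop atTop :=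
  tendsto_atTop_mono (fun n => show n ≤ 2 * n + 1 by omega) tendsto_id

theorem ap_even (f : ℕ → ℕ) (heven : ∀ n : ℕ, 1 ≤ n → (f (2 * n) : ℤ) = 9 * (n : ℤ) ^ 2 + 5 * n - 1)
    (n : ℕ) (hn : 1 ≤ n) : (f (2 * n) : ℝ) - 9 / 4 * ((2 * n : ℕ) : ℝ) ^ 2 = 5 / 2 * ((2 * n : ℕ) : ℝ) - 1 := by
  have h : (f (2 * n) : ℝ) = 9 * (n : ℝ) ^ 2 + 5 * n - 1 := by exact_mod_cast heven n hn
  rw [h]
  push_cast
  ring

theorem ap_odd (f : ℕ → ℕ) (hodd : ∀ n : ℕ, (f (2 * n + 1) : ℤ) = 9 * (n : ℤ) ^ 2 + 13 * n + 5)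
    (n : ℕ) : (f (2 * n + 1) : ℝ) - 9 / 4 * ((2 * n + 1 : ℕ) : ℝ) ^ 2 =
      2 * ((2 * n + 1 : ℕ) : ℝ) + 3 / 4 := by
  have h : (f (2 * n + 1) : ℝ) = 9 * (n : ℝ) ^ 2 + 13 * n + 5 := by exact_mod_cast hodd n
  rw [h]
  push_cast
  ring

theorem ap_bound (f : ℕ → ℕ)
    (hodd : ∀ n : ℕ, (f (2 * n + 1) : ℤ) = 9 * (n : ℤ) ^ 2 + 13 * n + 5)
    (heven : ∀ n : ℕ, 1 ≤ n → (f (2 * n) : ℤ) = 9 * (n : ℤ) ^ 2 + 5 * n - 1) (k : ℕ) (hk : 1 ≤ k) :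
    |(f k : ℝ) - 9 / 4 * (k : ℝ) ^ 2| ≤ (3 : ℝ) * (k : ℝ) := by
  have hk1 : (1 : ℝ) ≤ k := by exact_mod_cast hk
  rcases Nat.even_or_odd' k with ⟨n, rfl | rfl⟩
  · rw [ap_even f heven n (by omega), abs_le]
    constructor <;> linarith
  · rw [ap_odd f hodd n, abs_le]
    constructor <;> linarith

theorem ap_lim (f : ℕ → ℕ)
    (hodd : ∀ n : ℕ, (f (2 * n + 1) : ℤ) = 9 * (n : ℤ) ^ 2 + 13 * n + 5)
    (heven : ∀ n : ℕ, 1 ≤ n → (f (2 * n) : ℤ) = 9 * (n : ℤ) ^ 2 + 5 * n - 1) :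
    Tendsto (fun k : ℕ => (f k : ℝ) / (k : ℝ) ^ 2) atTop (𝓝 (9 / 4)) := by
  rw [tendsto_iff_norm_sub_tendsto_zero]
  refine squeeze_zero' (Filter.Eventually.of_forall fun k => norm_nonneg _) ?_ (ap_inv 3)
  filter_upwards [eventually_ge_atTop 1] with k hk
  have hk1 : (0 : ℝ) < k := by exact_mod_cast hk
  have h1 := ap_bound f hodd heven k hk
  have e : (f k : ℝ) / (k : ℝ) ^ 2 - 9 / 4 = ((f k : ℝ) - 9 / 4 * (k : ℝ) ^ 2) / (k : ℝ) ^ 2 := by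
    field_simp
  rw [e, Real.norm_eq_abs, abs_div, abs_of_pos (by positivity : (0 : ℝ) < (k : ℝ) ^ 2),
    div_le_div_iff₀ (by positivity) hk1]
  nlinarith

theorem asymp_prod_one (f g : ℕ → ℕ) (e : ℕ)
    (hodd : ∀ n : ℕ, (f (2 * n + 1) : ℤ) = 9 * (n : ℤ) ^ 2 + 13 * n + 5)
    (heven : ∀ n : ℕ, 1 ≤ n → (f (2 * n) : ℤ) = 9 * (n : ℤ) ^ 2 + 5 * n - 1)
    (c₀ L₀ : ℝ) (hc₀ : 0 < c₀)
    (h1 : Tendsto (fun k : ℕ => (g k : ℝ) / (k : ℝ) ^ e) atTop (𝓝 c₀))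
    (h2 : Tendsto (fun k : ℕ => ((g k : ℝ) - c₀ * (k : ℝ) ^ e) / (k : ℝ) ^ ((e : ℤ) - 1)) atTop
      (𝓝 L₀)) :
    ∃ c : ℝ, 0 < c ∧ Tendsto (fun k : ℕ => ((g k * f k : ℕ) : ℝ) / (k : ℝ) ^ (e + 2)) atTop (𝓝 c) ∧
      ¬ ∃ L : ℝ, Tendsto (fun k : ℕ => (((g k * f k : ℕ) : ℝ) - c * (k : ℝ) ^ (e + 2)) /
        (k : ℝ) ^ (((e + 2 : ℕ) : ℤ) - 1)) atTop (𝓝 L) := by
  refine ⟨c₀ * (9 / 4), by positivity, ap_A f g e _ _ h1 (ap_lim f hodd heven), ?_⟩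
  rintro ⟨L, hL⟩
  have hB : ∀ k : ℕ, 1 ≤ k → (((g k * f k : ℕ) : ℝ) - c₀ * (9 / 4) * (k : ℝ) ^ (e + 2)) /
        (k : ℝ) ^ (((e + 2 : ℕ) : ℤ) - 1) = ((g k : ℝ) / (k : ℝ) ^ e) * (((f k : ℝ) - 9 / 4 * (k : ℝ) ^ 2) / k)
        + 9 / 4 * (((g k : ℝ) - c₀ * (k : ℝ) ^ e) / (k : ℝ) ^ ((e : ℤ) - 1)) := by
    intro k hk
    rw [Nat.cast_mul]
    exact ap_B _ _ _ _ _ e (by
      have : (0 : ℝ) < k := by exact_mod_cast hk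
      exact this.ne')
  have hE : Tendsto (fun n : ℕ => ((f (2 * n) : ℝ) - 9 / 4 * ((2 * n : ℕ) : ℝ) ^ 2) / ((2 * n : ℕ) : ℝ))
      atTop (𝓝 (5 / 2)) := by
    have h := ((ap_inv 1).comp ap_two).const_sub (5 / 2)
    rw [sub_zero] at h
    refine h.congr' ?_
    filter_upwards [eventually_ge_atTop 1] with n hn
    have hn1 : (0 : ℝ) < ((2 * n : ℕ) : ℝ) := by exact_mod_cast (by omega : 0 < 2 * n)
    rw [ap_even f heven n hn]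
    simp only [Function.comp]
    field_simp
  have hO : Tendsto (fun n : ℕ => ((f (2 * n + 1) : ℝ) - 9 / 4 * ((2 * n + 1 : ℕ) : ℝ) ^ 2) /
      ((2 * n + 1 : ℕ) : ℝ)) atTop (𝓝 2) := by
    have h := ((ap_inv (3 / 4)).comp ap_two1).const_add 2
    rw [add_zero] at h
    refine h.congr' ?_
    filter_upwards [eventually_ge_atTop 1] with n hn
    have hn1 : (0 : ℝ) < ((2 * n + 1 : ℕ) : ℝ) := by exact_mod_cast (by omega : 0 < 2 * n + 1)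
    rw [ap_odd f hodd n]
    simp only [Function.comp]
    field_simp
  have l1 := ((h1.comp ap_two).mul hE).add ((h2.comp ap_two).const_mul (9 / 4))
  have l2 := ((h1.comp ap_two1).mul hO).add ((h2.comp ap_two1).const_mul (9 / 4))
  have m1 : Tendsto (fun n : ℕ => (((g (2 * n) * f (2 * n) : ℕ) : ℝ) - c₀ * (9 / 4) * ((2 * n : ℕ) : ℝ) ^ (e + 2)) /
        ((2 * n : ℕ) : ℝ) ^ (((e + 2 : ℕ) : ℤ) - 1)) atTop (𝓝 (c₀ * (5 / 2) + 9 / 4 * L₀)) := by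
    refine l1.congr' ?_
    filter_upwards [eventually_ge_atTop 1] with n hn
    exact (hB (2 * n) (by omega)).symm
  have m2 : Tendsto (fun n : ℕ => (((g (2 * n + 1) * f (2 * n + 1) : ℕ) : ℝ) -
        c₀ * (9 / 4) * ((2 * n + 1 : ℕ) : ℝ) ^ (e + 2)) /
        ((2 * n + 1 : ℕ) : ℝ) ^ (((e + 2 : ℕ) : ℤ) - 1)) atTop (𝓝 (c₀ * 2 + 9 / 4 * L₀)) := by
    refine l2.congr' ?_
    filter_upwards [eventually_ge_atTop 1] with n hn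
    exact (hB (2 * n + 1) (by omega)).symm
  have n1 := tendsto_nhds_unique (hL.comp ap_two) m1
  have n2 := tendsto_nhds_unique (hL.comp ap_two1) m2
  linarith

theorem asymp_prod_two (f g : ℕ → ℕ) (e : ℕ)
    (hf : ∀ k : ℕ, 1 ≤ k → (f k : ℤ) = 9 * (k : ℤ) ^ 2 - 3 * k + 3)
    (c₀ L₀ : ℝ) (hc₀ : 0 < c₀)
    (h1 : Tendsto (fun k : ℕ => (g k : ℝ) / (k : ℝ) ^ e) atTop (𝓝 c₀))
    (h2 : Tendsto (fun k : ℕ => ((g k : ℝ) - c₀ * (k : ℝ) ^ e) / (k : ℝ) ^ ((e : ℤ) - 1)) atTop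
      (𝓝 L₀)) :
    ∃ c : ℝ, 0 < c ∧ Tendsto (fun k : ℕ => ((g k * f k : ℕ) : ℝ) / (k : ℝ) ^ (e + 2)) atTop (𝓝 c) ∧
      ∃ L : ℝ, Tendsto (fun k : ℕ => (((g k * f k : ℕ) : ℝ) - c * (k : ℝ) ^ (e + 2)) /
        (k : ℝ) ^ (((e + 2 : ℕ) : ℤ) - 1)) atTop (𝓝 L) := by
  have hfr : ∀ k : ℕ, 1 ≤ k → (f k : ℝ) = 9 * (k : ℝ) ^ 2 - 3 * k + 3 := by
    intro k hk
    exact_mod_cast hf k hk
  have hlim : Tendsto (fun k : ℕ => (f k : ℝ) / (k : ℝ) ^ 2) atTop (𝓝 9) := by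
    have h := (((ap_inv 3).const_sub 9).add ((ap_inv 1).mul (ap_inv 3)))
    rw [sub_zero, mul_zero, add_zero] at h
    refine h.congr' ?_
    filter_upwards [eventually_ge_atTop 1] with k hk
    have hk1 : (0 : ℝ) < k := by exact_mod_cast hk
    rw [hfr k hk]
    field_simp
  have hD : Tendsto (fun k : ℕ => ((f k : ℝ) - 9 * (k : ℝ) ^ 2) / k) atTop (𝓝 (-3)) := by
    have h := (ap_inv 3).const_add (-3)
    rw [add_zero] at h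
    refine h.congr' ?_
    filter_upwards [eventually_ge_atTop 1] with k hk
    have hk1 : (0 : ℝ) < k := by exact_mod_cast hk
    rw [hfr k hk]
    field_simp
    ring
  refine ⟨c₀ * 9, by positivity, ap_A f g e _ _ h1 hlim, c₀ * (-3) + 9 * L₀, ?_⟩
  refine ((h1.mul hD).add (h2.const_mul 9)).congr' ?_
  filter_upwards [eventually_ge_atTop 1] with k hk
  rw [Nat.cast_mul]
  exact (ap_B _ _ _ _ _ e (by
    have : (0 : ℝ) < k := by exact_mod_cast hk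
    exact this.ne')).symm

end JP3

end Pool.Agent.Helper602.Growth
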