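import Mathlib
import Pool.Agent.Helper602.Growth.Defs
import Pool.Agent.Helper602.Growth.JA
import Pool.Agent.Helper602.Growth.JB1
import Pool.Agent.Helper602.Growth.JB2
import Pool.Agent.Helper602.Growth.JK2
import Pool.Agent.Helper602.Growth.JK3
import Pool.Agent.Helper602.Growth.JD2
import Pool.Agent.Helper602.Growth.JN1
import Pool.Agent.Helper602.Growth.JN2
import Pool.Agent.Helper602.Growth.JN3
import Pool.Agent.Helper602.Growth.JN4

set_option autoImplicit false

namespace Pool.Agent.Helper602.Growth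

open Filter Topology

/-- a virtually nilpotent group is virtually cyclic or contains a free abelian group of rank 2 -/
theorem vn_dichotomy (G : Type) [Group G] (S : Finset G)
    (hS : Subgroup.closure (S : Set G) = ⊤)
    (h : ∃ H : Subgroup G, H.FiniteIndex ∧ Group.IsNilpotent H) :
    (∃ H : Subgroup G, H.FiniteIndex ∧ IsCyclic H) ∨
      ∃ u v : G, u * v = v * u ∧ ∀ i j : ℤ, u ^ i * v ^ j = 1 → i = 0 ∧ j = 0 := by
  have hfg : Group.FG G := Group.fg_iff.mpr ⟨S, hS, S.finite_toSet⟩
  refine JN4.virtually_nilpotent_cyclic_or_rank_two G h ?_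
  intro N _ _ _
  refine JN3.nilpotent_cyclic_or_rank_two N ?_ ?_ ?_
  · intro M _ _ _ hM
    exact JN1.finite_of_torsion_nilpotent M hM
  · intro hz
    exact JN2.torsion_of_center N hz
  · intro hab
    obtain ⟨T, hT, hTf⟩ := Group.fg_iff.mp (inferInstance : Group.FG N)
    have hT2 : Subgroup.closure ((hTf.toFinset : Finset N) : Set N) = ⊤ := by
      simpa using hT
    exact JK3.cyclic_or_rank_two hTf.toFinset hT2 hab

/-- an infinite virtually cyclic group has eventually affine growth function -/
theorem linear_growth (G : Type) [Group G] [Infinite G] (S : Finset G)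
    (hS : Subgroup.closure (S : Set G) = ⊤)
    (h : ∃ H : Subgroup G, H.FiniteIndex ∧ IsCyclic H) :
    ∃ a b : ℤ, 0 < a ∧ ∀ᶠ k : ℕ in atTop, (beta S k : ℤ) = a * k + b := by
  obtain ⟨H, hH, hc⟩ := h
  obtain ⟨ε, p, hp, hfin⟩ := JA.exists_cocycle H hc
  obtain ⟨q, V, sp, sm, hq, hqf, hV, hle, h1, h2, h3, h4, h5⟩ := JB2.exists_fast S hS ε p hp hfin
  exact JB1.linear_of_fast S hS ε q hq hqf V hV hle sp sm h1 h2 h3 h4 h5

theorem hasDegree_unique {G : Type} [Group G] (S : Finset G) (d e : ℕ) (h1 : HasDegree S d)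
    (h2 : HasDegree S e) : d = e := by
  unfold HasDegree at h1 h2
  rw [h1] at h2
  exact_mod_cast h2

theorem secondTerm_of_affine {G : Type} [Group G] (S : Finset G) (a b : ℤ)
    (h : ∀ᶠ k : ℕ in atTop, (beta S k : ℤ) = a * k + b) : SecondTerm S 1 a b := by
  have h' : ∀ᶠ k : ℕ in atTop, (beta S k : ℝ) = a * k + b := by
    filter_upwards [h] with k hk
    exact_mod_cast hk
  constructor
  · have h0 : Tendsto (fun k : ℕ => (a : ℝ) + b / (k : ℝ)) atTop (𝓝 (a + 0)) :=
      tendsto_const_nhds.add (tendsto_const_div_atTop_nhds_zero_nat (b : ℝ))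
    rw [add_zero] at h0
    refine h0.congr' ?_
    filter_upwards [h', eventually_gt_atTop 0] with k hk hk0
    have : (k : ℝ) ≠ 0 := by exact_mod_cast hk0.ne'
    rw [hk, pow_one]
    field_simp
  · refine tendsto_const_nhds.congr' ?_
    filter_upwards [h'] with k hk
    rw [hk]
    simp

theorem secondTerm_of_const {G : Type} [Group G] (S : Finset G) (n : ℕ)
    (h : ∀ᶠ k : ℕ in atTop, beta S k = n) : SecondTerm S 0 n 0 := by
  constructor
  · refine tendsto_const_nhds.congr' ?_
    filter_upwards [h] with k hk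
    rw [hk]; simp
  · refine tendsto_const_nhds.congr' ?_
    filter_upwards [h] with k hk
    rw [hk]; simp

/-- degree at most one: the second term always exists -/
theorem low_degree (d : ℕ) (hd : d ≤ 1) (G : Type) [Group G] (S : Finset G)
    (hS : Subgroup.closure (S : Set G) = ⊤)
    (h : ∃ H : Subgroup G, H.FiniteIndex ∧ Group.IsNilpotent H) (hdeg : HasDegree S d) :
    ∃ c L : ℝ, SecondTerm S d c L := by
  rcases vn_dichotomy G S hS h with hcyc | ⟨u, v, huv, hind⟩
  · rcases finite_or_infinite G with hfin | hinf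
    · have h1 := JD2.finite_eventually S hS
      have h2 := secondTerm_of_const S _ h1
      have h3 : HasDegree S 0 := JD2.hasDegree_of_tendsto S 0 (Nat.card G : ℝ)
        (by exact_mod_cast Nat.card_pos) h2.1
      have h4 := hasDegree_unique S d 0 hdeg h3
      subst h4
      exact ⟨_, _, h2⟩
    · obtain ⟨a, b, ha, hab⟩ := linear_growth G S hS hcyc
      have h2 := secondTerm_of_affine S a b hab
      have h3 : HasDegree S 1 := JD2.hasDegree_of_tendsto S 1 (a : ℝ) (by exact_mod_cast ha) h2.1
      have h4 := hasDegree_unique S d 1 hdeg h3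
      subst h4
      exact ⟨_, _, h2⟩
  · exfalso
    obtain ⟨c, hc, hlow⟩ := JK2.quadratic_lower S hS u v huv hind
    have h2 := JD2.two_le_limsup S c hc hlow
    have h3 : limsup (fun k : ℕ => ((Real.log (beta S k) / Real.log k : ℝ) : EReal)) atTop
        = (d : EReal) := hdeg
    rw [h3] at h2
    have h5 : ((2 : ℕ) : EReal) ≤ ((d : ℕ) : EReal) := by exact_mod_cast h2
    have h6 : 2 ≤ d := by exact_mod_cast h5
    omega

end Pool.Agent.Helper602.Growth
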