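import Mathlib
import Pool.Agent.Helper602.Growth.QDefs

set_option autoImplicit false

namespace Pool.Agent.Helper602.Growth

open Filter Topology

namespace N10


lemma bd_one_mem {G : Type*} [Group G] (S : Finset G) (k : ℕ) : (1 : G) ∈ ball S k :=
  ⟨[], by simp, by simp, by simp⟩

lemma bd_mono {G : Type*} [Group G] (S : Finset G) {k m : ℕ} (h : k ≤ m) {g : G}
    (hg : g ∈ ball S k) : g ∈ ball S m := by
  obtain ⟨l, h1, h2, h3⟩ := hg
  exact ⟨l, h1.trans h, h2, h3⟩

lemma bd_append {G : Type*} [Group G] (S : Finset G) {k : ℕ} {g s : G}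
    (hg : g ∈ ball S k) (hs : s ∈ S ∨ s⁻¹ ∈ S) : g * s ∈ ball S (k + 1) := by
  obtain ⟨l, h1, h2, h3⟩ := hg
  refine ⟨l ++ [s], by simpa using h1, ?_, by simp [h3]⟩
  intro u hu
  rw [List.mem_append] at hu
  rcases hu with hu | hu
  · exact h2 u hu
  · rw [List.mem_singleton] at hu
    rw [hu]; exact hs

lemma bd_prepend {G : Type*} [Group G] (S : Finset G) {k : ℕ} {g s : G}
    (hg : g ∈ ball S k) (hs : s ∈ S ∨ s⁻¹ ∈ S) : s * g ∈ ball S (k + 1) := by
  obtain ⟨l, h1, h2, h3⟩ := hg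
  refine ⟨s :: l, by simpa using h1, ?_, by simp [h3]⟩
  intro u hu
  rw [List.mem_cons] at hu
  rcases hu with hu | hu
  · rw [hu]; exact hs
  · exact h2 u hu

/-- induction principle: a property of `(k, g)` true for `(0,1)`... -/
lemma bd_induction {G : Type*} [Group G] (S : Finset G) (P : ℕ → G → Prop)
    (h0 : P 0 1) (hmono : ∀ k g, P k g → P (k + 1) g)
    (hstep : ∀ k g s, P k g → (s ∈ S ∨ s⁻¹ ∈ S) → P (k + 1) (g * s)) :
    ∀ k, ∀ g ∈ ball S k, P k g := by
  have key : ∀ l : List G, (∀ s ∈ l, s ∈ S ∨ s⁻¹ ∈ S) → P l.length l.prod := by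
    intro l
    induction l using List.reverseRecOn with
    | nil => intro _; simpa using h0
    | append_singleton l s ih =>
      intro h
      have := hstep _ _ s (ih (fun u hu => h u (by simp [hu]))) (h s (by simp))
      simpa using this
  have mono : ∀ k m g, k ≤ m → P k g → P m g := by
    intro k m g hkm
    induction hkm with
    | refl => exact id
    | step _ ih => intro h; exact hmono _ _ (ih h)
  rintro k g ⟨l, h1, h2, h3⟩
  rw [← h3]
  exact mono _ _ _ h1 (key l h2)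

section sums
variable {V : Type} [AddCommGroup V] {ι : Type} [Fintype ι] [DecidableEq ι]

lemma bd_sum (n : ι → ℕ) (i : ι) (x : ι → V) :
    ∑ j, (n + Pi.single i 1 : ι → ℕ) j • x j = ∑ j, n j • x j + x i := by
  simp only [Pi.add_apply, add_smul, Finset.sum_add_distrib]
  congr 1
  rw [Finset.sum_eq_single i]
  · simp
  · intro j _ hj; simp [Pi.single_apply, hj]
  · simp

lemma bd_sum_nat (n : ι → ℕ) (i : ι) :
    ∑ j, (n + Pi.single i 1 : ι → ℕ) j = ∑ j, n j + 1 := by
  simp only [Pi.add_apply, Finset.sum_add_distrib]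
  congr 1
  rw [Finset.sum_eq_single i]
  · simp
  · intro j _ hj; simp [Pi.single_apply, hj]
  · simp

lemma bd_sum_int (n : ι → ℕ) (i : ι) (ε : ι → ℤ) :
    ∑ j, (((n + Pi.single i 1 : ι → ℕ) j : ℕ) : ℤ) * ε j = ∑ j, (n j : ℤ) * ε j + ε i := by
  have := bd_sum n i ε
  simpa [nsmul_eq_mul] using this

lemma bd_exists_sub (n : ι → ℕ) (i : ι) (hi : n i ≠ 0) :
    ∃ m : ι → ℕ, n = m + Pi.single i 1 := by
  refine ⟨n - Pi.single i 1, ?_⟩
  funext j
  by_cases h : j = i
  · subst h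
    simp; omega
  · simp [Pi.single_apply, h]

end sums

theorem ball_description {G : Type} [Group G] {A₀ : Type} [AddCommGroup A₀] (σ : A₀ →+ A₀) (c : A₀)
    (φ : G ≃ A₀ × Bool) (h1 : φ 1 = (0, false))
    (hmul : ∀ g h : G, φ (g * h) =
        ((φ g).1 + (if (φ g).2 then σ (φ h).1 else (φ h).1) +
          (if (φ g).2 && (φ h).2 then c else 0), xor (φ g).2 (φ h).2)) (S : Finset G) :
    ∃ (ι κ ι₀ : Type) (_ : Fintype ι) (_ : DecidableEq ι) (_ : Fintype κ) (_ : Fintype ι₀)
      (_ : DecidableEq ι₀) (x : ι → A₀) (ε : ι → ℤ) (f : κ → A₀) (x₀ : ι₀ → A₀),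
      (∀ i, ε i = -1 ∨ ε i = 0 ∨ ε i = 1) ∧ (∀ j, ∃ i, x i = x₀ j ∧ ε i = 0) ∧
      ∀ k g, g ∈ ball S (k + 1) ↔
        ((φ g).2 = false ∧
          ((∃ n : ι₀ → ℕ, ∑ i, n i ≤ k + 1 ∧ (φ g).1 = ∑ i, n i • x₀ i) ∨
            ∃ (a : κ) (n : ι → ℕ), ∑ i, n i ≤ k ∧ (φ g).1 = f a + ∑ i, n i • x i ∧
              1 + ∑ i, (n i : ℤ) * ε i = 0)) ∨
        ((φ g).2 = true ∧ ∃ (a : κ) (n : ι → ℕ), ∑ i, n i ≤ k ∧
          (φ g).1 = f a + ∑ i, n i • x i ∧ 1 + ∑ i, (n i : ℤ) * ε i = 1) := by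
  classical
  have hfin : ∀ b : Bool, Finite {s : G // (s ∈ S ∨ s⁻¹ ∈ S) ∧ (φ s).2 = b} := by
    intro b
    have : (({s : G | s ∈ S} ∪ {s : G | s⁻¹ ∈ S}) : Set G).Finite := by
      refine Set.Finite.union (S.finite_toSet) ?_
      have := (S.finite_toSet).preimage (f := fun s : G => s⁻¹) (by
        intro a _ b _ h; simpa using h)
      exact this
    have h2 : ({s : G | (s ∈ S ∨ s⁻¹ ∈ S) ∧ (φ s).2 = b}).Finite :=
      this.subset (fun s hs => hs.1)
    exact h2.to_subtype
  let T : Type := {s : G // (s ∈ S ∨ s⁻¹ ∈ S) ∧ (φ s).2 = false}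
  let R : Type := {s : G // (s ∈ S ∨ s⁻¹ ∈ S) ∧ (φ s).2 = true}
  haveI : Finite T := hfin false
  haveI : Finite R := hfin true
  letI : Fintype T := Fintype.ofFinite T
  letI : Fintype R := Fintype.ofFinite R
  let x : (T ⊕ T) ⊕ (R ⊕ R) → A₀ := Sum.elim (Sum.elim (fun t => (φ t.1).1) (fun t => σ (φ t.1).1))
    (Sum.elim (fun r => (φ r.1).1) (fun r => σ (φ r.1).1 + c))
  let ε : (T ⊕ T) ⊕ (R ⊕ R) → ℤ := Sum.elim (fun _ => 0) (Sum.elim (fun _ => 1) (fun _ => -1))
  refine ⟨(T ⊕ T) ⊕ (R ⊕ R), R, T, inferInstance, inferInstance, inferInstance, inferInstance,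
    inferInstance, x, ε, fun r => (φ r.1).1, fun t => (φ t.1).1, ?_, ?_, ?_⟩
  · rintro ((t | t) | (r | r)) <;> simp [ε]
  · intro t
    exact ⟨Sum.inl (Sum.inl t), rfl, rfl⟩
  -- state-true elements
  have hT : ∀ N : ℕ, ∀ k : ℕ, ∀ g : G, ∀ (a : R) (n : (T ⊕ T) ⊕ (R ⊕ R) → ℕ), ∑ i, n i = N →
      N ≤ k → (φ g).2 = true → (φ g).1 = (φ a.1).1 + ∑ i, n i • x i →
      ∑ i, (n i : ℤ) * ε i = 0 → g ∈ ball S (k + 1) := by
    intro N
    induction N using Nat.strong_induction_on with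
    | _ N ih =>
    intro k g a n hn hk hg2 hg1 hε
    by_cases hA : ∃ t : T, n (Sum.inl (Sum.inl t)) ≠ 0
    · obtain ⟨t, ht⟩ := hA
      obtain ⟨m, rfl⟩ := bd_exists_sub n _ ht
      rw [bd_sum_nat] at hn
      rw [bd_sum] at hg1
      rw [bd_sum_int] at hε
      have hx : x (Sum.inl (Sum.inl t)) = (φ t.1).1 := rfl
      have he : ε (Sum.inl (Sum.inl t)) = 0 := rfl
      rw [hx] at hg1
      rw [he, add_zero] at hε
      obtain ⟨k', rfl⟩ : ∃ k', k = k' + 1 := ⟨k - 1, by omega⟩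
      have key := ih (∑ i, m i) (by omega) k' (φ.symm ((φ g).1 - (φ t.1).1, true)) a m rfl
        (by omega) (by simp) (by simp only [Equiv.apply_symm_apply]; rw [hg1]; abel) hε
      have h2 := bd_prepend S key t.2.1
      have : g = t.1 * φ.symm ((φ g).1 - (φ t.1).1, true) := by
        apply φ.injective
        rw [hmul]
        simp only [Equiv.apply_symm_apply, t.2.2]
        ext
        · simp
        · simp [hg2]
      rw [this]; exact h2
    by_cases hB : ∃ t : T, n (Sum.inl (Sum.inr t)) ≠ 0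
    · obtain ⟨t, ht⟩ := hB
      obtain ⟨m, rfl⟩ := bd_exists_sub n _ ht
      rw [bd_sum_nat] at hn
      rw [bd_sum] at hg1
      rw [bd_sum_int] at hε
      have hx : x (Sum.inl (Sum.inr t)) = σ (φ t.1).1 := rfl
      have he : ε (Sum.inl (Sum.inr t)) = 0 := rfl
      rw [hx] at hg1
      rw [he, add_zero] at hε
      obtain ⟨k', rfl⟩ : ∃ k', k = k' + 1 := ⟨k - 1, by omega⟩
      have key := ih (∑ i, m i) (by omega) k' (φ.symm ((φ g).1 - σ (φ t.1).1, true)) a m rfl
        (by omega) (by simp) (by simp only [Equiv.apply_symm_apply]; rw [hg1]; abel) hε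
      have h2 := bd_append S key t.2.1
      have : g = φ.symm ((φ g).1 - σ (φ t.1).1, true) * t.1 := by
        apply φ.injective
        rw [hmul]
        simp only [Equiv.apply_symm_apply, t.2.2]
        ext
        · simp
        · simp [hg2]
      rw [this]; exact h2
    push Not at hA hB
    by_cases hC : ∃ r : R, n (Sum.inr (Sum.inl r)) ≠ 0
    · obtain ⟨r, hr⟩ := hC
      have hD : ∃ r' : R, n (Sum.inr (Sum.inr r')) ≠ 0 := by
        by_contra hcon
        push Not at hcon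
        have : ∑ i, (n i : ℤ) * ε i = ∑ r : R, (n (Sum.inr (Sum.inl r)) : ℤ) := by
          rw [Fintype.sum_sum_type, Fintype.sum_sum_type, Fintype.sum_sum_type]
          simp [ε, hcon]
        rw [hε] at this
        have h3 : (n (Sum.inr (Sum.inl r)) : ℤ) ≤ ∑ r : R, (n (Sum.inr (Sum.inl r)) : ℤ) :=
          Finset.single_le_sum (f := fun r : R => (n (Sum.inr (Sum.inl r)) : ℤ))
            (fun i _ => by positivity) (Finset.mem_univ r)
        omega
      obtain ⟨r', hr'⟩ := hD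
      obtain ⟨m, rfl⟩ := bd_exists_sub n _ hr
      have hr'' : m (Sum.inr (Sum.inr r')) ≠ 0 := by
        simpa [Pi.single_apply] using hr'
      obtain ⟨m', rfl⟩ := bd_exists_sub m _ hr''
      rw [bd_sum_nat, bd_sum_nat] at hn
      rw [bd_sum, bd_sum] at hg1
      rw [bd_sum_int, bd_sum_int] at hε
      have hx : x (Sum.inr (Sum.inl r)) = (φ r.1).1 := rfl
      have hx' : x (Sum.inr (Sum.inr r')) = σ (φ r'.1).1 + c := rfl
      have he : ε (Sum.inr (Sum.inl r)) = 1 := rfl
      have he' : ε (Sum.inr (Sum.inr r')) = -1 := rfl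
      rw [hx, hx'] at hg1
      rw [he, he'] at hε
      obtain ⟨k', rfl⟩ : ∃ k', k = k' + 2 := ⟨k - 2, by omega⟩
      have key := ih (∑ i, m' i) (by omega) k'
        (φ.symm ((φ g).1 - (φ r.1).1 - (σ (φ r'.1).1 + c), true)) a m' rfl
        (by omega) (by simp) (by simp only [Equiv.apply_symm_apply]; rw [hg1]; abel) (by omega)
      have h2 := bd_append S (bd_append S key r'.2.1) r.2.1
      have : g = φ.symm ((φ g).1 - (φ r.1).1 - (σ (φ r'.1).1 + c), true) * r'.1 * r.1 := by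
        apply φ.injective
        rw [hmul, hmul]
        simp only [Equiv.apply_symm_apply, r'.2.2, r.2.2]
        ext
        · simp; abel
        · simp [hg2]
      rw [this]; exact h2
    · push Not at hC
      -- all zero
      have hD : ∀ r : R, n (Sum.inr (Sum.inr r)) = 0 := by
        by_contra hcon
        push Not at hcon
        obtain ⟨r, hr⟩ := hcon
        have : ∑ i, (n i : ℤ) * ε i = - ∑ r : R, (n (Sum.inr (Sum.inr r)) : ℤ) := by
          rw [Fintype.sum_sum_type, Fintype.sum_sum_type, Fintype.sum_sum_type]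
          simp [ε, hC]
        rw [hε] at this
        have h3 : (n (Sum.inr (Sum.inr r)) : ℤ) ≤ ∑ r : R, (n (Sum.inr (Sum.inr r)) : ℤ) :=
          Finset.single_le_sum (f := fun r : R => (n (Sum.inr (Sum.inr r)) : ℤ))
            (fun i _ => by positivity) (Finset.mem_univ r)
        omega
      have hz : ∑ i, n i • x i = 0 := by
        rw [Fintype.sum_sum_type, Fintype.sum_sum_type, Fintype.sum_sum_type]
        simp [hA, hB, hC, hD]
      rw [hz, add_zero] at hg1
      have : g = 1 * a.1 := by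
        apply φ.injective
        ext
        · simp [hg1]
        · simp [hg2, a.2.2]
      rw [this]
      exact bd_append S (bd_one_mem S k) a.2.1
  -- state-false pure
  have hF0 : ∀ N : ℕ, ∀ k : ℕ, ∀ g : G, ∀ (n : T → ℕ), ∑ i, n i = N →
      N ≤ k → (φ g).2 = false → (φ g).1 = ∑ i, n i • (φ i.1).1 → g ∈ ball S k := by
    intro N
    induction N with
    | zero =>
      intro k g n hn hk hg2 hg1
      have hn0 : ∀ i, n i = 0 := by
        intro i
        exact (Finset.sum_eq_zero_iff.mp hn) i (Finset.mem_univ i)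
      have : g = 1 := by
        apply φ.injective
        rw [h1]
        ext
        · simp [hg1, hn0]
        · simp [hg2]
      rw [this]; exact bd_one_mem S k
    | succ N ih =>
      intro k g n hn hk hg2 hg1
      have hex : ∃ t, n t ≠ 0 := by
        by_contra hcon
        push Not at hcon
        simp [hcon] at hn
      obtain ⟨t, ht⟩ := hex
      obtain ⟨m, rfl⟩ := bd_exists_sub n _ ht
      rw [bd_sum_nat] at hn
      rw [bd_sum m t (fun i : T => (φ i.1).1)] at hg1
      obtain ⟨k', rfl⟩ : ∃ k', k = k' + 1 := ⟨k - 1, by omega⟩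
      have key := ih k' (φ.symm ((φ g).1 - (φ t.1).1, false)) m (by omega)
        (by omega) (by simp) (by simp only [Equiv.apply_symm_apply]; rw [hg1]; abel)
      have h2 := bd_append S key t.2.1
      have : g = φ.symm ((φ g).1 - (φ t.1).1, false) * t.1 := by
        apply φ.injective
        rw [hmul]
        simp only [Equiv.apply_symm_apply, t.2.2]
        ext
        · simp
        · simp [hg2]
      rw [this]; exact h2
  intro k g
  constructor
  · -- forward
    have main : ∀ k, ∀ g ∈ ball S k, 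
        ((φ g).2 = false ∧
          ((∃ n : T → ℕ, ∑ i, n i ≤ k ∧ (φ g).1 = ∑ i, n i • (φ i.1).1) ∨
            ∃ (a : R) (n : (T ⊕ T) ⊕ (R ⊕ R) → ℕ), ∑ i, n i + 1 ≤ k ∧
              (φ g).1 = (φ a.1).1 + ∑ i, n i • x i ∧
              1 + ∑ i, (n i : ℤ) * ε i = 0)) ∨
        ((φ g).2 = true ∧ ∃ (a : R) (n : (T ⊕ T) ⊕ (R ⊕ R) → ℕ), ∑ i, n i + 1 ≤ k ∧
          (φ g).1 = (φ a.1).1 + ∑ i, n i • x i ∧ 1 + ∑ i, (n i : ℤ) * ε i = 1) := by
      apply bd_induction S (fun k g => ((φ g).2 = false ∧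
          ((∃ n : T → ℕ, ∑ i, n i ≤ k ∧ (φ g).1 = ∑ i, n i • (φ i.1).1) ∨
            ∃ (a : R) (n : (T ⊕ T) ⊕ (R ⊕ R) → ℕ), ∑ i, n i + 1 ≤ k ∧
              (φ g).1 = (φ a.1).1 + ∑ i, n i • x i ∧
              1 + ∑ i, (n i : ℤ) * ε i = 0)) ∨
        ((φ g).2 = true ∧ ∃ (a : R) (n : (T ⊕ T) ⊕ (R ⊕ R) → ℕ), ∑ i, n i + 1 ≤ k ∧
          (φ g).1 = (φ a.1).1 + ∑ i, n i • x i ∧ 1 + ∑ i, (n i : ℤ) * ε i = 1))
      · left
        refine ⟨by rw [h1], Or.inl ⟨0, by simp, by simp [h1]⟩⟩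
      · rintro k g (⟨ha, (⟨n, hn, hb⟩ | ⟨a, n, hn, hb⟩)⟩ | ⟨ha, a, n, hn, hb⟩)
        · exact Or.inl ⟨ha, Or.inl ⟨n, by omega, hb⟩⟩
        · exact Or.inl ⟨ha, Or.inr ⟨a, n, by omega, hb⟩⟩
        · exact Or.inr ⟨ha, a, n, by omega, hb⟩
      · rintro k g s hP hs
        cases hsb : (φ s).2
        · -- s is a translation
          rcases hP with (⟨ha, (⟨n, hn, hb⟩ | ⟨a, n, hn, hb, hc⟩)⟩ | ⟨ha, a, n, hn, hb, hc⟩)
          · left
            refine ⟨by rw [hmul]; simp [ha, hsb], Or.inl ⟨n + Pi.single ⟨s, hs, hsb⟩ 1, ?_, ?_⟩⟩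
            · rw [bd_sum_nat]; omega
            · rw [bd_sum n _ (fun i : T => (φ i.1).1), hmul]
              simp [ha, hb]
          · left
            refine ⟨by rw [hmul]; simp [ha, hsb], Or.inr ⟨a,
              n + Pi.single (Sum.inl (Sum.inl ⟨s, hs, hsb⟩)) 1, ?_, ?_, ?_⟩⟩
            · rw [bd_sum_nat]; omega
            · rw [bd_sum, hmul]
              simp [ha, hb, x, add_assoc]
            · rw [bd_sum_int]
              simpa [ε] using hc
          · right
            refine ⟨by rw [hmul]; simp [ha, hsb], a,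
              n + Pi.single (Sum.inl (Sum.inr ⟨s, hs, hsb⟩)) 1, ?_, ?_, ?_⟩
            · rw [bd_sum_nat]; omega
            · rw [bd_sum, hmul]
              simp [ha, hb, x, hsb, add_assoc]
            · rw [bd_sum_int]
              simpa [ε] using hc
        · -- s is a reflection
          rcases hP with (⟨ha, (⟨n, hn, hb⟩ | ⟨a, n, hn, hb, hc⟩)⟩ | ⟨ha, a, n, hn, hb, hc⟩)
          · right
            have hsum : ∀ (F : T → A₀) (H : R ⊕ R → A₀), ∑ i : (T ⊕ T) ⊕ (R ⊕ R),
              (Sum.elim (Sum.elim n (fun _ => 0)) (fun _ => 0) : (T ⊕ T) ⊕ (R ⊕ R) → ℕ) i •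
                x i = ∑ i, n i • (φ i.1).1 := by
              intro _ _
              rw [Fintype.sum_sum_type, Fintype.sum_sum_type]
              simp [x]
            refine ⟨by rw [hmul]; simp [ha, hsb], ⟨s, hs, hsb⟩,
              Sum.elim (Sum.elim n (fun _ => 0)) (fun _ => 0), ?_, ?_, ?_⟩
            · rw [Fintype.sum_sum_type, Fintype.sum_sum_type]
              simp
              omega
            · rw [hsum (fun _ => 0) (fun _ => 0), hmul]
              simp [ha, hb, add_comm]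
            · rw [Fintype.sum_sum_type, Fintype.sum_sum_type]
              simp [ε]
          · right
            refine ⟨by rw [hmul]; simp [ha, hsb], a,
              n + Pi.single (Sum.inr (Sum.inl ⟨s, hs, hsb⟩)) 1, ?_, ?_, ?_⟩
            · rw [bd_sum_nat]; omega
            · rw [bd_sum, hmul]
              simp [ha, hb, x, add_assoc]
            · rw [bd_sum_int]
              have : ε (Sum.inr (Sum.inl ⟨s, hs, hsb⟩)) = 1 := rfl
              rw [this]; omega
          · left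
            refine ⟨by rw [hmul]; simp [ha, hsb], Or.inr ⟨a,
              n + Pi.single (Sum.inr (Sum.inr ⟨s, hs, hsb⟩)) 1, ?_, ?_, ?_⟩⟩
            · rw [bd_sum_nat]; omega
            · rw [bd_sum, hmul]
              simp [ha, hb, x, hsb, add_assoc]
            · rw [bd_sum_int]
              have : ε (Sum.inr (Sum.inr ⟨s, hs, hsb⟩)) = -1 := rfl
              rw [this]; omega
    intro hg
    rcases main _ g hg with (⟨ha, (⟨n, hn, hb⟩ | ⟨a, n, hn, hb⟩)⟩ | ⟨ha, a, n, hn, hb⟩)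
    · exact Or.inl ⟨ha, Or.inl ⟨n, by omega, hb⟩⟩
    · exact Or.inl ⟨ha, Or.inr ⟨a, n, by omega, hb⟩⟩
    · exact Or.inr ⟨ha, a, n, by omega, hb⟩
  · rintro (⟨ha, (⟨n, hn, hb⟩ | ⟨a, n, hn, hb, hc⟩)⟩ | ⟨ha, a, n, hn, hb, hc⟩)
    · exact hF0 _ _ g n rfl hn ha hb
    · have hD : ∃ r' : R, n (Sum.inr (Sum.inr r')) ≠ 0 := by
        by_contra hcon
        push Not at hcon
        have : ∑ i, (n i : ℤ) * ε i = ∑ r : R, (n (Sum.inr (Sum.inl r)) : ℤ) := by
          rw [Fintype.sum_sum_type, Fintype.sum_sum_type, Fintype.sum_sum_type]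
          simp [ε, hcon]
        have h3 : 0 ≤ ∑ r : R, (n (Sum.inr (Sum.inl r)) : ℤ) :=
          Finset.sum_nonneg (fun i _ => by positivity)
        omega
      obtain ⟨r', hr'⟩ := hD
      obtain ⟨m, rfl⟩ := bd_exists_sub n _ hr'
      rw [bd_sum_nat] at hn
      rw [bd_sum] at hb
      rw [bd_sum_int] at hc
      have hx' : x (Sum.inr (Sum.inr r')) = σ (φ r'.1).1 + c := rfl
      have he' : ε (Sum.inr (Sum.inr r')) = -1 := rfl
      rw [hx'] at hb
      rw [he'] at hc
      obtain ⟨k', rfl⟩ : ∃ k', k = k' + 1 := ⟨k - 1, by omega⟩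
      have key := hT (∑ i, m i) k' (φ.symm ((φ g).1 - (σ (φ r'.1).1 + c), true)) a m rfl
        (by omega) (by simp) (by simp only [Equiv.apply_symm_apply]; rw [hb]; abel) (by omega)
      have h2 := bd_append S key r'.2.1
      have : g = φ.symm ((φ g).1 - (σ (φ r'.1).1 + c), true) * r'.1 := by
        apply φ.injective
        rw [hmul]
        simp only [Equiv.apply_symm_apply, r'.2.2]
        ext
        · simp; abel
        · simp [ha]
      rw [this]; exact h2
    · exact hT _ k g a n rfl hn ha hb (by omega)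

end N10

end Pool.Agent.Helper602.Growth
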