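import Mathlib
import Pool.Agent.Helper602.Growth.QDefs
import Pool.Agent.Helper602.Growth.N1
import Pool.Agent.Helper602.Growth.N4
import Pool.Agent.Helper602.Growth.N5
import Pool.Agent.Helper602.Growth.N6
import Pool.Agent.Helper602.Growth.N3c

set_option autoImplicit false

namespace Pool.Agent.Helper602.Growth

open Filter Topology

open N1 N4 N5 N6 N3c

namespace N7




/-- the slices 0 and 1 of the graded sumsets have no oscillating second coefficient -/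
theorem slices_QP {A : Type} [AddCommGroup A] [Module.Finite ℤ A] {ι κ : Type} [Fintype ι]
    [DecidableEq ι] [Fintype κ] (x : ι → A) (ε : ι → ℤ)
    (hε : ∀ i, ε i = -1 ∨ ε i = 0 ∨ ε i = 1) (f : κ → A) :
    QP (Module.finrank ℤ A + 1) (Module.finrank ℤ A - 1)
      (fun k => ((Set.ncard {y : A × ℤ | (y.2 = 0 ∨ y.2 = 1) ∧ ∃ (a : κ) (n : ι → ℕ),
        ∑ i, n i ≤ k ∧ y.1 = f a + ∑ i, n i • x i ∧ y.2 = 1 + ∑ i, (n i : ℤ) * ε i} : ℕ) : ℝ)) := by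
  classical
  obtain ⟨C, hC, hinj, hex⟩ := canonical (V := A × ℤ) (fun i => (x i, ε i))
    (fun a => (f a, (1 : ℤ)))
  choose B hB1 hB2 using fun a => lower_boxes (C a) (hC a)
  have hfin : ∀ (b : (ι → ℕ) × Finset ι) (k : ℕ), {n : ι → ℕ | n ∈ box b.1 b.2 ∧ ∑ i, n i ≤ k ∧
      (∑ i, (n i : ℤ) * ε i = -1 ∨ ∑ i, (n i : ℤ) * ε i = -1 + 1)}.Finite := by
    intro b k
    apply (Set.finite_Iic (fun _ : ι => k)).subset
    rintro n ⟨_, h, _⟩ i
    exact (Finset.single_le_sum (f := n) (fun _ _ => Nat.zero_le _) (Finset.mem_univ i)).trans h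
  have hval : ∀ (a : κ) (n : ι → ℕ), ((f a, (1 : ℤ)) : A × ℤ) + ∑ i, n i • ((x i, ε i) : A × ℤ)
      = (f a + ∑ i, n i • x i, 1 + ∑ i, (n i : ℤ) * ε i) := by
    intro a n
    ext
    · simp [Prod.fst_sum]
    · simp [Prod.snd_sum]
  have hinj' : ∀ (a b : κ) (n m : ι → ℕ), n ∈ C a → m ∈ C b →
      f a + ∑ i, n i • x i = f b + ∑ i, m i • x i →
      (1 : ℤ) + ∑ i, (n i : ℤ) * ε i = 1 + ∑ i, (m i : ℤ) * ε i → a = b ∧ n = m := by
    intro a b n m hn hm h1 h2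
    apply hinj a b n m hn hm
    rw [hval, hval, h1, h2]
  have hex' : ∀ (a : κ) (n : ι → ℕ), ∃ b, ∃ m ∈ C b,
      f b + ∑ i, m i • x i = f a + ∑ i, n i • x i ∧
      (1 : ℤ) + ∑ i, (m i : ℤ) * ε i = 1 + ∑ i, (n i : ℤ) * ε i ∧ ∑ i, m i ≤ ∑ i, n i := by
    intro a n
    obtain ⟨b, m, hm, h, hle⟩ := hex a n
    rw [hval, hval] at h
    exact ⟨b, m, hm, (Prod.ext_iff.mp h).1, (Prod.ext_iff.mp h).2, hle⟩
  have hcount : ∀ k : ℕ, (Set.ncard {y : A × ℤ | (y.2 = 0 ∨ y.2 = 1) ∧ ∃ (a : κ) (n : ι → ℕ),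
        ∑ i, n i ≤ k ∧ y.1 = f a + ∑ i, n i • x i ∧ y.2 = 1 + ∑ i, (n i : ℤ) * ε i} : ℕ)
      = ∑ a : κ, ∑ b ∈ B a, Set.ncard {n : ι → ℕ | n ∈ box b.1 b.2 ∧ ∑ i, n i ≤ k ∧
      (∑ i, (n i : ℤ) * ε i = -1 ∨ ∑ i, (n i : ℤ) * ε i = -1 + 1)} := by
    intro k
    let T : Finset (Σ _ : κ, Σ _ : (ι → ℕ) × Finset ι, (ι → ℕ)) :=
      (Finset.univ : Finset κ).sigma (fun a => (B a).sigma (fun b => (hfin b k).toFinset))
    have hT : T.card = ∑ a : κ, ∑ b ∈ B a, Set.ncard {n : ι → ℕ | n ∈ box b.1 b.2 ∧ ∑ i, n i ≤ k ∧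
      (∑ i, (n i : ℤ) * ε i = -1 ∨ ∑ i, (n i : ℤ) * ε i = -1 + 1)} := by
      simp only [T, Finset.card_sigma]
      refine Finset.sum_congr rfl fun a _ => Finset.sum_congr rfl fun b _ => ?_
      rw [Set.ncard_eq_toFinset_card _ (hfin b k)]
    rw [← hT]
    let Ψ : (Σ _ : κ, Σ _ : (ι → ℕ) × Finset ι, (ι → ℕ)) → A × ℤ := fun t =>
      (f t.1 + ∑ i, t.2.2 i • x i, 1 + ∑ i, (t.2.2 i : ℤ) * ε i)
    have himg : {y : A × ℤ | (y.2 = 0 ∨ y.2 = 1) ∧ ∃ (a : κ) (n : ι → ℕ),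
        ∑ i, n i ≤ k ∧ y.1 = f a + ∑ i, n i • x i ∧ y.2 = 1 + ∑ i, (n i : ℤ) * ε i}
        = Ψ '' (T : Set (Σ _ : κ, Σ _ : (ι → ℕ) × Finset ι, (ι → ℕ))) := by
      ext y
      constructor
      · rintro ⟨hy, a, n, hle, h1, h2⟩
        obtain ⟨b, m, hm, e1, e2, e3⟩ := hex' a n
        obtain ⟨c, ⟨hc, hmc⟩, _⟩ := hB2 b m hm
        refine ⟨⟨b, c, m⟩, ?_, ?_⟩
        · simp only [T, Finset.coe_sigma, Finset.coe_univ, Set.mem_sigma_iff, Set.mem_univ,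
            true_and, Finset.mem_coe, Finset.mem_sigma, Finset.mem_univ, Set.Finite.mem_toFinset,
            Set.mem_setOf_eq]
          refine ⟨hc, hmc, e3.trans hle, ?_⟩
          rcases hy with h | h
          · left; rw [h2] at h; omega
          · right; rw [h2] at h; omega
        · simp only [Ψ]
          ext
          · rw [h1]; exact e1
          · rw [h2]; exact e2
      · rintro ⟨⟨a, b, n⟩, ht, rfl⟩
        simp only [T, Finset.coe_sigma, Finset.coe_univ, Set.mem_sigma_iff, Set.mem_univ,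
            true_and, Finset.mem_coe, Finset.mem_sigma, Finset.mem_univ, Set.Finite.mem_toFinset,
            Set.mem_setOf_eq] at ht
        obtain ⟨hb, hn, hle, hs⟩ := ht
        refine ⟨?_, a, n, hle, rfl, rfl⟩
        simp only [Ψ]
        omega
    rw [himg, Set.ncard_image_of_injOn, Set.ncard_coe_finset]
    rintro ⟨a, b, n⟩ ht ⟨a', b', n'⟩ ht' heq
    simp only [T, Finset.coe_sigma, Finset.coe_univ, Set.mem_sigma_iff, Set.mem_univ,
            true_and, Finset.mem_coe, Finset.mem_sigma, Finset.mem_univ, Set.Finite.mem_toFinset,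
            Set.mem_setOf_eq] at ht ht'
    obtain ⟨hb, hn, hle, hs⟩ := ht
    obtain ⟨hb', hn', hle', hs'⟩ := ht'
    simp only [Ψ, Prod.mk.injEq] at heq
    obtain ⟨ha, hnn⟩ := hinj' a a' n n' (hB1 a b hb hn) (hB1 a' b' hb' hn') heq.1 heq.2
    subst ha
    subst hnn
    have := (hB2 a n (hB1 a b hb hn)).unique ⟨hb, hn⟩ ⟨hb', hn'⟩
    subst this
    rfl
  refine QP_congr (QP_sum (Finset.univ : Finset κ) (fun a k => ∑ b ∈ B a,
      ((Set.ncard {n : ι → ℕ | n ∈ box b.1 b.2 ∧ ∑ i, n i ≤ k ∧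
      (∑ i, (n i : ℤ) * ε i = -1 ∨ ∑ i, (n i : ℤ) * ε i = -1 + 1)} : ℕ) : ℝ)) ?_) ?_
  · intro a _
    refine QP_sum (B a) (fun b k => ((Set.ncard {n : ι → ℕ | n ∈ box b.1 b.2 ∧ ∑ i, n i ≤ k ∧
      (∑ i, (n i : ℤ) * ε i = -1 ∨ ∑ i, (n i : ℤ) * ε i = -1 + 1)} : ℕ) : ℝ)) ?_
    intro b hb
    have hr := rank_bounds x ε b.1 b.2 (by
      intro n hn m hm h
      simp only [Prod.mk.injEq] at h
      exact (hinj' a a n m (hB1 a b hb hn) (hB1 a b hb hm) (by rw [h.1]) (by rw [h.2])).2)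
    exact QP_box b.1 b.2 ε hε (-1) (Module.finrank ℤ A) hr.1 hr.2
  · refine Filter.Eventually.of_forall fun k => ?_
    rw [hcount k]
    push_cast
    rfl

end N7

end Pool.Agent.Helper602.Growth
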