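import Mathlib
import Pool.Agent.Helper602.Growth.QDefs
import Pool.Agent.Helper602.Growth.N1
import Pool.Agent.Helper602.Growth.N7
import Pool.Agent.Helper602.Growth.N8
import Pool.Agent.Helper602.Growth.N10

set_option autoImplicit false

namespace Pool.Agent.Helper602.Growth

open Filter Topology

open N1 N7 N8 N10

namespace N11




theorem QP_shift' {a b : ℕ} {f : ℕ → ℝ} (hf : QP a b f) : QP a b (fun k => f (k + 1)) := by
  obtain ⟨P, Q, hP, hQ, h⟩ := hf
  refine ⟨Polynomial.taylor 1 P, -Polynomial.taylor 1 Q, by rwa [Polynomial.degree_taylor],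
    by rwa [Polynomial.degree_neg, Polynomial.degree_taylor], ?_⟩
  have h2 := (tendsto_add_atTop_nat 1).eventually h
  filter_upwards [h2] with k hk
  rw [hk, Polynomial.eval_neg, Polynomial.taylor_eval, Polynomial.taylor_eval, pow_succ]
  push_cast
  ring

theorem finite_le {ι : Type} [Fintype ι] (k : ℕ) : {n : ι → ℕ | ∑ i, n i ≤ k}.Finite := by
  have h : {n : ι → ℕ | ∀ i, n i ∈ Set.Iic k}.Finite := Set.Finite.pi' fun i => Set.finite_Iic k
  refine h.subset ?_
  intro n hn i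
  have h1 : n i ≤ ∑ j, n j := Finset.single_le_sum (fun _ _ => Nat.zero_le _) (Finset.mem_univ i)
  exact h1.trans hn

theorem beta_QP_index_two {G : Type} [Group G] {A₀ : Type} [AddCommGroup A₀] [Module.Finite ℤ A₀]
    (σ : A₀ →+ A₀) (c : A₀) (φ : G ≃ A₀ × Bool) (h1 : φ 1 = (0, false))
    (hmul : ∀ g h : G, φ (g * h) =
        ((φ g).1 + (if (φ g).2 then σ (φ h).1 else (φ h).1) +
          (if (φ g).2 && (φ h).2 then c else 0), xor (φ g).2 (φ h).2)) (S : Finset G) :
    QP (Module.finrank ℤ A₀ + 1) (Module.finrank ℤ A₀ - 1) (fun k => (beta S k : ℝ)) := by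
  classical
  obtain ⟨ι, κ, ι₀, iι, dι, iκ, iι₀, dι₀, x, ε, f, x₀, hε, hx0, hball⟩ :=
    ball_description σ c φ h1 hmul S
  let Y : ℕ → Set A₀ := fun k => {y | ∃ (a : κ) (n : ι → ℕ), ∑ i, n i + 1 ≤ k ∧
    y = f a + ∑ i, n i • x i ∧ 1 + ∑ i, (n i : ℤ) * ε i = 0}
  have hmono : ∀ k, Y k ⊆ Y (k + 1) := by
    rintro k y ⟨a, n, h1, h2, h3⟩
    exact ⟨a, n, by omega, h2, h3⟩
  have hadd : ∀ k i, ∀ y ∈ Y k, y + x₀ i ∈ Y (k + 1) := by
    rintro k i y ⟨a, n, h1, h2, h3⟩
    obtain ⟨i', hi1, hi2⟩ := hx0 i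
    refine ⟨a, n + Pi.single i' 1, ?_, ?_, ?_⟩
    · have : ∑ j, (n + Pi.single i' 1 : ι → ℕ) j = ∑ j, n j + 1 := by
        simp only [Pi.add_apply, Finset.sum_add_distrib]
        rw [Finset.sum_pi_single']
        simp
      omega
    · have : ∑ j, (n + Pi.single i' 1 : ι → ℕ) j • x j = ∑ j, n j • x j + x i' := by
        simp only [Pi.add_apply, add_smul, Finset.sum_add_distrib]
        congr 1
        rw [Finset.sum_eq_single i']
        · simp
        · intro b _ hb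
          simp [hb]
        · intro h; exact absurd (Finset.mem_univ _) h
      rw [this, hi1, h2]
      abel
    · have : ∑ j, (((n + Pi.single i' 1 : ι → ℕ) j : ℕ) : ℤ) * ε j = ∑ j, (n j : ℤ) * ε j + ε i' := by
        simp only [Pi.add_apply, Nat.cast_add, add_mul, Finset.sum_add_distrib]
        congr 1
        rw [Finset.sum_eq_single i']
        · simp
        · intro b _ hb
          simp [hb]
        · intro h; exact absurd (Finset.mem_univ _) h
      rw [this, hi2, add_zero]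
      exact h3
  have hQ1 := slices_QP x ε hε f
  have hQ2 := QP_shift' (diff_QP x₀ Y hmono hadd)
  have hQ3 : QP (Module.finrank ℤ A₀ + 1) (Module.finrank ℤ A₀ - 1) _ :=
    QP_add hQ1 (QP_mono le_rfl (Nat.zero_le _) hQ2)
  apply QP_unshift
  refine QP_congr hQ3 (Eventually.of_forall fun k => ?_)
  rw [← Nat.cast_add]
  congr 1
  set Sl : Set (A₀ × ℤ) := {y : A₀ × ℤ | (y.2 = 0 ∨ y.2 = 1) ∧ ∃ (a : κ) (n : ι → ℕ),
        ∑ i, n i ≤ k ∧ y.1 = f a + ∑ i, n i • x i ∧ y.2 = 1 + ∑ i, (n i : ℤ) * ε i} with hSl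
  set Df : Set A₀ := {y : A₀ | (∃ n : ι₀ → ℕ, ∑ i, n i ≤ k + 1 ∧ y = ∑ i, n i • x₀ i) ∧
        y ∉ Y (k + 1)} with hDf
  let j1 : A₀ × ℤ → A₀ × Bool := fun y => (y.1, decide (y.2 = 1))
  let j2 : A₀ → A₀ × Bool := fun y => (y, false)
  have hj1 : Set.InjOn j1 Sl := by
    rintro ⟨y, e⟩ ⟨he, _⟩ ⟨y', e'⟩ ⟨he', _⟩ h
    simp only [j1, Prod.mk.injEq, decide_eq_decide] at h
    simp only at he he'
    refine Prod.ext h.1 ?_
    show e = e'
    rcases he with rfl | rfl <;> rcases he' with rfl | rfl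
    · rfl
    · exact absurd (h.2.2 rfl) (by norm_num)
    · exact absurd (h.2.1 rfl) (by norm_num)
    · rfl
  have hj2 : Function.Injective j2 := by
    intro y y' h
    exact (Prod.mk.injEq _ _ _ _ ▸ h).1
  have hSlfin : Sl.Finite := by
    have hfin : ((Set.univ : Set κ) ×ˢ {n : ι → ℕ | ∑ i, n i ≤ k}).Finite :=
      Set.finite_univ.prod (finite_le k)
    refine (hfin.image (fun p : κ × (ι → ℕ) =>
      ((f p.1 + ∑ i, p.2 i • x i, 1 + ∑ i, (p.2 i : ℤ) * ε i) : A₀ × ℤ))).subset ?_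
    rintro ⟨y, e⟩ ⟨_, a, n, h1, h2, h3⟩
    refine ⟨(a, n), ⟨Set.mem_univ _, h1⟩, ?_⟩
    exact Prod.ext h2.symm h3.symm
  have hDffin : Df.Finite := by
    refine ((finite_le (ι := ι₀) (k + 1)).image (fun n => ∑ i, n i • x₀ i)).subset ?_
    rintro y ⟨⟨n, h1, h2⟩, _⟩
    exact ⟨n, h1, h2.symm⟩
  have himg : φ '' (ball S (k + 1)) = j1 '' Sl ∪ j2 '' Df := by
    ext p
    obtain ⟨g, rfl⟩ := φ.surjective p
    constructor
    · rintro ⟨g', hg', hgg⟩
      have : g' = g := φ.injective hgg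
      subst this
      rw [hball] at hg'
      rcases hg' with ⟨hs, h | ⟨a, n, h2, h3, h4⟩⟩ | ⟨hs, a, n, h2, h3, h4⟩
      · by_cases hy : (φ g').1 ∈ Y (k + 1)
        · obtain ⟨a, n, h2, h3, h4⟩ := hy
          left
          refine ⟨((φ g').1, 0), ⟨Or.inl rfl, a, n, by omega, h3, h4.symm⟩, ?_⟩
          exact Prod.ext rfl (by simp [j1, hs])
        · right
          refine ⟨(φ g').1, ⟨h, hy⟩, ?_⟩
          exact Prod.ext rfl hs.symm
      · left
        refine ⟨((φ g').1, 0), ⟨Or.inl rfl, a, n, h2, h3, h4.symm⟩, ?_⟩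
        exact Prod.ext rfl (by simp [j1, hs])
      · left
        refine ⟨((φ g').1, 1), ⟨Or.inr rfl, a, n, h2, h3, h4.symm⟩, ?_⟩
        exact Prod.ext rfl (by simp [j1, hs])
    · intro hp
      refine ⟨g, ?_, rfl⟩
      rw [hball]
      rcases hp with ⟨⟨y, e⟩, ⟨he, a, n, h2, h3, h4⟩, hy⟩ | ⟨y, ⟨h, _⟩, hy⟩
      · have hy1 : y = (φ g).1 := congrArg Prod.fst hy
        have hy2 : decide (e = 1) = (φ g).2 := congrArg Prod.snd hy
        simp only at he h3 h4
        rcases he with rfl | rfl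
        · left
          refine ⟨by rw [← hy2]; simp, Or.inr ⟨a, n, h2, ?_, h4.symm⟩⟩
          rw [← hy1]; exact h3
        · right
          refine ⟨by rw [← hy2]; simp, a, n, h2, ?_, h4.symm⟩
          rw [← hy1]; exact h3
      · have hy1 : y = (φ g).1 := congrArg Prod.fst hy
        have hy2 : false = (φ g).2 := congrArg Prod.snd hy
        left
        refine ⟨hy2.symm, Or.inl ?_⟩
        rw [← hy1]; exact h
  have hdisj : Disjoint (j1 '' Sl) (j2 '' Df) := by
    rw [Set.disjoint_left]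
    rintro _ ⟨⟨y, e⟩, ⟨he, a, n, h2, h3, h4⟩, rfl⟩ ⟨y', ⟨_, hy'⟩, h⟩
    have e1 : y' = y := congrArg Prod.fst h
    have e2 : false = decide (e = 1) := congrArg Prod.snd h
    simp only at he h3 h4
    rcases he with rfl | rfl
    · apply hy'
      refine ⟨a, n, by omega, ?_, h4.symm⟩
      rw [e1]; exact h3
    · simp at e2
  show (ball S (k + 1)).ncard = _
  rw [← Set.ncard_image_of_injective (ball S (k + 1)) φ.injective, himg,
    Set.ncard_union_eq hdisj (hSlfin.image _) (hDffin.image _), Set.ncard_image_of_injOn hj1,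
    Set.ncard_image_of_injective _ hj2]

end N11

end Pool.Agent.Helper602.Growth
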