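import Mathlib
import Pool.Agent.Helper602.Growth.QDefs
import Pool.Agent.Helper602.Growth.N1
import Pool.Agent.Helper602.Growth.N8

set_option autoImplicit false

namespace Pool.Agent.Helper602.Growth

open Filter Topology

open N1 N8

namespace N12




theorem bqa_list {G : Type} [CommGroup G] (T : Finset G) [DecidableEq G] (l : List G)
    (hl : ∀ s ∈ l, s ∈ T) : ∃ n : {s // s ∈ T} → ℕ, ∑ i, n i = l.length ∧
      Additive.ofMul l.prod = ∑ i, n i • (Additive.ofMul (i : G)) := by
  induction l with
  | nil => exact ⟨0, by simp, by simp⟩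
  | cons s l ih =>
    obtain ⟨n, h1, h2⟩ := ih (fun t ht => hl t (List.mem_cons_of_mem _ ht))
    have hs : s ∈ T := hl s (by simp)
    refine ⟨n + Pi.single ⟨s, hs⟩ 1, ?_, ?_⟩
    · simp only [Pi.add_apply, Finset.sum_add_distrib, h1, List.length_cons]
      congr 1
      rw [Finset.sum_pi_single']
      simp
    · simp only [Pi.add_apply, add_smul, Finset.sum_add_distrib, ← h2, List.prod_cons, ofMul_mul]
      rw [add_comm]
      congr 1
      rw [Finset.sum_eq_single (⟨s, hs⟩ : {s // s ∈ T})]
      · simp
      · intro b _ hb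
        rw [Pi.single_eq_of_ne hb, zero_smul]
      · intro h
        exact absurd (Finset.mem_univ _) h

theorem bqa_sum {G : Type} [CommGroup G] (T : Finset G) [DecidableEq G] (n : {s // s ∈ T} → ℕ)
    (t : Finset {s // s ∈ T}) : ∃ l : List G, l.length = ∑ i ∈ t, n i ∧ (∀ s ∈ l, s ∈ T) ∧
      Additive.ofMul l.prod = ∑ i ∈ t, n i • (Additive.ofMul (i : G)) := by
  induction t using Finset.induction_on with
  | empty => exact ⟨[], by simp, by simp, by simp⟩
  | insert a t ha ih =>
    obtain ⟨l, h1, h2, h3⟩ := ih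
    refine ⟨List.replicate (n a) (a : G) ++ l, ?_, ?_, ?_⟩
    · rw [List.length_append, List.length_replicate, h1, Finset.sum_insert ha]
    · intro s hs
      rw [List.mem_append] at hs
      rcases hs with hs | hs
      · rw [List.eq_of_mem_replicate hs]
        exact a.2
      · exact h2 s hs
    · rw [List.prod_append, List.prod_replicate, ofMul_mul, ofMul_pow, h3, Finset.sum_insert ha]

theorem bqa_comm {G : Type} [CommGroup G] (S : Finset G)
    (hS : Subgroup.closure (S : Set G) = ⊤) :
    ∃ (A₀ : Type) (_ : AddCommGroup A₀) (_ : Module.Finite ℤ A₀) (ψ : Multiplicative A₀ →* G),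
      Function.Injective ψ ∧
      QP (Module.finrank ℤ A₀ + 1) 0 (fun k => (beta S k : ℝ)) := by
  classical
  have hfg : Group.FG G := ⟨⟨S, hS⟩⟩
  have hfa : AddGroup.FG (Additive G) := inferInstance
  have hfin : Module.Finite ℤ (Additive G) := Module.Finite.iff_addGroup_fg.mpr hfa
  let ψ : Multiplicative (Additive G) →* G :=
    { toFun := fun x => Additive.toMul (Multiplicative.toAdd x)
      map_one' := rfl
      map_mul' := fun _ _ => rfl }
  refine ⟨Additive G, inferInstance, hfin, ψ, ?_, ?_⟩
  · intro a b h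
    exact h
  · let T : Finset G := S ∪ S.image (fun s => s⁻¹)
    have hT : ∀ s, s ∈ T ↔ (s ∈ S ∨ s⁻¹ ∈ S) := by
      intro s
      simp only [T, Finset.mem_union, Finset.mem_image]
      constructor
      · rintro (h | ⟨a, ha, rfl⟩)
        · exact Or.inl h
        · right; rwa [_root_.inv_inv]
      · rintro (h | h)
        · exact Or.inl h
        · exact Or.inr ⟨s⁻¹, h, _root_.inv_inv s⟩
    have hq := diff_QP (A := Additive G) (ι := {s // s ∈ T})
      (fun i => Additive.ofMul (i : G)) (fun _ => (∅ : Set (Additive G)))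
      (fun _ => le_rfl) (fun k i y hy => absurd hy (Set.notMem_empty y))
    refine QP_congr hq (Filter.Eventually.of_forall fun k => ?_)
    have hset : {y : Additive G | (∃ n : {s // s ∈ T} → ℕ, ∑ i, n i ≤ k ∧
        y = ∑ i, n i • Additive.ofMul (i : G)) ∧ y ∉ (∅ : Set (Additive G))} =
        Additive.ofMul '' (ball S k) := by
      ext y
      simp only [Set.mem_setOf_eq, Set.mem_empty_iff_false, not_false_eq_true, and_true,
        Set.mem_image]
      constructor
      · rintro ⟨n, hn, rfl⟩
        obtain ⟨l, h1, h2, h3⟩ := bqa_sum T n Finset.univ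
        refine ⟨l.prod, ⟨l, by omega, fun s hs => (hT s).mp (h2 s hs), rfl⟩, h3⟩
      · rintro ⟨g, ⟨l, h1, h2, rfl⟩, rfl⟩
        obtain ⟨n, h3, h4⟩ := bqa_list T l (fun s hs => (hT s).mpr (h2 s hs))
        exact ⟨n, by omega, h4⟩
    show ((beta S k : ℕ) : ℝ) = _
    congr 1
    rw [hset, Set.ncard_image_of_injective _ Additive.ofMul.injective]
    rfl

theorem beta_QP_abelian {G : Type} [Group G] (hab : ∀ u v : G, u * v = v * u) (S : Finset G)
    (hS : Subgroup.closure (S : Set G) = ⊤) :
    ∃ (A₀ : Type) (_ : AddCommGroup A₀) (_ : Module.Finite ℤ A₀) (ψ : Multiplicative A₀ →* G),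
      Function.Injective ψ ∧
      QP (Module.finrank ℤ A₀ + 1) 0 (fun k => (beta S k : ℝ)) := by
  exact @bqa_comm G { ‹Group G› with mul_comm := hab } S hS

end N12

end Pool.Agent.Helper602.Growth
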