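import Mathlib
import Pool.Agent.Helper602.Growth.QDefs

set_option autoImplicit false

namespace Pool.Agent.Helper602.Growth

open Filter Topology

namespace N13


theorem ball_finite {G : Type} [Group G] (S : Finset G) (k : ℕ) : (ball S k).Finite := by
  classical
  set T : Finset G := S ∪ S.image (fun x => x⁻¹) with hT
  have h1 : {l : List T | l.length ≤ k}.Finite := List.finite_length_le T k
  refine (h1.image (fun l => (l.map (fun x : T => (x : G))).prod)).subset ?_
  rintro g ⟨l, hl, hlS, rfl⟩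
  have hmem : ∀ s ∈ l, s ∈ T := by
    intro s hs
    rw [hT, Finset.mem_union, Finset.mem_image]
    rcases hlS s hs with h | h
    · exact Or.inl h
    · exact Or.inr ⟨s⁻¹, h, inv_inv s⟩
  refine ⟨l.attach.map (fun x => (⟨x.1, hmem x.1 x.2⟩ : T)), ?_, ?_⟩
  · simpa using hl
  · show ((l.attach.map (fun x => (⟨x.1, hmem x.1 x.2⟩ : T))).map (fun x : T => (x : G))).prod = l.prod
    rw [List.map_map]
    have : ((fun x : T => (x : G)) ∘ fun x : {x // x ∈ l} => (⟨x.1, hmem x.1 x.2⟩ : T)) =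
        fun x : {x // x ∈ l} => x.1 := rfl
    rw [this, List.attach_map_subtype_val]

theorem ball_mul {G : Type} [Group G] (S : Finset G) {a b : ℕ} {g h : G} (hg : g ∈ ball S a)
    (hh : h ∈ ball S b) : g * h ∈ ball S (a + b) := by
  obtain ⟨l, hl, hlS, rfl⟩ := hg
  obtain ⟨l', hl', hlS', rfl⟩ := hh
  refine ⟨l ++ l', ?_, ?_, ?_⟩
  · rw [List.length_append]; omega
  · intro s hs
    rcases List.mem_append.mp hs with h | h
    · exact hlS s h
    · exact hlS' s h
  · rw [List.prod_append]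

theorem ball_mono {G : Type} [Group G] (S : Finset G) {a b : ℕ} (h : a ≤ b) :
    ball S a ⊆ ball S b := by
  rintro g ⟨l, hl, hlS, rfl⟩
  exact ⟨l, hl.trans h, hlS, rfl⟩

theorem ball_one {G : Type} [Group G] (S : Finset G) (k : ℕ) : (1 : G) ∈ ball S k :=
  ⟨[], by simp, by simp, by simp⟩

theorem ball_pow {G : Type} [Group G] (S : Finset G) {m : ℕ} {g : G} (hg : g ∈ ball S m) (a : ℕ) :
    g ^ a ∈ ball S (a * m) := by
  induction a with
  | zero => rw [pow_zero]; exact ball_one S _
  | succ a ih =>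
    rw [pow_succ, Nat.add_mul, one_mul]
    exact ball_mul S ih hg

theorem ball_ex {G : Type} [Group G] (S : Finset G)
    (hS : Subgroup.closure (S : Set G) = ⊤) (g : G) : ∃ m, g ∈ ball S m := by
  have hg : g ∈ Subgroup.closure (S : Set G) := by rw [hS]; exact Subgroup.mem_top g
  induction hg using Subgroup.closure_induction with
  | mem x hx => exact ⟨1, [x], by simp, by simpa using Or.inl hx, by simp⟩
  | one => exact ⟨0, ball_one S 0⟩
  | mul x y _ _ hx hy =>
    obtain ⟨a, ha⟩ := hx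
    obtain ⟨b, hb⟩ := hy
    exact ⟨a + b, ball_mul S ha hb⟩
  | inv x _ hx =>
    obtain ⟨a, l, hl, hlS, rfl⟩ := hx
    refine ⟨a, (l.map (fun y => y⁻¹)).reverse, by simpa using hl, ?_, ?_⟩
    · intro s hs
      rw [List.mem_reverse, List.mem_map] at hs
      obtain ⟨y, hy, rfl⟩ := hs
      rw [inv_inv]
      exact (hlS y hy).symm
    · rw [List.prod_inv_reverse]

theorem poly_lower {G : Type} [Group G] (S : Finset G)
    (hS : Subgroup.closure (S : Set G) = ⊤) {A₀ : Type} [AddCommGroup A₀] [Module.Finite ℤ A₀]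
    (ψ : Multiplicative A₀ →* G) (hψ : Function.Injective ψ) :
    ∃ c : ℝ, 0 < c ∧ ∀ k : ℕ, c * (k : ℝ) ^ (Module.finrank ℤ A₀) ≤ (beta S k : ℝ) := by
  obtain ⟨d, hd⟩ : ∃ d, d = Module.finrank ℤ A₀ := ⟨_, rfl⟩
  rw [← hd]
  obtain ⟨w, hw⟩ := exists_linearIndependent_of_le_finrank (R := ℤ) (M := A₀)
    (n := d) hd.le
  have hm : ∃ m : ℕ, ∀ i : Fin d, ψ (Multiplicative.ofAdd (w i)) ∈ ball S m := by
    choose f hf using fun i : Fin d => ball_ex S hS (ψ (Multiplicative.ofAdd (w i)))
    refine ⟨∑ i, f i, fun i => ball_mono S ?_ (hf i)⟩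
    exact Finset.single_le_sum (f := f) (fun _ _ => Nat.zero_le _) (Finset.mem_univ i)
  obtain ⟨m, hm⟩ := hm
  have key : ∀ (a : Fin d → ℕ) (s : Finset (Fin d)),
      ψ (Multiplicative.ofAdd (∑ i ∈ s, (a i : ℤ) • w i)) ∈ ball S (∑ i ∈ s, a i * m) := by
    intro a s
    induction s using Finset.induction_on with
    | empty => simpa using ball_one S 0
    | insert i s his ih =>
      rw [Finset.sum_insert his, Finset.sum_insert his, ofAdd_add, map_mul]
      refine ball_mul S ?_ ih
      have h1 : ψ (Multiplicative.ofAdd ((a i : ℤ) • w i)) =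
          (ψ (Multiplicative.ofAdd (w i))) ^ (a i) := by
        rw [natCast_zsmul, ofAdd_nsmul, map_pow]
      rw [h1]
      exact ball_pow S (hm i) (a i)
  refine ⟨(1 / ((d * m + 1 : ℕ) : ℝ)) ^ d, by positivity, fun k => ?_⟩
  set N := k / (d * m + 1) with hN
  let φ : (Fin d → Fin (N + 1)) → G := fun a =>
    ψ (Multiplicative.ofAdd (∑ i, (((a i : ℕ)) : ℤ) • w i))
  have hφ : Function.Injective φ := by
    intro a b hab
    have h1 := Multiplicative.ofAdd.injective (hψ hab)
    have h2 : ∑ i, ((((a i : ℕ)) : ℤ) - (((b i : ℕ)) : ℤ)) • w i = 0 := by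
      simp only [sub_smul, Finset.sum_sub_distrib]
      rw [sub_eq_zero]
      exact h1
    have h3 := Fintype.linearIndependent_iff.mp hw _ h2
    funext i
    have h4 := h3 i
    apply Fin.ext
    omega
  have hsub : Set.range φ ⊆ ball S k := by
    rintro _ ⟨a, rfl⟩
    refine ball_mono S ?_ (key (fun i => (a i : ℕ)) Finset.univ)
    calc ∑ i, (a i : ℕ) * m ≤ ∑ _i : Fin d, N * m := by
          refine Finset.sum_le_sum (fun i _ => ?_)
          have := (a i).2
          exact Nat.mul_le_mul_right _ (by omega)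
      _ = d * (N * m) := by simp
      _ ≤ N * (d * m + 1) := by nlinarith [Nat.zero_le N]
      _ ≤ k := Nat.div_mul_le_self _ _
  have hcard : (N + 1) ^ d ≤ beta S k := by
    have h1 := Set.ncard_le_ncard hsub (ball_finite S k)
    have h2 : (Set.range φ).ncard = (N + 1) ^ d := by
      rw [← Set.image_univ, Set.ncard_image_of_injective _ hφ, Set.ncard_univ,
        Nat.card_eq_fintype_card]
      simp
    rw [h2] at h1
    exact h1
  have hk : (k : ℝ) / ((d * m + 1 : ℕ) : ℝ) ≤ (N : ℝ) + 1 := by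
    rw [div_le_iff₀ (by positivity)]
    have h1 : k < (N + 1) * (d * m + 1) := by
      have h5 := Nat.div_add_mod k (d * m + 1)
      have h6 := Nat.mod_lt k (show 0 < d * m + 1 by omega)
      rw [← hN] at h5
      nlinarith
    have h2 : ((k : ℕ) : ℝ) ≤ (((N + 1) * (d * m + 1) : ℕ) : ℝ) := by exact_mod_cast h1.le
    push_cast at h2 ⊢
    linarith
  calc (1 / ((d * m + 1 : ℕ) : ℝ)) ^ d * (k : ℝ) ^ d = ((k : ℝ) / ((d * m + 1 : ℕ) : ℝ)) ^ d := by
        rw [← mul_pow]; congr 1; ring
    _ ≤ ((N : ℝ) + 1) ^ d := pow_le_pow_left₀ (by positivity) hk d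
    _ ≤ (beta S k : ℝ) := by exact_mod_cast hcard

end N13

end Pool.Agent.Helper602.Growth
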