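import Mathlib
import Pool.Agent.Helper602.Growth.QDefs

set_option autoImplicit false

namespace Pool.Agent.Helper602.Growth

open Filter Topology

namespace N14


theorem j35852_lim (R : Polynomial ℝ) (m : ℕ) (h : R.degree < ((m + 1 : ℕ) : WithBot ℕ)) :
    Tendsto (fun k : ℕ => R.eval (k : ℝ) / (k : ℝ) ^ m) atTop (𝓝 (R.coeff m)) := by
  have hn : R.natDegree < m + 1 := by
    by_cases hR : R = 0
    · simp [hR]
    · exact (Polynomial.natDegree_lt_iff_degree_lt hR).mpr h
  have e1 : ∀ k : ℕ, R.eval (k : ℝ) / (k : ℝ) ^ m =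
      ∑ i ∈ Finset.range (m + 1), R.coeff i * ((k : ℝ) ^ i / (k : ℝ) ^ m) := by
    intro k
    rw [Polynomial.eval_eq_sum_range' hn, Finset.sum_div]
    exact Finset.sum_congr rfl fun i _ => mul_div_assoc _ _ _
  have e2 : R.coeff m = ∑ i ∈ Finset.range (m + 1), R.coeff i * (if i = m then 1 else 0) := by
    simp
  simp only [e1]
  rw [e2]
  refine tendsto_finsetSum _ fun i hi => ?_
  rw [Finset.mem_range] at hi
  refine Tendsto.const_mul _ ?_
  by_cases him : i = m
  · rw [if_pos him, him]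
    refine tendsto_const_nhds.congr' ?_
    filter_upwards [eventually_gt_atTop 0] with k hk
    have hk' : (k : ℝ) ≠ 0 := by
      have : (0 : ℝ) < k := by exact_mod_cast hk
      exact this.ne'
    rw [div_self (pow_ne_zero _ hk')]
  · rw [if_neg him]
    exact (tendsto_pow_div_pow_atTop_zero (by omega : i < m)).comp tendsto_natCast_atTop_atTop

theorem j35852_alt (f : ℕ → ℝ) (h : Tendsto f atTop (𝓝 0)) :
    Tendsto (fun k : ℕ => (-1 : ℝ) ^ k * f k) atTop (𝓝 0) := by
  rw [tendsto_zero_iff_norm_tendsto_zero] at h ⊢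
  refine h.congr fun k => ?_
  rw [norm_mul, norm_pow, norm_neg, norm_one, one_pow, one_mul]

theorem secondTerm_of_QP {G : Type} [Group G] (S : Finset G) (d : ℕ)
    (h : QP (d + 1) (d - 1) (fun k => (beta S k : ℝ))) (c : ℝ) (hc : 0 < c)
    (hlow : ∀ k : ℕ, c * (k : ℝ) ^ d ≤ (beta S k : ℝ)) :
    ∃ c₁ L : ℝ, 0 < c₁ ∧ SecondTerm S d c₁ L := by
  obtain ⟨P, Q, hP, hQ, hPQ⟩ := h
  have hPQ' : ∀ᶠ k : ℕ in atTop, (beta S k : ℝ) = P.eval (k : ℝ) + (-1 : ℝ) ^ k * Q.eval (k : ℝ) :=
    hPQ
  have hQd : Q.degree < ((d + 1 : ℕ) : WithBot ℕ) :=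
    lt_of_lt_of_le hQ (by exact_mod_cast (by omega : d - 1 ≤ d + 1))
  have hQd0 : Q.coeff d = 0 := by
    apply Polynomial.coeff_eq_zero_of_degree_lt
    exact lt_of_lt_of_le hQ (by exact_mod_cast (by omega : d - 1 ≤ d))
  have h1 : Tendsto (fun k : ℕ => (beta S k : ℝ) / (k : ℝ) ^ d) atTop (𝓝 (P.coeff d)) := by
    have hA := j35852_lim P d hP
    have hB := j35852_alt _ (by
      have := j35852_lim Q d hQd
      rwa [hQd0] at this)
    have hC := hA.add hB
    rw [add_zero] at hC
    refine hC.congr' ?_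
    filter_upwards [hPQ'] with k hk
    rw [hk, add_div, mul_div_assoc]
  have hc1 : 0 < P.coeff d := by
    refine lt_of_lt_of_le hc (ge_of_tendsto h1 ?_)
    filter_upwards [eventually_gt_atTop 0] with k hk
    have hk' : (0 : ℝ) < (k : ℝ) ^ d := by
      have : (0 : ℝ) < k := by exact_mod_cast hk
      positivity
    rw [le_div_iff₀ hk']
    exact hlow k
  rcases Nat.eq_zero_or_pos d with hd | hd
  · subst hd
    refine ⟨P.coeff 0, 0, hc1, h1, ?_⟩
    refine tendsto_const_nhds.congr' ?_
    filter_upwards [hPQ'] with k hk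
    have hP0 : P = Polynomial.C (P.coeff 0) := by
      apply Polynomial.eq_C_of_degree_le_zero
      have h2 : P.degree < ((1 : ℕ) : WithBot ℕ) := hP
      by_cases hPz : P = 0
      · simp [hPz]
      · rw [Polynomial.degree_eq_natDegree hPz] at h2 ⊢
        have h3 : P.natDegree < 1 := by exact_mod_cast h2
        have h4 : P.natDegree = 0 := by omega
        rw [h4]
        exact le_refl _
    have hQ0 : Q = 0 := by
      rw [← Polynomial.degree_eq_bot]
      have h2 : Q.degree < ((0 : ℕ) : WithBot ℕ) := hQ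
      exact Nat.WithBot.lt_zero_iff.mp h2
    have e : (beta S k : ℝ) = P.coeff 0 := by
      rw [hk, hQ0, Polynomial.eval_zero, mul_zero, add_zero]
      conv_lhs => rw [hP0]
      rw [Polynomial.eval_C]
    rw [e]
    simp
  · obtain ⟨n, rfl⟩ : ∃ n, d = n + 1 := ⟨d - 1, by omega⟩
    refine ⟨P.coeff (n + 1), P.coeff n, hc1, h1, ?_⟩
    have hz : (((n + 1 : ℕ) : ℤ) - 1) = (n : ℤ) := by push_cast; ring
    have hQn : Q.degree < ((n : ℕ) : WithBot ℕ) := hQ
    have hP' : (P - Polynomial.C (P.coeff (n + 1)) * Polynomial.X ^ (n + 1)).degree <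
        ((n + 1 : ℕ) : WithBot ℕ) := by
      rw [Polynomial.degree_lt_iff_coeff_zero]
      intro m hm
      rw [Polynomial.coeff_sub, Polynomial.coeff_C_mul, Polynomial.coeff_X_pow]
      rcases Nat.eq_or_lt_of_le hm with hm' | hm'
      · rw [← hm']
        simp
      · rw [if_neg (by omega), Polynomial.coeff_eq_zero_of_degree_lt
          (lt_of_lt_of_le hP (by exact_mod_cast (by omega : n + 1 + 1 ≤ m)))]
        simp
    have hA := j35852_lim _ n hP'
    have hcoef : (P - Polynomial.C (P.coeff (n + 1)) * Polynomial.X ^ (n + 1)).coeff n =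
        P.coeff n := by
      rw [Polynomial.coeff_sub, Polynomial.coeff_C_mul, Polynomial.coeff_X_pow,
        if_neg (by omega)]
      simp
    rw [hcoef] at hA
    have hB := j35852_alt _ (by
      have h5 := j35852_lim Q n (lt_of_lt_of_le hQn (by exact_mod_cast (Nat.le_succ n)))
      rwa [Polynomial.coeff_eq_zero_of_degree_lt hQn] at h5)
    have hC := hA.add hB
    rw [add_zero] at hC
    refine hC.congr' ?_
    filter_upwards [hPQ'] with k hk
    rw [hz, zpow_natCast, hk, Polynomial.eval_sub, Polynomial.eval_mul, Polynomial.eval_C,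
      Polynomial.eval_pow, Polynomial.eval_X]
    ring

end N14

end Pool.Agent.Helper602.Growth
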