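import Mathlib
import Pool.Agent.Helper602.Growth.QDefs

set_option autoImplicit false

namespace Pool.Agent.Helper602.Growth

open Filter Topology

namespace N9


theorem index_two_structure (G : Type) [Group G] (A : Subgroup G)
    (hA : ∀ u ∈ A, ∀ v ∈ A, u * v = v * u) (hidx : A.index = 2) (hfg : Group.FG G) :
    ∃ (A₀ : Type) (_ : AddCommGroup A₀) (_ : Module.Finite ℤ A₀) (σ : A₀ →+ A₀) (c : A₀)
      (φ : G ≃ A₀ × Bool) (ψ : Multiplicative A₀ →* G), Function.Injective ψ ∧
      φ 1 = (0, false) ∧ (∀ a, σ (σ a) = a) ∧ σ c = c ∧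
      ∀ g h : G, φ (g * h) =
        ((φ g).1 + (if (φ g).2 then σ (φ h).1 else (φ h).1) +
          (if (φ g).2 && (φ h).2 then c else 0), xor (φ g).2 (φ h).2) := by
  classical
  have hmul : ∀ {a b : G}, a * b ∈ A ↔ (a ∈ A ↔ b ∈ A) := fun {a b} =>
    Subgroup.mul_mem_iff_of_index_two hidx
  haveI hnorm : A.Normal := Subgroup.normal_of_index_eq_two hidx
  haveI hfin : A.FiniteIndex := ⟨by rw [hidx]; norm_num⟩
  haveI := hfg
  obtain ⟨g0, hg0⟩ : ∃ g0, g0 ∉ A := by
    by_contra hcon
    push Not at hcon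
    have : A = ⊤ := (Subgroup.eq_top_iff' A).mpr hcon
    rw [this, Subgroup.index_top] at hidx
    norm_num at hidx
  have hg0i : g0⁻¹ ∉ A := fun h => hg0 (by simpa using A.inv_mem h)
  have hcc : g0 * g0 ∈ A := hmul.mpr Iff.rfl
  have hout : ∀ {g : G}, g ∉ A → g * g0⁻¹ ∈ A := fun {g} hg =>
    hmul.mpr ⟨fun h => absurd h hg, fun h => absurd h hg0i⟩
  letI cg : CommGroup A := { (inferInstance : Group A) with
    mul_comm := fun a b => Subtype.ext (hA a a.2 b b.2) }
  haveI hfgA : Group.FG A := Subgroup.fg_of_index_ne_zero A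
  have hfinM : Module.Finite ℤ (Additive A) := by
    rw [Module.Finite.iff_addGroup_fg]
    exact GroupFG.iff_add_fg.mp hfgA
  let σ : Additive A →+ Additive A := MonoidHom.toAdditive (MulAut.conjNormal g0).toMonoidHom
  have hσ : ∀ a : Additive A, (((σ a).toMul : A) : G) = g0 * ((a.toMul : A) : G) * g0⁻¹ := fun a =>
    MulAut.conjNormal_apply g0 a.toMul
  let c : Additive A := Additive.ofMul ⟨g0 * g0, hcc⟩
  have hext : ∀ a b : Additive A, ((a.toMul : A) : G) = ((b.toMul : A) : G) → a = b := fun a b h =>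
    Additive.toMul.injective (Subtype.ext h)
  have hadd : ∀ a b : Additive A, (((a + b).toMul : A) : G)
      = ((a.toMul : A) : G) * ((b.toMul : A) : G) := fun a b => rfl
  let φf : G → Additive A × Bool := fun g =>
    if h : g ∈ A then (Additive.ofMul ⟨g, h⟩, false) else (Additive.ofMul ⟨g * g0⁻¹, hout h⟩, true)
  have hin : ∀ g (h : g ∈ A), φf g = (Additive.ofMul ⟨g, h⟩, false) := fun g h => dif_pos h
  have hnot : ∀ g (h : g ∉ A), φf g = (Additive.ofMul ⟨g * g0⁻¹, hout h⟩, true) :=
    fun g h => dif_neg h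
  let φi : Additive A × Bool → G := fun x =>
    if x.2 then ((x.1.toMul : A) : G) * g0 else ((x.1.toMul : A) : G)
  have hnotmem : ∀ a : A, (a : G) * g0 ∉ A := fun a h => hg0 ((hmul.mp h).mp a.2)
  let φ : G ≃ Additive A × Bool :=
    { toFun := φf
      invFun := φi
      left_inv := by
        intro g
        by_cases h : g ∈ A
        · rw [hin g h]
          simp [φi]
        · rw [hnot g h]
          simp [φi]
      right_inv := by
        rintro ⟨a, b⟩
        cases b with
        | false =>
          have h : φi (a, false) = ((a.toMul : A) : G) := rfl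
          rw [h, hin _ (a.toMul : A).2]
          rfl
        | true =>
          have h : φi (a, true) = ((a.toMul : A) : G) * g0 := rfl
          rw [h, hnot _ (hnotmem a.toMul)]
          refine Prod.ext (hext _ _ ?_) rfl
          show ((a.toMul : A) : G) * g0 * g0⁻¹ = _
          group }
  have hφ : ∀ g, φ g = φf g := fun g => rfl
  refine ⟨Additive A, inferInstance, hfinM, σ, c, φ,
    { toFun := fun a => (((Multiplicative.toAdd a).toMul : A) : G)
      map_one' := rfl
      map_mul' := fun a b => rfl }, ?_, ?_, ?_, ?_, ?_⟩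
  · intro a b h
    exact Multiplicative.toAdd.injective (hext _ _ h)
  · rw [hφ, hin 1 A.one_mem]
    rfl
  · intro a
    apply hext
    rw [hσ, hσ]
    have := hA _ hcc _ (a.toMul : A).2
    calc g0 * (g0 * ((a.toMul : A) : G) * g0⁻¹) * g0⁻¹
        = (g0 * g0 * ((a.toMul : A) : G)) * g0⁻¹ * g0⁻¹ := by group
      _ = (((a.toMul : A) : G) * (g0 * g0)) * g0⁻¹ * g0⁻¹ := by rw [this]
      _ = ((a.toMul : A) : G) := by group
  · apply hext
    rw [hσ]
    show g0 * (g0 * g0) * g0⁻¹ = g0 * g0
    group
  · intro g h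
    rw [hφ, hφ, hφ]
    by_cases hg : g ∈ A
    · by_cases hh : h ∈ A
      · rw [hin g hg, hin h hh, hin (g * h) (A.mul_mem hg hh)]
        refine Prod.ext (hext _ _ ?_) rfl
        simp only [Bool.false_and, Bool.false_eq_true, if_false, add_zero]
        rfl
      · have hgh : g * h ∉ A := fun hc => hh ((hmul.mp hc).mp hg)
        rw [hin g hg, hnot h hh, hnot (g * h) hgh]
        refine Prod.ext (hext _ _ ?_) rfl
        simp only [Bool.false_and, Bool.false_eq_true, if_false, add_zero]
        rw [hadd]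
        show g * h * g0⁻¹ = g * (h * g0⁻¹)
        group
    · by_cases hh : h ∈ A
      · have hgh : g * h ∉ A := fun hc => hg ((hmul.mp hc).mpr hh)
        rw [hnot g hg, hin h hh, hnot (g * h) hgh]
        refine Prod.ext (hext _ _ ?_) rfl
        simp only [Bool.and_false, Bool.false_eq_true, if_false, if_true, add_zero]
        rw [hadd, hσ]
        show g * h * g0⁻¹ = g * g0⁻¹ * (g0 * h * g0⁻¹)
        group
      · have hgh : g * h ∈ A := hmul.mpr ⟨fun h1 => absurd h1 hg, fun h1 => absurd h1 hh⟩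
        rw [hnot g hg, hnot h hh, hin (g * h) hgh]
        refine Prod.ext (hext _ _ ?_) rfl
        simp only [Bool.and_true, if_true]
        rw [hadd, hadd, hσ]
        show g * h = g * g0⁻¹ * (g0 * (h * g0⁻¹) * g0⁻¹) * (g0 * g0)
        group

end N9

end Pool.Agent.Helper602.Growth
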