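import Mathlib
import Pool.Agent.Helper602.Growth.Defs
import Pool.Agent.Helper602.Growth.JD2
import Pool.Agent.Helper602.Growth.JF
import Pool.Agent.Helper602.Growth.JH
import Pool.Agent.Helper602.Growth.JI
import Pool.Agent.Helper602.Growth.High

set_option autoImplicit false

namespace Pool.Agent.Helper602.Growth

open Filter Topology P3

/-- the translations form an abelian subgroup of index at most 3 of `P3` -/
theorem p3_index : ∃ H : Subgroup P3, (H.index ≠ 0 ∧ H.index ≤ 3) ∧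
    ∀ u ∈ H, ∀ v ∈ H, u * v = v * u := by
  have hf : Finite (Multiplicative (ZMod 3)) := inferInstanceAs (Finite (ZMod 3))
  refine ⟨JF.P3.rot.ker, ⟨(Subgroup.finiteIndex_ker JF.P3.rot).index_ne_zero, ?_⟩,
    fun u hu v hv => ?_⟩
  · rw [Subgroup.index_ker]
    have h1 : Nat.card JF.P3.rot.range ≤ Nat.card (Multiplicative (ZMod 3)) :=
      Nat.card_le_card_of_injective _ Subtype.val_injective
    have h2 : Nat.card (Multiplicative (ZMod 3)) = 3 := by
      have : Nat.card (Multiplicative (ZMod 3)) = Nat.card (ZMod 3) := rfl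
      rw [this, Nat.card_zmod]
    omega
  · obtain ⟨a, b, r⟩ := u
    obtain ⟨a', b', r'⟩ := v
    have hr : r = 0 := hu
    have hr' : r' = 0 := hv
    subst hr
    subst hr'
    rw [JF.P3.tr_mul, JF.P3.tr_mul, add_comm a, add_comm b]

theorem product_abelian_index {G : Type} [Group G] (n : ℕ)
    (h : ∃ H : Subgroup G, (H.index ≠ 0 ∧ H.index ≤ n) ∧ ∀ u ∈ H, ∀ v ∈ H, u * v = v * u) :
    ∃ H : Subgroup (G × Multiplicative ℤ), (H.index ≠ 0 ∧ H.index ≤ n) ∧
      ∀ u ∈ H, ∀ v ∈ H, u * v = v * u := by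
  obtain ⟨H, hH, hc⟩ := h
  refine ⟨H.prod ⊤, ?_, ?_⟩
  · rw [Subgroup.index_prod]
    simpa using hH
  · rintro ⟨a, n⟩ ha ⟨b, m⟩ hb
    rw [Prod.mk_mul_mk, Prod.mk_mul_mk, hc a ha.1 b hb.1, mul_comm n m]

theorem iterate_index {G : Type} [Group G] (S : Finset G) (h1 : (1 : G) ∈ S)
    (hS : Subgroup.closure (S : Set G) = ⊤) (n : ℕ)
    (h : ∃ H : Subgroup G, (H.index ≠ 0 ∧ H.index ≤ n) ∧ ∀ u ∈ H, ∀ v ∈ H, u * v = v * u)
    (m : ℕ) :
    ∃ (Γ : Type) (_ : Group Γ) (T : Finset Γ), (1 : Γ) ∈ T ∧ Subgroup.closure (T : Set Γ) = ⊤ ∧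
      (∃ H : Subgroup Γ, (H.index ≠ 0 ∧ H.index ≤ n) ∧ ∀ u ∈ H, ∀ v ∈ H, u * v = v * u) ∧
      (∀ k, beta T k = beta S k * (2 * k + 1) ^ m) := by
  induction m with
  | zero => exact ⟨G, inferInstance, S, h1, hS, h, by simp⟩
  | succ m ih =>
    obtain ⟨Γ, _, T, a1, a3, a5, a6⟩ := ih
    obtain ⟨b1, b2, b3⟩ := JH.product_step T a1 a3 _ rfl
    refine ⟨Γ × Multiplicative ℤ, inferInstance, _, b1, b2, product_abelian_index n a5, ?_⟩
    intro k
    rw [b3, a6, pow_succ, mul_assoc]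

/-- in every degree `m + 2` there is a group with an abelian subgroup of index at most 3 and a
generating set without second order term -/
theorem index_three (m : ℕ) : ∃ (Γ : Type) (_ : Group Γ) (T : Finset Γ),
    Subgroup.closure (T : Set Γ) = ⊤ ∧
    (∃ H : Subgroup Γ, (H.index ≠ 0 ∧ H.index ≤ 3) ∧ ∀ u ∈ H, ∀ v ∈ H, u * v = v * u) ∧
    HasDegree T (m + 2) ∧ ¬ ∃ c L : ℝ, SecondTerm T (m + 2) c L := by
  classical
  obtain ⟨Γ, hΓ, T, -, hT, hab, hb⟩ := iterate_index (insert 1 S₁)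
    (Finset.mem_insert_self _ _)
    (by
      rw [eq_top_iff, ← JF.P3.closure_S₁]
      apply Subgroup.closure_mono
      intro z hz
      simp only [Finset.coe_insert, Set.mem_insert_iff]
      exact Or.inr hz) 3 p3_index m
  obtain ⟨c, hc, hc1, hc2⟩ := JI.asymp_one (fun k => beta T k) m
    (by
      intro n
      show ((beta T (2 * n + 1) : ℕ) : ℤ) = _
      rw [hb, JH.beta_insert_one, beta_S₁_odd]
      push_cast
      ring)
    (by
      intro n hn
      show ((beta T (2 * n) : ℕ) : ℤ) = _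
      rw [hb, JH.beta_insert_one]
      push_cast
      rw [beta_S₁_even n hn])
  refine ⟨Γ, hΓ, T, hT, hab, JD2.hasDegree_of_tendsto T (m + 2) c hc hc1, ?_⟩
  rintro ⟨e, L, h1, h2⟩
  have he : e = c := tendsto_nhds_unique h1 hc1
  subst he
  refine hc2 ⟨L, ?_⟩
  refine h2.congr ?_
  intro k
  rw [zpow_conv]

end Pool.Agent.Helper602.Growth
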