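import Mathlib
import Pool.Agent.Helper602.Growth.Defs
import Pool.Agent.Helper602.Growth.QDefs
import Pool.Agent.Helper602.Growth.JD2
import Pool.Agent.Helper602.Growth.N1
import Pool.Agent.Helper602.Growth.N9
import Pool.Agent.Helper602.Growth.N11
import Pool.Agent.Helper602.Growth.N12
import Pool.Agent.Helper602.Growth.N13
import Pool.Agent.Helper602.Growth.N14

set_option autoImplicit false

namespace Pool.Agent.Helper602.Growth

open Filter Topology

/-- a group with an abelian subgroup of index at most 2 has a second order term -/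
theorem index_two (G : Type) [Group G] (S : Finset G) (hS : Subgroup.closure (S : Set G) = ⊤)
    (A : Subgroup G) (hA0 : A.index ≠ 0) (hA2 : A.index ≤ 2)
    (hA : ∀ u ∈ A, ∀ v ∈ A, u * v = v * u) :
    ∃ (d : ℕ) (c L : ℝ), 0 < c ∧ SecondTerm S d c L := by
  have hfg : Group.FG G := Group.fg_iff.mpr ⟨S, hS, S.finite_toSet⟩
  obtain h1 | h2 : A.index = 1 ∨ A.index = 2 := by omega
  · have htop : A = ⊤ := Subgroup.index_eq_one.mp h1
    have hab : ∀ u v : G, u * v = v * u := fun u v =>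
      hA u (by rw [htop]; trivial) v (by rw [htop]; trivial)
    obtain ⟨A₀, iA, iM, ψ, hψ, hQ⟩ := N12.beta_QP_abelian hab S hS
    obtain ⟨c, hc, hlow⟩ := N13.poly_lower S hS ψ hψ
    obtain ⟨c₁, L, hc₁, hL⟩ := N14.secondTerm_of_QP S _ (N1.QP_mono le_rfl (Nat.zero_le _) hQ)
      c hc hlow
    exact ⟨_, c₁, L, hc₁, hL⟩
  · obtain ⟨A₀, iA, iM, σ, c₀, φ, ψ, hψ, e1, e2, e3, e4⟩ := N9.index_two_structure G A hA h2 hfg
    have hQ := N11.beta_QP_index_two σ c₀ φ e1 e4 S
    obtain ⟨c, hc, hlow⟩ := N13.poly_lower S hS ψ hψ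
    obtain ⟨c₁, L, hc₁, hL⟩ := N14.secondTerm_of_QP S _ hQ c hc hlow
    exact ⟨_, c₁, L, hc₁, hL⟩

theorem index_two_all (G : Type) [Group G] (S : Finset G)
    (hS : Subgroup.closure (S : Set G) = ⊤)
    (h : ∃ A : Subgroup G, (A.index ≠ 0 ∧ A.index ≤ 2) ∧ ∀ u ∈ A, ∀ v ∈ A, u * v = v * u)
    (n : ℕ) (hn : HasDegree S n) : ∃ c L : ℝ, SecondTerm S n c L := by
  obtain ⟨A, ⟨hA0, hA2⟩, hA⟩ := h
  obtain ⟨d, c, L, hc, hL⟩ := index_two G S hS A hA0 hA2 hA
  have hd : HasDegree S d := JD2.hasDegree_of_tendsto S d c hc hL.1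
  have hnd : n = d := by
    unfold HasDegree at hn hd
    rw [hn] at hd
    exact_mod_cast hd
  subst hnd
  exact ⟨c, L, hL⟩

end Pool.Agent.Helper602.Growth
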